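import Mathlib

/-!
# Finitely many parabolas in a finite dimensional space
-/

set_option autoImplicit false

namespace Pool.Agent.N770

open Module

variable {K L : Type*} [Field K] [Field L] [Algebra K L]

/-- the determinant of a matrix depending linearly on `z` is a polynomial in the coordinates of
`z` -/
theorem exists_det_poly {V : Type*} [AddCommGroup V] [Module K V] {n m : ℕ}
    (b : Basis (Fin n) K V) (N : V →ₗ[K] Matrix (Fin m) (Fin m) K) :
    ∃ g : MvPolynomial (Fin n) K, ∀ z, MvPolynomial.eval (fun i => b.repr z i) g = (N z).det := by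
  refine ⟨(∑ i, (MvPolynomial.X i : MvPolynomial (Fin n) K) •
    (N (b i)).map (MvPolynomial.C : K →+* MvPolynomial (Fin n) K)).det, ?_⟩
  intro z
  rw [RingHom.map_det]
  congr 1
  conv_rhs => rw [← b.sum_repr z, map_sum]
  ext i j
  rw [RingHom.mapMatrix_apply, Matrix.map_apply, Matrix.sum_apply, Matrix.sum_apply, map_sum]
  refine Finset.sum_congr rfl fun k _ => ?_
  rw [map_smul, Matrix.smul_apply, Matrix.smul_apply, Matrix.map_apply, smul_eq_mul, smul_eq_mul,
    map_mul, MvPolynomial.eval_X, MvPolynomial.eval_C]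

section abstractSpace

variable {V : Type*} [AddCommGroup V] [Module K V] [FiniteDimensional K V]

/-- **Isolation.** If `y` is not constant, `y ^ 2 ∈ V` and all `x ∈ V` with `y x ∈ V` are in
`⟨1, y⟩`, then a polynomial on `V` vanishes at all `z ∈ V` outside `⟨1, y⟩` with `z ^ 2 ∈ V`, but
not at `y`. -/
theorem exists_isolating (h2 : (2 : K) ≠ 0) (ι : V →ₗ[K] L) (o : V) (ho : ι o = 1) {n : ℕ}
    (b : Basis (Fin n) K V) (y : V) (hyy : ι y * ι y ∈ LinearMap.range ι)
    (hyx : ∀ x : V, ι y * ι x ∈ LinearMap.range ι → x ∈ Submodule.span K {o, y}) :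
    ∃ g : MvPolynomial (Fin n) K, MvPolynomial.eval (fun i => b.repr y i) g ≠ 0 ∧
      ∀ z : V, ι z * ι z ∈ LinearMap.range ι → z ∉ Submodule.span K {o, y} →
        MvPolynomial.eval (fun i => b.repr z i) g = 0 := by
  classical
  set S : Submodule K V := Submodule.span K {o, y} with hS
  obtain ⟨C, hC⟩ := Submodule.exists_isCompl S
  let π : V →ₗ[K] C := C.projectionOnto S hC.symm
  -- a linear map with kernel `V`
  obtain ⟨V', hV'⟩ := Submodule.exists_isCompl (LinearMap.range ι)
  let ρ : L →ₗ[K] V' := V'.projectionOnto (LinearMap.range ι) hV'.symm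
  have hρ : ∀ x, ρ x = 0 ↔ x ∈ LinearMap.range ι :=
    fun x => Submodule.projectionOnto_apply_eq_zero_iff hV'.symm
  -- multiplication by `y`
  let B : C →ₗ[K] V' := ρ ∘ₗ LinearMap.mulLeft K (ι y) ∘ₗ ι ∘ₗ C.subtype
  have hB : LinearMap.ker B = ⊥ := by
    refine LinearMap.ker_eq_bot'.mpr ?_
    intro x hx
    have h3 : ι y * ι (x : V) ∈ LinearMap.range ι := (hρ _).mp hx
    have h4 : (x : V) ∈ S := hyx _ h3
    have h5 : (x : V) ∈ S ⊓ C := ⟨h4, x.2⟩
    rw [hC.inf_eq_bot, Submodule.mem_bot] at h5
    exact Subtype.ext h5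
  obtain ⟨G, hG⟩ := @LinearMap.exists_leftInverse_of_injective K C V' _ _ _ _ _ B hB
  let M : V →ₗ[K] C →ₗ[K] C := LinearMap.mk₂ K
    (fun z x => G (ρ (ι ((2 : K) • z - ((π z : C) : V)) * ι (x : V))))
    (by
      intro z z' x
      rw [← map_add, ← map_add]
      congr 2
      simp only [map_add, smul_add, Submodule.coe_add, map_sub]
      ring)
    (by
      intro c z x
      rw [← map_smul, ← map_smul]
      congr 2
      simp only [map_smul, Submodule.coe_smul]
      rw [smul_comm, ← smul_sub, map_smul, smul_mul_assoc])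
    (by
      intro z x x'
      rw [← map_add, ← map_add]
      congr 2
      simp only [Submodule.coe_add, map_add]
      ring)
    (by
      intro c z x
      rw [← map_smul, ← map_smul]
      congr 2
      simp only [Submodule.coe_smul]
      rw [map_smul, mul_smul_comm])
  have hM : ∀ z x, M z x = G (ρ (ι ((2 : K) • z - ((π z : C) : V)) * ι (x : V))) :=
    fun z x => rfl
  let c := finBasis K C
  obtain ⟨g, hg⟩ := exists_det_poly b
    ((LinearMap.toMatrix c c).toLinearMap ∘ₗ M)
  refine ⟨g, ?_, ?_⟩
  · rw [hg]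
    change (LinearMap.toMatrix c c (M y)).det ≠ 0
    rw [LinearMap.det_toMatrix]
    have h3 : M y = (2 : K) • LinearMap.id := by
      apply LinearMap.ext
      intro x
      have h4 : π y = 0 := by
        apply (Submodule.projectionOnto_apply_eq_zero_iff hC.symm).mpr
        exact Submodule.subset_span (Set.mem_insert_of_mem _ rfl)
      rw [hM, h4]
      have h5 := LinearMap.congr_fun hG x
      have h6 : ι ((2 : K) • y - ((0 : C) : V)) * ι (x : V) =
          (2 : K) • (ι y * ι (x : V)) := by
        rw [Submodule.coe_zero, sub_zero, map_smul, smul_mul_assoc]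
      rw [h6, map_smul, map_smul, LinearMap.smul_apply]
      congr 1
    rw [h3, LinearMap.det_smul, LinearMap.det_id, mul_one]
    exact pow_ne_zero _ h2
  · intro z hzz hzS
    rw [hg]
    change (LinearMap.toMatrix c c (M z)).det = 0
    rw [LinearMap.det_toMatrix]
    by_contra hdet
    have hinj : Function.Injective (M z) := by
      have hu : IsUnit (M z) := by
        rw [LinearMap.isUnit_iff_isUnit_det]
        exact isUnit_iff_ne_zero.mpr hdet
      exact ((Module.End.isUnit_iff _).mp hu).injective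
    set x : C := π z with hx
    -- the decomposition
    have hs : z - (x : V) ∈ S := by
      rw [← Submodule.projectionOnto_apply_eq_zero_iff hC.symm]
      rw [map_sub, sub_eq_zero]
      exact (Submodule.projectionOnto_apply_left hC.symm x).symm
    obtain ⟨a, d, had⟩ := Submodule.mem_span_pair.mp hs
    have hsV : ι (z - (x : V)) * ι (z - (x : V)) ∈ LinearMap.range ι := by
      rw [← had]
      have h3 : ι (a • o + d • y) * ι (a • o + d • y) =
          ι ((a * a) • o + (2 * a * d) • y) + (d * d) • (ι y * ι y) := by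
        simp only [map_add, map_smul, ho, Algebra.smul_def, map_mul, map_ofNat]
        ring
      rw [h3]
      exact add_mem ⟨_, rfl⟩ (Submodule.smul_mem _ _ hyy)
    have hprod : ι ((2 : K) • z - (x : V)) * ι (x : V) ∈ LinearMap.range ι := by
      have h3 : ι ((2 : K) • z - (x : V)) * ι (x : V) =
          ι z * ι z - ι (z - (x : V)) * ι (z - (x : V)) := by
        rw [map_sub, map_sub, map_smul, Algebra.smul_def, map_ofNat]
        ring
      rw [h3]
      exact sub_mem hzz hsV
    have h3 : M z x = 0 := by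
      rw [hM, ← hx]
      have : ρ (ι ((2 : K) • z - (x : V)) * ι (x : V)) = 0 := (hρ _).mpr hprod
      rw [this, map_zero]
    have h4 : x = 0 := hinj (by rw [h3, map_zero])
    apply hzS
    rw [h4] at hs
    simpa using hs

/-- **Finitely many parabolas**, abstract form. -/
theorem finite_parabolas' (h2 : (2 : K) ≠ 0) (ι : V →ₗ[K] L) (o : V) (ho : ι o = 1)
    (h : ∀ y : V, y ∉ Submodule.span K {o} → ι y * ι y ∈ LinearMap.range ι →
      ∀ x : V, ι y * ι x ∈ LinearMap.range ι → x ∈ Submodule.span K {o, y}) :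
    {S : Submodule K V | ∃ y : V, y ∉ Submodule.span K {o} ∧ ι y * ι y ∈ LinearMap.range ι ∧
      S = Submodule.span K {o, y}}.Finite := by
  classical
  by_contra hcon
  have hinf : {S : Submodule K V | ∃ y : V, y ∉ Submodule.span K {o} ∧
      ι y * ι y ∈ LinearMap.range ι ∧ S = Submodule.span K {o, y}}.Infinite := hcon
  let e := hinf.natEmbedding
  have he : ∀ i : ℕ, ∃ y : V, y ∉ Submodule.span K {o} ∧ ι y * ι y ∈ LinearMap.range ι ∧
      (e i : Submodule K V) = Submodule.span K {o, y} := fun i => (e i).2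
  choose y hyc hyy hye using he
  let b := finBasis K V
  have hg : ∀ i, ∃ g : MvPolynomial (Fin (finrank K V)) K,
      MvPolynomial.eval (fun k => b.repr (y i) k) g ≠ 0 ∧
      ∀ z : V, ι z * ι z ∈ LinearMap.range ι → z ∉ Submodule.span K {o, y i} →
        MvPolynomial.eval (fun k => b.repr z k) g = 0 :=
    fun i => exists_isolating h2 ι o ho b (y i) (hyy i) (h (y i) (hyc i) (hyy i))
  choose g hg1 hg2 using hg
  -- distinct planes
  have hne : ∀ i j, i ≠ j → y j ∉ Submodule.span K {o, y i} := by
    intro i j hij hmem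
    apply hij
    apply e.injective
    apply Subtype.ext
    rw [hye i, hye j]
    obtain ⟨a, d, had⟩ := Submodule.mem_span_pair.mp hmem
    have hd : d ≠ 0 := by
      rintro rfl
      apply hyc j
      rw [← had, zero_smul, add_zero]
      exact Submodule.smul_mem _ _ (Submodule.mem_span_singleton_self o)
    apply le_antisymm
    · rw [Submodule.span_le]
      rintro x (rfl | hx)
      · exact Submodule.subset_span (Set.mem_insert _ _)
      · rw [Set.mem_singleton_iff] at hx
        subst hx
        apply Submodule.mem_span_pair.mpr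
        refine ⟨-(d⁻¹ * a), d⁻¹, ?_⟩
        rw [← had, smul_add, smul_smul, smul_smul, inv_mul_cancel₀ hd, one_smul, neg_smul]
        abel
    · rw [Submodule.span_le]
      rintro x (rfl | hx)
      · exact Submodule.subset_span (Set.mem_insert _ _)
      · rw [Set.mem_singleton_iff] at hx
        subst hx
        exact hmem
  let I : ℕ →o Ideal (MvPolynomial (Fin (finrank K V)) K) :=
    ⟨fun j => Ideal.span (g '' Set.Iio j), by
      intro i j hij
      apply Ideal.span_mono
      apply Set.image_mono
      intro k hk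
      exact lt_of_lt_of_le hk hij⟩
  obtain ⟨m, hm⟩ := monotone_stabilizes_iff_noetherian.mpr
    (inferInstance : IsNoetherian (MvPolynomial (Fin (finrank K V)) K)
      (MvPolynomial (Fin (finrank K V)) K)) I
  have h3 : g m ∈ I m := by
    rw [hm (m + 1) (Nat.le_succ m)]
    exact Ideal.subset_span ⟨m, Nat.lt_succ_self m, rfl⟩
  have h4 : I m ≤ RingHom.ker (MvPolynomial.eval (fun k => b.repr (y m) k) :
      MvPolynomial (Fin (finrank K V)) K →+* K) := by
    change Ideal.span _ ≤ _
    rw [Ideal.span_le]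
    rintro _ ⟨i, hi, rfl⟩
    change MvPolynomial.eval _ (g i) = 0
    exact hg2 i (y m) (hyy m) (hne i m (ne_of_lt hi))
  exact hg1 m (h4 h3)

end abstractSpace

/-- **Finitely many parabolas.** -/
theorem finite_parabolas (h2 : (2 : K) ≠ 0) (V : Submodule K L) [FiniteDimensional K V]
    (h1 : (1 : L) ∈ V)
    (h : ∀ y ∈ V, (∀ c : K, y ≠ algebraMap K L c) → y * y ∈ V → ∀ x ∈ V, y * x ∈ V →
      x ∈ Submodule.span K {1, y}) :
    {S : Submodule K L | ∃ y ∈ V, (∀ c : K, y ≠ algebraMap K L c) ∧ y * y ∈ V ∧
      S = Submodule.span K {1, y}}.Finite := by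
  have hr : LinearMap.range V.subtype = V := Submodule.range_subtype V
  have hc : ∀ y : V, (∀ c : K, (y : L) ≠ algebraMap K L c) ↔
      y ∉ Submodule.span K {(⟨1, h1⟩ : V)} := by
    intro y
    rw [Submodule.mem_span_singleton, not_exists]
    refine forall_congr' fun c => ?_
    rw [not_iff_not, Subtype.ext_iff, Submodule.coe_smul, Algebra.smul_def, mul_one, eq_comm]
  have hmap : ∀ y : V, (Submodule.span K {(⟨1, h1⟩ : V), y}).map V.subtype =
      Submodule.span K {1, (y : L)} := by
    intro y
    rw [Submodule.map_span, Set.image_pair]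
    rfl
  have hyp : ∀ y : V, y ∉ Submodule.span K {(⟨1, h1⟩ : V)} →
      V.subtype y * V.subtype y ∈ LinearMap.range V.subtype →
      ∀ x : V, V.subtype y * V.subtype x ∈ LinearMap.range V.subtype →
        x ∈ Submodule.span K {(⟨1, h1⟩ : V), y} := by
    intro y hy hyy x hx
    rw [hr] at hyy hx
    have h3 := h y y.2 ((hc y).mpr hy) hyy x x.2 hx
    rw [← hmap] at h3
    obtain ⟨x', hx', hxx⟩ := h3
    have : x' = x := Subtype.ext hxx
    rwa [← this]
  have key := @finite_parabolas' K L _ _ _ V _ _ _ h2 V.subtype ⟨1, h1⟩ rfl hyp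
  have key2 := key.image (fun S => Submodule.map V.subtype S)
  refine key2.subset ?_
  rintro S ⟨y, hy, hyc, hyy, rfl⟩
  have hy1 : (⟨y, hy⟩ : V) ∉ Submodule.span K {(⟨1, h1⟩ : V)} := (hc ⟨y, hy⟩).mp hyc
  have hy2 : V.subtype (⟨y, hy⟩ : V) * V.subtype (⟨y, hy⟩ : V) ∈ LinearMap.range V.subtype := by
    rw [hr]
    exact hyy
  have h9 := Set.mem_image_of_mem (fun S => Submodule.map V.subtype S) (show Submodule.span K {(⟨1, h1⟩ : V), ⟨y, hy⟩} ∈ {S : Submodule K V | ∃ y : V, y ∉ Submodule.span K {(⟨1, h1⟩ : V)} ∧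
      V.subtype y * V.subtype y ∈ LinearMap.range V.subtype ∧ S = Submodule.span K {(⟨1, h1⟩ : V), y}} from ⟨⟨y, hy⟩, hy1, hy2, rfl⟩)
  beta_reduce at h9
  rw [hmap] at h9
  exact h9

end Pool.Agent.N770
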