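import Pool.Agent.N770.Hyp
import Pool.Agent.N770.Par

/-!
# Finitely many conics in a finite dimensional space
-/

set_option autoImplicit false

namespace Pool.Agent.N770

open Polynomial Module Pool.Agent.W256

universe u

variable {K : Type u} {L : Type*} [Field K] [Field L] [Algebra K L]

/-- `u` and `v` satisfy a nonzero relation of degree at most two -/
def QuadRel (K : Type*) {L : Type*} [Field K] [Field L] [Algebra K L] (u v : L) : Prop :=
  ∃ c : Fin 6 → K, c ≠ 0 ∧ c 0 • (u * u) + c 1 • (u * v) + c 2 • (v * v) + c 3 • u + c 4 • v +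
    c 5 • (1 : L) = 0

/-- factorisation of binary quadratic forms -/
theorem exists_factor [IsAlgClosed K] (a b c : K) (h : ¬ (a = 0 ∧ b = 0 ∧ c = 0)) :
    ∃ α₁ β₁ α₂ β₂ : K, ¬ (α₁ = 0 ∧ β₁ = 0) ∧ ¬ (α₂ = 0 ∧ β₂ = 0) ∧ a = α₁ * α₂ ∧
      b = α₁ * β₂ + α₂ * β₁ ∧ c = β₁ * β₂ := by
  by_cases ha : a = 0
  · refine ⟨0, 1, b, c, fun h1 => one_ne_zero h1.2, fun h1 => h ⟨ha, h1.1, h1.2⟩, ?_, ?_, ?_⟩
    · rw [ha, zero_mul]
    · ring
    · ring
  · obtain ⟨r, hr⟩ := IsAlgClosed.exists_root (C a * X ^ 2 + C b * X + C c : K[X]) (by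
      rw [degree_quadratic ha]
      exact two_ne_zero)
    rw [IsRoot.def] at hr
    simp only [eval_add, eval_mul, eval_C, eval_pow, eval_X] at hr
    refine ⟨1, -r, a, a * r + b, fun h1 => one_ne_zero h1.1, fun h1 => ha h1.1, ?_, ?_, ?_⟩
    · ring
    · ring
    · linear_combination hr

theorem li_of_nonconst [IsAlgClosed K] (y : L) (hy : ∀ c : K, y ≠ algebraMap K L c) (a b c : K)
    (h : a • (1 : L) + b • y + c • (y * y) = 0) : a = 0 ∧ b = 0 ∧ c = 0 := by
  have ht : Transcendental K y := fun h1 => by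
    obtain ⟨c, hc⟩ := exists_const y h1
    exact hy c hc
  have h1 : aeval y (C a + C b * X + C c * X ^ 2 : K[X]) = 0 := by
    rw [← h]
    simp only [map_add, map_mul, map_pow, aeval_C, aeval_X, Algebra.smul_def]
    ring
  have h2 : (C a + C b * X + C c * X ^ 2 : K[X]) = 0 := by
    by_contra h3
    exact ht ⟨_, h3, h1⟩
  refine ⟨?_, ?_, ?_⟩
  · have := congrArg (fun p => coeff p 0) h2
    simpa using this
  · have := congrArg (fun p => coeff p 1) h2
    simpa [coeff_X, coeff_C] using this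
  · have := congrArg (fun p => coeff p 2) h2
    simpa [coeff_X, coeff_C] using this

/-- **Classification of conics.** -/
theorem conic_cases [IsAlgClosed K] (u v : L) (hli : LinearIndependent K ![1, u, v])
    (h : QuadRel K u v) :
    ∃ y ∈ Submodule.span K ({1, u, v} : Set L), (∀ c : K, y ≠ algebraMap K L c) ∧
      (y * y ∈ Submodule.span K ({1, u, v} : Set L) ∨
        (y ≠ 0 ∧ y⁻¹ ∈ Submodule.span K ({1, u, v} : Set L))) := by
  obtain ⟨c, hc, hrel⟩ := h
  set T := Submodule.span K ({1, u, v} : Set L) with hT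
  have h1T : (1 : L) ∈ T := Submodule.subset_span (Or.inl rfl)
  have huT : u ∈ T := Submodule.subset_span (Or.inr (Or.inl rfl))
  have hvT : v ∈ T := Submodule.subset_span (Or.inr (Or.inr rfl))
  have hli' : ∀ a b d : K, a • (1 : L) + b • u + d • v = 0 → a = 0 ∧ b = 0 ∧ d = 0 := by
    intro a b d habd
    have h1 := Fintype.linearIndependent_iff.mp hli ![a, b, d] (by
      rw [Fin.sum_univ_three]
      exact habd)
    exact ⟨h1 0, h1 1, h1 2⟩
  have hquad : ¬ (c 0 = 0 ∧ c 1 = 0 ∧ c 2 = 0) := by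
    rintro ⟨h0, h1, h2⟩
    rw [h0, h1, h2, zero_smul, zero_smul, zero_smul, zero_add, zero_add, zero_add] at hrel
    obtain ⟨h5, h3, h4⟩ := hli' (c 5) (c 3) (c 4) (by rw [← hrel]; abel)
    apply hc
    funext i
    fin_cases i
    · exact h0
    · exact h1
    · exact h2
    · exact h3
    · exact h4
    · exact h5
  obtain ⟨α₁, β₁, α₂, β₂, hn1, hn2, e0, e1, e2⟩ := exists_factor (c 0) (c 1) (c 2) hquad
  set y₁ : L := α₁ • u + β₁ • v with hy₁
  set y₂ : L := α₂ • u + β₂ • v with hy₂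
  have hy₁T : y₁ ∈ T := add_mem (T.smul_mem _ huT) (T.smul_mem _ hvT)
  have hy₂T : y₂ ∈ T := add_mem (T.smul_mem _ huT) (T.smul_mem _ hvT)
  have hc1 : ∀ d : K, y₁ ≠ algebraMap K L d := by
    intro d hd
    obtain ⟨-, h2, h3⟩ := hli' (-d) α₁ β₁ (by
      rw [add_assoc, ← hy₁, hd, neg_smul, Algebra.smul_def, mul_one, neg_add_cancel])
    exact hn1 ⟨h2, h3⟩
  have hc2 : ∀ d : K, y₂ ≠ algebraMap K L d := by
    intro d hd
    obtain ⟨-, h2, h3⟩ := hli' (-d) α₂ β₂ (by
      rw [add_assoc, ← hy₂, hd, neg_smul, Algebra.smul_def, mul_one, neg_add_cancel])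
    exact hn2 ⟨h2, h3⟩
  have hprod : y₁ * y₂ = -(c 3 • u + c 4 • v + c 5 • (1 : L)) := by
    have h2 : y₁ * y₂ = c 0 • (u * u) + c 1 • (u * v) + c 2 • (v * v) := by
      rw [hy₁, hy₂, e0, e1, e2]
      simp only [Algebra.smul_def, map_add, map_mul]
      ring
    rw [h2]
    linear_combination hrel
  by_cases hdet : α₁ * β₂ - α₂ * β₁ = 0
  · -- a parabola
    obtain ⟨κ, hκ0, hκ⟩ : ∃ κ : K, κ ≠ 0 ∧ y₂ = κ • y₁ := by
      by_cases ha : α₁ = 0
      · have hb : β₁ ≠ 0 := fun h2 => hn1 ⟨ha, h2⟩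
        have ha2 : α₂ = 0 := by
          rw [ha, zero_mul, zero_sub, neg_eq_zero] at hdet
          exact (mul_eq_zero.mp hdet).resolve_right hb
        refine ⟨β₂ / β₁, div_ne_zero (fun h2 => hn2 ⟨ha2, h2⟩) hb, ?_⟩
        rw [hy₁, hy₂, ha, ha2, zero_smul, zero_add, zero_add, smul_smul,
          div_mul_cancel₀ _ hb]
      · have hb2 : β₂ = α₂ / α₁ * β₁ := by
          field_simp
          linear_combination hdet
        have ha2 : α₂ ≠ 0 := by
          intro h2
          apply hn2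
          refine ⟨h2, ?_⟩
          rw [hb2, h2, zero_div, zero_mul]
        refine ⟨α₂ / α₁, div_ne_zero ha2 ha, ?_⟩
        rw [hy₁, hy₂, smul_add, smul_smul, smul_smul, div_mul_cancel₀ _ ha, ← hb2]
    refine ⟨y₁, hy₁T, hc1, Or.inl ?_⟩
    have h2 : y₁ * y₁ = κ⁻¹ • (y₁ * y₂) := by
      rw [hκ, mul_smul_comm, smul_smul, inv_mul_cancel₀ hκ0, one_smul]
    rw [h2, hprod]
    exact T.smul_mem _ (neg_mem (add_mem (add_mem (T.smul_mem _ huT) (T.smul_mem _ hvT))
      (T.smul_mem _ h1T)))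
  · -- a hyperbola
    set δ := α₁ * β₂ - α₂ * β₁ with hδ
    obtain ⟨α, β, γ, hαβ⟩ : ∃ α β γ : K, y₁ * y₂ = α • y₁ + β • y₂ + γ • (1 : L) := by
      refine ⟨-(c 3 * β₂ - c 4 * α₂) / δ, -(c 4 * α₁ - c 3 * β₁) / δ, -c 5, ?_⟩
      have h2 : (algebraMap K L δ) ≠ 0 := by simpa using hdet
      have h3 : algebraMap K L δ = algebraMap K L α₁ * algebraMap K L β₂ -
          algebraMap K L α₂ * algebraMap K L β₁ := by rw [hδ, map_sub, map_mul, map_mul]
      rw [hprod, hy₁, hy₂]
      simp only [Algebra.smul_def, map_div₀, map_neg, map_sub, map_mul]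
      field_simp
      rw [h3]
      ring
    have hfac : (y₁ - algebraMap K L β) * (y₂ - algebraMap K L α) =
        algebraMap K L (α * β + γ) := by
      rw [Algebra.smul_def, Algebra.smul_def, Algebra.smul_def] at hαβ
      rw [map_add, map_mul]
      linear_combination hαβ
    have hne1 : y₁ - algebraMap K L β ≠ 0 := sub_ne_zero.mpr (hc1 β)
    have hne2 : y₂ - algebraMap K L α ≠ 0 := sub_ne_zero.mpr (hc2 α)
    have hδ0 : (α * β + γ) ≠ 0 := by
      intro h2
      rw [h2, map_zero] at hfac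
      exact (mul_ne_zero hne1 hne2) hfac
    refine ⟨y₁ - algebraMap K L β, ?_, ?_, Or.inr ⟨hne1, ?_⟩⟩
    · refine sub_mem hy₁T ?_
      have := T.smul_mem β h1T
      rwa [Algebra.smul_def, mul_one] at this
    · intro d hd
      apply hc1 (d + β)
      rw [map_add, ← hd, sub_add_cancel]
    · have h2 : (y₁ - algebraMap K L β)⁻¹ = (α * β + γ)⁻¹ • (y₂ - algebraMap K L α) := by
        rw [Algebra.smul_def, map_inv₀, ← hfac, mul_inv, mul_assoc, inv_mul_cancel₀ hne2, mul_one]
      rw [h2]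
      refine T.smul_mem _ (sub_mem hy₂T ?_)
      have := T.smul_mem α h1T
      rwa [Algebra.smul_def, mul_one] at this

theorem range_three (x y z : L) : Set.range ![x, y, z] = {x, y, z} := by
  ext w
  simp only [Set.mem_insert_iff, Set.mem_singleton_iff, Set.mem_range]
  constructor
  · rintro ⟨i, rfl⟩
    fin_cases i
    · exact Or.inl rfl
    · exact Or.inr (Or.inl rfl)
    · exact Or.inr (Or.inr rfl)
  · rintro (rfl | rfl | rfl)
    · exact ⟨0, rfl⟩
    · exact ⟨1, rfl⟩
    · exact ⟨2, rfl⟩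

/-- three dimensional spaces are determined by three independent elements -/
theorem span_eq_of_three {T : Submodule K L} (hT : finrank K T = 3) (x y z : L) (hx : x ∈ T)
    (hy : y ∈ T) (hz : z ∈ T)
    (h : ∀ a b c : K, a • x + b • y + c • z = 0 → a = 0 ∧ b = 0 ∧ c = 0) :
    T = Submodule.span K {x, y, z} := by
  have hfd : FiniteDimensional K T := FiniteDimensional.of_finrank_pos (by rw [hT]; norm_num)
  symm
  apply Submodule.eq_of_le_of_finrank_eq
  · rw [Submodule.span_le]
    rintro w (rfl | rfl | hw)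
    · exact hx
    · exact hy
    · rw [Set.mem_singleton_iff] at hw
      rw [hw]
      exact hz
  · rw [hT]
    have hli : LinearIndependent K ![x, y, z] := by
      rw [Fintype.linearIndependent_iff]
      intro g hg
      rw [Fin.sum_univ_three] at hg
      obtain ⟨h1, h2, h3⟩ := h (g 0) (g 1) (g 2) hg
      intro i
      fin_cases i
      · exact h1
      · exact h2
      · exact h3
    have h1 : finrank K (Submodule.span K (Set.range ![x, y, z])) = 3 := by
      have := finrank_span_eq_card hli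
      rwa [Fintype.card_fin] at this
    rwa [range_three] at h1

/-- **Finitely many conics.** -/
theorem finite_conics [IsAlgClosed K] (h2 : (2 : K) ≠ 0) (V : Submodule K L)
    [FiniteDimensional K V] (h1 : (1 : L) ∈ V)
    (h : ∀ y ∈ V, (∀ c : K, y ≠ algebraMap K L c) → y * y ∈ V → ∀ x ∈ V, y * x ∈ V →
      x ∈ Submodule.span K {1, y}) :
    {T : Submodule K L | T ≤ V ∧ ∃ u v : L, LinearIndependent K ![1, u, v] ∧
      T = Submodule.span K {1, u, v} ∧ QuadRel K u v}.Finite := by
  classical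
  set R := Algebra.adjoin K (V : Set L) with hR
  have hRfg : R.FG := by
    have := fg_adjoin V V
    rwa [Set.union_self] at this
  have hft : Algebra.FiniteType K R := R.fg_iff_finiteType.mp hRfg
  obtain ⟨χ, -⟩ := exists_point (K := K) (A := R) 1 one_ne_zero
  have hVR : V ≤ Subalgebra.toSubmodule R := fun x hx => Algebra.subset_adjoin hx
  have hP := finite_parabolas h2 V h1 h
  have hH := finite_units V R hVR χ
  refine ((hP.image (fun S => S * S)).union
    (hH.image (fun u => Submodule.span K {1, u, u⁻¹}))).subset ?_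
  rintro T ⟨hTV, u, v, hli, hTe, hq⟩
  obtain ⟨y, hyT, hyc, hy⟩ := conic_cases u v hli hq
  rw [← hTe] at hyT hy
  have hT3 : finrank K T = 3 := by
    have h3 : finrank K (Submodule.span K (Set.range ![1, u, v])) = 3 := by
      have := finrank_span_eq_card hli
      rwa [Fintype.card_fin] at this
    rwa [range_three, ← hTe] at h3
  have h1T : (1 : L) ∈ T := by rw [hTe]; exact Submodule.subset_span (Or.inl rfl)
  rcases hy with hyy | ⟨hy0, hyi⟩
  · left
    refine ⟨Submodule.span K {1, y}, ⟨y, hTV hyT, hyc, hTV hyy, rfl⟩, ?_⟩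
    change Submodule.span K {1, y} * Submodule.span K {1, y} = T
    rw [span_eq_of_three hT3 1 y (y * y) h1T hyT hyy (li_of_nonconst y hyc), Submodule.span_mul_span]
    congr 1
    ext w
    simp only [Set.mem_mul, Set.mem_insert_iff, Set.mem_singleton_iff]
    constructor
    · rintro ⟨a, (rfl | rfl), b, (rfl | rfl), rfl⟩
      · left; ring
      · right; left; ring
      · right; left; ring
      · right; right; ring
    · rintro (rfl | rfl | rfl)
      · exact ⟨1, Or.inl rfl, 1, Or.inl rfl, one_mul 1⟩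
      · exact ⟨1, Or.inl rfl, _, Or.inr rfl, one_mul _⟩
      · exact ⟨y, Or.inr rfl, y, Or.inr rfl, rfl⟩
  · right
    have hyV := hTV hyT
    have hyiV := hTV hyi
    set t : K := χ ⟨y, hVR hyV⟩ with ht
    have ht1 : t * χ ⟨y⁻¹, hVR hyiV⟩ = 1 := by
      rw [ht, ← map_mul, ← map_one χ]
      congr 1
      apply Subtype.ext
      exact mul_inv_cancel₀ hy0
    have ht0 : t ≠ 0 := left_ne_zero_of_mul_eq_one ht1
    have htL : algebraMap K L t ≠ 0 := by simpa using ht0
    have hinv : (t⁻¹ • y)⁻¹ = t • y⁻¹ := by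
      rw [Algebra.smul_def, Algebra.smul_def, map_inv₀, mul_inv, inv_inv]
    refine ⟨t⁻¹ • y, ⟨V.smul_mem _ hyV, ?_, ?_, ?_⟩, ?_⟩
    · rw [Algebra.smul_def, map_inv₀]
      exact mul_ne_zero (inv_ne_zero htL) hy0
    · rw [hinv]
      exact V.smul_mem _ hyiV
    · have h3 : (⟨t⁻¹ • y, hVR (V.smul_mem _ hyV)⟩ : R) = t⁻¹ • ⟨y, hVR hyV⟩ := rfl
      rw [h3, map_smul, ← ht, smul_eq_mul, inv_mul_cancel₀ ht0]
    · change Submodule.span K {1, t⁻¹ • y, (t⁻¹ • y)⁻¹} = T
      symm
      apply span_eq_of_three hT3 1 _ _ h1T (T.smul_mem _ hyT)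
        (by rw [hinv]; exact T.smul_mem _ hyi)
      intro a b c habc
      rw [hinv] at habc
      have h3 : (c * t) • (1 : L) + a • y + (b * t⁻¹) • (y * y) = 0 := by
        have h4 := congrArg (fun w => w * y) habc
        simp only [zero_mul, Algebra.smul_def, map_inv₀, map_mul] at h4 ⊢
        have h5 : y⁻¹ * y = 1 := inv_mul_cancel₀ hy0
        linear_combination h4 - (algebraMap K L c * algebraMap K L t) * h5
      obtain ⟨h4, h5, h6⟩ := li_of_nonconst y hyc _ _ _ h3
      refine ⟨h5, ?_, ?_⟩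
      · exact (mul_eq_zero.mp h6).resolve_right (inv_ne_zero ht0)
      · exact (mul_eq_zero.mp h4).resolve_right ht0

end Pool.Agent.N770
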