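import Pool.Agent.N770.Sqrt
import Pool.Agent.N770.Conic

/-!
# Quadratic relations with a fixed element: linear independence
-/

set_option autoImplicit false

namespace Pool.Agent.N770

open Polynomial Module IntermediateField Pool.Agent.W256

variable {K L : Type*} [Field K] [Field L] [Algebra K L]

/-- an element of `K(v)` whose square is a polynomial in `v` is a polynomial in `v` -/
theorem exists_poly_of_sq {v : L} (hv : Transcendental K v) (e : L) (he : e ∈ K⟮v⟯) (p : K[X])
    (h : e * e = aeval v p) : ∃ q : K[X], e = aeval v q ∧ p = q * q := by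
  have hint : (ev K v).IsIntegralElem e := by
    refine ⟨X ^ 2 - C p, monic_X_pow_sub_C p two_ne_zero, ?_⟩
    rw [eval₂_sub, eval₂_X_pow, eval₂_C, pow_two, h]
    exact sub_self _
  obtain ⟨q, hq⟩ := exists_poly_of_integral v hv e he hint
  refine ⟨q, hq, ?_⟩
  apply transcendental_iff_injective.1 hv
  rw [map_mul, ← h, ← hq]

/-- two polynomials with at most simple roots whose product is a square are proportional -/
theorem proportional_of_mul_eq_sq [IsAlgClosed K] (p₁ p₂ q : K[X]) (h1 : p₁ ≠ 0) (h2 : p₂ ≠ 0)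
    (hs1 : ∀ r, p₁.rootMultiplicity r ≤ 1) (hs2 : ∀ r, p₂.rootMultiplicity r ≤ 1)
    (h : p₁ * p₂ = q * q) : ∃ c : K, p₁ = C c * p₂ := by
  classical
  have hq : q ≠ 0 := by
    rintro rfl
    rw [mul_zero] at h
    exact (mul_ne_zero h1 h2) h
  have hroots : p₁.roots = p₂.roots := by
    apply Multiset.ext.mpr
    intro r
    rw [count_roots, count_roots]
    have h3 := rootMultiplicity_mul (p := p₁) (q := p₂) (x := r) (mul_ne_zero h1 h2)
    have h4 := rootMultiplicity_mul (p := q) (q := q) (x := r) (mul_ne_zero hq hq)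
    rw [h, h4] at h3
    have := hs1 r
    have := hs2 r
    omega
  have e1 := (IsAlgClosed.splits p₁).eq_prod_roots
  have e2 := (IsAlgClosed.splits p₂).eq_prod_roots
  have hl : p₂.leadingCoeff ≠ 0 := leadingCoeff_ne_zero.mpr h2
  refine ⟨p₁.leadingCoeff / p₂.leadingCoeff, ?_⟩
  calc p₁ = C p₁.leadingCoeff * (Multiset.map (fun x => X - C x) p₂.roots).prod := by
        rw [← hroots]; exact e1
    _ = C (p₁.leadingCoeff / p₂.leadingCoeff) *
        (C p₂.leadingCoeff * (Multiset.map (fun x => X - C x) p₂.roots).prod) := by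
        rw [← mul_assoc, ← C_mul, div_mul_cancel₀ _ hl]
    _ = _ := by rw [← e2]

theorem rootMultiplicity_le_one [IsAlgClosed K] (p : K[X]) (hd : p.natDegree ≤ 2)
    (hsq : ∀ q : K[X], p ≠ q * q) (r : K) : p.rootMultiplicity r ≤ 1 := by
  by_contra hcon
  push Not at hcon
  have hp0 : p ≠ 0 := by
    intro h0
    apply hsq 0
    rw [h0, mul_zero]
  have h1 : (X - C r) ^ 2 ∣ p := by
    rw [← le_rootMultiplicity_iff hp0]
    exact hcon
  obtain ⟨s, hs⟩ := h1
  have hs0 : s ≠ 0 := by
    rintro rfl
    rw [mul_zero] at hs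
    exact hp0 hs
  have hdeg : s.natDegree = 0 := by
    have h2 : p.natDegree = 2 + s.natDegree := by
      rw [hs, natDegree_mul (pow_ne_zero _ (X_sub_C_ne_zero r)) hs0, natDegree_pow,
        natDegree_X_sub_C]
    omega
  obtain ⟨a, ha⟩ := natDegree_eq_zero.mp hdeg
  obtain ⟨b, hb⟩ := IsAlgClosed.exists_pow_nat_eq a (n := 2) (by norm_num)
  apply hsq ((X - C r) * C b)
  rw [hs, ← ha, ← hb, C_pow]
  ring

/-- the shape of the elements with a quadratic relation with `v` -/
theorem shape [IsAlgClosed K] (h2 : (2 : K) ≠ 0) {u v : L} (hv : Transcendental K v)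
    (huv : u ∉ Submodule.span K ({1, v} : Set L)) (h : QuadRel K u v) :
    (∃ (s : L) (p : K[X]), p.natDegree ≤ 2 ∧ s * s = aeval v p ∧ (∀ q : K[X], p ≠ q * q) ∧
      u - s ∈ Submodule.span K ({1, v} : Set L)) ∨
    (∃ c : K, c ≠ 0 ∧ u - c • (v * v) ∈ Submodule.span K ({1, v} : Set L)) ∨
    (∃ r c : K, c ≠ 0 ∧ u - c • (v - algebraMap K L r)⁻¹ ∈ Submodule.span K ({1, v} : Set L)) := by
  have h2L : (2 : L) ≠ 0 := by
    intro h0
    apply h2
    apply (algebraMap K L).injective
    rw [map_ofNat, map_zero, h0]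
  have hvc : ∀ c : K, v ≠ algebraMap K L c := by
    intro c hc
    apply hv
    rw [hc]
    exact isAlgebraic_algebraMap c
  obtain ⟨c, hc, hrel⟩ := h
  simp only [Algebra.smul_def, mul_one] at hrel
  by_cases hc0 : c 0 = 0
  · right
    have hd : ¬ (c 1 = 0 ∧ c 3 = 0) := by
      rintro ⟨hc1, hc3⟩
      rw [hc0, hc1, hc3] at hrel
      obtain ⟨h5, h4, h6⟩ := li_of_nonconst v hvc (c 5) (c 4) (c 2) (by
        simp only [Algebra.smul_def, mul_one]
        rw [← hrel, map_zero]
        ring)
      apply hc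
      funext i
      fin_cases i
      · exact hc0
      · exact hc1
      · exact h6
      · exact hc3
      · exact h4
      · exact h5
    by_cases hc1 : c 1 = 0
    · left
      have hc3 : c 3 ≠ 0 := fun h3 => hd ⟨hc1, h3⟩
      have hc3L : algebraMap K L (c 3) ≠ 0 := by simpa using hc3
      rw [hc0, hc1, map_zero] at hrel
      have hu : u = (-(c 5 / c 3)) • (1 : L) + (-(c 4 / c 3)) • v + (-(c 2 / c 3)) • (v * v) := by
        simp only [Algebra.smul_def, mul_one, map_neg, map_div₀]
        field_simp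
        linear_combination hrel
      refine ⟨-(c 2 / c 3), ?_, ?_⟩
      · intro h0
        apply huv
        rw [hu, h0, zero_smul, add_zero]
        exact Submodule.mem_span_pair.mpr ⟨_, _, rfl⟩
      · rw [hu, add_sub_cancel_right]
        exact Submodule.mem_span_pair.mpr ⟨_, _, rfl⟩
    · right
      have hc1L : algebraMap K L (c 1) ≠ 0 := by simpa using hc1
      set r : K := -(c 3 / c 1) with hr
      have hvr : v - algebraMap K L r ≠ 0 := sub_ne_zero.mpr (hvc r)
      set ρ : K := c 2 * r * r + c 4 * r + c 5 with hρ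
      have hrL : algebraMap K L (c 1) * algebraMap K L r = - algebraMap K L (c 3) := by
        rw [hr, map_neg, map_div₀]
        field_simp
      have hu : u = (-((c 4 + c 2 * r) / c 1)) • (1 : L) + (-(c 2 / c 1)) • v +
          (-(ρ / c 1)) • (v - algebraMap K L r)⁻¹ := by
        rw [hc0, map_zero] at hrel
        simp only [Algebra.smul_def, mul_one, map_neg, map_div₀, map_add, map_mul, hρ]
        field_simp
        linear_combination hrel - u * hrL
      refine ⟨r, -(ρ / c 1), ?_, ?_⟩
      · intro h0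
        apply huv
        rw [hu, h0, zero_smul, add_zero]
        exact Submodule.mem_span_pair.mpr ⟨_, _, rfl⟩
      · rw [hu, add_sub_cancel_right]
        exact Submodule.mem_span_pair.mpr ⟨_, _, rfl⟩
  · left
    have hc0L : algebraMap K L (c 0) ≠ 0 := by simpa using hc0
    set l : K[X] := C (c 1 / (2 * c 0)) * X + C (c 3 / (2 * c 0)) with hl
    set p : K[X] := l * l - (C (c 2 / c 0) * X ^ 2 + C (c 4 / c 0) * X + C (c 5 / c 0)) with hp
    have hlv : aeval v l = algebraMap K L (c 1 / (2 * c 0)) * v + algebraMap K L (c 3 / (2 * c 0)) := by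
      rw [hl, map_add, map_mul, aeval_C, aeval_C, aeval_X]
    have hlmem : aeval v l ∈ Submodule.span K ({1, v} : Set L) := by
      rw [hlv]
      refine Submodule.mem_span_pair.mpr ⟨c 3 / (2 * c 0), c 1 / (2 * c 0), ?_⟩
      rw [Algebra.smul_def, Algebra.smul_def, mul_one, add_comm]
    have hld : l.natDegree ≤ 1 := natDegree_linear_le
    have hpd : p.natDegree ≤ 2 := by
      refine (natDegree_sub_le _ _).trans (max_le ?_ ?_)
      · refine (natDegree_mul_le).trans ?_
        omega
      · exact natDegree_quadratic_le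
    have hs : (u + aeval v l) * (u + aeval v l) = aeval v p := by
      rw [hp, map_sub, map_mul, hlv]
      simp only [map_add, map_mul, map_pow, aeval_C, aeval_X, map_div₀, map_ofNat]
      field_simp
      linear_combination 4 * algebraMap K L (c 0) * hrel
    have hsq : ∀ q : K[X], p ≠ q * q := by
      intro q hq
      have hqd : q.natDegree ≤ 1 := by
        by_cases hq0 : q = 0
        · rw [hq0, natDegree_zero]; exact Nat.zero_le _
        · have h3 : p.natDegree = q.natDegree + q.natDegree := by
            rw [hq, natDegree_mul hq0 hq0]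
          omega
      rw [hq, map_mul] at hs
      have hqmem : aeval v q ∈ Submodule.span K ({1, v} : Set L) := by
        rw [eq_X_add_C_of_natDegree_le_one hqd]
        refine Submodule.mem_span_pair.mpr ⟨q.coeff 0, q.coeff 1, ?_⟩
        rw [map_add, map_mul, aeval_C, aeval_C, aeval_X, Algebra.smul_def, Algebra.smul_def,
          mul_one, add_comm]
      apply huv
      rcases mul_self_eq_mul_self_iff.mp hs with h3 | h3
      · have h4 : u = aeval v q - aeval v l := by rw [← h3]; ring
        rw [h4]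
        exact sub_mem hqmem hlmem
      · have h4 : u = -aeval v q - aeval v l := by rw [← h3]; ring
        rw [h4]
        exact sub_mem (neg_mem hqmem) hlmem
    refine ⟨u + aeval v l, p, hpd, hs, hsq, ?_⟩
    have h3 : u - (u + aeval v l) = -aeval v l := by ring
    rw [h3]
    exact neg_mem hlmem

/-- the conclusion of the six exponentials theorem for a space `S` -/
def SixExp (K : Type*) {L : Type*} [Field K] [Field L] [Algebra K L] (S : Submodule K L) : Prop :=
  ∀ y : L, (∀ c : K, y ≠ algebraMap K L c) → ∀ w : Fin 3 → L, LinearIndependent K w →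
    (∀ j, w j ∈ S) → (∀ j, y * w j ∈ S) → False

theorem li_three {x y z : L} (h : ∀ a b c : K, a • x + b • y + c • z = 0 → a = 0 ∧ b = 0 ∧ c = 0) :
    LinearIndependent K ![x, y, z] := by
  rw [Fintype.linearIndependent_iff]
  intro g hg
  rw [Fin.sum_univ_three] at hg
  obtain ⟨h1, h2, h3⟩ := h (g 0) (g 1) (g 2) hg
  intro i
  fin_cases i
  · exact h1
  · exact h2
  · exact h3

/-- `v ^ 2` and `1 / (v - r)` are not both in `S` -/
theorem no_sq_inv [IsAlgClosed K] (S : Submodule K L) (hS : SixExp K S) (h1 : (1 : L) ∈ S) {v : L}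
    (hv : ∀ c : K, v ≠ algebraMap K L c) (hvS : v ∈ S) (hvv : v * v ∈ S) (r : K)
    (hr : (v - algebraMap K L r)⁻¹ ∈ S) : False := by
  have hvr : v - algebraMap K L r ≠ 0 := sub_ne_zero.mpr (hv r)
  have hrS : algebraMap K L r ∈ S := by
    have := S.smul_mem r h1
    rwa [Algebra.smul_def, mul_one] at this
  refine hS (v - algebraMap K L r) (fun c hc => hv (c + r) (by rw [map_add, ← hc]; ring))
    ![1, v, (v - algebraMap K L r)⁻¹] (li_three ?_) ?_ ?_
  · intro a b c habc
    have h3 : (c - a * r) • (1 : L) + (a - b * r) • v + b • (v * v) = 0 := by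
      have h4 := congrArg (fun w => w * (v - algebraMap K L r)) habc
      simp only [zero_mul, Algebra.smul_def, mul_one, map_sub, map_mul] at h4 ⊢
      have h5 : (v - algebraMap K L r)⁻¹ * (v - algebraMap K L r) = 1 := inv_mul_cancel₀ hvr
      linear_combination h4 - (algebraMap K L c) * h5
    obtain ⟨h4, h5, h6⟩ := li_of_nonconst v hv _ _ _ h3
    rw [h6, zero_mul, sub_zero] at h5
    rw [h5, zero_mul, sub_zero] at h4
    exact ⟨h5, h6, h4⟩
  · intro j
    fin_cases j
    · exact h1
    · exact hvS
    · exact hr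
  · intro j
    fin_cases j
    · change (v - algebraMap K L r) * 1 ∈ S
      rw [mul_one]
      exact sub_mem hvS hrS
    · change (v - algebraMap K L r) * v ∈ S
      rw [sub_mul, ← Algebra.smul_def]
      exact sub_mem hvv (S.smul_mem _ hvS)
    · change (v - algebraMap K L r) * (v - algebraMap K L r)⁻¹ ∈ S
      rw [mul_inv_cancel₀ hvr]
      exact h1

/-- `1 / (v - r)` and `1 / (v - r')` are not both in `S` for `r ≠ r'` -/
theorem no_inv_inv [IsAlgClosed K] (S : Submodule K L) (hS : SixExp K S) (h1 : (1 : L) ∈ S) {v : L}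
    (hv : ∀ c : K, v ≠ algebraMap K L c) (hvS : v ∈ S) (r r' : K) (hrr : r ≠ r')
    (hr : (v - algebraMap K L r)⁻¹ ∈ S) (hr' : (v - algebraMap K L r')⁻¹ ∈ S) : False := by
  have hvr : v - algebraMap K L r ≠ 0 := sub_ne_zero.mpr (hv r)
  have hvr' : v - algebraMap K L r' ≠ 0 := sub_ne_zero.mpr (hv r')
  have hrS : algebraMap K L r ∈ S := by
    have := S.smul_mem r h1
    rwa [Algebra.smul_def, mul_one] at this
  refine hS (v - algebraMap K L r) (fun c hc => hv (c + r) (by rw [map_add, ← hc]; ring))
    ![1, (v - algebraMap K L r)⁻¹, (v - algebraMap K L r')⁻¹] (li_three ?_) ?_ ?_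
  · intro a b c habc
    have h3 : (a * r * r' - b * r' - c * r) • (1 : L) + (b + c - a * (r + r')) • v +
        a • (v * v) = 0 := by
      have h4 := congrArg (fun w => w * ((v - algebraMap K L r) * (v - algebraMap K L r'))) habc
      simp only [zero_mul, Algebra.smul_def, mul_one, map_sub, map_add, map_mul] at h4 ⊢
      have h5 : (v - algebraMap K L r)⁻¹ * (v - algebraMap K L r) = 1 := inv_mul_cancel₀ hvr
      have h6 : (v - algebraMap K L r')⁻¹ * (v - algebraMap K L r') = 1 := inv_mul_cancel₀ hvr'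
      linear_combination h4 - (algebraMap K L b) * (v - algebraMap K L r') * h5 -
        (algebraMap K L c) * (v - algebraMap K L r) * h6
    obtain ⟨h4, h5, h6⟩ := li_of_nonconst v hv _ _ _ h3
    rw [h6] at h4 h5
    have h7 : b * (r - r') = 0 := by linear_combination h4 + r * h5
    have h8 : b = 0 := (mul_eq_zero.mp h7).resolve_right (sub_ne_zero.mpr hrr)
    rw [h8] at h5
    refine ⟨h6, h8, ?_⟩
    linear_combination h5
  · intro j
    fin_cases j
    · exact h1
    · exact hr
    · exact hr'
  · intro j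
    fin_cases j
    · change (v - algebraMap K L r) * 1 ∈ S
      rw [mul_one]
      exact sub_mem hvS hrS
    · change (v - algebraMap K L r) * (v - algebraMap K L r)⁻¹ ∈ S
      rw [mul_inv_cancel₀ hvr]
      exact h1
    · change (v - algebraMap K L r) * (v - algebraMap K L r')⁻¹ ∈ S
      have h3 : (v - algebraMap K L r) * (v - algebraMap K L r')⁻¹ =
          1 + (r' - r) • (v - algebraMap K L r')⁻¹ := by
        rw [Algebra.smul_def, map_sub]
        field_simp
        ring
      rw [h3]
      exact add_mem h1 (S.smul_mem _ hr')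

/-- **Linear independence of directions.** -/
theorem directions [IsAlgClosed K] [IsAlgClosed L] (h2 : (2 : K) ≠ 0) (S : Submodule K L)
    (hS : SixExp K S) (h1 : (1 : L) ∈ S) (v : L) (hvS : v ∈ S) (hv : Transcendental K v)
    {ι : Type*} (u : ι → L) (huS : ∀ i, u i ∈ S) (hq : ∀ i, QuadRel K (u i) v)
    (hn : ∀ i, u i ∉ Submodule.span K ({1, v} : Set L))
    (hp : ∀ i j, i ≠ j → ∀ c : K, u i - c • u j ∉ Submodule.span K ({1, v} : Set L))
    (s : Finset ι) (g : ι → K) (hg : ∑ i ∈ s, g i • u i ∈ Submodule.span K ({1, v} : Set L)) :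
    ∀ i ∈ s, g i = 0 := by
  classical
  have h2L : (2 : L) ≠ 0 := by
    intro h0
    apply h2
    apply (algebraMap K L).injective
    rw [map_ofNat, map_zero, h0]
  have hvc : ∀ c : K, v ≠ algebraMap K L c := by
    intro c hc
    apply hv
    rw [hc]
    exact isAlgebraic_algebraMap c
  set M := Submodule.span K ({1, v} : Set L) with hM
  have hMS : M ≤ S := by
    rw [hM, Submodule.span_le]
    rintro x (rfl | hx)
    · exact h1
    · rw [Set.mem_singleton_iff] at hx
      rw [hx]; exact hvS
  have hME : ∀ x ∈ M, x ∈ K⟮v⟯ := by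
    intro x hx
    obtain ⟨a, b, rfl⟩ := Submodule.mem_span_pair.mp hx
    exact add_mem (K⟮v⟯.smul_mem (one_mem _)) (K⟮v⟯.smul_mem (mem_adjoin_simple_self K v))
  let A : ι → Prop := fun i => ∃ (t : L) (p : K[X]), p.natDegree ≤ 2 ∧ t * t = aeval v p ∧
    (∀ q : K[X], p ≠ q * q) ∧ u i - t ∈ M
  -- type B
  have hB : ∀ i, ¬ A i → (∃ c : K, c ≠ 0 ∧ u i - c • (v * v) ∈ M) ∨
      (∃ r c : K, c ≠ 0 ∧ u i - c • (v - algebraMap K L r)⁻¹ ∈ M) := fun i hi =>
    (shape h2 hv (hn i) (hq i)).resolve_left hi
  have hmem : ∀ (i : ι) (c : K) (x : L), c ≠ 0 → u i - c • x ∈ M → x ∈ S := by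
    intro i c x hc hx
    have h3 : x = c⁻¹ • (u i - (u i - c • x)) := by
      rw [sub_sub_cancel, smul_smul, inv_mul_cancel₀ hc, one_smul]
    rw [h3]
    exact S.smul_mem _ (sub_mem (huS i) (hMS hx))
  have hprop : ∀ (i j : ι) (c d : K) (x : L), i ≠ j → d ≠ 0 → u i - c • x ∈ M →
      u j - d • x ∈ M → False := by
    intro i j c d x hij hd hi hj
    apply hp i j hij (c / d)
    have h3 : u i - (c / d) • u j = (u i - c • x) - (c / d) • (u j - d • x) := by
      rw [smul_sub, smul_smul, div_mul_cancel₀ _ hd]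
      abel
    rw [h3]
    exact sub_mem hi (M.smul_mem _ hj)
  have hBB : ∀ i j, i ≠ j → ¬ A i → ¬ A j → False := by
    intro i j hij hi hj
    rcases hB i hi with ⟨c, hc, hci⟩ | ⟨r, c, hc, hci⟩
    · rcases hB j hj with ⟨d, hd, hdj⟩ | ⟨r', d, hd, hdj⟩
      · exact hprop i j c d _ hij hd hci hdj
      · exact no_sq_inv S hS h1 hvc hvS (hmem i c _ hc hci) r' (hmem j d _ hd hdj)
    · rcases hB j hj with ⟨d, hd, hdj⟩ | ⟨r', d, hd, hdj⟩
      · exact no_sq_inv S hS h1 hvc hvS (hmem j d _ hd hdj) r (hmem i c _ hc hci)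
      · by_cases hrr : r = r'
        · subst hrr
          exact hprop i j c d _ hij hd hci hdj
        · exact no_inv_inv S hS h1 hvc hvS r r' hrr (hmem i c _ hc hci) (hmem j d _ hd hdj)
  have hBE : ∀ i, ¬ A i → u i ∈ K⟮v⟯ := by
    intro i hi
    rcases hB i hi with ⟨c, hc, hci⟩ | ⟨r, c, hc, hci⟩
    · have h3 : u i = (u i - c • (v * v)) + c • (v * v) := by ring
      rw [h3]
      exact add_mem (hME _ hci) (K⟮v⟯.smul_mem (mul_mem (mem_adjoin_simple_self K v)
        (mem_adjoin_simple_self K v)))
    · have h3 : u i = (u i - c • (v - algebraMap K L r)⁻¹) + c • (v - algebraMap K L r)⁻¹ := by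
        ring
      rw [h3]
      exact add_mem (hME _ hci) (K⟮v⟯.smul_mem (inv_mem (sub_mem (mem_adjoin_simple_self K v)
        (IntermediateField.algebraMap_mem _ r))))
  -- type A
  have hAc : ∀ i : {i // A i}, ∃ (t : L) (p : K[X]), p.natDegree ≤ 2 ∧ t * t = aeval v p ∧
    (∀ q : K[X], p ≠ q * q) ∧ u i - t ∈ M := fun i => i.2
  choose t p hpd htt hsq hut using hAc
  have ht0 : ∀ i, t i ≠ 0 := by
    intro i h0
    apply hsq i 0
    rw [mul_zero]
    apply transcendental_iff_injective.1 hv
    rw [← htt, h0, mul_zero, map_zero]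
  have htE : ∀ i, t i ∉ K⟮v⟯ := by
    intro i hi
    obtain ⟨q, -, hq⟩ := exists_poly_of_sq hv (t i) hi (p i) (htt i)
    exact hsq i q hq
  have hpolyE : ∀ q : K[X], aeval v q ∈ K⟮v⟯ := by
    intro q
    have h3 : aeval v q = algebraMap K⟮v⟯ L (aeval (AdjoinSimple.gen K v) q) := by
      rw [← aeval_algebraMap_apply, AdjoinSimple.algebraMap_gen]
    rw [h3]
    exact (aeval (AdjoinSimple.gen K v) q).2
  let x : Option {i // A i} → L := fun o => o.elim 1 t
  have hli : LinearIndependent K⟮v⟯ x := by
    apply linearIndependent_sqrt h2L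
    · rintro (_ | i)
      · exact ⟨1, by rw [map_one]; exact one_mul 1⟩
      · exact ⟨⟨aeval v (p i), hpolyE _⟩, htt i⟩
    · rintro (_ | i)
      · exact one_ne_zero
      · exact ht0 i
    · rintro (_ | i) (_ | j) hij a
      · exact absurd rfl hij
      · intro h3
        have h4 : (1 : L) = (a : L) * t j := h3
        apply htE j
        have h5 : (a : L) ≠ 0 := by
          intro h6
          rw [h6, zero_mul] at h4
          exact one_ne_zero h4
        have h6 : t j = (a : L)⁻¹ := by
          field_simp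
          linear_combination -h4
        rw [h6]
        exact inv_mem a.2
      · intro h3
        have h4 : t i = (a : L) * 1 := h3
        apply htE i
        rw [h4, mul_one]
        exact a.2
      · intro h3
        have h4 : t i = (a : L) * t j := h3
        have hij' : (i : ι) ≠ j := fun h5 => hij (congrArg some (Subtype.ext h5))
        obtain ⟨q, -, hq⟩ := exists_poly_of_sq hv (t i * t j) (by
          rw [h4, mul_assoc, htt j]
          exact mul_mem a.2 (hpolyE _)) (p i * p j) (by
          rw [map_mul, ← htt i, ← htt j]; ring)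
        have hp0 : ∀ i, p i ≠ 0 := fun i h5 => hsq i 0 (by rw [h5, mul_zero])
        obtain ⟨c, hc⟩ := proportional_of_mul_eq_sq (p i) (p j) q (hp0 i) (hp0 j)
          (rootMultiplicity_le_one _ (hpd i) (hsq i)) (rootMultiplicity_le_one _ (hpd j) (hsq j)) hq
        obtain ⟨b, hb⟩ := IsAlgClosed.exists_pow_nat_eq c (n := 2) (by norm_num)
        have h5 : t i * t i = (algebraMap K L b * t j) * (algebraMap K L b * t j) := by
          rw [htt i, hc, map_mul, aeval_C, ← htt j, ← hb, map_pow]; ring
        have h6 : ∀ b' : K, t i = algebraMap K L b' * t j → False := by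
          intro b' hb'
          apply hp i j hij' b'
          have h7 : u i - b' • u j = (u i - t i) - b' • (u j - t j) := by
            rw [smul_sub, hb', Algebra.smul_def, Algebra.smul_def]
            ring
          rw [h7]
          exact sub_mem (hut i) (M.smul_mem _ (hut j))
        rcases mul_self_eq_mul_self_iff.mp h5 with h7 | h7
        · exact h6 b h7
        · apply h6 (-b)
          rw [h7, map_neg]; ring
  -- the relation over `K(v)`
  set sA := s.subtype A with hsA
  have hsplit : ∑ i ∈ s, g i • u i = ∑ i ∈ sA, g i • u i + ∑ i ∈ s.filter (fun i => ¬ A i), g i • u i := by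
    rw [← Finset.sum_filter_add_sum_filter_not s A]
    congr 1
    rw [hsA, Finset.sum_subtype_eq_sum_filter (f := fun i => g i • u i)]
  set e : L := -(∑ i ∈ sA, g i • t i) with he
  have heE : e ∈ K⟮v⟯ := by
    have h3 : e = ∑ i ∈ sA, g i • (u i - t i) + ∑ i ∈ s.filter (fun i => ¬ A i), g i • u i -
        ∑ i ∈ s, g i • u i := by
      rw [hsplit, he]
      simp only [smul_sub, Finset.sum_sub_distrib]
      ring
    rw [h3]
    refine sub_mem (add_mem (sum_mem fun i _ => ?_) (sum_mem fun i hi => ?_)) (hME _ hg)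
    · exact K⟮v⟯.smul_mem (hME _ (hut i))
    · exact K⟮v⟯.smul_mem (hBE i (Finset.mem_filter.mp hi).2)
  have hrel : ∑ o ∈ Finset.insertNone sA, (Option.elim o (⟨e, heE⟩ : K⟮v⟯)
      (fun i => algebraMap K K⟮v⟯ (g i))) • x o = 0 := by
    rw [Finset.sum_insertNone]
    change (e * 1 : L) + ∑ i ∈ sA, (algebraMap K K⟮v⟯ (g i)) • t i = 0
    rw [mul_one, he]
    have h3 : ∀ i ∈ sA, (algebraMap K K⟮v⟯ (g i)) • t i = g i • t i := by
      intro i _
      rw [algebraMap_smul]
    rw [Finset.sum_congr rfl h3, neg_add_cancel]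
  have hz := linearIndependent_iff'.mp hli _ _ hrel
  have hgA : ∀ i ∈ s, A i → g i = 0 := by
    intro i hi hAi
    have h3 := hz (some ⟨i, hAi⟩) (by
      rw [Finset.some_mem_insertNone, hsA, Finset.mem_subtype]
      exact hi)
    have h4 : algebraMap K K⟮v⟯ (g i) = 0 := h3
    exact (map_eq_zero _).mp h4
  intro i hi
  by_contra hgi
  have hAi : ¬ A i := fun h3 => hgi (hgA i hi h3)
  have h3 : ∑ j ∈ s, g j • u j = g i • u i := by
    apply Finset.sum_eq_single i
    · intro j hj hji
      have hAj : A j := by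
        by_contra h4
        exact hBB j i hji h4 hAi
      rw [hgA j hj hAj, zero_smul]
    · intro h4
      exact absurd hi h4
  rw [h3] at hg
  apply hn i
  have h4 : u i = (g i)⁻¹ • (g i • u i) := by rw [smul_smul, inv_mul_cancel₀ hgi, one_smul]
  rw [h4]
  exact M.smul_mem _ hg

end Pool.Agent.N770
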