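import Pool.Agent.N770.Six
import Pool.Agent.N770.Dir

/-!
# Linear independence of quadratic directions, for linear forms in logarithms
-/

set_option autoImplicit false

namespace Pool.Agent.N770

open Module
open Pool.Agent.H301R2.SSE (QB mem_QB Lt Lt_one Lt_log)

theorem sixExp_Lt : SixExp QB Lt := fun y hy w hw h1 h2 => six y hy w hw h1 h2

theorem transcendental_QB {v : ℂ} (hv : Transcendental ℚ v) : Transcendental QB v := by
  have halgc : Algebra.IsAlgebraic ℚ QB := algebraicClosure.isAlgebraic ℚ ℂ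
  intro h
  exact hv (h.restrictScalars ℚ)

theorem directions_logs (v : ℂ) (hvS : v ∈ Lt) (hv : Transcendental ℚ v) {ι : Type*} (u : ι → ℂ)
    (huS : ∀ i, u i ∈ Lt) (hq : ∀ i, QuadRel QB (u i) v)
    (hn : ∀ i, u i ∉ Submodule.span QB ({1, v} : Set ℂ))
    (hp : ∀ i j, i ≠ j → ∀ c : QB, u i - c • u j ∉ Submodule.span QB ({1, v} : Set ℂ)) :
    LinearIndependent QB (fun i => (Submodule.span QB ({1, v} : Set ℂ)).mkQ (u i)) := by
  have hac : IsAlgClosed QB := isAlgClosed_QB
  rw [linearIndependent_iff']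
  intro s g hg
  refine directions two_ne_zero Lt sixExp_Lt Lt_one v hvS (transcendental_QB hv) u huS hq hn hp s g ?_
  have h1 : (Submodule.span QB ({1, v} : Set ℂ)).mkQ (∑ i ∈ s, g i • u i) = 0 := by
    rw [map_sum, ← hg]
    refine Finset.sum_congr rfl fun i _ => ?_
    rw [map_smul]
  exact (Submodule.Quotient.mk_eq_zero _).mp h1

end Pool.Agent.N770
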