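import Pool.Agent.N770.Four5
import Pool.Agent.N770.DirLogs

/-!
# Logarithms of algebraic numbers: descent from algebraic to rational coefficients
-/

set_option autoImplicit false

namespace Pool.Agent.N770

open Module
open Pool.Agent.H301R2.SSE (QB mem_QB Lt Lt_one Lt_log)

/-- logarithms which are linearly independent over `ℚ` are so over the algebraic numbers -/
theorem li_logs {N : ℕ} (l : Fin N → ℂ) (halg : ∀ j, IsAlgebraic ℚ (Complex.exp (l j)))
    (hli : LinearIndependent ℚ l) : LinearIndependent QB l := by
  have h := (li_cons l halg hli).comp Fin.succ (Fin.succ_injective N)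
  have h2 : (Fin.cons 1 l : Fin (N + 1) → ℂ) ∘ Fin.succ = l := by
    funext i
    simp
  rwa [h2] at h

/-- descent of membership -/
theorem mem_of_mem_span (E : Submodule ℚ ℂ) [FiniteDimensional ℚ E]
    (hE : ∀ z ∈ E, IsAlgebraic ℚ (Complex.exp z)) {z : ℂ} (hz : IsAlgebraic ℚ (Complex.exp z))
    (hspan : z ∈ Submodule.span QB (E : Set ℂ)) : z ∈ E := by
  by_contra hcon
  let b := finBasis ℚ E
  let l : Fin (finrank ℚ E) → ℂ := fun i => ((b i : E) : ℂ)
  have hl : LinearIndependent ℚ l := b.linearIndependent.map' E.subtype E.ker_subtype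
  have hspanE : Submodule.span ℚ (Set.range l) = E := by
    have h1 : Set.range l = E.subtype '' Set.range b := by
      rw [← Set.range_comp]
      rfl
    rw [h1, ← Submodule.map_span, b.span_eq, Submodule.map_top, Submodule.range_subtype]
  have h2 : LinearIndependent ℚ (Fin.cons z l : Fin (finrank ℚ E + 1) → ℂ) := by
    rw [linearIndependent_finCons]
    refine ⟨hl, ?_⟩
    rw [hspanE]
    exact hcon
  have h3 := li_logs _ (by
    intro j
    refine Fin.cases ?_ (fun j => ?_) j
    · simpa using hz
    · simpa using hE _ (b j).2) h2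
  rw [linearIndependent_finCons] at h3
  apply h3.2
  refine (Submodule.span_le.mpr ?_) hspan
  intro w hw
  have hw' : w ∈ Submodule.span ℚ (Set.range l) := by rw [hspanE]; exact hw
  change w ∈ Submodule.span QB (Set.range l)
  induction hw' using Submodule.span_induction with
  | mem x hx => exact Submodule.subset_span hx
  | zero => exact zero_mem _
  | add x y hx' hy' hx hy =>
    rw [hspanE] at hx' hy'
    exact add_mem (hx hx') (hy hy')
  | smul r x hx' hx =>
    rw [hspanE] at hx'
    have h4 : r • x = (algebraMap ℚ QB r) • x := by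
      rw [Algebra.smul_def, Algebra.smul_def]
      rfl
    rw [h4]
    exact Submodule.smul_mem _ _ (hx hx')

/-- the quotient of two logarithms is rational or transcendental -/
theorem ratio_transcendental {x t : ℂ} (hx : x ≠ 0) (h1 : IsAlgebraic ℚ (Complex.exp x))
    (h2 : IsAlgebraic ℚ (Complex.exp (x * t))) (ht : ∀ k : ℚ, t ≠ algebraMap ℚ ℂ k) :
    Transcendental ℚ t := by
  intro hta
  have hli : LinearIndependent ℚ ![x, x * t] := by
    rw [LinearIndependent.pair_iff]
    intro a b hab
    rw [Algebra.smul_def, Algebra.smul_def] at hab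
    have h3 : x * (algebraMap ℚ ℂ a + algebraMap ℚ ℂ b * t) = 0 := by
      linear_combination hab
    have h4 := (mul_eq_zero.mp h3).resolve_left hx
    have hb : b = 0 := by
      by_contra hb
      apply ht (-(b⁻¹ * a))
      have h5 : algebraMap ℚ ℂ b ≠ 0 := by simpa using hb
      rw [map_neg, map_mul, map_inv₀]
      field_simp
      linear_combination h4
    rw [hb, map_zero, zero_mul, add_zero] at h4
    exact ⟨(map_eq_zero _).mp h4, hb⟩
  have h3 := li_logs ![x, x * t] (by
    intro j
    fin_cases j
    · exact h1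
    · exact h2) hli
  rw [LinearIndependent.pair_iff] at h3
  let τ : QB := ⟨t, mem_QB.mpr hta⟩
  have h4 := (h3 τ (-1) (by
    rw [neg_smul, one_smul, Algebra.smul_def]
    change t * x + -(x * t) = 0
    ring)).2
  simp at h4

/-- the products `x i * y j` of a counterexample to the four exponentials conjecture -/
theorem counter_rat {x y : Fin 2 → ℂ} (hx : LinearIndependent ℚ x) (hy : LinearIndependent ℚ y) :
    IsCounter ℚ (Matrix.of fun i j => x i * y j) := by
  have hx' : ∀ s t : ℚ, s • x 0 + t • x 1 = 0 → s = 0 ∧ t = 0 := by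
    intro s t hst
    have h := Fintype.linearIndependent_iff.mp hx ![s, t] (by
      rw [Fin.sum_univ_two]
      exact hst)
    exact ⟨h 0, h 1⟩
  have hy' : ∀ s t : ℚ, s • y 0 + t • y 1 = 0 → s = 0 ∧ t = 0 := by
    intro s t hst
    have h := Fintype.linearIndependent_iff.mp hy ![s, t] (by
      rw [Fin.sum_univ_two]
      exact hst)
    exact ⟨h 0, h 1⟩
  have hx0 : x 0 ≠ 0 := hx.ne_zero 0
  have hy0 : y 0 ≠ 0 := hy.ne_zero 0
  refine ⟨?_, ?_, ?_⟩
  · rw [Matrix.det_fin_two]
    simp only [Matrix.of_apply]
    ring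
  · rw [Fintype.linearIndependent_iff]
    intro g hg
    rw [Fin.sum_univ_two] at hg
    have h1 : g 0 • (x 0 * y 0) + g 1 • (x 1 * y 0) = 0 := congrFun hg 0
    have h2 : y 0 * (g 0 • x 0 + g 1 • x 1) = 0 := by
      rw [← h1]
      simp only [Algebra.smul_def]
      ring
    have h3 := hx' _ _ ((mul_eq_zero.mp h2).resolve_left hy0)
    intro i
    fin_cases i
    · exact h3.1
    · exact h3.2
  · rw [Fintype.linearIndependent_iff]
    intro g hg
    rw [Fin.sum_univ_two] at hg
    have h1 : g 0 • (x 0 * y 0) + g 1 • (x 0 * y 1) = 0 := congrFun hg 0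
    have h2 : x 0 * (g 0 • y 0 + g 1 • y 1) = 0 := by
      rw [← h1]
      simp only [Algebra.smul_def]
      ring
    have h3 := hy' _ _ ((mul_eq_zero.mp h2).resolve_left hx0)
    intro i
    fin_cases i
    · exact h3.1
    · exact h3.2

end Pool.Agent.N770
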