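import Pool.Agent.N770.Four5

/-!
# At most three matrices through an element
-/

set_option autoImplicit false

namespace Pool.Agent.N770

open Module

variable {K L : Type*} [Field K] [Field L] [Algebra K L]

theorem three_counter [IsAlgClosed K] [IsAlgClosed L] (h2 : (2 : K) ≠ 0) (V : Submodule K L)
    [FiniteDimensional K V] (hS : SixExp K V) (hV4 : finrank K V ≤ 4) (f : L) (hf : f ≠ 0)
    (M : Fin 4 → Matrix (Fin 2) (Fin 2) L) (hMV : ∀ k i j, M k i j ∈ V)
    (hM : ∀ k, IsCounter K (M k))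
    (hdep : ∀ k, ¬ LinearIndependent K ![M k 0 0, M k 0 1, M k 1 0, M k 1 1])
    (hfM : ∀ k, f ∈ entries K (M k)) :
    ∃ k l, k ≠ l ∧ entries K (M k) = entries K (M l) := by
  have hf' : f⁻¹ ≠ 0 := inv_ne_zero hf
  have hone : ∀ k, (1 : L) ∈ entries K (f⁻¹ • M k) := by
    intro k
    rw [entries_smul]
    have := mul_mem_scale (c := f⁻¹) (hfM k)
    rwa [inv_mul_cancel₀ hf] at this
  have hbad : ∀ k, Bad (entries K (f⁻¹ • M k)) := fun k =>
    ((hM k).smul hf').bad (dep_smul hf' (hdep k)) (hone k)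
  by_contra hcon
  push Not at hcon
  refine no_four h2 (scale f⁻¹ V) (hS.scale hf') (scale f⁻¹ V) le_rfl
    ((finrank_scale_le _ _).trans hV4) (fun k => entries K (f⁻¹ • M k)) hbad
    (fun k => entries_le fun i j => mul_mem_scale (hMV k i j)) ?_
  intro k l hkl
  by_contra hne
  apply hcon k l hne
  have hkl' : scale f⁻¹ (entries K (M k)) = scale f⁻¹ (entries K (M l)) := by
    rw [← entries_smul, ← entries_smul]
    exact hkl
  ext z
  have h3 : f⁻¹ * z ∈ scale f⁻¹ (entries K (M k)) ↔ f⁻¹ * z ∈ scale f⁻¹ (entries K (M l)) := by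
    rw [hkl']
  rw [mem_scale hf', mem_scale hf', inv_inv, mul_inv_cancel_left₀ hf] at h3
  exact h3

end Pool.Agent.N770
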