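import Pool.Agent.W256.Curve5

/-!
# The degree of a plane curve
-/

set_option autoImplicit false

namespace Pool.Agent.N770

open Polynomial Module IntermediateField Pool.Agent.W256

variable {K F : Type*} [Field K] [Field F] [Algebra K F]

/-- If `P(u, v) = 0` with `P ≠ 0` and the field is generated by `u` and `v`, then for almost all
constants `t` its degree over `K(u + t v)` is at most the degree of `P`. -/
theorem degree_le (u v : F) (P : MvPolynomial (Fin 2) K) (hP : P ≠ 0)
    (h : MvPolynomial.aeval ![u, v] P = 0) (hF : adjoin K {u, v} = (⊤ : IntermediateField K F)) :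
    ∃ θ : K[X], θ ≠ 0 ∧ ∀ t : K, θ.eval (-t) ≠ 0 →
      FiniteDimensional K⟮u + algebraMap K F t * v⟯ F ∧
        finrank K⟮u + algebraMap K F t * v⟯ F ≤ P.totalDegree := by
  classical
  set D := P.totalDegree with hD
  set S := P.support.filter (fun s => s 0 + s 1 = D) with hS
  have hdeg : ∀ s ∈ P.support, s 0 + s 1 ≤ D := by
    intro s hs
    have := MvPolynomial.le_totalDegree hs
    rwa [sum_eq_two] at this
  obtain ⟨s₀, hs₀, hs₀D⟩ : ∃ s₀ ∈ P.support, s₀ 0 + s₀ 1 = D := by
    obtain ⟨s₀, hs₀, h1⟩ := Finset.exists_mem_eq_sup P.support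
      (MvPolynomial.support_nonempty.mpr hP) (fun s => s.sum fun _ e => e)
    refine ⟨s₀, hs₀, ?_⟩
    rw [hD, MvPolynomial.totalDegree, h1]
    rw [sum_eq_two]
  let θ : K[X] := ∑ s ∈ S, C (P.coeff s) * X ^ (s 0)
  have hθc : θ.coeff (s₀ 0) = P.coeff s₀ := by
    rw [finsetSum_coeff]
    rw [Finset.sum_eq_single s₀]
    · simp
    · intro s hs hne
      rw [coeff_C_mul, coeff_X_pow, if_neg, mul_zero]
      intro h0
      apply hne
      have h1 := (Finset.mem_filter.mp hs).2
      ext i
      fin_cases i
      · exact h0.symm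
      · change s 1 = s₀ 1
        omega
    · intro h0
      exact absurd (Finset.mem_filter.mpr ⟨hs₀, hs₀D⟩) h0
  refine ⟨θ, ?_, ?_⟩
  · intro h0
    rw [h0, coeff_zero] at hθc
    exact (MvPolynomial.mem_support_iff.mp hs₀) hθc.symm
  · intro t ht
    set g := u + algebraMap K F t * v with hg
    set E := K⟮g⟯ with hE
    set g' : E := AdjoinSimple.gen K g with hg'
    have hgg : algebraMap E F g' = g := AdjoinSimple.algebraMap_gen K g
    let p : E[X] := ∑ s ∈ P.support, C (algebraMap K E (P.coeff s)) *
      (C g' - C (algebraMap K E t) * X) ^ (s 0) * X ^ (s 1)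
    have hlin : (C g' - C (algebraMap K E t) * X : E[X]).natDegree ≤ 1 := by
      refine (natDegree_sub_le _ _).trans ?_
      rw [natDegree_C]
      simp only [zero_le, sup_of_le_right]
      exact (natDegree_C_mul_le _ _).trans natDegree_X_le
    have hterm : ∀ s : Fin 2 →₀ ℕ, (C (algebraMap K E (P.coeff s)) *
        (C g' - C (algebraMap K E t) * X) ^ (s 0) * X ^ (s 1) : E[X]).natDegree ≤ s 0 + s 1 := by
      intro s
      refine (natDegree_mul_le).trans ?_
      refine add_le_add ?_ (natDegree_X_pow_le _)
      refine (natDegree_C_mul_le _ _).trans ?_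
      refine (natDegree_pow_le).trans ?_
      calc s 0 * _ ≤ s 0 * 1 := Nat.mul_le_mul_left _ hlin
        _ = s 0 := mul_one _
    have hpD : p.natDegree ≤ D :=
      natDegree_sum_le_of_forall_le _ _ fun s hs => (hterm s).trans (hdeg s hs)
    have hcoef : p.coeff D = algebraMap K E (θ.eval (-t)) := by
      have e1 : p.coeff D = ∑ s ∈ P.support, if s 0 + s 1 = D then
          algebraMap K E (P.coeff s * (-t) ^ (s 0)) else 0 := by
        rw [finsetSum_coeff]
        refine Finset.sum_congr rfl fun s hs => ?_
        split_ifs with hsD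
        · rw [← hsD, coeff_mul_X_pow, coeff_C_mul]
          have e2 := coeff_pow_of_natDegree_le (m := s 0) hlin
          rw [mul_one] at e2
          rw [e2]
          simp only [coeff_sub, coeff_C_mul, coeff_X_one, mul_one, coeff_C_succ, zero_sub]
          rw [← map_neg, ← map_pow, ← map_mul]
        · apply coeff_eq_zero_of_natDegree_lt
          have := hdeg s hs
          have := hterm s
          omega
      rw [e1, ← Finset.sum_filter, eval_finsetSum, map_sum]
      refine Finset.sum_congr rfl fun s _ => ?_
      simp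
    have hp0 : p ≠ 0 := by
      intro h0
      rw [h0, coeff_zero] at hcoef
      exact ht ((map_eq_zero _).mp hcoef.symm)
    have hpv : aeval v p = 0 := by
      rw [map_sum, ← h, MvPolynomial.aeval_def, MvPolynomial.eval₂_eq']
      refine Finset.sum_congr rfl fun s _ => ?_
      rw [map_mul, map_mul, map_pow, map_pow, map_sub, map_mul, aeval_C, aeval_C, aeval_C, aeval_X,
        hgg, ← IsScalarTower.algebraMap_apply, ← IsScalarTower.algebraMap_apply, hg,
        add_sub_cancel_right, Fin.prod_univ_two, mul_assoc]
      rfl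
    have halg : IsIntegral E v := IsAlgebraic.isIntegral ⟨p, hp0, hpv⟩
    have hm : (minpoly E v).natDegree ≤ D :=
      (natDegree_le_of_dvd (minpoly.dvd E v hpv) hp0).trans hpD
    have htop : E⟮v⟯ = ⊤ := by
      rw [eq_top_iff]
      intro x _
      have h1 : adjoin K {u, v} ≤ (E⟮v⟯).restrictScalars K := by
        rw [adjoin_le_iff]
        have hv : v ∈ E⟮v⟯ := mem_adjoin_simple_self E v
        have hgm : g ∈ E⟮v⟯ := by
          rw [← hgg]; exact IntermediateField.algebraMap_mem _ _
        have htm : algebraMap K F t ∈ E⟮v⟯ := by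
          rw [IsScalarTower.algebraMap_apply K E F]; exact IntermediateField.algebraMap_mem _ _
        rintro y (rfl | hy)
        · have := sub_mem hgm (mul_mem htm hv)
          rwa [hg, add_sub_cancel_right] at this
        · rw [Set.mem_singleton_iff] at hy
          rw [hy]
          exact hv
      rw [hF] at h1
      exact h1 (mem_top (x := x))
    have hfr : finrank E F = (minpoly E v).natDegree := by
      rw [← adjoin.finrank halg, htop, finrank_top']
    refine ⟨?_, hfr.le.trans hm⟩
    apply FiniteDimensional.of_finrank_pos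
    rw [hfr]
    exact minpoly.natDegree_pos halg

end Pool.Agent.N770
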