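import Pool.Agent.N770.Pts2
import Pool.Agent.N770.Deg
import Pool.Agent.W256.Curve6

/-!
# Elements of a space which are dependent with a fixed number in bounded degree
-/

set_option autoImplicit false

namespace Pool.Agent.N770

open Polynomial Module IntermediateField Pool.Agent.W256

variable {K L : Type*} [Field K] [Field L] [Algebra K L]

/-- `u` and `v` satisfy a nonzero polynomial relation of degree at most `D` -/
def Dep (K : Type*) {L : Type*} [Field K] [Field L] [Algebra K L] (D : ℕ) (u v : L) : Prop :=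
  ∃ P : MvPolynomial (Fin 2) K, P ≠ 0 ∧ P.totalDegree ≤ D ∧ MvPolynomial.aeval ![u, v] P = 0

/-- growth of the powers of the finite dimensional subspaces -/
def Grows (K : Type*) {L : Type*} [Field K] [Field L] [Algebra K L] (S : Submodule K L) : Prop :=
  ∀ V : Submodule K L, FiniteDimensional K V → V ≤ S → (1 : L) ∈ V → ∀ m, 1 ≤ m →
    finrank K (V ^ m : Submodule K L) + finrank K V ^ 2 / 4 ≤
      finrank K (V ^ (m + 1) : Submodule K L)

theorem algebraic_of_dep {u v : L} (hv : Transcendental K v) (P : MvPolynomial (Fin 2) K)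
    (hP : P ≠ 0) (h : MvPolynomial.aeval ![u, v] P = 0) : IsAlgebraic K⟮v⟯ u := by
  classical
  set v' : K⟮v⟯ := AdjoinSimple.gen K v with hv'
  have hvv : algebraMap K⟮v⟯ L v' = v := AdjoinSimple.algebraMap_gen K v
  let Q : (K⟮v⟯)[X] := ∑ s ∈ P.support, C (algebraMap K _ (P.coeff s) * v' ^ (s 1)) * X ^ (s 0)
  refine ⟨Q, ?_, ?_⟩
  · intro h0
    obtain ⟨s₀, hs₀⟩ := MvPolynomial.support_nonempty.mpr hP
    let q : K[X] := ∑ s ∈ P.support.filter (fun s => s 0 = s₀ 0), C (P.coeff s) * X ^ (s 1)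
    have e1 : aeval v' q = Q.coeff (s₀ 0) := by
      rw [map_sum, finsetSum_coeff, Finset.sum_filter]
      refine Finset.sum_congr rfl fun s _ => ?_
      rw [coeff_C_mul, coeff_X_pow]
      by_cases hs : s 0 = s₀ 0
      · rw [if_pos hs, if_pos hs.symm, map_mul, map_pow, aeval_C, aeval_X, mul_one]
      · rw [if_neg hs, if_neg (fun h => hs h.symm), mul_zero]
    have e2 : aeval v q = 0 := by
      rw [← hvv, aeval_algebraMap_apply, e1, h0, coeff_zero, map_zero]
    have e3 : q = 0 := by
      by_contra hq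
      exact hv ⟨q, hq, e2⟩
    have e4 : q.coeff (s₀ 1) = P.coeff s₀ := by
      rw [finsetSum_coeff, Finset.sum_eq_single s₀]
      · simp
      · intro s hs hne
        rw [coeff_C_mul, coeff_X_pow, if_neg, mul_zero]
        intro h5
        apply hne
        have h6 := (Finset.mem_filter.mp hs).2
        ext i
        fin_cases i
        · exact h6
        · exact h5.symm
      · intro h5
        exact absurd (show s₀ ∈ P.support.filter (fun s => s 0 = s₀ 0) from
          Finset.mem_filter.mpr ⟨hs₀, rfl⟩) h5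
    rw [e3, coeff_zero] at e4
    exact (MvPolynomial.mem_support_iff.mp hs₀) e4.symm
  · rw [map_sum, ← h, MvPolynomial.aeval_def, MvPolynomial.eval₂_eq']
    refine Finset.sum_congr rfl fun s _ => ?_
    rw [map_mul, map_pow, aeval_C, aeval_X, map_mul, map_pow, hvv,
      ← IsScalarTower.algebraMap_apply, Fin.prod_univ_two]
    change algebraMap K L (P.coeff s) * v ^ (s 1) * u ^ (s 0) =
      algebraMap K L (P.coeff s) * (u ^ (s 0) * v ^ (s 1))
    ring

/-- integrality descends to subfields -/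
theorem IntAt.of_val (F : IntermediateField K L) (g h : F) (m : ℕ)
    (H : IntAt K (g : L) (h : L) m) : IntAt K g h m := by
  have hcomp : (mapRingHom (algebraMap F L)).comp (rees K g) = rees K (g : L) := by
    apply MvPolynomial.ringHom_ext
    · intro a
      rw [RingHom.comp_apply, rees_C, rees_C, coe_mapRingHom, map_C]
      rfl
    · intro i
      fin_cases i
      · change mapRingHom (algebraMap F L) (rees K g (MvPolynomial.X 0)) =
          rees K (g : L) (MvPolynomial.X 0)
        rw [rees_X0, rees_X0, coe_mapRingHom, map_X]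
      · change mapRingHom (algebraMap F L) (rees K g (MvPolynomial.X 1)) =
          rees K (g : L) (MvPolynomial.X 1)
        rw [rees_X1, rees_X1, coe_mapRingHom, Polynomial.map_mul, map_X, map_C]
        rfl
  rw [IntAt] at H ⊢
  apply RingHom.IsIntegralElem.of_map (g := mapRingHom (algebraMap F L))
  · exact map_injective _ (algebraMap F L).injective
  · rw [hcomp, map_mul, map_pow]
    rw [coe_mapRingHom, map_C, map_X]
    exact H

/-- **The upper bound.** -/
theorem sq_le [IsAlgClosed K] (S : Submodule K L) (hS : Grows K S) (V : Submodule K L)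
    [hVf : FiniteDimensional K V] (hVS : V ≤ S) (h1 : (1 : L) ∈ V) (u v : L)
    (hv : Transcendental K v) (hVF : ∀ x ∈ V, x ∈ adjoin K {u, v}) (D : ℕ) (huv : Dep K D u v)
    (T : Finset K) (hT : ∀ t ∉ T, V ≤ intSub K (u + algebraMap K L t * v) 1) :
    finrank K V ^ 2 / 4 ≤ D := by
  classical
  obtain ⟨P, hP0, hPD, hP⟩ := huv
  set F : IntermediateField K L := adjoin K {u, v} with hF
  have huF : u ∈ F := subset_adjoin _ _ (Set.mem_insert _ _)
  have hvF : v ∈ F := subset_adjoin _ _ (Set.mem_insert_of_mem _ rfl)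
  let u' : F := ⟨u, huF⟩
  let v' : F := ⟨v, hvF⟩
  have hP' : MvPolynomial.aeval ![u', v'] P = 0 := by
    apply Subtype.val_injective
    have h2 := MvPolynomial.aeval_algebraMap_apply (A := F) (B := L) ![u', v'] P
    have h3 : (algebraMap F L) ∘ ![u', v'] = ![u, v] := by
      funext i
      fin_cases i <;> rfl
    rw [h3, hP] at h2
    exact h2.symm
  have hFtop : adjoin K {u', v'} = (⊤ : IntermediateField K F) := by
    rw [eq_top_iff]
    intro x _
    have h2 : (adjoin K {u', v'}).map F.val = adjoin K {u, v} := by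
      rw [adjoin_map, Set.image_pair]
      rfl
    have h3 : (x : L) ∈ (adjoin K {u', v'}).map F.val := by
      rw [h2]; exact x.2
    obtain ⟨y, hy, hyx⟩ := h3
    have : y = x := Subtype.val_injective hyx
    rwa [← this]
  have hv't : Transcendental K v' := by
    intro h
    apply hv
    exact h.algebraMap (A := L)
  obtain ⟨θ, hθ0, hθ⟩ := degree_le u' v' P hP0 hP' hFtop
  obtain ⟨t, ht⟩ := Infinite.exists_notMem_finset (T ∪ θ.roots.toFinset.image (fun x => -x))
  rw [Finset.mem_union, not_or] at ht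
  have ht1 : θ.eval (-t) ≠ 0 := by
    intro h0
    apply ht.2
    rw [Finset.mem_image]
    refine ⟨-t, ?_, neg_neg t⟩
    rw [Multiset.mem_toFinset]
    exact (mem_roots hθ0).mpr h0
  obtain ⟨hfin, hdeg⟩ := hθ t ht1
  have hVI := hT t ht.1
  set g' : F := u' + algebraMap K F t * v' with hg'
  have hg't : Transcendental K g' := by
    intro h
    apply hv't
    have h2 : Algebra.IsAlgebraic K K⟮g'⟯ := isAlgebraic_adjoin_simple h.isIntegral
    have h3 : Algebra.IsAlgebraic K F := Algebra.IsAlgebraic.trans K K⟮g'⟯ F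
    exact Algebra.IsAlgebraic.isAlgebraic v'
  set V' : Submodule K F := V.comap F.val.toLinearMap with hV'
  have hmapV : V'.map F.val.toLinearMap = V := by
    rw [hV', Submodule.map_comap_eq, inf_eq_right]
    intro x hx
    exact ⟨⟨x, hVF x hx⟩, rfl⟩
  have hinj : Function.Injective F.val.toLinearMap := Subtype.val_injective
  have hmap : ∀ W : Submodule K F, finrank K (W.map F.val.toLinearMap) = finrank K W :=
    fun W => (Submodule.equivMapOfInjective F.val.toLinearMap hinj W).finrank_eq.symm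
  have hpow : ∀ k, (V' ^ k).map F.val.toLinearMap = V ^ k := by
    intro k
    rw [← hmapV]
    exact Submodule.map_pow V' F.val k
  have hV'f : FiniteDimensional K V' := by
    have e := Submodule.equivMapOfInjective F.val.toLinearMap hinj V'
    have : FiniteDimensional K (V'.map F.val.toLinearMap) := by rw [hmapV]; exact hVf
    exact LinearEquiv.finiteDimensional e.symm
  have hV'I : V' ≤ intSub K g' 1 := by
    intro x hx
    rw [mem_intSub]
    apply IntAt.of_val
    exact hVI hx
  have hub := finrank_pow_le g' hg't V' hV'I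
  have hub' : ∀ m, finrank K (V ^ m : Submodule K L) ≤ m * D + 1 := by
    intro m
    rw [← hpow, hmap]
    exact (hub m).trans (Nat.add_le_add_right (Nat.mul_le_mul_left m (hdeg.trans hPD)) 1)
  have hgrow := hS V hVf hVS h1
  set c := finrank K V ^ 2 / 4 with hc
  have hlow : ∀ m, m * c ≤ finrank K (V ^ (m + 1) : Submodule K L) := by
    intro m
    induction m with
    | zero => simp
    | succ m ih =>
      have := hgrow (m + 1) (Nat.succ_le_succ (Nat.zero_le m))
      calc (m + 1) * c = m * c + c := by ring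
        _ ≤ _ := Nat.add_le_add_right ih c
        _ ≤ _ := this
  have h1 := (hlow (D + 2)).trans (hub' (D + 3))
  by_contra h2
  push Not at h2
  have h3 : (D + 2) * (D + 1) ≤ (D + 2) * c := Nat.mul_le_mul_left _ h2
  have h4 : (D + 2) * (D + 1) ≤ (D + 3) * D + 1 := h3.trans h1
  nlinarith

/-- finitely many fields between `K(v)` and a finite extension, as subspaces of `V` -/
theorem finite_traces [CharZero K] (V : Submodule K L) [FiniteDimensional K V] (v : L)
    (halg : ∀ x ∈ V, IsAlgebraic K⟮v⟯ x) :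
    {U : Submodule K L | ∃ E : IntermediateField K⟮v⟯ L, (∃ u ∈ V, E = adjoin K⟮v⟯ {u}) ∧
      U = V ⊓ Subalgebra.toSubmodule (E.restrictScalars K).toSubalgebra}.Finite := by
  classical
  obtain ⟨S, hS⟩ := (IsNoetherian.noetherian (⊤ : Submodule K V)).map V.subtype
  rw [Submodule.map_subtype_top] at hS
  set F : IntermediateField K⟮v⟯ L := adjoin K⟮v⟯ (S : Set L) with hF
  have hSV : ∀ x ∈ S, x ∈ V := by
    intro x hx
    rw [← hS]; exact Submodule.subset_span hx
  have hVF : ∀ x ∈ V, x ∈ F := by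
    intro x hx
    rw [← hS] at hx
    have h1 : Submodule.span K (S : Set L) ≤
        Subalgebra.toSubmodule (F.restrictScalars K).toSubalgebra := by
      rw [Submodule.span_le]
      intro y hy
      exact subset_adjoin _ _ hy
    exact h1 hx
  have hfd : FiniteDimensional K⟮v⟯ F := by
    apply finiteDimensional_adjoin
    intro x hx
    exact (halg x (hSV x hx)).isIntegral
  have hfin : Finite (IntermediateField K⟮v⟯ F) :=
    Field.finite_intermediateField_of_exists_primitive_element _ _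
      (Field.exists_primitive_element K⟮v⟯ F)
  refine (Set.finite_range (fun E : IntermediateField K⟮v⟯ F =>
    V ⊓ Subalgebra.toSubmodule ((lift E).restrictScalars K).toSubalgebra)).subset ?_
  rintro U ⟨E, ⟨u, hu, rfl⟩, rfl⟩
  have hle : adjoin K⟮v⟯ {u} ≤ F := by
    rw [adjoin_simple_le_iff]
    exact hVF u hu
  refine ⟨restrict hle, ?_⟩
  change V ⊓ Subalgebra.toSubmodule ((lift (restrict hle)).restrictScalars K).toSubalgebra = _
  rw [lift_restrict]

/-- **The induction step.** If `dim V` is large, the elements of `V` dependent with `v` in degree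
`D` lie in finitely many proper subspaces. -/
theorem cover_step [IsAlgClosed K] [CharZero K] (S : Submodule K L) (hS : Grows K S) (v : L)
    (hv : Transcendental K v) (D : ℕ) (V : Submodule K L) [FiniteDimensional K V] (hVS : V ≤ S)
    (h1 : (1 : L) ∈ V) (hD : D < finrank K V ^ 2 / 4) :
    ∃ 𝒰 : Set (Submodule K L), 𝒰.Finite ∧ (∀ U ∈ 𝒰, U ≤ V ∧ ¬ V ≤ U ∧ 1 ∈ U ∧ (v ∈ V → v ∈ U)) ∧
      ∀ u ∈ V, Dep K D u v → ∃ U ∈ 𝒰, u ∈ U := by
  classical
  by_cases halg : ∀ x ∈ V, IsAlgebraic K⟮v⟯ x
  swap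
  · set A : Submodule K L :=
      Subalgebra.toSubmodule ((algebraicClosure K⟮v⟯ L).restrictScalars K).toSubalgebra with hA
    have hAm : ∀ x, x ∈ A ↔ IsAlgebraic K⟮v⟯ x := fun x => mem_algebraicClosure_iff
    refine ⟨{V ⊓ A}, Set.finite_singleton _, ?_, ?_⟩
    · rintro U rfl
      refine ⟨inf_le_left, ?_, ⟨h1, (hAm 1).mpr isAlgebraic_one⟩, fun hvV => ⟨hvV, ?_⟩⟩
      · intro hle
        apply halg
        intro x hx
        exact (hAm x).mp (hle hx).2
      · exact (hAm v).mpr (isAlgebraic_algebraMap (AdjoinSimple.gen K v))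
    · rintro u hu ⟨P, hP0, -, hP⟩
      exact ⟨_, rfl, hu, (hAm u).mpr (algebraic_of_dep hv P hP0 hP)⟩
  · -- the ambient space
    set W : Submodule K L := V ⊔ K ∙ v with hW
    have hVW : V ≤ W := le_sup_left
    have hvW : v ∈ W := (le_sup_right : K ∙ v ≤ W) (Submodule.mem_span_singleton_self v)
    have hWalg : ∀ x ∈ W, IsAlgebraic K⟮v⟯ x := by
      intro x hx
      obtain ⟨y, hy, z, hz, rfl⟩ := Submodule.mem_sup.mp hx
      obtain ⟨c, rfl⟩ := Submodule.mem_span_singleton.mp hz
      refine (halg y hy).add ?_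
      have h2 : c • v = algebraMap K⟮v⟯ L (c • AdjoinSimple.gen K v) := by
        rw [Algebra.smul_def, Algebra.smul_def, map_mul, ← IsScalarTower.algebraMap_apply,
          AdjoinSimple.algebraMap_gen]
      rw [h2]
      exact isAlgebraic_algebraMap _
    have hdep : ∀ x ∈ W, ∀ y ∈ W, ∃ P : MvPolynomial (Fin 2) K, P ≠ 0 ∧
        MvPolynomial.aeval ![x, y] P = 0 := by
      intro x hx y hy
      let A : IntermediateField K⟮v⟯ L := algebraicClosure K⟮v⟯ L
      have hxA : x ∈ A := mem_algebraicClosure_iff.mpr (hWalg x hx)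
      have hyA : y ∈ A := mem_algebraicClosure_iff.mpr (hWalg y hy)
      let B : IntermediateField K L := A.restrictScalars K
      let v' : B := ⟨v, mem_algebraicClosure_iff.mpr (hWalg v hvW)⟩
      have hBalg : Algebra.IsAlgebraic K⟮v'⟯ B := by
        constructor
        intro z
        have hz : IsAlgebraic K⟮v⟯ (z : L) := mem_algebraicClosure_iff.mp z.2
        have hmapadj : K⟮v'⟯.map B.val = K⟮v⟯ := by
          rw [adjoin_map, Set.image_singleton]
          rfl
        let e : K⟮v'⟯ ≃ₐ[K] K⟮v⟯ := (equivMap K⟮v'⟯ B.val).trans (equivOfEq hmapadj)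
        refine IsAlgebraic.of_ringHom_of_comp_eq (R := K⟮v'⟯) (S := K⟮v⟯) (A := B) (B := L) (a := z)
          (e : K⟮v'⟯ →+* K⟮v⟯) (algebraMap B L) hz e.surjective (algebraMap B L).injective ?_
        apply RingHom.ext
        intro a
        rfl
      obtain ⟨P, hP0, hP⟩ := dep_of_algebraic v' hBalg ⟨x, hxA⟩ ⟨y, hyA⟩
      refine ⟨P, hP0, ?_⟩
      have h2 := MvPolynomial.aeval_algebraMap_apply (A := B) (B := L)
        ![(⟨x, hxA⟩ : B), ⟨y, hyA⟩] P
      have h3 : (algebraMap B L) ∘ ![(⟨x, hxA⟩ : B), ⟨y, hyA⟩] = ![x, y] := by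
        funext i
        fin_cases i <;> rfl
      rw [h3, hP, map_zero] at h2
      exact h2
    obtain ⟨𝒰, h𝒰f, h𝒰, hgen⟩ := exists_subspaces W (hVW h1) v hvW hdep
    have htr := finite_traces V v halg
    set 𝒯 : Set (Submodule K L) := {U : Submodule K L | ∃ E : IntermediateField K⟮v⟯ L,
      (∃ u ∈ V, E = adjoin K⟮v⟯ {u}) ∧
      U = V ⊓ Subalgebra.toSubmodule (E.restrictScalars K).toSubalgebra} with h𝒯
    refine ⟨((fun U => V ⊓ U) '' 𝒰) ∪ {U ∈ 𝒯 | ¬ V ≤ U}, (h𝒰f.image _).union
      (htr.subset fun U hU => hU.1), ?_, ?_⟩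
    · rintro U (⟨U, hU, rfl⟩ | ⟨⟨E, -, rfl⟩, hU⟩)
      · obtain ⟨h2, h3, h4, h5⟩ := h𝒰 U hU
        refine ⟨inf_le_left, ?_, ⟨h1, h4⟩, fun hvV => ⟨hvV, h5⟩⟩
        intro hle
        apply h3
        rw [hW, sup_le_iff]
        refine ⟨hle.trans inf_le_right, ?_⟩
        rw [Submodule.span_singleton_le_iff_mem]
        exact h5
      · refine ⟨inf_le_left, hU, ⟨h1, ?_⟩, fun hvV => ⟨hvV, ?_⟩⟩
        · exact E.one_mem
        · have h6 : algebraMap K⟮v⟯ L (AdjoinSimple.gen K v) ∈ E :=
            IntermediateField.algebraMap_mem _ _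
          rw [AdjoinSimple.algebraMap_gen] at h6
          exact h6
    · intro u hu hDep
      by_contra hcon
      push Not at hcon
      have hc1 : ∀ U ∈ 𝒰, u ∉ U := by
        intro U hU huU
        exact hcon (V ⊓ U) (Or.inl ⟨U, hU, rfl⟩) ⟨hu, huU⟩
      obtain ⟨T, hT⟩ := hgen u (hVW hu) hc1
      have hc2 : V ≤ V ⊓ Subalgebra.toSubmodule
          ((adjoin K⟮v⟯ {u}).restrictScalars K).toSubalgebra := by
        by_contra h2
        refine hcon _ (Or.inr ⟨⟨adjoin K⟮v⟯ {u}, ⟨u, hu, rfl⟩, rfl⟩, h2⟩) ⟨hu, ?_⟩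
        exact mem_adjoin_simple_self _ u
      have hc3 : ∀ x ∈ V, x ∈ adjoin K {u, v} := by
        intro x hx
        have h2 : x ∈ (adjoin K⟮v⟯ {u}).restrictScalars K := (hc2 hx).2
        rw [restrictScalars_adjoin] at h2
        have h3 : adjoin K ((K⟮v⟯ : Set L) ∪ {u}) ≤ adjoin K {u, v} := by
          rw [adjoin_le_iff]
          rintro y (hy | hy)
          · have h4 : K⟮v⟯ ≤ adjoin K {u, v} := by
              rw [adjoin_simple_le_iff]
              exact subset_adjoin _ _ (Set.mem_insert_of_mem _ rfl)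
            exact h4 hy
          · exact subset_adjoin _ _ (Or.inl hy)
        exact h3 h2
      have := sq_le S hS V hVS h1 u v hv hc3 D hDep T (fun t ht => hVW.trans (hT t ht))
      omega

/-- **The covering theorem.** -/
theorem cover [IsAlgClosed K] [CharZero K] (S : Submodule K L) (hS : Grows K S) (v : L)
    (hv : Transcendental K v) (D : ℕ) : ∀ (n : ℕ) (V : Submodule K L), FiniteDimensional K V →
    V ≤ S → (1 : L) ∈ V → finrank K V = n →
    ∃ 𝒲 : Set (Submodule K L), 𝒲.Finite ∧
      (∀ W ∈ 𝒲, W ≤ V ∧ 1 ∈ W ∧ (v ∈ V → v ∈ W) ∧ finrank K W ^ 2 / 4 ≤ D) ∧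
      ∀ u ∈ V, Dep K D u v → ∃ W ∈ 𝒲, u ∈ W := by
  intro n
  induction n using Nat.strong_induction_on with
  | _ n ih =>
    intro V hVf hVS h1 hn
    by_cases hD : finrank K V ^ 2 / 4 ≤ D
    · refine ⟨{V}, Set.finite_singleton _, ?_, fun u hu _ => ⟨V, rfl, hu⟩⟩
      rintro W rfl
      exact ⟨le_rfl, h1, id, hD⟩
    · push Not at hD
      obtain ⟨𝒰, h𝒰f, h𝒰, hcov⟩ := cover_step S hS v hv D V hVS h1 hD
      have hlt : ∀ U ∈ 𝒰, finrank K U < n := by
        intro U hU
        obtain ⟨h2, h3, -, -⟩ := h𝒰 U hU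
        rw [← hn]
        exact Submodule.finrank_lt_finrank_of_lt (lt_of_le_not_ge h2 h3)
      choose! 𝒲 h𝒲f h𝒲 h𝒲c using fun U (hU : U ∈ 𝒰) => ih (finrank K U) (hlt U hU) U
        (Submodule.finiteDimensional_of_le (h𝒰 U hU).1) ((h𝒰 U hU).1.trans hVS)
        (h𝒰 U hU).2.2.1 rfl
      refine ⟨⋃ U ∈ 𝒰, 𝒲 U, h𝒰f.biUnion h𝒲f, ?_, ?_⟩
      · intro W hW
        rw [Set.mem_iUnion₂] at hW
        obtain ⟨U, hU, hWU⟩ := hW
        obtain ⟨h2, h3, h4, h5⟩ := h𝒲 U hU W hWU
        obtain ⟨h6, -, -, h7⟩ := h𝒰 U hU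
        exact ⟨h2.trans h6, h3, fun hvV => h4 (h7 hvV), h5⟩
      · intro u hu hDep
        obtain ⟨U, hU, huU⟩ := hcov u hu hDep
        obtain ⟨W, hW, huW⟩ := h𝒲c U hU u huU hDep
        exact ⟨W, Set.mem_biUnion hU hW, huW⟩

end Pool.Agent.N770
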