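import Pool.Agent.N770.Hom

/-!
# Pairs `y`, `u y` in a space with the product bound, where `u` varies
-/

set_option autoImplicit false

namespace Pool.Agent.N770

open Module

variable {K L : Type*} [Field K] [Field L] [Algebra K L]

section kernel

variable (X W : Submodule K L) [FiniteDimensional K X]

/-- the tensor product of `X` and `W`, in coordinates -/
abbrev Ten : Type _ := Fin (finrank K X) → W

/-- pure tensors -/
noncomputable def ten (x : X) (w : W) : Ten X W := fun j => (finBasis K X).repr x j • w

/-- the multiplication map -/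
noncomputable def mulT : Ten X W →ₗ[K] L :=
  ∑ j, (LinearMap.mulLeft K ((finBasis K X j : X) : L)) ∘ₗ W.subtype ∘ₗ LinearMap.proj j

theorem mulT_apply (a : Ten X W) : mulT X W a = ∑ j, ((finBasis K X j : X) : L) * (a j : L) := by
  simp [mulT]

theorem mulT_ten (x : X) (w : W) : mulT X W (ten X W x w) = (x : L) * w := by
  rw [mulT_apply]
  have h1 : ((x : X) : L) = ∑ j, (finBasis K X).repr x j • ((finBasis K X j : X) : L) := by
    have h := congrArg X.subtype ((finBasis K X).sum_repr x)
    rw [map_sum] at h
    exact h.symm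
  rw [h1, Finset.sum_mul]
  refine Finset.sum_congr rfl fun j _ => ?_
  simp [ten]

/-- a linear functional on `X` applied to the first factor -/
noncomputable def contr (f : X →ₗ[K] K) : Ten X W →ₗ[K] W :=
  ∑ j, f (finBasis K X j) • LinearMap.proj j

theorem contr_ten (f : X →ₗ[K] K) (x : X) (w : W) :
    contr X W f (ten X W x w) = f x • w := by
  have h1 : f x = ∑ j, (finBasis K X).repr x j * f (finBasis K X j) := by
    have h := congrArg f ((finBasis K X).sum_repr x)
    rw [map_sum] at h
    rw [← h]
    exact Finset.sum_congr rfl fun j _ => by rw [map_smul, smul_eq_mul]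
  simp only [contr, LinearMap.sum_apply, LinearMap.smul_apply, LinearMap.proj_apply, ten]
  rw [h1, Finset.sum_smul]
  refine Finset.sum_congr rfl fun j _ => ?_
  rw [smul_smul, mul_comm]

theorem range_mulT : LinearMap.range (mulT X W) = X * W := by
  apply le_antisymm
  · rintro _ ⟨a, rfl⟩
    rw [mulT_apply]
    exact Submodule.sum_mem _ fun j _ => Submodule.mul_mem_mul (finBasis K X j).2 (a j).2
  · rw [Submodule.mul_le]
    intro x hx w hw
    exact ⟨ten X W ⟨x, hx⟩ ⟨w, hw⟩, mulT_ten X W _ _⟩

/-- independent elements in the kernel of the multiplication map -/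
theorem ker_bound [FiniteDimensional K W]
    {ι : Type*} [Fintype ι] (k : ι → Ten X W) (hk : ∀ i, mulT X W (k i) = 0)
    (hli : LinearIndependent K k) :
    finrank K (X * W : Submodule K L) + Fintype.card ι ≤ finrank K X * finrank K W := by
  have h1 := LinearMap.finrank_range_add_finrank_ker (mulT X W)
  rw [range_mulT, Module.finrank_pi_fintype, Finset.sum_const, Finset.card_univ,
    Fintype.card_fin, smul_eq_mul] at h1
  have h2 : Fintype.card ι ≤ finrank K (LinearMap.ker (mulT X W)) := by
    have h3 : LinearIndependent K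
        (fun i => (⟨k i, LinearMap.mem_ker.mpr (hk i)⟩ : LinearMap.ker (mulT X W))) := by
      apply LinearIndependent.of_comp (LinearMap.ker (mulT X W)).subtype
      exact hli
    exact h3.fintype_card_le_finrank
  omega

end kernel

/-- linear exponents -/
theorem linear_exps {S : Submodule K L} (hS : ProdLe K S) (X : Submodule K L)
    [FiniteDimensional K X] (h1 : (1 : L) ∈ X) {ι : Type*} [Fintype ι] (y u : ι → L)
    (hy : LinearIndependent K y) (hyS : ∀ i, y i ∈ S) (huX : ∀ i, u i ∈ X)
    (hu : ∀ i, ∀ c : K, u i ≠ algebraMap K L c) (huy : ∀ i, u i * y i ∈ S) :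
    Fintype.card ι ≤ finrank K X * (finrank K X - 1) := by
  classical
  let W : Submodule K L := Submodule.span K (Set.range y ∪ Set.range (fun i => u i * y i))
  have hWf : FiniteDimensional K W := by
    apply FiniteDimensional.span_of_finite
    exact (Set.finite_range _).union (Set.finite_range _)
  have hyW : ∀ i, y i ∈ W := fun i => Submodule.subset_span (Or.inl ⟨i, rfl⟩)
  have hzW : ∀ i, u i * y i ∈ W := fun i => Submodule.subset_span (Or.inr ⟨i, rfl⟩)
  have hWS : W ≤ S := by
    rw [Submodule.span_le]
    rintro _ (⟨i, rfl⟩ | ⟨i, rfl⟩)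
    · exact hyS i
    · exact huy i
  let k : ι → Ten X W := fun i =>
    ten X W ⟨u i, huX i⟩ ⟨y i, hyW i⟩ - ten X W ⟨1, h1⟩ ⟨u i * y i, hzW i⟩
  have hk : ∀ i, mulT X W (k i) = 0 := by
    intro i
    simp only [k]
    rw [map_sub, mulT_ten, mulT_ten, one_mul, sub_self]
  have hli : LinearIndependent K k := by
    rw [Fintype.linearIndependent_iff]
    intro c hc i
    -- a functional vanishing at `1` and not at `u i`
    have hui : (⟨u i, huX i⟩ : X) ∉ Submodule.span K {(⟨1, h1⟩ : X)} := by
      intro h
      obtain ⟨a, ha⟩ := Submodule.mem_span_singleton.mp h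
      apply hu i a
      have := congrArg Subtype.val ha
      simp only [SetLike.mk_smul_mk] at this
      rw [← this, Algebra.smul_def, mul_one]
    obtain ⟨f, hf1, hf2⟩ := Submodule.exists_le_ker_of_notMem hui
    have hf3 : f ⟨1, h1⟩ = 0 := hf2 (Submodule.mem_span_singleton_self _)
    have h2 := congrArg (contr X W f) hc
    rw [map_sum, map_zero] at h2
    have h3 : ∑ j, (c j * f ⟨u j, huX j⟩) • (⟨y j, hyW j⟩ : W) = 0 := by
      rw [← h2]
      refine Finset.sum_congr rfl fun j _ => ?_
      simp only [k]
      rw [map_smul, map_sub, contr_ten, contr_ten, hf3, zero_smul, sub_zero, smul_smul]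
    have hyi : LinearIndependent K (fun j => (⟨y j, hyW j⟩ : W)) := by
      apply LinearIndependent.of_comp W.subtype
      exact hy
    have h4 := Fintype.linearIndependent_iff.mp hyi _ h3 i
    rcases mul_eq_zero.mp h4 with h | h
    · exact h
    · exact absurd h hf1
  have h5 := ker_bound X W k hk hli
  have h6 := hS X W inferInstance hWf hWS
  omega

section polynomials

open Polynomial

/-- the values of the polynomials of degree less than `n` -/
noncomputable def polV (K : Type*) {L : Type*} [Field K] [Field L] [Algebra K L] (t : L) (n : ℕ) :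
    Submodule K L :=
  (degreeLT K n).map (aeval t : K[X] →ₐ[K] L).toLinearMap

theorem mem_polV {t : L} {n : ℕ} {q : K[X]} (hq : q ∈ degreeLT K n) : aeval t q ∈ polV K t n :=
  ⟨q, hq, rfl⟩

theorem aeval_inj {t : L} (ht : Transcendental K t) :
    Function.Injective (aeval t : K[X] →ₐ[K] L).toLinearMap :=
  transcendental_iff_injective.mp ht

/-- polynomials and values -/
noncomputable def polEquiv {t : L} (ht : Transcendental K t) (n : ℕ) :
    degreeLT K n ≃ₗ[K] polV K t n :=
  Submodule.equivMapOfInjective _ (aeval_inj ht) _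

instance finite_polV (t : L) (n : ℕ) : FiniteDimensional K (polV K t n) := by
  have : FiniteDimensional K (degreeLT K n) :=
    LinearEquiv.finiteDimensional (degreeLTEquiv K n).symm
  unfold polV
  infer_instance

theorem finrank_polV {t : L} (ht : Transcendental K t) (n : ℕ) : finrank K (polV K t n) = n := by
  rw [← (polEquiv ht n).finrank_eq, (degreeLTEquiv K n).finrank_eq, Module.finrank_fin_fun]

/-- coefficients -/
noncomputable def coefV {t : L} (ht : Transcendental K t) (n m : ℕ) : polV K t n →ₗ[K] K :=
  lcoeff K m ∘ₗ (degreeLT K n).subtype ∘ₗ (polEquiv ht n).symm.toLinearMap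

theorem coefV_apply {t : L} (ht : Transcendental K t) (n m : ℕ) {q : K[X]}
    (hq : q ∈ degreeLT K n) (h : aeval t q ∈ polV K t n) :
    coefV ht n m ⟨aeval t q, h⟩ = q.coeff m := by
  have h1 : (⟨aeval t q, h⟩ : polV K t n) = polEquiv ht n ⟨q, hq⟩ := by
    apply Subtype.ext
    rfl
  rw [h1]
  simp [coefV]

/-- polynomial exponents -/
theorem poly_exps {S : Submodule K L} (hS : ProdLe K S) {t : L} (ht : Transcendental K t)
    {ι : Type*} [Fintype ι] (y : ι → L) (P : ι → K[X]) (D k : ℕ)
    (hy : LinearIndependent K y) (hyS : ∀ i, y i ∈ S) (hP : ∀ i, (P i).natDegree ≤ D)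
    (hP1 : ∀ i, 1 ≤ (P i).natDegree) (huy : ∀ i, aeval t (P i) * y i ∈ S) :
    Fintype.card ι * k ≤ (k + D) * (k + D - 1) := by
  classical
  let W : Submodule K L :=
    Submodule.span K (Set.range y ∪ Set.range (fun i => aeval t (P i) * y i))
  have hWf : FiniteDimensional K W := by
    apply FiniteDimensional.span_of_finite
    exact (Set.finite_range _).union (Set.finite_range _)
  have hyW : ∀ i, y i ∈ W := fun i => Submodule.subset_span (Or.inl ⟨i, rfl⟩)
  have hzW : ∀ i, aeval t (P i) * y i ∈ W := fun i => Submodule.subset_span (Or.inr ⟨i, rfl⟩)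
  have hWS : W ≤ S := by
    rw [Submodule.span_le]
    rintro _ (⟨i, rfl⟩ | ⟨i, rfl⟩)
    · exact hyS i
    · exact huy i
  have hP0 : ∀ i, P i ≠ 0 := by
    intro i h
    have := hP1 i
    rw [h, natDegree_zero] at this
    omega
  set V := polV K t (k + D) with hV
  have m1 : ∀ (j : Fin k) (i : ι), (X ^ (j : ℕ) * P i : K[X]) ∈ degreeLT K (k + D) := by
    intro j i
    rw [mem_degreeLT, degree_lt_iff_coeff_zero]
    intro m hm
    apply coeff_eq_zero_of_natDegree_lt
    have := natDegree_mul_le (p := (X ^ (j : ℕ) : K[X])) (q := P i)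
    rw [natDegree_X_pow] at this
    have := hP i
    omega
  have m2 : ∀ (j : Fin k), (X ^ (j : ℕ) : K[X]) ∈ degreeLT K (k + D) := by
    intro j
    rw [mem_degreeLT, degree_lt_iff_coeff_zero]
    intro m hm
    rw [coeff_X_pow, if_neg]
    omega
  let κ : ι × Fin k → Ten V W := fun p =>
    ten V W ⟨aeval t (X ^ (p.2 : ℕ) * P p.1), mem_polV (m1 p.2 p.1)⟩ ⟨y p.1, hyW p.1⟩ -
      ten V W ⟨aeval t (X ^ (p.2 : ℕ) : K[X]), mem_polV (m2 p.2)⟩
        ⟨aeval t (P p.1) * y p.1, hzW p.1⟩
  have hκ : ∀ p, mulT V W (κ p) = 0 := by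
    intro p
    simp only [κ]
    rw [map_sub, mulT_ten, mulT_ten]
    simp only [map_mul]
    ring
  have hyi : LinearIndependent K (fun j => (⟨y j, hyW j⟩ : W)) := by
    apply LinearIndependent.of_comp W.subtype
    exact hy
  have hli : LinearIndependent K κ := by
    rw [Fintype.linearIndependent_iff]
    intro c hc
    let q : ι → K[X] := fun i => ∑ j : Fin k, C (c (i, j)) * X ^ (j : ℕ)
    have hrel : ∀ m, ∑ i, ((q i * P i).coeff m) • (⟨y i, hyW i⟩ : W) =
        ∑ i, ((q i).coeff m) • (⟨aeval t (P i) * y i, hzW i⟩ : W) := by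
      intro m
      have h2 := congrArg (contr V W (coefV ht (k + D) m)) hc
      rw [map_sum, map_zero, Fintype.sum_prod_type] at h2
      rw [← sub_eq_zero, ← Finset.sum_sub_distrib, ← h2]
      refine Finset.sum_congr rfl fun i _ => ?_
      simp only [q, Finset.sum_mul, finsetSum_coeff, Finset.sum_smul]
      rw [← Finset.sum_sub_distrib]
      refine Finset.sum_congr rfl fun j _ => ?_
      simp only [κ]
      rw [map_smul, map_sub, contr_ten, contr_ten, coefV_apply ht _ _ (m1 j i),
        coefV_apply ht _ _ (m2 j), smul_sub, smul_smul, smul_smul, mul_assoc, coeff_C_mul,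
        coeff_C_mul]
    have hq0 : ∀ i, q i = 0 := by
      by_contra hne
      push Not at hne
      obtain ⟨i₁, hi₁⟩ := hne
      let m := Finset.univ.sup (fun i => (q i * P i).natDegree)
      have hm : ∀ i, (q i * P i).natDegree ≤ m := fun i =>
        Finset.le_sup (f := fun i => (q i * P i).natDegree) (Finset.mem_univ i)
      have hdeg : ∀ i, q i ≠ 0 → (q i * P i).natDegree = (q i).natDegree + (P i).natDegree :=
        fun i hi => natDegree_mul hi (hP0 i)
      have hm1 : 1 ≤ m := by
        have := hm i₁
        rw [hdeg i₁ hi₁] at this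
        have := hP1 i₁
        omega
      have h3 : ∀ i, (q i).coeff m = 0 := by
        intro i
        by_cases hi : q i = 0
        · rw [hi, coeff_zero]
        · apply coeff_eq_zero_of_natDegree_lt
          have := hm i
          rw [hdeg i hi] at this
          have := hP1 i
          omega
      have h4 := hrel m
      have h5 : ∑ i, ((q i).coeff m) • (⟨aeval t (P i) * y i, hzW i⟩ : W) = 0 := by
        apply Finset.sum_eq_zero
        intro i _
        rw [h3 i, zero_smul]
      rw [h5] at h4
      have h6 := Fintype.linearIndependent_iff.mp hyi _ h4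
      obtain ⟨i₀, -, hi₀⟩ := Finset.exists_mem_eq_sup Finset.univ ⟨i₁, Finset.mem_univ _⟩
        (fun i => (q i * P i).natDegree)
      have h7 : (q i₀ * P i₀).natDegree = m := hi₀.symm
      have h8 : q i₀ * P i₀ ≠ 0 := by
        intro h
        rw [h, natDegree_zero] at h7
        omega
      have h9 := h6 i₀
      rw [← h7, coeff_natDegree, leadingCoeff_eq_zero] at h9
      exact h8 h9
    rintro ⟨i, j⟩
    have h10 := congrArg (fun p => Polynomial.coeff p (j : ℕ)) (hq0 i)
    simp only [q, finsetSum_coeff, coeff_zero, coeff_C_mul, coeff_X_pow] at h10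
    rw [Finset.sum_eq_single j] at h10
    · simpa using h10
    · intro b _ hb
      rw [if_neg, mul_zero]
      intro h
      exact hb (Fin.ext h.symm)
    · intro h
      exact absurd (Finset.mem_univ _) h
  have h5 := ker_bound V W κ hκ hli
  have h6 := hS V W inferInstance hWf hWS
  rw [Fintype.card_prod, Fintype.card_fin] at h5
  rw [hV, finrank_polV ht] at h5 h6
  omega

end polynomials

end Pool.Agent.N770
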