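import Pool.Agent.N770.Exps

/-!
# The deficiency of a space of logarithms, and pairs `y`, `u y` with varying `u`
-/

set_option autoImplicit false

namespace Pool.Agent.N770

open Module

variable {K L : Type*} [Field K] [Field L] [Algebra K L]

theorem finite_mul (X W : Submodule K L) [FiniteDimensional K X] [FiniteDimensional K W] :
    FiniteDimensional K (X * W : Submodule K L) :=
  Module.Finite.iff_fg.mpr (Submodule.FG.mul (Module.Finite.iff_fg.mp inferInstance)
    (Module.Finite.iff_fg.mp inferInstance))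

/-- the deficiency of `W` is at least `d` -/
def Def (X W : Submodule K L) (d : ℕ) : Prop :=
  finrank K (X * W : Submodule K L) + d ≤ finrank K X * finrank K W

theorem mul_span_singleton (X : Submodule K L) (v : L) :
    X * Submodule.span K {v} = scale v X := by
  apply le_antisymm
  · rw [Submodule.mul_le]
    intro x hx w hw
    obtain ⟨a, rfl⟩ := Submodule.mem_span_singleton.mp hw
    have h1 : x * (a • v) = v * (a • x) := by
      rw [mul_smul_comm, mul_smul_comm, mul_comm]
    rw [h1]
    exact mul_mem_scale (X.smul_mem a hx)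
  · rintro _ ⟨x, hx, rfl⟩
    rw [LinearMap.mulLeft_apply, mul_comm v x]
    exact Submodule.mul_mem_mul hx (Submodule.mem_span_singleton_self v)

/-- adding one vector -/
theorem Def.add {X W : Submodule K L} [FiniteDimensional K X] [FiniteDimensional K W] {d : ℕ}
    (h : Def X W d) {v : L} (hv : v ∉ W) (N : Submodule K L) (h1 : N ≤ X * W)
    (h2 : N ≤ scale v X) : Def X (W ⊔ Submodule.span K {v}) (d + finrank K N) := by
  have hv0 : v ≠ 0 := fun h0 => hv (h0 ▸ W.zero_mem)
  have := finite_mul X W
  have hfs : FiniteDimensional K (scale v X) := by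
    unfold scale
    infer_instance
  unfold Def at h ⊢
  rw [Submodule.mul_sup, mul_span_singleton]
  have e1 := Submodule.finrank_sup_add_finrank_inf_eq (X * W) (scale v X)
  have e2 : finrank K N ≤ finrank K (X * W ⊓ scale v X : Submodule K L) := by
    have : FiniteDimensional K (X * W ⊓ scale v X : Submodule K L) := inferInstance
    exact Submodule.finrank_mono (le_inf h1 h2)
  have e3 : finrank K (scale v X) = finrank K X := finrank_scale_eq hv0 X
  have e4 : finrank K (W ⊔ Submodule.span K {v} : Submodule K L) = finrank K W + 1 := by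
    have e5 := Submodule.finrank_sup_add_finrank_inf_eq W (Submodule.span K {v})
    have e6 : W ⊓ Submodule.span K {v} = ⊥ := by
      rw [← disjoint_iff, Submodule.disjoint_span_singleton' hv0]
      exact hv
    rw [e6, finrank_bot, finrank_span_singleton hv0, add_zero] at e5
    exact e5
  rw [e4, Nat.mul_succ]
  omega

theorem finrank_sup_singleton {W : Submodule K L} [FiniteDimensional K W] {v : L} (hv : v ∉ W) :
    finrank K (W ⊔ Submodule.span K {v} : Submodule K L) = finrank K W + 1 := by
  have hv0 : v ≠ 0 := fun h0 => hv (h0 ▸ W.zero_mem)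
  have e5 := Submodule.finrank_sup_add_finrank_inf_eq W (Submodule.span K {v})
  have e6 : W ⊓ Submodule.span K {v} = ⊥ := by
    rw [← disjoint_iff, Submodule.disjoint_span_singleton' hv0]
    exact hv
  rw [e6, finrank_bot, finrank_span_singleton hv0, add_zero] at e5
  exact e5

/-- adding a pair `y`, `u y` -/
theorem Def.pair {X W B : Submodule K L} [FiniteDimensional K X] [FiniteDimensional K W] {d : ℕ}
    (h : Def X W d) {y u : L} (hu : ∀ c : K, u ≠ algebraMap K L c)
    (hB : B ≤ X) (hB' : ∀ b ∈ B, u * b ∈ X) (hn : ¬ (y ∈ W ∧ u * y ∈ W)) :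
    ∃ W' : Submodule K L, FiniteDimensional K W' ∧ W' = W ⊔ Submodule.span K {y, u * y} ∧
      Def X W' (d + finrank K B) ∧ finrank K W < finrank K W' ∧
      finrank K W' ≤ finrank K W + 2 := by
  have hBf : FiniteDimensional K B := Submodule.finiteDimensional_of_le hB
  have hu0 : u ≠ 0 := by
    intro h0
    apply hu 0
    rw [h0, map_zero]
  have hspan : ∀ W : Submodule K L, W ⊔ Submodule.span K {y, u * y} =
      (W ⊔ Submodule.span K {y}) ⊔ Submodule.span K {u * y} := by
    intro W
    rw [Submodule.span_insert, sup_assoc]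
  by_cases hy : y ∈ W
  · have huy : u * y ∉ W := fun h => hn ⟨hy, h⟩
    have e1 : W ⊔ Submodule.span K {y} = W := by
      rw [sup_eq_left, Submodule.span_singleton_le_iff_mem]
      exact hy
    have hy0 : u * y ≠ 0 := fun h0 => huy (h0 ▸ W.zero_mem)
    refine ⟨W ⊔ Submodule.span K {u * y}, inferInstance, ?_, ?_, ?_, ?_⟩
    · rw [hspan, e1]
    · have e2 := h.add huy (scale (u * y) B) ?_ ?_
      · rwa [finrank_scale_eq hy0] at e2
      · rintro _ ⟨b, hb, rfl⟩
        rw [LinearMap.mulLeft_apply]
        have : u * y * b = (u * b) * y := by ring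
        rw [this]
        exact Submodule.mul_mem_mul (hB' b hb) hy
      · exact Submodule.map_mono hB
    · rw [finrank_sup_singleton huy]
      omega
    · rw [finrank_sup_singleton huy]
      omega
  · have hy0 : y ≠ 0 := fun h0 => hy (h0 ▸ W.zero_mem)
    by_cases huy : u * y ∈ W ⊔ Submodule.span K {y}
    · obtain ⟨w, hw, z, hz, hwz⟩ := Submodule.mem_sup.mp huy
      obtain ⟨a, rfl⟩ := Submodule.mem_span_singleton.mp hz
      have hw1 : w = (u - algebraMap K L a) * y := by
        rw [sub_mul, ← Algebra.smul_def, ← hwz]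
        ring
      have hw0 : w ≠ 0 := by
        rw [hw1]
        exact mul_ne_zero (sub_ne_zero.mpr (hu a)) hy0
      refine ⟨W ⊔ Submodule.span K {y}, inferInstance, ?_, ?_, ?_, ?_⟩
      · rw [hspan, eq_comm, sup_eq_left, Submodule.span_singleton_le_iff_mem]
        exact huy
      · have e2 := h.add hy (scale w B) ?_ ?_
        · rwa [finrank_scale_eq hw0] at e2
        · rintro _ ⟨b, hb, rfl⟩
          rw [LinearMap.mulLeft_apply, mul_comm w b]
          exact Submodule.mul_mem_mul (hB hb) hw
        · rintro _ ⟨b, hb, rfl⟩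
          rw [LinearMap.mulLeft_apply]
          have : w * b = y * (u * b - a • b) := by
            rw [hw1, Algebra.smul_def]
            ring
          rw [this]
          exact mul_mem_scale (X.sub_mem (hB' b hb) (X.smul_mem a (hB hb)))
      · rw [finrank_sup_singleton hy]
        omega
      · rw [finrank_sup_singleton hy]
        omega
    · have huy0 : u * y ≠ 0 := mul_ne_zero hu0 hy0
      have h1 : Def X (W ⊔ Submodule.span K {y}) d := by
        have e2 := h.add hy (⊥ : Submodule K L) bot_le bot_le
        rwa [finrank_bot, add_zero] at e2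
      refine ⟨W ⊔ Submodule.span K {y} ⊔ Submodule.span K {u * y}, inferInstance, ?_, ?_, ?_, ?_⟩
      · rw [hspan]
      · have e2 := h1.add huy (scale (u * y) B) ?_ ?_
        · rwa [finrank_scale_eq huy0] at e2
        · rintro _ ⟨b, hb, rfl⟩
          rw [LinearMap.mulLeft_apply]
          have : u * y * b = (u * b) * y := by ring
          rw [this]
          exact Submodule.mul_mem_mul (hB' b hb)
            (Submodule.mem_sup_right (Submodule.mem_span_singleton_self y))
        · exact Submodule.map_mono hB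
      · rw [finrank_sup_singleton huy, finrank_sup_singleton hy]
        omega
      · rw [finrank_sup_singleton huy, finrank_sup_singleton hy]

/-- all pairs lie in one space -/
theorem pairs_span {X S : Submodule K L} [FiniteDimensional K X] {M c : ℕ} (hc : 1 ≤ c)
    (hM : ∀ W : Submodule K L, FiniteDimensional K W → W ≤ S →
      finrank K X * finrank K W ≤ finrank K (X * W : Submodule K L) + M)
    (W₀ : Submodule K L) [FiniteDimensional K W₀] (hW₀ : W₀ ≤ S) {d₀ : ℕ} (hd₀ : Def X W₀ d₀)
    (T : Set (L × L)) (hT : ∀ p ∈ T, p.1 ∈ S ∧ p.2 * p.1 ∈ S ∧ (∀ a : K, p.2 ≠ algebraMap K L a) ∧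
      ∃ B : Submodule K L, B ≤ X ∧ (∀ b ∈ B, p.2 * b ∈ X) ∧ c ≤ finrank K B) :
    ∃ W : Submodule K L, FiniteDimensional K W ∧ W₀ ≤ W ∧ W ≤ S ∧
      c * finrank K W + 2 * d₀ ≤ 2 * M + c * finrank K W₀ ∧
      ∀ p ∈ T, p.1 ∈ W ∧ p.2 * p.1 ∈ W := by
  -- a space of maximal dimension in a class
  let Cl : ℕ → Prop := fun n => ∃ W : Submodule K L, FiniteDimensional K W ∧ W₀ ≤ W ∧ W ≤ S ∧
    finrank K W = n ∧ ∃ d, Def X W d ∧ c * finrank K W + 2 * d₀ ≤ 2 * d + c * finrank K W₀
  have hbd : ∀ W : Submodule K L, FiniteDimensional K W → W ≤ S → ∀ d, Def X W d → d ≤ M := by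
    intro W hWf hWS d hd
    have h1 := hM W hWf hWS
    unfold Def at hd
    omega
  have hCb : ∀ n, Cl n → n ≤ 2 * M + c * finrank K W₀ := by
    rintro n ⟨W, hWf, hW0, hWS, rfl, d, hd, hd2⟩
    have h1 := hbd W hWf hWS d hd
    have h2 : finrank K W ≤ c * finrank K W := Nat.le_mul_of_pos_left _ hc
    omega
  have hC0 : Cl (finrank K W₀) := ⟨W₀, inferInstance, le_rfl, hW₀, rfl, d₀, hd₀, by omega⟩
  obtain ⟨n, hn, hmax⟩ : ∃ n, Cl n ∧ ∀ m, Cl m → m ≤ n := by
    classical
    have hex : ∃ n, Cl n ∧ ∀ m, Cl m → m ≤ n := by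
      by_contra hcon
      push Not at hcon
      have : ∀ j, ∃ n, Cl n ∧ j ≤ n := by
        intro j
        induction j with
        | zero => exact ⟨_, hC0, Nat.zero_le _⟩
        | succ j ih =>
          obtain ⟨n, hn, hj⟩ := ih
          obtain ⟨m, hm, hnm⟩ := hcon n hn
          exact ⟨m, hm, by omega⟩
      obtain ⟨n, hn, hj⟩ := this (2 * M + c * finrank K W₀ + 1)
      have := hCb n hn
      omega
    exact hex
  obtain ⟨W, hWf, hW0, hWS, hWn, d, hd, hd2⟩ := hn
  refine ⟨W, hWf, hW0, hWS, ?_, ?_⟩
  · have := hbd W hWf hWS d hd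
    omega
  · intro p hp
    by_contra hcon
    obtain ⟨h1, h2, h3, B, hB, hB', hBc⟩ := hT p hp
    obtain ⟨W', hWf', hW', hd', hlt, hle⟩ := hd.pair h3 hB hB' hcon
    have hW'S : W' ≤ S := by
      rw [hW', sup_le_iff]
      refine ⟨hWS, ?_⟩
      rw [Submodule.span_le]
      rintro z (rfl | rfl)
      · exact h1
      · exact h2
    have hCl : Cl (finrank K W') := by
      refine ⟨W', hWf', ?_, hW'S, rfl, _, hd', ?_⟩
      · rw [hW']
        exact hW0.trans le_sup_left
      · have e1 : c * finrank K W' ≤ c * finrank K W + c * 2 := by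
          rw [← Nat.mul_add]
          exact Nat.mul_le_mul le_rfl hle
        omega
    have := hmax _ hCl
    omega

/-- enlarging the space by a space of finite dimension -/
theorem ProdLe.enlarge {S : Submodule K L} (hS : ProdLe K S) (X V₀ : Submodule K L)
    [FiniteDimensional K X] [FiniteDimensional K V₀] (W : Submodule K L)
    (hWf : FiniteDimensional K W) (hW : W ≤ S ⊔ V₀) :
    finrank K X * finrank K W ≤ finrank K (X * W : Submodule K L) +
      finrank K X * (finrank K X - 1 + finrank K V₀) := by
  have h1 : finrank K W ≤ finrank K (W ⊓ S : Submodule K L) + finrank K V₀ := by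
    -- `W / (W ⊓ S)` embeds in `(S ⊔ V₀) / S`
    let f : W →ₗ[K] L ⧸ S := S.mkQ ∘ₗ W.subtype
    have e1 := LinearMap.finrank_range_add_finrank_ker f
    have e2 : LinearMap.ker f = (W ⊓ S).comap W.subtype := by
      ext x
      simp [f]
    have e3 : finrank K (LinearMap.ker f) = finrank K (W ⊓ S : Submodule K L) := by
      rw [e2]
      exact (Submodule.comapSubtypeEquivOfLe (inf_le_left : W ⊓ S ≤ W)).finrank_eq
    have e4 : LinearMap.range f ≤ V₀.map S.mkQ := by
      rintro _ ⟨x, rfl⟩
      obtain ⟨s, hs, v, hv, hsv⟩ := Submodule.mem_sup.mp (hW x.2)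
      refine ⟨v, hv, ?_⟩
      simp only [f, LinearMap.comp_apply, Submodule.subtype_apply]
      rw [← hsv, map_add, (Submodule.Quotient.mk_eq_zero S).mpr hs |> (fun h => show S.mkQ s = 0 from h),
        zero_add]
    have e5 : finrank K (LinearMap.range f) ≤ finrank K V₀ :=
      (Submodule.finrank_mono e4).trans (Submodule.finrank_map_le _ _)
    omega
  have hf2 : FiniteDimensional K (W ⊓ S : Submodule K L) := inferInstance
  have h2 := hS X (W ⊓ S) inferInstance hf2 inf_le_right
  have := finite_mul X W
  have h3 : finrank K (X * (W ⊓ S) : Submodule K L) ≤ finrank K (X * W : Submodule K L) :=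
    Submodule.finrank_mono (mul_le_mul' le_rfl inf_le_left)
  have h4 := Nat.mul_le_mul (le_refl (finrank K X)) h1
  rw [Nat.mul_add] at h4 ⊢
  omega

end Pool.Agent.N770
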