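import Pool.Agent.N770.Tri3

/-!
# Matrices of rank one with linearly dependent entries
-/

set_option autoImplicit false

namespace Pool.Agent.N770

open Polynomial Module

variable {K L : Type*} [Field K] [Field L] [Algebra K L]

/-- a `2 × 2` matrix of rank one with linearly independent rows and linearly independent columns -/
structure Counter (K : Type*) {L : Type*} [Field K] [Field L] [Algebra K L] (a b c d : L) :
    Prop where
  det : a * d = b * c
  rows : LinearIndependent K ![![a, b], ![c, d]]
  cols : LinearIndependent K ![![a, c], ![b, d]]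

theorem Counter.row_li {a b c d : L} (h : Counter K a b c d) (s t : K)
    (h1 : s • a + t • c = 0) (h2 : s • b + t • d = 0) : s = 0 ∧ t = 0 := by
  have h3 := LinearIndependent.pair_iff.mp h.rows s t
  apply h3
  funext j
  fin_cases j
  · exact h1
  · exact h2

theorem Counter.col_li {a b c d : L} (h : Counter K a b c d) (s t : K)
    (h1 : s • a + t • b = 0) (h2 : s • c + t • d = 0) : s = 0 ∧ t = 0 := by
  have h3 := LinearIndependent.pair_iff.mp h.cols s t
  apply h3
  funext j
  fin_cases j
  · exact h1
  · exact h2

/-- normal form -/
theorem Counter.normal {a b c d : L} (h : Counter K a b c d)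
    (hdep : ¬ LinearIndependent K ![a, b, c, d]) :
    ∃ (x t : L) (β δ α γ : K), x ≠ 0 ∧ (∀ k : K, t ≠ algebraMap K L k) ∧ β * γ ≠ α * δ ∧
      a = x * (algebraMap K L β + algebraMap K L δ * t) ∧
      b = x * (algebraMap K L α + algebraMap K L γ * t) ∧
      c = x * t * (algebraMap K L β + algebraMap K L δ * t) ∧
      d = x * t * (algebraMap K L α + algebraMap K L γ * t) := by
  have ha : a ≠ 0 := by
    rintro rfl
    have h1 : b * c = 0 := by rw [← h.det, zero_mul]
    rcases mul_eq_zero.mp h1 with rfl | rfl
    · have := (h.row_li 1 0 (by simp) (by simp)).1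
      exact one_ne_zero this
    · have := (h.col_li 1 0 (by simp) (by simp)).1
      exact one_ne_zero this
  have hb : b ≠ 0 := by
    rintro rfl
    have h1 : a * d = 0 := by rw [h.det, zero_mul]
    rcases mul_eq_zero.mp h1 with h2 | rfl
    · exact ha h2
    · have := (h.col_li 0 1 (by simp) (by simp)).2
      exact one_ne_zero this
  obtain ⟨t, ht⟩ : ∃ t, c = t * a := ⟨c / a, by field_simp⟩
  have hd : d = t * b := by
    have h1 : a * d = a * (t * b) := by rw [h.det, ht]; ring
    exact mul_left_cancel₀ ha h1
  have htc : ∀ k : K, t ≠ algebraMap K L k := by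
    rintro k rfl
    have := (h.row_li k (-1) (by rw [ht, Algebra.smul_def, neg_smul, one_smul]; ring)
      (by rw [hd, Algebra.smul_def, neg_smul, one_smul]; ring)).2
    simp at this
  have htl : ∀ r s : K, algebraMap K L r + algebraMap K L s * t = 0 → r = 0 ∧ s = 0 := by
    intro r s hrs
    have hs : s = 0 := by
      by_contra hs
      apply htc (-(s⁻¹ * r))
      have h2 : (algebraMap K L s) ≠ 0 := by simpa using hs
      rw [map_neg, map_mul, map_inv₀]
      field_simp
      linear_combination hrs
    rw [hs, map_zero, zero_mul, add_zero] at hrs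
    exact ⟨(map_eq_zero _).mp hrs, hs⟩
  rw [Fintype.linearIndependent_iff] at hdep
  push Not at hdep
  obtain ⟨g, hg, i, hi⟩ := hdep
  rw [Fin.sum_univ_four] at hg
  change g 0 • a + g 1 • b + g 2 • c + g 3 • d = 0 at hg
  have hg' : (algebraMap K L (g 0) + algebraMap K L (g 2) * t) * a +
      (algebraMap K L (g 1) + algebraMap K L (g 3) * t) * b = 0 := by
    rw [← hg, hd, ht]
    simp only [Algebra.smul_def]
    ring
  have hne : algebraMap K L (g 1) + algebraMap K L (g 3) * t ≠ 0 := by
    intro h0
    rw [h0, zero_mul, add_zero] at hg'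
    rcases mul_eq_zero.mp hg' with h1 | h1
    · obtain ⟨h2, h3⟩ := htl _ _ h0
      obtain ⟨h4, h5⟩ := htl _ _ h1
      apply hi
      fin_cases i
      · exact h4
      · exact h2
      · exact h5
      · exact h3
    · exact ha h1
  obtain ⟨x, hx⟩ : ∃ x, x * (algebraMap K L (g 1) + algebraMap K L (g 3) * t) = a :=
    ⟨a / _, div_mul_cancel₀ a hne⟩
  have hx0 : x ≠ 0 := by
    rintro rfl
    exact ha (by rw [← hx, zero_mul])
  have hxb : b = x * (algebraMap K L (-g 0) + algebraMap K L (-g 2) * t) := by
    have h1 : (algebraMap K L (g 1) + algebraMap K L (g 3) * t) * b =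
        (algebraMap K L (g 1) + algebraMap K L (g 3) * t) *
          (x * (algebraMap K L (-g 0) + algebraMap K L (-g 2) * t)) := by
      rw [map_neg, map_neg]
      linear_combination hg' + (algebraMap K L (g 0) + algebraMap K L (g 2) * t) * hx
    exact mul_left_cancel₀ hne h1
  refine ⟨x, t, g 1, g 3, -g 0, -g 2, hx0, htc, ?_, hx.symm, hxb, ?_, ?_⟩
  · intro h0
    have h0' : g 1 * g 2 = g 0 * g 3 := by linear_combination -h0
    by_cases h3 : g 3 = 0
    · rw [h3, mul_zero] at h0'
      rcases mul_eq_zero.mp h0' with h1 | h2
      · apply hne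
        rw [h1, h3, map_zero, zero_mul, add_zero]
      · have h5 := (h.col_li (g 0) (g 1) (by
          rw [h3, h2] at hg'
          simp only [Algebra.smul_def]
          rw [map_zero, zero_mul, add_zero, add_zero] at hg'
          exact hg') (by
          rw [h3, h2] at hg
          rw [hd, ht]
          rw [h3, h2] at hg'
          simp only [Algebra.smul_def]
          rw [map_zero, zero_mul, add_zero, add_zero] at hg'
          linear_combination t * hg')).2
        apply hne
        rw [h5, h3, map_zero, zero_mul, add_zero]
    · have h6 : algebraMap K L (g 3) ≠ 0 := by simpa using h3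
      have h7 : algebraMap K L (g 1) * algebraMap K L (g 2) =
          algebraMap K L (g 0) * algebraMap K L (g 3) := by
        rw [← map_mul, ← map_mul, h0']
      have h8 : algebraMap K L (g 2) * a + algebraMap K L (g 3) * b = 0 := by
        have h9 : (algebraMap K L (g 1) + algebraMap K L (g 3) * t) *
            (algebraMap K L (g 2) * a + algebraMap K L (g 3) * b) = 0 := by
          linear_combination algebraMap K L (g 3) * hg' + a * h7
        rcases mul_eq_zero.mp h9 with h10 | h10
        · exact absurd h10 hne
        · exact h10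
      have h5 := (h.col_li (g 2) (g 3) (by simpa only [Algebra.smul_def] using h8) (by
        simp only [Algebra.smul_def]
        rw [hd, ht]
        linear_combination t * h8)).2
      exact h3 h5
  · rw [ht, ← hx]
    ring
  · rw [hd, hxb]
    ring

end Pool.Agent.N770
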