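import Pool.Agent.N770.Four

/-!
# Matrices of rank one with linearly dependent entries, up to equivalence
-/

set_option autoImplicit false

namespace Pool.Agent.N770

open Polynomial Module

variable {K L : Type*} [Field K] [Field L] [Algebra K L]

theorem three_li [IsAlgClosed K] {x t : L} (hx : x ≠ 0) (ht : ∀ k : K, t ≠ algebraMap K L k)
    (a b c : K) (h : a • x + b • (x * t) + c • (x * (t * t)) = 0) : a = 0 ∧ b = 0 ∧ c = 0 := by
  apply li_of_nonconst t ht a b c
  have h1 : x * (a • (1 : L) + b • t + c • (t * t)) = 0 := by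
    rw [← h]
    simp only [Algebra.smul_def]
    ring
  rcases mul_eq_zero.mp h1 with h2 | h2
  · exact absurd h2 hx
  · exact h2

theorem finrank_three [IsAlgClosed K] {x t : L} (hx : x ≠ 0)
    (ht : ∀ k : K, t ≠ algebraMap K L k) :
    finrank K (Submodule.span K ({x, x * t, x * (t * t)} : Set L)) = 3 := by
  have hli : LinearIndependent K ![x, x * t, x * (t * t)] :=
    li_three fun a b c h => three_li hx ht a b c h
  have h1 := finrank_span_eq_card hli
  rwa [range_three, Fintype.card_fin] at h1

theorem bad_of_one_mem [IsAlgClosed K] {x t : L} (hx : x ≠ 0)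
    (ht : ∀ k : K, t ≠ algebraMap K L k)
    (h1 : (1 : L) ∈ Submodule.span K ({x, x * t, x * (t * t)} : Set L)) :
    Bad (Submodule.span K ({x, x * t, x * (t * t)} : Set L)) := by
  classical
  set S := Submodule.span K ({x, x * t, x * (t * t)} : Set L) with hS
  have h3 : finrank K S = 3 := finrank_three hx ht
  obtain ⟨u, huS, hu⟩ : ∃ u ∈ S, u ∉ Submodule.span K ({1} : Set L) := by
    by_contra hcon
    push Not at hcon
    have h4 : S ≤ Submodule.span K ({1} : Set L) := fun u hu => hcon u hu
    have h5 := (Submodule.finrank_mono h4).trans (finrank_span_le_card ({(1 : L)} : Set L))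
    simp only [Set.toFinset_singleton, Finset.card_singleton] at h5
    omega
  obtain ⟨v, hvS, hv⟩ : ∃ v ∈ S, v ∉ Submodule.span K ({1, u} : Set L) := by
    by_contra hcon
    push Not at hcon
    have h4 : S ≤ Submodule.span K ({1, u} : Set L) := fun u hu => hcon u hu
    have hfd : FiniteDimensional K (Submodule.span K ({1, u} : Set L)) :=
      FiniteDimensional.span_of_finite K (Set.toFinite _)
    have h5 := (Submodule.finrank_mono h4).trans (finrank_span_le_card ({(1 : L), u} : Set L))
    have h6 : ({(1 : L), u} : Set L).toFinset.card ≤ 2 := by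
      have h7 : ({(1 : L), u} : Set L).toFinset = {1, u} := by
        ext w
        simp
      rw [h7]
      exact Finset.card_le_two
    omega
  have hli : ∀ a b c : K, a • (1 : L) + b • u + c • v = 0 → a = 0 ∧ b = 0 ∧ c = 0 := by
    intro a b c h
    have hc : c = 0 := by
      by_contra hc
      apply hv
      rw [Submodule.mem_span_pair]
      refine ⟨-(c⁻¹ * a), -(c⁻¹ * b), ?_⟩
      have h2 : (algebraMap K L c) ≠ 0 := by simpa using hc
      simp only [Algebra.smul_def, map_neg, map_mul, map_inv₀] at h ⊢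
      field_simp
      linear_combination -h
    rw [hc, zero_smul, add_zero] at h
    have hb : b = 0 := by
      by_contra hb
      apply hu
      rw [Submodule.mem_span_singleton]
      refine ⟨-(b⁻¹ * a), ?_⟩
      have h2 : (algebraMap K L b) ≠ 0 := by simpa using hb
      simp only [Algebra.smul_def, map_neg, map_mul, map_inv₀] at h ⊢
      field_simp
      linear_combination -h
    rw [hb, zero_smul, add_zero] at h
    refine ⟨?_, hb, hc⟩
    simpa [Algebra.smul_def] using h
  have hST : S = Submodule.span K {1, u, v} := span_eq_of_three h3 1 u v h1 huS hvS hli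
  refine ⟨u, v, li_three hli, hST, ?_⟩
  rw [quadRel_iff_not_li, linearIndependent_iff_card_eq_finrank_span, Set.finrank, span_six,
    ← hST, Fintype.card_fin]
  have hle : S * S ≤ Submodule.span K (Set.range fun j : Fin 5 => x * x * t ^ (j : ℕ)) := by
    rw [hS, Submodule.span_mul_span, Submodule.span_le]
    rintro w ⟨y, hy, z, hz, rfl⟩
    simp only [Set.mem_insert_iff, Set.mem_singleton_iff] at hy hz
    apply Submodule.subset_span
    rcases hy with rfl | rfl | rfl <;> rcases hz with rfl | rfl | rfl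
    · exact ⟨0, by simp⟩
    · exact ⟨1, by simp; ring⟩
    · exact ⟨2, by simp; ring⟩
    · exact ⟨1, by simp; ring⟩
    · exact ⟨2, by simp; ring⟩
    · exact ⟨3, by simp; ring⟩
    · exact ⟨2, by simp; ring⟩
    · exact ⟨3, by simp; ring⟩
    · exact ⟨4, by simp; ring⟩
  have hfd : FiniteDimensional K
      (Submodule.span K (Set.range fun j : Fin 5 => x * x * t ^ (j : ℕ))) :=
    FiniteDimensional.span_of_finite K (Set.finite_range _)
  have h5 := (Submodule.finrank_mono hle).trans (finrank_range_le_card _)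
  rw [Fintype.card_fin] at h5
  intro h6
  have h7 : finrank K (S * S : Submodule K L) ≤ 5 := h5
  omega

theorem mem_three_iff {x y z w : L} :
    w ∈ Submodule.span K ({x, y, z} : Set L) ↔ ∃ a b c : K, w = a • x + b • y + c • z := by
  rw [Submodule.mem_span_triple]
  constructor
  · rintro ⟨a, b, c, h⟩
    exact ⟨a, b, c, h.symm⟩
  · rintro ⟨a, b, c, h⟩
    exact ⟨a, b, c, h.symm⟩

/-- the parameter of a twisted square is unique up to fractional linear transformations -/
theorem unique_param [IsAlgClosed K] {x t x' t' : L} (hx : x ≠ 0)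
    (ht : ∀ k : K, t ≠ algebraMap K L k) (hx' : x' ≠ 0) (ht' : ∀ k : K, t' ≠ algebraMap K L k)
    (h0 : x' ∈ Submodule.span K ({x, x * t, x * (t * t)} : Set L))
    (h1 : x' * t' ∈ Submodule.span K ({x, x * t, x * (t * t)} : Set L))
    (h2 : x' * (t' * t') ∈ Submodule.span K ({x, x * t, x * (t * t)} : Set L))
    (h3 : x ∈ Submodule.span K ({x', x' * t', x' * (t' * t')} : Set L)) :
    ∃ g₀ g₁ k₀ k₁ : K, g₀ * k₁ ≠ g₁ * k₀ ∧
      x' = x * (algebraMap K L g₀ + algebraMap K L g₁ * t) ^ 2 ∧
      x' * t' = x * ((algebraMap K L g₀ + algebraMap K L g₁ * t) *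
        (algebraMap K L k₀ + algebraMap K L k₁ * t)) ∧
      x' * (t' * t') = x * (algebraMap K L k₀ + algebraMap K L k₁ * t) ^ 2 := by
  have htt : Transcendental K t := fun h => by
    obtain ⟨k, hk⟩ := Pool.Agent.W256.exists_const t h
    exact ht k hk
  obtain ⟨a0, a1, a2, ha⟩ := mem_three_iff.mp h0
  obtain ⟨b0, b1, b2, hb⟩ := mem_three_iff.mp h1
  obtain ⟨c0, c1, c2, hc⟩ := mem_three_iff.mp h2
  obtain ⟨e0, e1, e2, he⟩ := mem_three_iff.mp h3
  set pa : K[X] := C a0 + C a1 * X + C a2 * X ^ 2 with hpa
  set pb : K[X] := C b0 + C b1 * X + C b2 * X ^ 2 with hpb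
  set pc : K[X] := C c0 + C c1 * X + C c2 * X ^ 2 with hpc
  have ea : x' = x * aeval t pa := by
    rw [ha, hpa]
    simp only [map_add, map_mul, map_pow, aeval_C, aeval_X, Algebra.smul_def]
    ring
  have eb : x' * t' = x * aeval t pb := by
    rw [hb, hpb]
    simp only [map_add, map_mul, map_pow, aeval_C, aeval_X, Algebra.smul_def]
    ring
  have ec : x' * (t' * t') = x * aeval t pc := by
    rw [hc, hpc]
    simp only [map_add, map_mul, map_pow, aeval_C, aeval_X, Algebra.smul_def]
    ring
  have hinj : ∀ q r : K[X], aeval t q = aeval t r → q = r := by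
    intro q r hqr
    by_contra hne
    exact htt ⟨q - r, sub_ne_zero.mpr hne, by rw [map_sub, hqr, sub_self]⟩
  have hprod : pa * pc = pb ^ 2 := by
    apply hinj
    rw [map_mul, map_pow]
    have h5 : x ^ 2 * (aeval t pa * aeval t pc) = x ^ 2 * aeval t pb ^ 2 := by
      calc x ^ 2 * (aeval t pa * aeval t pc) = (x * aeval t pa) * (x * aeval t pc) := by ring
        _ = (x' * t') ^ 2 := by rw [← ea, ← ec]; ring
        _ = _ := by rw [eb]; ring
    exact mul_left_cancel₀ (pow_ne_zero 2 hx) h5
  have hone : C e0 * pa + C e1 * pb + C e2 * pc = 1 := by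
    apply hinj
    simp only [map_add, map_mul, aeval_C, map_one]
    have h5 : x * (algebraMap K L e0 * aeval t pa + algebraMap K L e1 * aeval t pb +
        algebraMap K L e2 * aeval t pc) = x * 1 := by
      calc _ = e0 • (x * aeval t pa) + e1 • (x * aeval t pb) + e2 • (x * aeval t pc) := by
            simp only [Algebra.smul_def]
            ring
        _ = x := by rw [← ea, ← eb, ← ec, ← he]
        _ = x * 1 := (mul_one x).symm
    exact mul_left_cancel₀ hx h5
  have hcop : IsCoprime pa pc := by
    refine ⟨C e0 + C e0 * C e1 * pb + C e1 ^ 2 * pc, C e2 + C e1 * C e2 * pb, ?_⟩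
    linear_combination (C e1 ^ 2) * hprod + (1 + C e1 * pb) * hone
  obtain ⟨g, w, hw⟩ := exists_associated_pow_of_mul_eq_pow' hcop hprod
  obtain ⟨k, hk, hkw⟩ := Polynomial.isUnit_iff.mp w.isUnit
  obtain ⟨q, hq⟩ := const_sq k
  set G : K[X] := g * q with hG
  have hG2 : pa = G ^ 2 := by
    rw [← hw, ← hkw, hq, hG]
    ring
  have hG0 : G ≠ 0 := by
    intro h0
    apply hx'
    rw [ea, hG2, h0]
    simp
  have hdvd : G ∣ pb := by
    rw [← UniqueFactorizationMonoid.pow_dvd_pow_iff_dvd two_ne_zero]
    exact ⟨pc, by rw [← hprod, hG2]⟩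
  obtain ⟨H, hH⟩ := hdvd
  have hH2 : pc = H ^ 2 := by
    have h5 : G ^ 2 * pc = G ^ 2 * H ^ 2 := by
      calc G ^ 2 * pc = pa * pc := by rw [hG2]
        _ = G ^ 2 * H ^ 2 := by rw [hprod, hH]; ring
    exact mul_left_cancel₀ (pow_ne_zero 2 hG0) h5
  have hdeg : ∀ a b c : K, (C a + C b * X + C c * X ^ 2 : K[X]).natDegree ≤ 2 := by
    intro a b c
    compute_degree
  have hGd : G.natDegree ≤ 1 := by
    have h5 := hdeg a0 a1 a2
    rw [← hpa, hG2, natDegree_pow] at h5
    omega
  have hHd : H.natDegree ≤ 1 := by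
    have h5 := hdeg c0 c1 c2
    rw [← hpc, hH2, natDegree_pow] at h5
    omega
  have hform : ∀ r : K[X], r.natDegree ≤ 1 →
      aeval t r = algebraMap K L (r.coeff 0) + algebraMap K L (r.coeff 1) * t := by
    intro r hr
    conv_lhs => rw [Polynomial.eq_X_add_C_of_natDegree_le_one hr]
    simp only [map_add, map_mul, aeval_C, aeval_X]
    ring
  refine ⟨G.coeff 0, G.coeff 1, H.coeff 0, H.coeff 1, ?_, ?_, ?_, ?_⟩
  · intro h5
    -- `G` and `H` are proportional
    have hGt : aeval t G ≠ 0 := by
      intro h6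
      exact hG0 (hinj G 0 (by rw [h6, map_zero]))
    have ht1 : t' * aeval t G = aeval t H := by
      have h6 : x * aeval t G * (t' * aeval t G) = x * aeval t G * aeval t H := by
        calc x * aeval t G * (t' * aeval t G) = (x * aeval t G ^ 2) * t' := by ring
          _ = x' * t' := by rw [ea, hG2, map_pow]
          _ = x * aeval t G * aeval t H := by rw [eb, hH, map_mul]; ring
      exact mul_left_cancel₀ (mul_ne_zero hx hGt) h6
    by_cases h7 : G.coeff 1 = 0
    · have h8 : G.coeff 0 ≠ 0 := by
        intro h8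
        apply hGt
        rw [hform G hGd, h7, h8]
        simp
      rw [h7, zero_mul] at h5
      have h9 : H.coeff 1 = 0 := (mul_eq_zero.mp h5).resolve_left h8
      apply ht' ((G.coeff 0)⁻¹ * H.coeff 0)
      rw [hform G hGd, hform H hHd, h7, h9, map_zero, zero_mul, add_zero, add_zero] at ht1
      have h10 : algebraMap K L (G.coeff 0) ≠ 0 := by simpa using h8
      rw [map_mul, map_inv₀]
      field_simp
      linear_combination ht1
    · apply ht' ((G.coeff 1)⁻¹ * H.coeff 1)
      have h10 : algebraMap K L (G.coeff 1) ≠ 0 := by simpa using h7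
      have h11 : algebraMap K L (G.coeff 0) * algebraMap K L (H.coeff 1) =
          algebraMap K L (G.coeff 1) * algebraMap K L (H.coeff 0) := by
        rw [← map_mul, ← map_mul, h5]
      have h12 : aeval t G * (algebraMap K L (G.coeff 1) * t' - algebraMap K L (H.coeff 1)) =
          0 := by
        rw [hform G hGd, hform H hHd] at ht1
        rw [hform G hGd]
        linear_combination algebraMap K L (G.coeff 1) * ht1 - h11
      have h13 := (mul_eq_zero.mp h12).resolve_left hGt
      rw [map_mul, map_inv₀]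
      field_simp
      linear_combination h13
  · rw [ea, hG2, map_pow, hform G hGd]
  · rw [eb, hH, map_mul, hform G hGd, hform H hHd]
  · rw [ec, hH2, map_pow, hform H hHd]

/-- equivalence of matrices over the small field -/
def Eqv (K : Type*) {L : Type*} [Field K] [Field L] [Algebra K L]
    (M M' : Matrix (Fin 2) (Fin 2) L) : Prop :=
  ∃ A B : Matrix (Fin 2) (Fin 2) K, A.det ≠ 0 ∧ B.det ≠ 0 ∧
    M' = A.map (algebraMap K L) * M * B.map (algebraMap K L)

theorem Eqv.symm {M M' : Matrix (Fin 2) (Fin 2) L} (h : Eqv K M M') : Eqv K M' M := by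
  obtain ⟨A, B, hA, hB, h⟩ := h
  have hA' : IsUnit A.det := isUnit_iff_ne_zero.mpr hA
  have hB' : IsUnit B.det := isUnit_iff_ne_zero.mpr hB
  refine ⟨A⁻¹, B⁻¹, ?_, ?_, ?_⟩
  · rw [Matrix.det_nonsing_inv]
    simpa using hA
  · rw [Matrix.det_nonsing_inv]
    simpa using hB
  · have h1 : A⁻¹.map (algebraMap K L) * A.map (algebraMap K L) = 1 := by
      rw [← Matrix.map_mul, Matrix.nonsing_inv_mul _ hA']
      simp
    have h2 : B.map (algebraMap K L) * B⁻¹.map (algebraMap K L) = 1 := by
      rw [← Matrix.map_mul, Matrix.mul_nonsing_inv _ hB']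
      simp
    rw [h]
    calc M = (A⁻¹.map (algebraMap K L) * A.map (algebraMap K L)) * M *
          (B.map (algebraMap K L) * B⁻¹.map (algebraMap K L)) := by
            rw [h1, h2, one_mul, mul_one]
      _ = _ := by simp only [Matrix.mul_assoc]

theorem Eqv.trans {M M' M'' : Matrix (Fin 2) (Fin 2) L} (h : Eqv K M M') (h' : Eqv K M' M'') :
    Eqv K M M'' := by
  obtain ⟨A, B, hA, hB, h⟩ := h
  obtain ⟨A', B', hA', hB', h'⟩ := h'
  refine ⟨A' * A, B * B', ?_, ?_, ?_⟩
  · rw [Matrix.det_mul]
    exact mul_ne_zero hA' hA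
  · rw [Matrix.det_mul]
    exact mul_ne_zero hB hB'
  · rw [h', h, Matrix.map_mul, Matrix.map_mul]
    simp only [Matrix.mul_assoc]

/-- the span of the entries -/
def entries (K : Type*) {L : Type*} [Field K] [Field L] [Algebra K L]
    (M : Matrix (Fin 2) (Fin 2) L) : Submodule K L :=
  Submodule.span K (Set.range fun p : Fin 2 × Fin 2 => M p.1 p.2)

theorem entries_le {M : Matrix (Fin 2) (Fin 2) L} {V : Submodule K L} (h : ∀ i j, M i j ∈ V) :
    entries K M ≤ V := by
  rw [entries, Submodule.span_le]
  rintro w ⟨p, rfl⟩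
  exact h p.1 p.2

theorem mem_entries (M : Matrix (Fin 2) (Fin 2) L) (i j : Fin 2) : M i j ∈ entries K M :=
  Submodule.subset_span ⟨(i, j), rfl⟩

theorem Eqv.entries_le {M M' : Matrix (Fin 2) (Fin 2) L} (h : Eqv K M M') :
    entries K M' ≤ entries K M := by
  obtain ⟨A, B, hA, hB, rfl⟩ := h
  apply Pool.Agent.N770.entries_le
  intro i j
  rw [Matrix.mul_apply]
  refine Submodule.sum_mem _ fun k _ => ?_
  rw [Matrix.mul_apply, Finset.sum_mul]
  refine Submodule.sum_mem _ fun l _ => ?_
  have h1 : A.map (algebraMap K L) i l * M l k * B.map (algebraMap K L) k j =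
      (A i l * B k j) • M l k := by
    rw [Matrix.map_apply, Matrix.map_apply, Algebra.smul_def, map_mul]
    ring
  rw [h1]
  exact Submodule.smul_mem _ _ (mem_entries M l k)

theorem Eqv.entries_eq {M M' : Matrix (Fin 2) (Fin 2) L} (h : Eqv K M M') :
    entries K M' = entries K M :=
  le_antisymm h.entries_le h.symm.entries_le

/-- the twisted square -/
def sqm (x t : L) : Matrix (Fin 2) (Fin 2) L := !![x, x * t; x * t, x * (t * t)]

theorem entries_sqm (x t : L) :
    entries K (sqm x t) = Submodule.span K ({x, x * t, x * (t * t)} : Set L) := by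
  apply le_antisymm
  · apply entries_le
    intro i j
    fin_cases i <;> fin_cases j
    · exact Submodule.subset_span (Or.inl rfl)
    · exact Submodule.subset_span (Or.inr (Or.inl rfl))
    · exact Submodule.subset_span (Or.inr (Or.inl rfl))
    · exact Submodule.subset_span (Or.inr (Or.inr rfl))
  · rw [Submodule.span_le]
    rintro w (rfl | rfl | rfl)
    · exact mem_entries (sqm w t) 0 0
    · exact mem_entries (sqm x t) 0 1
    · exact mem_entries (sqm x t) 1 1

/-- a matrix of rank one with linearly independent rows and linearly independent columns -/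
def IsCounter (K : Type*) {L : Type*} [Field K] [Field L] [Algebra K L]
    (M : Matrix (Fin 2) (Fin 2) L) : Prop :=
  M.det = 0 ∧ LinearIndependent K M.row ∧ LinearIndependent K M.col

theorem IsCounter.counter {M : Matrix (Fin 2) (Fin 2) L} (h : IsCounter K M) :
    Counter K (M 0 0) (M 0 1) (M 1 0) (M 1 1) where
  det := by
    have h1 := h.1
    rw [Matrix.det_fin_two] at h1
    linear_combination h1
  rows := by
    have h1 := h.2.1
    have h2 : M.row = ![![M 0 0, M 0 1], ![M 1 0, M 1 1]] := by
      funext i j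
      fin_cases i <;> fin_cases j <;> rfl
    rwa [h2] at h1
  cols := by
    have h1 := h.2.2
    have h2 : M.col = ![![M 0 0, M 1 0], ![M 0 1, M 1 1]] := by
      funext i j
      fin_cases i <;> fin_cases j <;> rfl
    rwa [h2] at h1

/-- **Normal form.** -/
theorem IsCounter.normal {M : Matrix (Fin 2) (Fin 2) L} (h : IsCounter K M)
    (hdep : ¬ LinearIndependent K ![M 0 0, M 0 1, M 1 0, M 1 1]) :
    ∃ x t : L, x ≠ 0 ∧ (∀ k : K, t ≠ algebraMap K L k) ∧ Eqv K (sqm x t) M := by
  obtain ⟨x, t, β, δ, α, γ, hx, ht, hne, h1, h2, h3, h4⟩ := h.counter.normal hdep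
  refine ⟨x, t, hx, ht, 1, !![β, α; δ, γ], by simp, ?_, ?_⟩
  · rw [Matrix.det_fin_two_of]
    intro h0
    exact hne (by linear_combination h0)
  · ext i j
    simp only [sqm, Matrix.map_one, map_zero, map_one, Matrix.one_mul]
    rw [Matrix.mul_apply, Fin.sum_univ_two]
    fin_cases i <;> fin_cases j
    · change M 0 0 = x * algebraMap K L β + x * t * algebraMap K L δ
      rw [h1]
      ring
    · change M 0 1 = x * algebraMap K L α + x * t * algebraMap K L γ
      rw [h2]
      ring
    · change M 1 0 = x * t * algebraMap K L β + x * (t * t) * algebraMap K L δ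
      rw [h3]
      ring
    · change M 1 1 = x * t * algebraMap K L α + x * (t * t) * algebraMap K L γ
      rw [h4]
      ring

/-- **Uniqueness.** The span of the entries determines the matrix up to equivalence. -/
theorem eqv_of_entries_eq [IsAlgClosed K] {M M' : Matrix (Fin 2) (Fin 2) L} (h : IsCounter K M)
    (h' : IsCounter K M') (hdep : ¬ LinearIndependent K ![M 0 0, M 0 1, M 1 0, M 1 1])
    (hdep' : ¬ LinearIndependent K ![M' 0 0, M' 0 1, M' 1 0, M' 1 1])
    (he : entries K M = entries K M') : Eqv K M M' := by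
  obtain ⟨x, t, hx, ht, h1⟩ := h.normal hdep
  obtain ⟨x', t', hx', ht', h1'⟩ := h'.normal hdep'
  have he2 : Submodule.span K ({x, x * t, x * (t * t)} : Set L) =
      Submodule.span K ({x', x' * t', x' * (t' * t')} : Set L) := by
    rw [← entries_sqm, ← entries_sqm, ← h1.entries_eq, ← h1'.entries_eq, he]
  obtain ⟨g₀, g₁, k₀, k₁, hne, h2, h3, h4⟩ := unique_param hx ht hx' ht'
    (by rw [he2]; exact Submodule.subset_span (Or.inl rfl))
    (by rw [he2]; exact Submodule.subset_span (Or.inr (Or.inl rfl)))
    (by rw [he2]; exact Submodule.subset_span (Or.inr (Or.inr rfl)))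
    (by rw [← he2]; exact Submodule.subset_span (Or.inl rfl))
  have h5 : Eqv K (sqm x t) (sqm x' t') := by
    refine ⟨!![g₀, g₁; k₀, k₁], !![g₀, k₀; g₁, k₁], ?_, ?_, ?_⟩
    · rw [Matrix.det_fin_two_of]
      intro h0
      exact hne (by linear_combination h0)
    · rw [Matrix.det_fin_two_of]
      intro h0
      exact hne (by linear_combination h0)
    · ext i j
      rw [Matrix.mul_apply, Fin.sum_univ_two, Matrix.mul_apply, Matrix.mul_apply,
        Fin.sum_univ_two, Fin.sum_univ_two]
      fin_cases i <;> fin_cases j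
      · change x' = (algebraMap K L g₀ * x + algebraMap K L g₁ * (x * t)) * algebraMap K L g₀ +
          (algebraMap K L g₀ * (x * t) + algebraMap K L g₁ * (x * (t * t))) * algebraMap K L g₁
        rw [h2]
        ring
      · change x' * t' = (algebraMap K L g₀ * x + algebraMap K L g₁ * (x * t)) *
          algebraMap K L k₀ +
          (algebraMap K L g₀ * (x * t) + algebraMap K L g₁ * (x * (t * t))) * algebraMap K L k₁
        rw [h3]
        ring
      · change x' * t' = (algebraMap K L k₀ * x + algebraMap K L k₁ * (x * t)) *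
          algebraMap K L g₀ +
          (algebraMap K L k₀ * (x * t) + algebraMap K L k₁ * (x * (t * t))) * algebraMap K L g₁
        rw [h3]
        ring
      · change x' * (t' * t') = (algebraMap K L k₀ * x + algebraMap K L k₁ * (x * t)) *
          algebraMap K L k₀ +
          (algebraMap K L k₀ * (x * t) + algebraMap K L k₁ * (x * (t * t))) * algebraMap K L k₁
        rw [h4]
        ring
  exact (h1.symm.trans h5).trans h1'

/-- the entries span a bad plane if they span `1` -/
theorem IsCounter.bad [IsAlgClosed K] {M : Matrix (Fin 2) (Fin 2) L} (h : IsCounter K M)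
    (hdep : ¬ LinearIndependent K ![M 0 0, M 0 1, M 1 0, M 1 1]) (h1 : (1 : L) ∈ entries K M) :
    Bad (entries K M) := by
  obtain ⟨x, t, hx, ht, h2⟩ := h.normal hdep
  rw [h2.entries_eq, entries_sqm] at h1 ⊢
  exact bad_of_one_mem hx ht h1

/-- Finitely many planes give finitely many matrices up to equivalence. -/
theorem finite_of_finite_planes [IsAlgClosed K] (V : Submodule K L)
    (hfin : {T : Submodule K L | T ≤ V ∧ Bad T}.Finite) :
    ∃ F : Set (Matrix (Fin 2) (Fin 2) L), F.Finite ∧
      (∀ M ∈ F, IsCounter K M ∧ ∀ i j, M i j ∈ V) ∧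
      ∀ M : Matrix (Fin 2) (Fin 2) L, (∀ i j, M i j ∈ V) → IsCounter K M →
        ¬ LinearIndependent K ![M 0 0, M 0 1, M 1 0, M 1 1] → (1 : L) ∈ entries K M →
          ∃ M₀ ∈ F, Eqv K M₀ M := by
  classical
  let P : Matrix (Fin 2) (Fin 2) L → Prop := fun M => (∀ i j, M i j ∈ V) ∧ IsCounter K M ∧
    ¬ LinearIndependent K ![M 0 0, M 0 1, M 1 0, M 1 1] ∧ (1 : L) ∈ entries K M
  let T : Set (Submodule K L) := {S | ∃ M, P M ∧ entries K M = S}
  have hT : T.Finite := by
    refine hfin.subset ?_
    rintro S ⟨M, ⟨h1, h2, h3, h4⟩, rfl⟩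
    exact ⟨entries_le h1, h2.bad h3 h4⟩
  choose! f hf using fun (S : Submodule K L) (hS : S ∈ T) => hS
  refine ⟨f '' T, hT.image f, ?_, ?_⟩
  · rintro M ⟨S, hS, rfl⟩
    exact ⟨(hf S hS).1.2.1, (hf S hS).1.1⟩
  · intro M h1 h2 h3 h4
    have hS : entries K M ∈ T := ⟨M, ⟨h1, h2, h3, h4⟩, rfl⟩
    refine ⟨f (entries K M), ⟨_, hS, rfl⟩, ?_⟩
    obtain ⟨⟨-, h5, h6, -⟩, h7⟩ := hf _ hS
    exact eqv_of_entries_eq h5 h2 h6 h3 h7

end Pool.Agent.N770
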