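import Pool.Agent.N770.PLogs

/-!
# Scaling
-/

set_option autoImplicit false

namespace Pool.Agent.N770

open Module

variable {K L : Type*} [Field K] [Field L] [Algebra K L]

/-- the space `c V` -/
noncomputable def scale (c : L) (V : Submodule K L) : Submodule K L :=
  V.map (LinearMap.mulLeft K c)

theorem mem_scale {c : L} (hc : c ≠ 0) {V : Submodule K L} {x : L} :
    x ∈ scale c V ↔ c⁻¹ * x ∈ V := by
  rw [scale, Submodule.mem_map]
  constructor
  · rintro ⟨y, hy, rfl⟩
    rw [LinearMap.mulLeft_apply, inv_mul_cancel_left₀ hc]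
    exact hy
  · intro h
    exact ⟨_, h, by rw [LinearMap.mulLeft_apply, mul_inv_cancel_left₀ hc]⟩

theorem mul_mem_scale {c : L} {V : Submodule K L} {x : L} (hx : x ∈ V) : c * x ∈ scale c V :=
  ⟨x, hx, rfl⟩

instance finite_scale (c : L) (V : Submodule K L) [FiniteDimensional K V] :
    FiniteDimensional K (scale c V) := by
  rw [scale]
  infer_instance

theorem finrank_scale_le (c : L) (V : Submodule K L) [FiniteDimensional K V] :
    finrank K (scale c V) ≤ finrank K V :=
  Submodule.finrank_map_le _ _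

theorem li_smul {c : L} (hc : c ≠ 0) {ι : Type*} {w : ι → L} (hw : LinearIndependent K w) :
    LinearIndependent K (fun i => c * w i) := by
  have h1 : LinearMap.ker (LinearMap.mulLeft K c) = ⊥ := by
    rw [LinearMap.ker_eq_bot]
    exact mul_right_injective₀ hc
  exact hw.map' (LinearMap.mulLeft K c) h1

theorem SixExp.scale {S : Submodule K L} (hS : SixExp K S) {c : L} (hc : c ≠ 0) :
    SixExp K (scale c S) := by
  intro y hy w hw hwS hyw
  refine hS y hy (fun i => c⁻¹ * w i) (li_smul (inv_ne_zero hc) hw) ?_ ?_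
  · intro j
    exact (mem_scale hc).mp (hwS j)
  · intro j
    have h1 := (mem_scale hc).mp (hyw j)
    have h2 : y * (c⁻¹ * w j) = c⁻¹ * (y * w j) := by ring
    rw [h2]
    exact h1

theorem SixExp.mono {S V : Submodule K L} (hS : SixExp K S) (hV : V ≤ S) : SixExp K V :=
  fun y hy w hw h1 h2 => hS y hy w hw (fun j => hV (h1 j)) (fun j => hV (h2 j))

theorem li_smul_iff {c : L} (hc : c ≠ 0) {ι : Type*} {w : ι → L} :
    LinearIndependent K (fun i => c * w i) ↔ LinearIndependent K w := by
  refine ⟨fun h => ?_, li_smul hc⟩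
  have h1 := li_smul (K := K) (inv_ne_zero hc) h
  have h2 : (fun i => c⁻¹ * (c * w i)) = w := by
    funext i
    rw [inv_mul_cancel_left₀ hc]
  rwa [h2] at h1

theorem li_smul_pi {c : L} (hc : c ≠ 0) {ι κ : Type*} {w : ι → κ → L}
    (hw : LinearIndependent K w) : LinearIndependent K (fun i => c • w i) := by
  let f : (κ → L) →ₗ[K] (κ → L) :=
    { toFun := fun v => c • v
      map_add' := fun a b => smul_add c a b
      map_smul' := fun r a => by
        funext k
        simp only [Pi.smul_apply, smul_eq_mul, RingHom.id_apply, mul_smul_comm] }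
  have h1 : LinearMap.ker f = ⊥ := by
    rw [LinearMap.ker_eq_bot]
    intro a b hab
    funext k
    have h2 : c * a k = c * b k := congrFun hab k
    exact mul_left_cancel₀ hc h2
  exact hw.map' f h1

theorem IsCounter.smul {M : Matrix (Fin 2) (Fin 2) L} (h : IsCounter K M) {c : L} (hc : c ≠ 0) :
    IsCounter K (c • M) := by
  refine ⟨?_, ?_, ?_⟩
  · rw [Matrix.det_smul, h.1, mul_zero]
  · have h1 := li_smul_pi hc h.2.1
    exact h1
  · have h1 := li_smul_pi hc h.2.2
    exact h1

theorem Eqv.smul {M M' : Matrix (Fin 2) (Fin 2) L} (h : Eqv K M M') (c : L) :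
    Eqv K (c • M) (c • M') := by
  obtain ⟨A, B, hA, hB, rfl⟩ := h
  refine ⟨A, B, hA, hB, ?_⟩
  rw [Matrix.mul_smul, Matrix.smul_mul]

theorem entries_smul (M : Matrix (Fin 2) (Fin 2) L) (c : L) :
    entries K (c • M) = scale c (entries K M) := by
  rw [entries, entries, scale, Submodule.map_span]
  congr 1
  ext w
  simp only [Set.mem_range, Set.mem_image, Matrix.smul_apply, smul_eq_mul,
    LinearMap.mulLeft_apply, exists_exists_eq_and]

theorem dep_smul {M : Matrix (Fin 2) (Fin 2) L} {c : L} (hc : c ≠ 0)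
    (h : ¬ LinearIndependent K ![M 0 0, M 0 1, M 1 0, M 1 1]) :
    ¬ LinearIndependent K ![(c • M) 0 0, (c • M) 0 1, (c • M) 1 0, (c • M) 1 1] := by
  intro h1
  apply h
  have h2 : ![(c • M) 0 0, (c • M) 0 1, (c • M) 1 0, (c • M) 1 1] =
      fun i => c * ![M 0 0, M 0 1, M 1 0, M 1 1] i := by
    funext i
    fin_cases i <;> rfl
  rw [h2] at h1
  exact (li_smul_iff hc).mp h1

/-- **Finiteness.** In a finite dimensional space with the six exponentials property there are,
up to equivalence, only finitely many matrices of rank one with linearly dependent entries, whose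
span contains a given element. -/
theorem finite_through [IsAlgClosed K] (h2 : (2 : K) ≠ 0) (V : Submodule K L)
    [FiniteDimensional K V] (hS : SixExp K V) (f : L) (hf : f ≠ 0) :
    ∃ F : Set (Matrix (Fin 2) (Fin 2) L), F.Finite ∧
      (∀ M ∈ F, IsCounter K M ∧ ∀ i j, M i j ∈ V) ∧
      ∀ M : Matrix (Fin 2) (Fin 2) L, (∀ i j, M i j ∈ V) → IsCounter K M →
        ¬ LinearIndependent K ![M 0 0, M 0 1, M 1 0, M 1 1] → f ∈ entries K M →
          ∃ M₀ ∈ F, Eqv K M₀ M := by
  by_cases hfV : f ∈ V
  · have hf' : f⁻¹ ≠ 0 := inv_ne_zero hf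
    have h1 : (1 : L) ∈ scale f⁻¹ V := by
      have := mul_mem_scale (c := f⁻¹) hfV
      rwa [inv_mul_cancel₀ hf] at this
    obtain ⟨F, hF, hFV, hcov⟩ := finite_of_finite_planes (scale f⁻¹ V)
      (finite_bad h2 (hS.scale hf') (scale f⁻¹ V) le_rfl h1)
    refine ⟨(fun M => f • M) '' F, hF.image _, ?_, ?_⟩
    · rintro M ⟨M₀, hM₀, rfl⟩
      refine ⟨(hFV M₀ hM₀).1.smul hf, fun i j => ?_⟩
      have h3 := (mem_scale hf').mp ((hFV M₀ hM₀).2 i j)
      rwa [inv_inv] at h3
    · intro M hM hc hdep hfM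
      obtain ⟨M₀, hM₀, he⟩ := hcov (f⁻¹ • M) (fun i j => mul_mem_scale (hM i j))
        (hc.smul hf') (dep_smul hf' hdep) (by
          rw [entries_smul]
          have := mul_mem_scale (c := f⁻¹) hfM
          rwa [inv_mul_cancel₀ hf] at this)
      refine ⟨f • M₀, ⟨M₀, hM₀, rfl⟩, ?_⟩
      have h3 := he.smul f
      rwa [smul_smul, mul_inv_cancel₀ hf, one_smul] at h3
  · refine ⟨∅, Set.finite_empty, by simp, ?_⟩
    intro M hM _ _ hfM
    exact absurd (entries_le hM hfM) hfV

end Pool.Agent.N770
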