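import Pool.Agent.N770.Four3

/-!
# Matrices whose entries span spaces with two common elements
-/

set_option autoImplicit false

namespace Pool.Agent.N770

open Module

variable {K L : Type*} [Field K] [Field L] [Algebra K L]

/-- a bad plane containing `v` is spanned by `1`, `v` and another element -/
theorem Bad.exists_third {T : Submodule K L} (h : Bad T) {v : L} (hv : v ∈ T)
    (hvc : ∀ c : K, v ≠ algebraMap K L c) :
    ∃ u ∈ T, u ∉ Submodule.span K ({1, v} : Set L) ∧ T = Submodule.span K {1, v, u} ∧
      QuadRel K u v := by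
  classical
  have h3 := h.finrank_eq
  obtain ⟨u, huT, hu⟩ : ∃ u ∈ T, u ∉ Submodule.span K ({1, v} : Set L) := by
    by_contra hcon
    push Not at hcon
    have h4 : T ≤ Submodule.span K ({1, v} : Set L) := fun u hu => hcon u hu
    have hfd : FiniteDimensional K (Submodule.span K ({1, v} : Set L)) :=
      FiniteDimensional.span_of_finite K (Set.toFinite _)
    have h5 := (Submodule.finrank_mono h4).trans (finrank_span_le_card ({(1 : L), v} : Set L))
    have h6 : ({(1 : L), v} : Set L).toFinset.card ≤ 2 := by
      have h7 : ({(1 : L), v} : Set L).toFinset = {1, v} := by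
        ext w
        simp
      rw [h7]
      exact Finset.card_le_two
    omega
  have key : ∀ a b c : K, a • (1 : L) + b • v + c • u = 0 → a = 0 ∧ b = 0 ∧ c = 0 := by
    intro a b c habc
    have hc : c = 0 := by
      by_contra hc
      apply hu
      rw [Submodule.mem_span_pair]
      refine ⟨-(c⁻¹ * a), -(c⁻¹ * b), ?_⟩
      have h2 : (algebraMap K L c) ≠ 0 := by simpa using hc
      simp only [Algebra.smul_def, map_neg, map_mul, map_inv₀] at habc ⊢
      field_simp
      linear_combination -habc
    rw [hc, zero_smul, add_zero] at habc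
    have hb : b = 0 := by
      by_contra hb
      apply hvc (-(b⁻¹ * a))
      have h2 : (algebraMap K L b) ≠ 0 := by simpa using hb
      simp only [Algebra.smul_def, map_neg, map_mul, map_inv₀] at habc ⊢
      field_simp
      linear_combination habc
    rw [hb, zero_smul, add_zero] at habc
    refine ⟨?_, hb, hc⟩
    simpa [Algebra.smul_def] using habc
  exact ⟨u, huT, hu, (h.quadRel hv huT key).1, (h.quadRel hv huT key).2.symm⟩

/-- bad planes through `v` -/
theorem bad_through [IsAlgClosed K] [IsAlgClosed L] (h2 : (2 : K) ≠ 0) (W : Submodule K L)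
    [FiniteDimensional K W] (hS : SixExp K W) (v : L) (hvc : ∀ c : K, v ≠ algebraMap K L c)
    (n : ℕ) (hn : 0 < n) (T : Fin n → Submodule K L) (hT : ∀ i, Bad (T i)) (hTW : ∀ i, T i ≤ W)
    (hv : ∀ i, v ∈ T i) (hinj : Function.Injective T) : n + 2 ≤ finrank K W := by
  have hvt : Transcendental K v := fun h => by
    obtain ⟨k, hk⟩ := Pool.Agent.W256.exists_const v h
    exact hvc k hk
  have h1W : (1 : L) ∈ W := hTW ⟨0, hn⟩ (hT _).one_mem
  have hvW : v ∈ W := hTW ⟨0, hn⟩ (hv _)
  choose u huT hu hTe hq using fun i => (hT i).exists_third (hv i) hvc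
  have hdir := directions' h2 hS h1W v hvW hvt u (fun i => hTW i (huT i))
    hq hu (by
      intro i j hij c hc
      apply hij
      apply hinj
      have h3 : u i ∈ T j := by
        have h4 : u i - c • u j ∈ T j := by
          refine (Submodule.span_le.mpr ?_) hc
          rintro x (rfl | hx)
          · exact (hT j).one_mem
          · rw [Set.mem_singleton_iff] at hx
            rw [hx]
            exact hv j
        have h5 := (T j).add_mem h4 ((T j).smul_mem c (huT j))
        rwa [sub_add_cancel] at h5
      have h6 : T i ≤ T j := by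
        rw [hTe i, Submodule.span_le]
        rintro x (rfl | rfl | hx)
        · exact (hT j).one_mem
        · exact hv j
        · rw [Set.mem_singleton_iff] at hx
          rw [hx]
          exact h3
      have hfd : FiniteDimensional K (T j) :=
        FiniteDimensional.of_finrank_pos (by rw [(hT j).finrank_eq]; norm_num)
      exact Submodule.eq_of_le_of_finrank_eq h6 (by rw [(hT i).finrank_eq, (hT j).finrank_eq]))
  set P : Submodule K L := Submodule.span K ({1, v} : Set L) with hP
  have hPW : P ≤ W := by
    rw [hP, Submodule.span_le]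
    rintro x (rfl | hx)
    · exact h1W
    · rw [Set.mem_singleton_iff] at hx
      rw [hx]
      exact hvW
  have hli2 : LinearIndependent K ![(1 : L), v] := by
    rw [LinearIndependent.pair_iff]
    intro s t hst
    have ht : t = 0 := by
      by_contra ht
      apply hvc (-(t⁻¹ * s))
      have h2 : (algebraMap K L t) ≠ 0 := by simpa using ht
      simp only [Algebra.smul_def] at hst
      rw [map_neg, map_mul, map_inv₀]
      field_simp
      linear_combination hst
    rw [ht, zero_smul, add_zero] at hst
    refine ⟨?_, ht⟩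
    simpa [Algebra.smul_def] using hst
  have hP2 : finrank K P = 2 := by
    have h3 := finrank_span_eq_card hli2
    have h4 : Set.range ![(1 : L), v] = {1, v} := by
      ext w
      simp only [Set.mem_range, Set.mem_insert_iff, Set.mem_singleton_iff]
      constructor
      · rintro ⟨i, rfl⟩
        fin_cases i
        · exact Or.inl rfl
        · exact Or.inr rfl
      · rintro (rfl | rfl)
        · exact ⟨0, rfl⟩
        · exact ⟨1, rfl⟩
    rwa [h4, Fintype.card_fin] at h3
  let φ : W →ₗ[K] (L ⧸ P) := P.mkQ.comp W.subtype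
  have hker : finrank K (LinearMap.ker φ) = 2 := by
    have h3 : LinearMap.ker φ = P.comap W.subtype := by
      rw [LinearMap.ker_comp, Submodule.ker_mkQ]
    rw [h3, ← hP2]
    exact (Submodule.comapSubtypeEquivOfLe hPW).finrank_eq
  have hran : n ≤ finrank K (LinearMap.range φ) := by
    have h3 : LinearIndependent K (fun i => (⟨φ ⟨u i, hTW i (huT i)⟩, ⟨_, rfl⟩⟩ :
        LinearMap.range φ)) := by
      apply LinearIndependent.of_comp (LinearMap.range φ).subtype
      exact hdir
    have h4 := h3.fintype_card_le_finrank
    rwa [Fintype.card_fin] at h4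
  have h5 := LinearMap.finrank_range_add_finrank_ker φ
  omega

/-- **Counterexamples through a plane.** -/
theorem indep_through_pair [IsAlgClosed K] [IsAlgClosed L] (h2 : (2 : K) ≠ 0)
    (W : Submodule K L) [FiniteDimensional K W] (hS : SixExp K W) (f g : L)
    (hfg : LinearIndependent K ![f, g]) (n : ℕ) (hn : 0 < n)
    (M : Fin n → Matrix (Fin 2) (Fin 2) L) (hMW : ∀ k i j, M k i j ∈ W)
    (hM : ∀ k, IsCounter K (M k))
    (hdep : ∀ k, ¬ LinearIndependent K ![M k 0 0, M k 0 1, M k 1 0, M k 1 1])
    (hf : ∀ k, f ∈ entries K (M k)) (hg : ∀ k, g ∈ entries K (M k))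
    (hne : ∀ k l, k ≠ l → ¬ Eqv K (M k) (M l)) : n + 2 ≤ finrank K W := by
  have hf0 : f ≠ 0 := by
    rintro rfl
    exact hfg.ne_zero 0 rfl
  have hf' : f⁻¹ ≠ 0 := inv_ne_zero hf0
  have hone : ∀ k, (1 : L) ∈ entries K (f⁻¹ • M k) := by
    intro k
    rw [entries_smul]
    have := mul_mem_scale (c := f⁻¹) (hf k)
    rwa [inv_mul_cancel₀ hf0] at this
  have hbad : ∀ k, Bad (entries K (f⁻¹ • M k)) := fun k =>
    ((hM k).smul hf').bad (dep_smul hf' (hdep k)) (hone k)
  have hvc : ∀ c : K, f⁻¹ * g ≠ algebraMap K L c := by
    intro c hc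
    have h3 := (LinearIndependent.pair_iff.mp hfg c (-1) (by
      rw [neg_smul, one_smul, Algebra.smul_def, ← hc]
      field_simp
      ring)).2
    simp at h3
  refine le_trans (bad_through h2 (scale f⁻¹ W) (hS.scale hf') (f⁻¹ * g) hvc n hn
    (fun k => entries K (f⁻¹ • M k)) hbad ?_ ?_ ?_) (finrank_scale_le _ _)
  · intro k
    exact entries_le fun i j => mul_mem_scale (hMW k i j)
  · intro k
    rw [entries_smul]
    exact mul_mem_scale (hg k)
  · intro k l hkl
    by_contra hkl'
    apply hne k l hkl'
    have h3 := eqv_of_entries_eq ((hM k).smul hf') ((hM l).smul hf') (dep_smul hf' (hdep k))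
      (dep_smul hf' (hdep l)) hkl
    have h4 := h3.smul f
    rwa [smul_smul, smul_smul, mul_inv_cancel₀ hf0, one_smul, one_smul] at h4

end Pool.Agent.N770
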