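import Pool.Agent.N770.Quad7

/-!
# Uniqueness of the parameter over an arbitrary field
-/

set_option autoImplicit false

namespace Pool.Agent.N770

open Polynomial Module

variable {K L : Type*} [Field K] [Field L] [Algebra K L]

/-- the parameter of a twisted square is unique up to fractional linear transformations -/
theorem unique_param' {x t x' t' : L} (hx : x ≠ 0)
    (htt : Transcendental K t) (hx' : x' ≠ 0) (ht' : ∀ k : K, t' ≠ algebraMap K L k)
    (h0 : x' ∈ Submodule.span K ({x, x * t, x * (t * t)} : Set L))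
    (h1 : x' * t' ∈ Submodule.span K ({x, x * t, x * (t * t)} : Set L))
    (h2 : x' * (t' * t') ∈ Submodule.span K ({x, x * t, x * (t * t)} : Set L))
    (h3 : x ∈ Submodule.span K ({x', x' * t', x' * (t' * t')} : Set L)) :
    ∃ κ g₀ g₁ k₀ k₁ : K, κ ≠ 0 ∧ g₀ * k₁ ≠ g₁ * k₀ ∧
      x' = algebraMap K L κ * (x * (algebraMap K L g₀ + algebraMap K L g₁ * t) ^ 2) ∧
      x' * t' = x * ((algebraMap K L g₀ + algebraMap K L g₁ * t) *
        (algebraMap K L k₀ + algebraMap K L k₁ * t)) ∧
      x' * (t' * t') = (algebraMap K L κ)⁻¹ *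
        (x * (algebraMap K L k₀ + algebraMap K L k₁ * t) ^ 2) := by
  obtain ⟨a0, a1, a2, ha⟩ := mem_three_iff.mp h0
  obtain ⟨b0, b1, b2, hb⟩ := mem_three_iff.mp h1
  obtain ⟨c0, c1, c2, hc⟩ := mem_three_iff.mp h2
  obtain ⟨e0, e1, e2, he⟩ := mem_three_iff.mp h3
  set pa : K[X] := C a0 + C a1 * X + C a2 * X ^ 2 with hpa
  set pb : K[X] := C b0 + C b1 * X + C b2 * X ^ 2 with hpb
  set pc : K[X] := C c0 + C c1 * X + C c2 * X ^ 2 with hpc
  have ea : x' = x * aeval t pa := by
    rw [ha, hpa]
    simp only [map_add, map_mul, map_pow, aeval_C, aeval_X, Algebra.smul_def]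
    ring
  have eb : x' * t' = x * aeval t pb := by
    rw [hb, hpb]
    simp only [map_add, map_mul, map_pow, aeval_C, aeval_X, Algebra.smul_def]
    ring
  have ec : x' * (t' * t') = x * aeval t pc := by
    rw [hc, hpc]
    simp only [map_add, map_mul, map_pow, aeval_C, aeval_X, Algebra.smul_def]
    ring
  have hinj : ∀ q r : K[X], aeval t q = aeval t r → q = r := by
    intro q r hqr
    by_contra hne
    exact htt ⟨q - r, sub_ne_zero.mpr hne, by rw [map_sub, hqr, sub_self]⟩
  have hprod : pa * pc = pb ^ 2 := by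
    apply hinj
    rw [map_mul, map_pow]
    have h5 : x ^ 2 * (aeval t pa * aeval t pc) = x ^ 2 * aeval t pb ^ 2 := by
      calc x ^ 2 * (aeval t pa * aeval t pc) = (x * aeval t pa) * (x * aeval t pc) := by ring
        _ = (x' * t') ^ 2 := by rw [← ea, ← ec]; ring
        _ = _ := by rw [eb]; ring
    exact mul_left_cancel₀ (pow_ne_zero 2 hx) h5
  have hone : C e0 * pa + C e1 * pb + C e2 * pc = 1 := by
    apply hinj
    simp only [map_add, map_mul, aeval_C, map_one]
    have h5 : x * (algebraMap K L e0 * aeval t pa + algebraMap K L e1 * aeval t pb +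
        algebraMap K L e2 * aeval t pc) = x * 1 := by
      calc _ = e0 • (x * aeval t pa) + e1 • (x * aeval t pb) + e2 • (x * aeval t pc) := by
            simp only [Algebra.smul_def]
            ring
        _ = x := by rw [← ea, ← eb, ← ec, ← he]
        _ = x * 1 := (mul_one x).symm
    exact mul_left_cancel₀ hx h5
  have hcop : IsCoprime pa pc := by
    refine ⟨C e0 + C e0 * C e1 * pb + C e1 ^ 2 * pc, C e2 + C e1 * C e2 * pb, ?_⟩
    linear_combination (C e1 ^ 2) * hprod + (1 + C e1 * pb) * hone
  obtain ⟨G, w, hw⟩ := exists_associated_pow_of_mul_eq_pow' hcop hprod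
  obtain ⟨κ, hκ, hκw⟩ := Polynomial.isUnit_iff.mp w.isUnit
  have hκ0 : κ ≠ 0 := hκ.ne_zero
  have hG2 : pa = C κ * G ^ 2 := by
    rw [← hw, ← hκw]
    ring
  have hG0 : G ≠ 0 := by
    intro h0
    apply hx'
    rw [ea, hG2, h0]
    simp
  have hdvd : G ∣ pb := by
    rw [← UniqueFactorizationMonoid.pow_dvd_pow_iff_dvd two_ne_zero]
    exact ⟨C κ * pc, by rw [← hprod, hG2]; ring⟩
  obtain ⟨H, hH⟩ := hdvd
  have hκC : (C κ⁻¹ : K[X]) * C κ = 1 := by
    rw [← C_mul, inv_mul_cancel₀ hκ0, C_1]
  have hH2 : pc = C κ⁻¹ * H ^ 2 := by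
    have h5 : G ^ 2 * pc = G ^ 2 * (C κ⁻¹ * H ^ 2) := by
      calc G ^ 2 * pc = C κ⁻¹ * (pa * pc) := by
            rw [hG2]
            linear_combination (-(G ^ 2 * pc)) * hκC
        _ = G ^ 2 * (C κ⁻¹ * H ^ 2) := by rw [hprod, hH]; ring
    exact mul_left_cancel₀ (pow_ne_zero 2 hG0) h5
  have hdeg : ∀ a b c : K, (C a + C b * X + C c * X ^ 2 : K[X]).natDegree ≤ 2 := by
    intro a b c
    compute_degree
  have hGd : G.natDegree ≤ 1 := by
    have h5 := hdeg a0 a1 a2
    rw [← hpa, hG2, natDegree_C_mul hκ0, natDegree_pow] at h5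
    omega
  have hHd : H.natDegree ≤ 1 := by
    have h5 := hdeg c0 c1 c2
    rw [← hpc, hH2, natDegree_C_mul (inv_ne_zero hκ0), natDegree_pow] at h5
    omega
  have hform : ∀ r : K[X], r.natDegree ≤ 1 →
      aeval t r = algebraMap K L (r.coeff 0) + algebraMap K L (r.coeff 1) * t := by
    intro r hr
    conv_lhs => rw [Polynomial.eq_X_add_C_of_natDegree_le_one hr]
    simp only [map_add, map_mul, aeval_C, aeval_X]
    ring
  refine ⟨κ, G.coeff 0, G.coeff 1, H.coeff 0, H.coeff 1, hκ0, ?_, ?_, ?_, ?_⟩
  · intro h5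
    -- `G` and `H` are proportional
    have hGt : aeval t G ≠ 0 := by
      intro h6
      exact hG0 (hinj G 0 (by rw [h6, map_zero]))
    have hκL : algebraMap K L κ ≠ 0 := by simpa using hκ0
    have ht1 : (algebraMap K L κ * t') * aeval t G = aeval t H := by
      have h6 : x * aeval t G * ((algebraMap K L κ * t') * aeval t G) =
          x * aeval t G * aeval t H := by
        calc x * aeval t G * ((algebraMap K L κ * t') * aeval t G) =
              (x * (algebraMap K L κ * aeval t G ^ 2)) * t' := by ring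
          _ = x' * t' := by rw [ea, hG2, map_mul, map_pow, aeval_C]
          _ = x * aeval t G * aeval t H := by rw [eb, hH, map_mul]; ring
      exact mul_left_cancel₀ (mul_ne_zero hx hGt) h6
    have htκ : ∀ k : K, algebraMap K L κ * t' ≠ algebraMap K L k := by
      intro k hk
      apply ht' (κ⁻¹ * k)
      rw [map_mul, map_inv₀, ← hk]
      field_simp
    by_cases h7 : G.coeff 1 = 0
    · have h8 : G.coeff 0 ≠ 0 := by
        intro h8
        apply hGt
        rw [hform G hGd, h7, h8]
        simp
      rw [h7, zero_mul] at h5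
      have h9 : H.coeff 1 = 0 := (mul_eq_zero.mp h5).resolve_left h8
      apply htκ ((G.coeff 0)⁻¹ * H.coeff 0)
      rw [hform G hGd, hform H hHd, h7, h9, map_zero, zero_mul, add_zero, add_zero] at ht1
      have h10 : algebraMap K L (G.coeff 0) ≠ 0 := by simpa using h8
      rw [map_mul, map_inv₀]
      field_simp
      linear_combination ht1
    · apply htκ ((G.coeff 1)⁻¹ * H.coeff 1)
      have h10 : algebraMap K L (G.coeff 1) ≠ 0 := by simpa using h7
      have h11 : algebraMap K L (G.coeff 0) * algebraMap K L (H.coeff 1) =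
          algebraMap K L (G.coeff 1) * algebraMap K L (H.coeff 0) := by
        rw [← map_mul, ← map_mul, h5]
      have h12 : aeval t G * (algebraMap K L (G.coeff 1) * (algebraMap K L κ * t') -
          algebraMap K L (H.coeff 1)) = 0 := by
        rw [hform G hGd, hform H hHd] at ht1
        rw [hform G hGd]
        linear_combination algebraMap K L (G.coeff 1) * ht1 - h11
      have h13 := (mul_eq_zero.mp h12).resolve_left hGt
      rw [map_mul, map_inv₀]
      field_simp
      linear_combination h13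
  · rw [ea, hG2, map_mul, map_pow, hform G hGd, aeval_C]
    ring
  · rw [eb, hH, map_mul, hform G hGd, hform H hHd]
  · rw [ec, hH2, map_mul, map_pow, hform H hHd, aeval_C, map_inv₀]
    ring

/-- **Uniqueness.** The span of the entries determines the matrix up to equivalence. -/
theorem eqv_of_entries_eq' {M M' : Matrix (Fin 2) (Fin 2) L} (h : IsCounter K M)
    (h' : IsCounter K M') (hdep : ¬ LinearIndependent K ![M 0 0, M 0 1, M 1 0, M 1 1])
    (hdep' : ¬ LinearIndependent K ![M' 0 0, M' 0 1, M' 1 0, M' 1 1])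
    (htr : ∀ x t : L, x ≠ 0 → (∀ k : K, t ≠ algebraMap K L k) → x ∈ entries K M →
      x * t ∈ entries K M → Transcendental K t)
    (he : entries K M = entries K M') : Eqv K M M' := by
  obtain ⟨x, t, hx, ht, h1⟩ := h.normal hdep
  obtain ⟨x', t', hx', ht', h1'⟩ := h'.normal hdep'
  have he1 : entries K M = Submodule.span K ({x, x * t, x * (t * t)} : Set L) := by
    rw [← entries_sqm, ← h1.entries_eq]
  have he2 : Submodule.span K ({x, x * t, x * (t * t)} : Set L) =
      Submodule.span K ({x', x' * t', x' * (t' * t')} : Set L) := by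
    rw [← entries_sqm, ← entries_sqm, ← h1.entries_eq, ← h1'.entries_eq, he]
  have htt : Transcendental K t := htr x t hx ht
    (by rw [he1]; exact Submodule.subset_span (Or.inl rfl))
    (by rw [he1]; exact Submodule.subset_span (Or.inr (Or.inl rfl)))
  obtain ⟨κ, g₀, g₁, k₀, k₁, hκ, hne, h2, h3, h4⟩ := unique_param' hx htt hx' ht'
    (by rw [he2]; exact Submodule.subset_span (Or.inl rfl))
    (by rw [he2]; exact Submodule.subset_span (Or.inr (Or.inl rfl)))
    (by rw [he2]; exact Submodule.subset_span (Or.inr (Or.inr rfl)))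
    (by rw [← he2]; exact Submodule.subset_span (Or.inl rfl))
  have hκL : algebraMap K L κ ≠ 0 := by simpa using hκ
  have h5 : Eqv K (sqm x t) (sqm x' t') := by
    refine ⟨!![κ * g₀, κ * g₁; k₀, k₁], !![g₀, κ⁻¹ * k₀; g₁, κ⁻¹ * k₁], ?_, ?_, ?_⟩
    · rw [Matrix.det_fin_two_of]
      intro h0
      have h6 : κ * (g₀ * k₁ - g₁ * k₀) = 0 := by linear_combination h0
      exact hne (sub_eq_zero.mp ((mul_eq_zero.mp h6).resolve_left hκ))
    · rw [Matrix.det_fin_two_of]
      intro h0
      have h6 : κ⁻¹ * (g₀ * k₁ - g₁ * k₀) = 0 := by linear_combination h0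
      exact hne (sub_eq_zero.mp ((mul_eq_zero.mp h6).resolve_left (inv_ne_zero hκ)))
    · ext i j
      rw [Matrix.mul_apply, Fin.sum_univ_two, Matrix.mul_apply, Matrix.mul_apply,
        Fin.sum_univ_two, Fin.sum_univ_two]
      fin_cases i <;> fin_cases j
      · change x' = (algebraMap K L (κ * g₀) * x + algebraMap K L (κ * g₁) * (x * t)) *
          algebraMap K L g₀ + (algebraMap K L (κ * g₀) * (x * t) +
            algebraMap K L (κ * g₁) * (x * (t * t))) * algebraMap K L g₁
        rw [h2, map_mul, map_mul]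
        ring
      · change x' * t' = (algebraMap K L (κ * g₀) * x + algebraMap K L (κ * g₁) * (x * t)) *
          algebraMap K L (κ⁻¹ * k₀) + (algebraMap K L (κ * g₀) * (x * t) +
            algebraMap K L (κ * g₁) * (x * (t * t))) * algebraMap K L (κ⁻¹ * k₁)
        rw [h3]
        simp only [map_mul, map_inv₀]
        field_simp
      · change x' * t' = (algebraMap K L k₀ * x + algebraMap K L k₁ * (x * t)) *
          algebraMap K L g₀ +
          (algebraMap K L k₀ * (x * t) + algebraMap K L k₁ * (x * (t * t))) * algebraMap K L g₁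
        rw [h3]
        ring
      · change x' * (t' * t') = (algebraMap K L k₀ * x + algebraMap K L k₁ * (x * t)) *
          algebraMap K L (κ⁻¹ * k₀) +
          (algebraMap K L k₀ * (x * t) + algebraMap K L k₁ * (x * (t * t))) *
            algebraMap K L (κ⁻¹ * k₁)
        rw [h4]
        simp only [map_mul, map_inv₀]
        ring
  exact (h1.symm.trans h5).trans h1'

/-- **At most four** inequivalent matrices with linearly dependent entries. -/
theorem four_counter [IsAlgClosed K] (h2 : (2 : K) ≠ 0) (V : Submodule K L)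
    [FiniteDimensional K V] (hS : SixExp K V) (hV4 : finrank K V ≤ 4)
    (M : Fin 5 → Matrix (Fin 2) (Fin 2) L) (hMV : ∀ k i j, M k i j ∈ V)
    (hM : ∀ k, IsCounter K (M k))
    (hdep : ∀ k, ¬ LinearIndependent K ![M k 0 0, M k 0 1, M k 1 0, M k 1 1]) :
    ∃ k l, k ≠ l ∧ entries K (M k) = entries K (M l) := by
  by_contra hcon
  push Not at hcon
  refine no_five h2 V hS hV4 (fun k => entries K (M k)) (fun k => entries_le (hMV k)) ?_ ?_
  · intro k
    obtain ⟨x, t, hx, ht, h1⟩ := (hM k).normal (hdep k)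
    exact ⟨x, t, hx, ht, by rw [h1.entries_eq, entries_sqm]⟩
  · intro k l hkl
    by_contra hne
    exact hcon k l hne hkl

end Pool.Agent.N770
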