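import Mathlib

/-!
# Generic points of infinite sets
-/

set_option autoImplicit false

namespace Pool.Agent.N770

open Polynomial

universe u

/-- An infinite subset of `K ^ σ`, `σ` finite, has a generic point with a transcendental
coordinate. -/
theorem exists_generic_point {K : Type u} [Field K] {σ : Type} [Fintype σ] (T : Set (σ → K))
    (hT : T.Infinite) :
    ∃ (F : Type u) (_ : Field F) (_ : Algebra K F) (x : σ → F),
      (∀ P : MvPolynomial σ K, (∀ t ∈ T, MvPolynomial.eval t P = 0) →
        MvPolynomial.aeval x P = 0) ∧ ∃ i, Transcendental K (x i) := by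
  classical
  -- a coordinate with infinitely many values
  obtain ⟨i, hi⟩ : ∃ i, ((fun t : σ → K => t i) '' T).Infinite := by
    by_contra hcon
    push Not at hcon
    apply hT
    refine (Set.Finite.pi (t := fun i => (fun t : σ → K => t i) '' T)
      (fun i => by simpa [Set.not_infinite] using hcon i)).subset ?_
    intro t ht i _
    exact ⟨t, ht, rfl⟩
  let I : Ideal (MvPolynomial σ K) :=
    { carrier := {P | ∀ t ∈ T, MvPolynomial.eval t P = 0}
      add_mem' := by
        intro P Q hP hQ t ht
        rw [map_add, hP t ht, hQ t ht, add_zero]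
      zero_mem' := by
        intro t _
        rw [map_zero]
      smul_mem' := by
        intro c P hP t ht
        rw [smul_eq_mul, map_mul, hP t ht, mul_zero] }
  let e : K[X] →ₐ[K] MvPolynomial σ K := aeval (MvPolynomial.X i)
  have he : ∀ (q : K[X]) (t : σ → K), MvPolynomial.eval t (e q) = q.eval (t i) := by
    intro q t
    have h1 : (MvPolynomial.eval t : MvPolynomial σ K →+* K) (aeval (MvPolynomial.X i) q) =
        (MvPolynomial.aeval t : MvPolynomial σ K →ₐ[K] K) (aeval (MvPolynomial.X i) q) := rfl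
    change MvPolynomial.eval t (aeval (MvPolynomial.X i) q) = _
    rw [h1, ← aeval_algHom_apply, MvPolynomial.aeval_X]
    simp [aeval_def, eval₂_eq_eval_map]
  let S : Submonoid (MvPolynomial σ K) := (nonZeroDivisors K[X]).map e
  have hdis : Disjoint (I : Set (MvPolynomial σ K)) S := by
    rw [Set.disjoint_left]
    rintro _ hI ⟨q, hq, rfl⟩
    have hq0 : q ≠ 0 := nonZeroDivisors.ne_zero hq
    apply hi
    refine (q.roots.toFinset.finite_toSet).subset ?_
    rintro _ ⟨t, ht, rfl⟩
    rw [Finset.mem_coe, Multiset.mem_toFinset, mem_roots hq0, IsRoot.def]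
    rw [← he]
    exact hI t ht
  obtain ⟨p, hp, hIp, hpS⟩ := Ideal.exists_le_prime_disjoint I S hdis
  have := hp
  refine ⟨FractionRing (MvPolynomial σ K ⧸ p), inferInstance, inferInstance,
    fun j => algebraMap (MvPolynomial σ K ⧸ p) _ (Ideal.Quotient.mkₐ K p (MvPolynomial.X j)),
    ?_, i, ?_⟩
  · intro P hP
    have h1 : (MvPolynomial.aeval (fun j => algebraMap (MvPolynomial σ K ⧸ p)
        (FractionRing (MvPolynomial σ K ⧸ p)) (Ideal.Quotient.mkₐ K p (MvPolynomial.X j))) :
        MvPolynomial σ K →ₐ[K] _) = ((Algebra.ofId (MvPolynomial σ K ⧸ p)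
        (FractionRing (MvPolynomial σ K ⧸ p))).restrictScalars K).comp (Ideal.Quotient.mkₐ K p) := by
      apply MvPolynomial.algHom_ext
      intro j
      rw [MvPolynomial.aeval_X]
      rfl
    rw [h1, AlgHom.comp_apply]
    have h2 : Ideal.Quotient.mkₐ K p P = 0 := by
      rw [Ideal.Quotient.mkₐ_eq_mk, Ideal.Quotient.eq_zero_iff_mem]
      exact hIp hP
    rw [h2, map_zero]
  · intro halg
    obtain ⟨q, hq0, hq⟩ := halg
    have h3 : algebraMap (MvPolynomial σ K ⧸ p) (FractionRing (MvPolynomial σ K ⧸ p))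
        (Ideal.Quotient.mkₐ K p (e q)) = 0 := by
      rw [← hq]
      change _ = aeval (algebraMap (MvPolynomial σ K ⧸ p) (FractionRing (MvPolynomial σ K ⧸ p))
        (Ideal.Quotient.mkₐ K p (MvPolynomial.X i))) q
      rw [aeval_algebraMap_apply]
      congr 1
      change Ideal.Quotient.mkₐ K p (aeval (MvPolynomial.X i) q) = _
      rw [← aeval_algHom_apply]
    have h4 : Ideal.Quotient.mkₐ K p (e q) = 0 :=
      (FaithfulSMul.algebraMap_injective _ (FractionRing (MvPolynomial σ K ⧸ p)))
        (by rw [h3, map_zero])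
    rw [Ideal.Quotient.mkₐ_eq_mk, Ideal.Quotient.eq_zero_iff_mem] at h4
    exact Set.disjoint_left.mp hpS h4 ⟨q, mem_nonZeroDivisors_of_ne_zero hq0, rfl⟩

end Pool.Agent.N770
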