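import Pool.Agent.N770.Cover
import Pool.Agent.H297R2.InBakerThm

/-!
# The covering theorem for linear forms in logarithms
-/

set_option autoImplicit false

namespace Pool.Agent.N770

open Polynomial Module IntermediateField Pool.Agent.W256
open Pool.Agent.H301R2.SSE (QB mem_QB Lt Lt_one Lt_log)

theorem isAlgClosed_QB : IsAlgClosed QB := (algebraicClosure.isAlgClosure ℚ ℂ).isAlgClosed

/-- logarithms which are linearly independent over the rationals are, with `1`, linearly
independent over the algebraic numbers -/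
theorem li_cons {N : ℕ} (l : Fin N → ℂ) (halg : ∀ j, IsAlgebraic ℚ (Complex.exp (l j)))
    (hli : LinearIndependent ℚ l) :
    LinearIndependent QB (Fin.cons 1 l : Fin (N + 1) → ℂ) := by
  rw [Fintype.linearIndependent_iff]
  intro g hg
  rw [Fin.sum_univ_succ] at hg
  simp only [Fin.cons_zero, Fin.cons_succ] at hg
  have h1 : (g 0 : ℂ) + ∑ i : Fin N, (g i.succ : ℂ) * l i = 0 := by
    rw [← hg, Algebra.smul_def, mul_one]
    congr 1
  obtain ⟨h2, h3⟩ := Pool.Agent.H297R2.baker_inhom l halg hli (g 0) (mem_QB.1 (g 0).2)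
    (fun i => (g i.succ : ℂ)) (fun i => mem_QB.1 (g i.succ).2) h1
  intro i
  refine Fin.cases ?_ (fun i => ?_) i
  · exact_mod_cast h2
  · exact_mod_cast h3 i

theorem exp_rat_mul {z : ℂ} (hz : IsAlgebraic ℚ (Complex.exp z)) (q : ℚ) :
    IsAlgebraic ℚ (Complex.exp (q * z)) := by
  have hpos : 0 < q.den := q.den_pos
  apply IsAlgebraic.of_pow hpos
  rw [← Complex.exp_nat_mul]
  have h1 : (q.den : ℂ) * (q * z) = (q.num : ℂ) * z := by
    have h2 : (q : ℂ) = (q.num : ℂ) / (q.den : ℂ) := by
      exact_mod_cast (Rat.num_div_den q).symm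
    rw [h2]
    have h3 : (q.den : ℂ) ≠ 0 := by exact_mod_cast hpos.ne'
    field_simp
  rw [h1, Complex.exp_int_mul]
  rcases q.num.eq_nat_or_neg with ⟨n, hn | hn⟩
  · rw [hn, zpow_natCast]
    exact hz.pow n
  · rw [hn, zpow_neg, zpow_natCast]
    exact (hz.pow n).inv

theorem exp_sum_rat {N : ℕ} (l : Fin N → ℂ) (halg : ∀ j, IsAlgebraic ℚ (Complex.exp (l j)))
    (a : Fin N → ℚ) : IsAlgebraic ℚ (Complex.exp (∑ j, (a j : ℂ) * l j)) := by
  rw [Complex.exp_sum]
  induction (Finset.univ : Finset (Fin N)) using Finset.induction_on with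
  | empty => rw [Finset.prod_empty]; exact isAlgebraic_one
  | insert i s his ih =>
    rw [Finset.prod_insert his]
    exact (exp_rat_mul (halg i) (a i)).mul ih

/-- the rational points of a subspace -/
noncomputable def ratPts {N : ℕ} (l : Fin N → ℂ) (W : Submodule QB ℂ) : Submodule ℚ (Fin N → ℚ) where
  carrier := {a | ∑ j, (a j : ℂ) * l j ∈ W}
  add_mem' := by
    intro a b ha hb
    have h1 : ∑ j, (((a + b) j : ℚ) : ℂ) * l j = ∑ j, (a j : ℂ) * l j + ∑ j, (b j : ℂ) * l j := by
      rw [← Finset.sum_add_distrib]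
      refine Finset.sum_congr rfl fun j _ => ?_
      rw [Pi.add_apply, Rat.cast_add, add_mul]
    change _ ∈ W
    rw [h1]
    exact add_mem ha hb
  zero_mem' := by
    change _ ∈ W
    have h1 : ∑ j, (((0 : Fin N → ℚ) j : ℚ) : ℂ) * l j = 0 := by
      apply Finset.sum_eq_zero
      intro j _
      rw [Pi.zero_apply, Rat.cast_zero, zero_mul]
    rw [h1]
    exact zero_mem _
  smul_mem' := by
    intro c a ha
    change _ ∈ W
    have h1 : ∑ j, (((c • a) j : ℚ) : ℂ) * l j = (algebraMap ℚ QB c) • ∑ j, (a j : ℂ) * l j := by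
      rw [Finset.smul_sum]
      refine Finset.sum_congr rfl fun j _ => ?_
      rw [Pi.smul_apply, smul_eq_mul, Rat.cast_mul, Algebra.smul_def, mul_assoc]
      rfl
    rw [h1]
    exact W.smul_mem _ ha

theorem mem_ratPts {N : ℕ} (l : Fin N → ℂ) (W : Submodule QB ℂ) (a : Fin N → ℚ) :
    a ∈ ratPts l W ↔ ∑ j, (a j : ℂ) * l j ∈ W := Iff.rfl

/-- the rational points have smaller dimension, by the theorem of Baker -/
theorem finrank_ratPts {N : ℕ} (l : Fin N → ℂ) (halg : ∀ j, IsAlgebraic ℚ (Complex.exp (l j)))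
    (hli : LinearIndependent ℚ l) (W : Submodule QB ℂ) [FiniteDimensional QB W]
    (h1 : (1 : ℂ) ∈ W) : finrank ℚ (ratPts l W) + 1 ≤ finrank QB W := by
  classical
  set r := finrank ℚ (ratPts l W) with hr
  let b := finBasis ℚ (ratPts l W)
  let y : Fin r → ℂ := fun i => ∑ j, ((b i : Fin N → ℚ) j : ℂ) * l j
  have hy : ∀ i, IsAlgebraic ℚ (Complex.exp (y i)) := fun i => exp_sum_rat l halg _
  have hyli : LinearIndependent ℚ y := by
    rw [Fintype.linearIndependent_iff]
    intro g hg
    have h2 : ∑ j, (∑ i, g i * (b i : Fin N → ℚ) j) • l j = 0 := by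
      rw [← hg]
      simp only [y, Finset.smul_sum, Finset.sum_smul]
      rw [Finset.sum_comm]
      refine Finset.sum_congr rfl fun i _ => Finset.sum_congr rfl fun j _ => ?_
      rw [Rat.smul_def, Rat.smul_def, Rat.cast_mul, mul_assoc]
    have h3 := Fintype.linearIndependent_iff.mp hli _ h2
    have h4 : ∑ i, g i • b i = 0 := by
      apply Subtype.ext
      rw [Submodule.coe_sum]
      funext j
      rw [Finset.sum_apply]
      exact h3 j
    exact Fintype.linearIndependent_iff.mp b.linearIndependent g h4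
  have hcons := li_cons y hy hyli
  have hmem : ∀ i, (Fin.cons 1 y : Fin (r + 1) → ℂ) i ∈ W := by
    intro i
    refine Fin.cases ?_ (fun i => ?_) i
    · exact h1
    · rw [Fin.cons_succ]
      exact (b i).2
  have h5 : LinearIndependent QB (fun i => (⟨_, hmem i⟩ : W)) :=
    LinearIndependent.of_comp W.subtype hcons
  have h6 := h5.fintype_card_le_finrank
  rwa [Fintype.card_fin] at h6

theorem grows_Lt : Grows QB Lt := by
  intro V hVf hV h1 m hm
  exact pow_growth V hV h1 m hm

end Pool.Agent.N770
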