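import Pool.Agent.N770.Four3
import Pool.Agent.N770.Classical
import Pool.Agent.N770.Logs

/-!
# Homogeneous relations between three logarithms, two of which are fixed
-/

set_option autoImplicit false

namespace Pool.Agent.N770

open Module
open Pool.Agent.W256 (growth_of half_mul)

section generic

variable {K L : Type*} [Field K] [Field L] [Algebra K L]

/-- `P(x, y, z) = 0` for a nonzero homogeneous polynomial of degree `D` -/
def HomRel (K : Type*) {L : Type*} [Field K] [Field L] [Algebra K L] (D : ℕ) (x y z : L) : Prop :=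
  ∃ P : MvPolynomial (Fin 3) K, P ≠ 0 ∧ P.IsHomogeneous D ∧ MvPolynomial.aeval ![x, y, z] P = 0

theorem aeval_mul_of_homogeneous {σ A : Type*} [CommRing A] [Algebra K A] {D : ℕ}
    (P : MvPolynomial σ K) (hP : P.IsHomogeneous D) (c : A) (x : σ → A) :
    MvPolynomial.aeval (fun i => c * x i) P = c ^ D * MvPolynomial.aeval x P := by
  classical
  rw [MvPolynomial.aeval_def, MvPolynomial.aeval_def, MvPolynomial.eval₂_eq, MvPolynomial.eval₂_eq,
    Finset.mul_sum]
  refine Finset.sum_congr rfl fun s hs => ?_
  have hsD : ∑ i ∈ s.support, s i = D := by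
    have := hP (MvPolynomial.mem_support_iff.mp hs)
    rw [Finsupp.weight_apply] at this
    rw [← this]
    simp [Finsupp.sum]
  have h1 : ∏ i ∈ s.support, (c * x i) ^ s i = c ^ D * ∏ i ∈ s.support, x i ^ s i := by
    rw [← hsD, ← Finset.prod_pow_eq_pow_sum, ← Finset.prod_mul_distrib]
    refine Finset.prod_congr rfl fun i _ => ?_
    rw [mul_pow]
  rw [h1]
  ring

theorem totalDegree_dehom {D : ℕ} (P : MvPolynomial (Fin 3) K) (hP : P.IsHomogeneous D)
    (g : Fin 3 → MvPolynomial (Fin 2) K) (hg : ∀ i, (g i).totalDegree ≤ 1) :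
    (MvPolynomial.aeval g P).totalDegree ≤ D := by
  classical
  rw [MvPolynomial.aeval_def, MvPolynomial.eval₂_eq]
  refine MvPolynomial.totalDegree_finsetSum_le fun s hs => ?_
  have hsD : ∑ i ∈ s.support, s i = D := by
    have := hP (MvPolynomial.mem_support_iff.mp hs)
    rw [Finsupp.weight_apply] at this
    rw [← this]
    simp [Finsupp.sum]
  refine (MvPolynomial.totalDegree_mul _ _).trans ?_
  rw [MvPolynomial.algebraMap_eq, MvPolynomial.totalDegree_C, zero_add]
  refine (MvPolynomial.totalDegree_finsetProd _ _).trans ?_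
  rw [← hsD]
  refine Finset.sum_le_sum fun i _ => ?_
  refine (MvPolynomial.totalDegree_pow _ _).trans ?_
  calc s i * (g i).totalDegree ≤ s i * 1 := Nat.mul_le_mul le_rfl (hg i)
    _ = s i := mul_one _

theorem aeval_dehom {A : Type*} [CommRing A] [Algebra K A] (P : MvPolynomial (Fin 3) K)
    (f : Fin 2 → A) :
    MvPolynomial.aeval f (MvPolynomial.aeval
      (![1, MvPolynomial.X 1, MvPolynomial.X 0] : Fin 3 → MvPolynomial (Fin 2) K) P) =
        MvPolynomial.aeval ![1, f 1, f 0] P := by
  have h1 : (MvPolynomial.aeval f).comp (MvPolynomial.aeval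
      (![1, MvPolynomial.X 1, MvPolynomial.X 0] : Fin 3 → MvPolynomial (Fin 2) K)) =
      (MvPolynomial.aeval ![1, f 1, f 0] : MvPolynomial (Fin 3) K →ₐ[K] A) := by
    apply MvPolynomial.algHom_ext
    intro i
    rw [AlgHom.comp_apply, MvPolynomial.aeval_X, MvPolynomial.aeval_X]
    fin_cases i <;> simp
  exact DFunLike.congr_fun h1 P

/-- dehomogenisation -/
theorem HomRel.dep [Infinite K] {D : ℕ} {x y z : L} (h : HomRel K D x y z) (hx : x ≠ 0) :
    Dep K D (x⁻¹ * z) (x⁻¹ * y) := by
  classical
  obtain ⟨P, hP0, hPD, hP⟩ := h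
  let g : Fin 3 → MvPolynomial (Fin 2) K := ![1, MvPolynomial.X 1, MvPolynomial.X 0]
  have hg : ∀ i, (g i).totalDegree ≤ 1 := by
    intro i
    fin_cases i
    · simp [g]
    · exact (MvPolynomial.totalDegree_X (R := K) (1 : Fin 2)).le
    · exact (MvPolynomial.totalDegree_X (R := K) (0 : Fin 2)).le
  refine ⟨MvPolynomial.aeval g P, ?_, totalDegree_dehom P hPD g hg, ?_⟩
  · intro hQ
    have h1 : MvPolynomial.X 0 * P ≠ 0 := mul_ne_zero (MvPolynomial.X_ne_zero _) hP0
    apply h1
    apply MvPolynomial.funext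
    intro a
    rw [map_zero, map_mul, MvPolynomial.eval_X]
    by_cases ha : a 0 = 0
    · rw [ha, zero_mul]
    · have h2 := aeval_mul_of_homogeneous P hPD (a 0) (fun i => (a 0)⁻¹ * a i)
      have h3 : (fun i => a 0 * ((a 0)⁻¹ * a i)) = a := by
        funext i
        rw [mul_inv_cancel_left₀ ha]
      rw [h3] at h2
      have h4 : (fun i => (a 0)⁻¹ * a i) = ![1, (a 0)⁻¹ * a 1, (a 0)⁻¹ * a 2] := by
        funext i
        fin_cases i
        · simp [inv_mul_cancel₀ ha]
        · rfl
        · rfl
      have h5 := aeval_dehom P ![(a 0)⁻¹ * a 2, (a 0)⁻¹ * a 1]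
      rw [hQ, map_zero] at h5
      have h6 : MvPolynomial.aeval (fun i => (a 0)⁻¹ * a i) P = 0 := by
        rw [h4, h5]
        rfl
      rw [h6, mul_zero] at h2
      have h7 : MvPolynomial.eval a P = 0 := by
        rw [← h2, MvPolynomial.aeval_def]
        rfl
      rw [h7, mul_zero]
  · rw [aeval_dehom]
    have h2 := aeval_mul_of_homogeneous P hPD x⁻¹ ![x, y, z]
    rw [hP, mul_zero] at h2
    rw [← h2]
    have h4 : (fun i => x⁻¹ * ![x, y, z] i) = ![1, x⁻¹ * y, x⁻¹ * z] := by
      funext i
      fin_cases i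
      · simp [inv_mul_cancel₀ hx]
      · rfl
      · rfl
    rw [h4]
    rfl

/-- the hyperplane theorem in the form of a lower bound for products -/
def ProdLe (K : Type*) {L : Type*} [Field K] [Field L] [Algebra K L] (S : Submodule K L) : Prop :=
  ∀ Y V : Submodule K L, FiniteDimensional K Y → FiniteDimensional K V → V ≤ S →
    finrank K Y * finrank K V ≤ finrank K (Y * V : Submodule K L) + finrank K Y * (finrank K Y - 1)

theorem scale_scale_inv {c : L} (hc : c ≠ 0) (V : Submodule K L) : scale c⁻¹ (scale c V) = V := by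
  ext x
  rw [mem_scale (inv_ne_zero hc), mem_scale hc, inv_inv, inv_mul_cancel_left₀ hc]

theorem finrank_scale_eq {c : L} (hc : c ≠ 0) (V : Submodule K L) [FiniteDimensional K V] :
    finrank K (scale c V) = finrank K V := by
  apply le_antisymm (finrank_scale_le c V)
  conv_lhs => rw [← scale_scale_inv hc V]
  exact finrank_scale_le _ _

theorem mul_scale {c : L} (hc : c ≠ 0) (Y V : Submodule K L) :
    Y * scale c V = scale c (Y * V) := by
  apply le_antisymm
  · rw [Submodule.mul_le]
    intro y hy w hw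
    rw [mem_scale hc] at hw ⊢
    have h1 : c⁻¹ * (y * w) = y * (c⁻¹ * w) := by ring
    rw [h1]
    exact Submodule.mul_mem_mul hy hw
  · intro w hw
    rw [mem_scale hc] at hw
    have h1 : ∀ z ∈ Y * V, c * z ∈ Y * scale c V := by
      intro z hz
      induction hz using Submodule.mul_induction_on' with
      | mem_mul_mem y hy v hv =>
        have h2 : c * (y * v) = y * (c * v) := by ring
        rw [h2]
        exact Submodule.mul_mem_mul hy (mul_mem_scale hv)
      | add x hx y hy ihx ihy =>
        rw [mul_add]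
        exact add_mem ihx ihy
    have h2 := h1 _ hw
    rwa [mul_inv_cancel_left₀ hc] at h2

theorem ProdLe.scaled {S : Submodule K L} (hS : ProdLe K S) {c : L} (hc : c ≠ 0) :
    ProdLe K (scale c S) := by
  intro Y V hY hV hVS
  have h1 : scale c⁻¹ V ≤ S := by
    intro x hx
    rw [mem_scale (inv_ne_zero hc), inv_inv] at hx
    have := (mem_scale hc).mp (hVS hx)
    rwa [inv_mul_cancel_left₀ hc] at this
  have hYV : FiniteDimensional K (Y * V : Submodule K L) :=
    Module.Finite.iff_fg.mpr (Submodule.FG.mul (Module.Finite.iff_fg.mp inferInstance)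
      (Module.Finite.iff_fg.mp inferInstance))
  have h2 := hS Y (scale c⁻¹ V) hY inferInstance h1
  rw [mul_scale (inv_ne_zero hc), finrank_scale_eq (inv_ne_zero hc),
    finrank_scale_eq (inv_ne_zero hc)] at h2
  exact h2

theorem ProdLe.grows [IsAlgClosed K] {S : Submodule K L} (hS : ProdLe K S) : Grows K S := by
  intro V hVf hV h1 m hm
  have hfd : ∀ k, FiniteDimensional K (V ^ k : Submodule K L) := fun k =>
    Module.Finite.iff_fg.mpr (Submodule.FG.pow (Module.Finite.iff_fg.mp inferInstance) k)
  have := hfd m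
  have := hfd (m + 1)
  have hle : V ≤ V ^ m := by
    obtain ⟨k, rfl⟩ : ∃ k, m = k + 1 := ⟨m - 1, by omega⟩
    have h2 : (1 : Submodule K L) ≤ V ^ k := by
      rw [Submodule.one_le]
      clear hm
      have : ∀ j, (1 : L) ∈ V ^ j := by
        intro j
        induction j with
        | zero => rw [pow_zero]; exact Submodule.one_le.mp le_rfl
        | succ j ih =>
          rw [pow_succ]
          have := Submodule.mul_mem_mul ih h1
          rwa [mul_one] at this
      exact this k
    calc V = 1 * V := (one_mul V).symm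
      _ ≤ V ^ k * V := mul_le_mul' h2 le_rfl
      _ = V ^ (k + 1) := (pow_succ V k).symm
  have hfr := Submodule.finrank_mono hle
  have hV0 : V ≠ ⊥ := by
    rintro rfl
    exact one_ne_zero ((Submodule.mem_bot K).mp h1)
  have key := growth_of (V ^ m) V hV0 (finrank K V / 2) (by omega) (by
    intro Y hYX hYs
    have : FiniteDimensional K Y := Submodule.finiteDimensional_of_le hYX
    have h := hS Y V this hVf hV
    rwa [hYs] at h)
  rw [← pow_succ] at key
  have h3 := half_mul (finrank K V)
  omega

end generic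

theorem prodLe_Lt : ProdLe Pool.Agent.H301R2.SSE.QB Pool.Agent.H301R2.SSE.Lt := by
  intro Y V hY hV hVL
  have : FiniteDimensional Pool.Agent.H301R2.SSE.QB
      (Y * V : Submodule Pool.Agent.H301R2.SSE.QB ℂ) :=
    Module.Finite.iff_fg.mpr (Submodule.FG.mul (Module.Finite.iff_fg.mp inferInstance)
      (Module.Finite.iff_fg.mp inferInstance))
  exact Pool.Agent.W254.HP.product_le Y V (Y * V) hVL
    (fun x hx w hw => Submodule.mul_mem_mul hx hw)


end Pool.Agent.N770
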