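import Pool.Agent.N770.Hom

/-!
# Logarithms which satisfy a homogeneous relation with two fixed logarithms
-/

set_option autoImplicit false

namespace Pool.Agent.N770

open Module
open Pool.Agent.H301R2.SSE (QB mem_QB Lt Lt_one Lt_log)

/-- the rational points, by the theorem of Baker -/
theorem finrank_ratPts_le {N : ℕ} (l : Fin N → ℂ) (halg : ∀ j, IsAlgebraic ℚ (Complex.exp (l j)))
    (hli : LinearIndependent ℚ l) (W : Submodule QB ℂ) [FiniteDimensional QB W] :
    finrank ℚ (ratPts l W) ≤ finrank QB W := by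
  classical
  set r := finrank ℚ (ratPts l W) with hr
  let b := finBasis ℚ (ratPts l W)
  let y : Fin r → ℂ := fun i => ∑ j, ((b i : Fin N → ℚ) j : ℂ) * l j
  have hy : ∀ i, IsAlgebraic ℚ (Complex.exp (y i)) := fun i => exp_sum_rat l halg _
  have hyli : LinearIndependent ℚ y := by
    rw [Fintype.linearIndependent_iff]
    intro g hg
    have h2 : ∑ j, (∑ i, g i * (b i : Fin N → ℚ) j) • l j = 0 := by
      rw [← hg]
      simp only [y, Finset.smul_sum, Finset.sum_smul]
      rw [Finset.sum_comm]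
      refine Finset.sum_congr rfl fun i _ => Finset.sum_congr rfl fun j _ => ?_
      rw [Rat.smul_def, Rat.smul_def, Rat.cast_mul, mul_assoc]
    have h3 := Fintype.linearIndependent_iff.mp hli _ h2
    have h4 : ∑ i, g i • b i = 0 := by
      apply Subtype.ext
      rw [Submodule.coe_sum]
      funext j
      rw [Finset.sum_apply]
      exact h3 j
    exact Fintype.linearIndependent_iff.mp b.linearIndependent g h4
  have h4 := li_logs y hy hyli
  have hmem : ∀ i, y i ∈ W := fun i => (b i).2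
  have h5 : LinearIndependent QB (fun i => (⟨_, hmem i⟩ : W)) :=
    LinearIndependent.of_comp W.subtype h4
  have h6 := h5.fintype_card_le_finrank
  rwa [Fintype.card_fin] at h6

theorem sum_single {n : ℕ} (l : Fin n → ℂ) (i : Fin n) :
    ∑ j, (((Pi.single i 1 : Fin n → ℚ) j : ℚ) : ℂ) * l j = l i := by
  classical
  rw [Finset.sum_eq_single i]
  · rw [Pi.single_eq_same, Rat.cast_one, one_mul]
  · intro j _ hj
    rw [Pi.single_eq_of_ne hj, Rat.cast_zero, zero_mul]
  · intro h
    exact absurd (Finset.mem_univ i) h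

theorem scale_le {K L : Type*} [Field K] [Field L] [Algebra K L] {c : L} {V W : Submodule K L}
    (h : V ≤ W) : scale c V ≤ scale c W := Submodule.map_mono h

/-- the quotient of two linearly independent logarithms is transcendental -/
theorem quot_transcendental {x y : ℂ} (hx : IsAlgebraic ℚ (Complex.exp x))
    (hy : IsAlgebraic ℚ (Complex.exp y)) (hli : LinearIndependent ℚ ![x, y]) :
    Transcendental QB (x⁻¹ * y) := by
  have halgc : Algebra.IsAlgebraic ℚ QB := algebraicClosure.isAlgebraic ℚ ℂ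
  have hx0 : x ≠ 0 := by
    have := hli.ne_zero 0
    simpa using this
  intro h
  have h1 : IsAlgebraic ℚ (x⁻¹ * y) := h.restrictScalars ℚ
  have h2 := li_logs ![x, y] (by
    intro j
    fin_cases j
    · exact hx
    · exact hy) hli
  rw [LinearIndependent.pair_iff] at h2
  have h3 := (h2 ⟨x⁻¹ * y, mem_QB.mpr h1⟩ (-1) (by
    rw [neg_smul, one_smul, Algebra.smul_def]
    change (x⁻¹ * y) * x + -y = 0
    field_simp
    ring)).2
  simp at h3

/-- **Two fixed logarithms.** -/
theorem two_fixed {n : ℕ} (l : Fin n → ℂ) (halg : ∀ i, IsAlgebraic ℚ (Complex.exp (l i)))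
    (hli : LinearIndependent ℚ l) (i₀ i₁ : Fin n) (h01 : i₀ ≠ i₁) (D : ℕ) :
    ∃ 𝒲 : Set (Submodule ℚ (Fin n → ℚ)), 𝒲.Finite ∧
      (∀ W ∈ 𝒲, Pi.single i₀ 1 ∈ W ∧ Pi.single i₁ 1 ∈ W ∧ finrank ℚ W ^ 2 / 4 ≤ D) ∧
      ∀ c : Fin n → ℚ, HomRel QB D (l i₀) (l i₁) (∑ j, (c j : ℂ) * l j) → ∃ W ∈ 𝒲, c ∈ W := by
  classical
  have hac : IsAlgClosed QB := isAlgClosed_QB
  have hf : l i₀ ≠ 0 := hli.ne_zero i₀
  have hf' : (l i₀)⁻¹ ≠ 0 := inv_ne_zero hf
  have hli2 : LinearIndependent ℚ ![l i₀, l i₁] := by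
    have h1 : Function.Injective ![i₀, i₁] := by
      intro a b hab
      fin_cases a <;> fin_cases b <;> simp_all
    have h2 := hli.comp _ h1
    have h3 : l ∘ ![i₀, i₁] = ![l i₀, l i₁] := by
      funext j
      fin_cases j <;> rfl
    rwa [h3] at h2
  have hv := quot_transcendental (halg i₀) (halg i₁) hli2
  set V₀ : Submodule QB ℂ := Submodule.span QB (Set.range l) with hV₀
  have hV₀f : FiniteDimensional QB V₀ := FiniteDimensional.span_of_finite _ (Set.finite_range l)
  have hV₀L : V₀ ≤ Lt := by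
    rw [hV₀, Submodule.span_le]
    rintro x ⟨i, rfl⟩
    exact Lt_log (halg i)
  have hmem : ∀ i, l i ∈ V₀ := fun i => Submodule.subset_span ⟨i, rfl⟩
  have hG : Grows QB (scale (l i₀)⁻¹ Lt) := (prodLe_Lt.scaled hf').grows
  have h1V : (1 : ℂ) ∈ scale (l i₀)⁻¹ V₀ := by
    rw [mem_scale hf', inv_inv, mul_one]
    exact hmem i₀
  have hvV : (l i₀)⁻¹ * l i₁ ∈ scale (l i₀)⁻¹ V₀ := mul_mem_scale (hmem i₁)
  obtain ⟨𝒲, h𝒲f, h𝒲, hcov⟩ := cover (scale (l i₀)⁻¹ Lt) hG _ hv D _ (scale (l i₀)⁻¹ V₀)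
    inferInstance (scale_le hV₀L) h1V rfl
  refine ⟨(fun W => ratPts l (scale (l i₀) W)) '' 𝒲, h𝒲f.image _, ?_, ?_⟩
  · rintro _ ⟨W, hW, rfl⟩
    obtain ⟨h2, h3, h4, h5⟩ := h𝒲 W hW
    have hWf : FiniteDimensional QB W := Submodule.finiteDimensional_of_le h2
    refine ⟨?_, ?_, ?_⟩
    · rw [mem_ratPts, mem_scale hf, sum_single, inv_mul_cancel₀ hf]
      exact h3
    · rw [mem_ratPts, mem_scale hf, sum_single]
      exact h4 hvV
    · refine le_trans ?_ h5
      apply Nat.div_le_div_right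
      apply Nat.pow_le_pow_left
      exact (finrank_ratPts_le l halg hli _).trans (finrank_scale_le _ _)
  · intro c hc
    have hu : (l i₀)⁻¹ * ∑ j, (c j : ℂ) * l j ∈ scale (l i₀)⁻¹ V₀ := by
      apply mul_mem_scale
      refine Submodule.sum_mem _ fun j _ => ?_
      have h6 : (c j : ℂ) * l j = (algebraMap ℚ QB (c j)) • l j := by
        rw [Algebra.smul_def]
        rfl
      rw [h6]
      exact V₀.smul_mem _ (hmem j)
    obtain ⟨W, hW, huW⟩ := hcov _ hu (hc.dep hf)
    refine ⟨_, ⟨W, hW, rfl⟩, ?_⟩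
    rw [mem_ratPts, mem_scale hf]
    exact huW

end Pool.Agent.N770
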