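import Pool.Agent.N770.Hom2

/-!
# Homogeneous quadratic relations between a fixed logarithm and two variable ones
-/

set_option autoImplicit false

namespace Pool.Agent.N770

open Module
open Pool.Agent.H301R2.SSE (QB mem_QB Lt Lt_one Lt_log)

/-- `x`, `y`, `z` satisfy a nonzero homogeneous quadratic relation -/
def Quadric (K : Type*) {L : Type*} [Field K] [Field L] [Algebra K L] (x y z : L) : Prop :=
  ∃ q : Fin 6 → K, q ≠ 0 ∧ q 0 • (x * x) + q 1 • (y * y) + q 2 • (z * z) + q 3 • (x * y) +
    q 4 • (x * z) + q 5 • (y * z) = 0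

theorem Quadric.quadRel {K L : Type*} [Field K] [Field L] [Algebra K L] {x y z : L}
    (h : Quadric K x y z) (hx : x ≠ 0) : QuadRel K (x⁻¹ * y) (x⁻¹ * z) := by
  obtain ⟨q, hq, h⟩ := h
  refine ⟨![q 1, q 5, q 2, q 3, q 4, q 0], ?_, ?_⟩
  · intro h0
    apply hq
    have h1 : ∀ i, (![q 1, q 5, q 2, q 3, q 4, q 0] : Fin 6 → K) i = 0 := fun i => by
      rw [h0]; rfl
    funext i
    fin_cases i
    · exact h1 5
    · exact h1 0
    · exact h1 2
    · exact h1 3
    · exact h1 4
    · exact h1 1
  · change q 1 • (x⁻¹ * y * (x⁻¹ * y)) + q 5 • (x⁻¹ * y * (x⁻¹ * z)) +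
      q 2 • (x⁻¹ * z * (x⁻¹ * z)) + q 3 • (x⁻¹ * y) + q 4 • (x⁻¹ * z) + q 0 • (1 : L) = 0
    have h1 : x⁻¹ * x = 1 := inv_mul_cancel₀ hx
    simp only [Algebra.smul_def] at h ⊢
    have h2 : x⁻¹ * x⁻¹ * (algebraMap K L (q 0) * (x * x) + algebraMap K L (q 1) * (y * y) +
      algebraMap K L (q 2) * (z * z) + algebraMap K L (q 3) * (x * y) +
      algebraMap K L (q 4) * (x * z) + algebraMap K L (q 5) * (y * z)) = 0 := by
      rw [h, mul_zero]
    have h3 : x⁻¹ * x⁻¹ * (x * x) = 1 := by
      calc x⁻¹ * x⁻¹ * (x * x) = (x⁻¹ * x) * (x⁻¹ * x) := by ring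
        _ = 1 := by rw [h1, one_mul]
    linear_combination h2 - algebraMap K L (q 0) * h3 - algebraMap K L (q 3) * x⁻¹ * y * h1 -
      algebraMap K L (q 4) * x⁻¹ * z * h1

theorem range3 {α : Type*} (x y z : α) : Set.range ![x, y, z] = {x, y, z} := by
  ext w
  simp only [Set.mem_range, Set.mem_insert_iff, Set.mem_singleton_iff]
  constructor
  · rintro ⟨i, rfl⟩
    fin_cases i <;> simp
  · rintro (rfl | rfl | rfl)
    · exact ⟨0, rfl⟩
    · exact ⟨1, rfl⟩
    · exact ⟨2, rfl⟩

/-- the value of the linear form with rational coefficients `c` -/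
noncomputable def lg {n : ℕ} (l : Fin n → ℂ) (c : Fin n → ℚ) : ℂ := ∑ j, (c j : ℂ) * l j

/-- the spaces `⟨e, c, d⟩` for which `lg e`, `lg c`, `lg d` satisfy a quadratic relation -/
def Exc {n : ℕ} (l : Fin n → ℂ) (e : Fin n → ℚ) : Set (Submodule ℚ (Fin n → ℚ)) :=
  {P | ∃ c d : Fin n → ℚ, LinearIndependent ℚ ![e, c, d] ∧ P = Submodule.span ℚ {e, c, d} ∧
    Quadric QB (lg l e) (lg l c) (lg l d)}

theorem lg_li {n : ℕ} (l : Fin n → ℂ) (hli : LinearIndependent ℚ l) {m : ℕ}
    (c : Fin m → Fin n → ℚ) (hc : LinearIndependent ℚ c) :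
    LinearIndependent ℚ (fun i => lg l (c i)) := by
  rw [Fintype.linearIndependent_iff] at hc ⊢
  intro g hg
  apply hc g
  have h2 : ∑ j, (∑ i, g i * (c i) j) • l j = 0 := by
    rw [← hg]
    simp only [lg, Finset.smul_sum, Finset.sum_smul]
    rw [Finset.sum_comm]
    refine Finset.sum_congr rfl fun i _ => Finset.sum_congr rfl fun j _ => ?_
    rw [Rat.smul_def, Rat.smul_def, Rat.cast_mul, mul_assoc]
  have h3 := Fintype.linearIndependent_iff.mp hli _ h2
  funext j
  rw [Finset.sum_apply]
  exact h3 j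

theorem lg_mem {n : ℕ} (l : Fin n → ℂ) (c : Fin n → ℚ) :
    lg l c ∈ Submodule.span QB (Set.range l) := by
  refine Submodule.sum_mem _ fun j _ => ?_
  have h6 : (c j : ℂ) * l j = (algebraMap ℚ QB (c j)) • l j := by
    rw [Algebra.smul_def]
    rfl
  rw [h6]
  exact Submodule.smul_mem _ _ (Submodule.subset_span ⟨j, rfl⟩)

/-- the plane over the algebraic numbers -/
theorem exc_eq {n : ℕ} (l : Fin n → ℂ) (halg : ∀ i, IsAlgebraic ℚ (Complex.exp (l i)))
    (hli : LinearIndependent ℚ l) (e : Fin n → ℚ) (he : e ≠ 0) (P : Submodule ℚ (Fin n → ℚ))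
    (hP : P ∈ Exc l e) :
    ∃ T : Submodule QB ℂ, T ≤ scale (lg l e)⁻¹ (Submodule.span QB (Set.range l)) ∧ Bad T ∧
      P = ratPts l (scale (lg l e) T) ∧ (∀ a ∈ P, (lg l e)⁻¹ * lg l a ∈ T) ∧ e ∈ P ∧
      finrank ℚ P = 3 := by
  obtain ⟨c, d, hli3, hPe, hq⟩ := hP
  have hL := lg_li l hli _ hli3
  have hL' : LinearIndependent ℚ ![lg l e, lg l c, lg l d] := by
    convert hL using 1
    funext i
    fin_cases i <;> rfl
  have hx : lg l e ≠ 0 := hL'.ne_zero 0
  have hx' : (lg l e)⁻¹ ≠ 0 := inv_ne_zero hx
  have hQ := li_logs ![lg l e, lg l c, lg l d] (by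
    intro j
    fin_cases j
    · exact exp_sum_rat l halg _
    · exact exp_sum_rat l halg _
    · exact exp_sum_rat l halg _) hL'
  have h1 := li_smul hx' hQ
  have h2 : (fun i => (lg l e)⁻¹ * ![lg l e, lg l c, lg l d] i) =
      ![1, (lg l e)⁻¹ * lg l c, (lg l e)⁻¹ * lg l d] := by
    funext i
    fin_cases i
    · exact inv_mul_cancel₀ hx
    · rfl
    · rfl
  rw [h2] at h1
  set T : Submodule QB ℂ := Submodule.span QB {1, (lg l e)⁻¹ * lg l c, (lg l e)⁻¹ * lg l d} with hT
  have hbad : Bad T := ⟨_, _, h1, hT, hq.quadRel hx⟩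
  have hP3 : finrank ℚ P = 3 := by
    have h3 : finrank ℚ (Submodule.span ℚ (Set.range ![e, c, d])) = 3 := by
      have := finrank_span_eq_card hli3
      rwa [Fintype.card_fin] at this
    rwa [range3, ← hPe] at h3
  have hcm : ∀ a ∈ P, (lg l e)⁻¹ * lg l a ∈ T := by
    intro a ha
    have h4 : P ≤ ratPts l (scale (lg l e) T) := by
      rw [hPe, Submodule.span_le]
      rintro x (rfl | rfl | hx2)
      · change _ ∈ scale (lg l _) T
        rw [mem_scale hx]
        change (lg l _)⁻¹ * lg l _ ∈ T
        rw [inv_mul_cancel₀ hx]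
        exact Submodule.subset_span (Or.inl rfl)
      · change _ ∈ scale (lg l e) T
        rw [mem_scale hx]
        exact Submodule.subset_span (Or.inr (Or.inl rfl))
      · rw [Set.mem_singleton_iff] at hx2
        subst hx2
        change _ ∈ scale (lg l e) T
        rw [mem_scale hx]
        exact Submodule.subset_span (Or.inr (Or.inr rfl))
    have h5 := h4 ha
    rw [mem_ratPts, mem_scale hx] at h5
    exact h5
  have hTf : FiniteDimensional QB T := FiniteDimensional.of_finrank_pos (by rw [hbad.finrank_eq]; norm_num)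
  refine ⟨T, ?_, hbad, ?_, hcm, ?_, hP3⟩
  · rw [hT, Submodule.span_le]
    rintro x (rfl | rfl | hx2)
    · change _ ∈ scale _ _
      rw [mem_scale hx', inv_inv, mul_one]
      exact lg_mem l e
    · exact mul_mem_scale (lg_mem l c)
    · rw [Set.mem_singleton_iff] at hx2
      rw [hx2]
      exact mul_mem_scale (lg_mem l d)
  · apply Submodule.eq_of_le_of_finrank_le
    · intro a ha
      rw [mem_ratPts, mem_scale hx]
      exact hcm a ha
    · rw [hP3, ← hbad.finrank_eq]
      exact (finrank_ratPts_le l halg hli _).trans (finrank_scale_le _ _)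
  · rw [hPe]
    exact Submodule.subset_span (Or.inl rfl)

theorem lg_ne_zero {n : ℕ} (l : Fin n → ℂ) (hli : LinearIndependent ℚ l) (e : Fin n → ℚ)
    (he : e ≠ 0) : lg l e ≠ 0 := by
  have h := lg_li l hli ![e] (by
    rw [Fintype.linearIndependent_iff]
    intro g hg i
    rw [Fin.sum_univ_one] at hg
    have h1 := (smul_eq_zero.mp hg).resolve_right he
    fin_cases i
    exact h1)
  exact h.ne_zero 0

/-- **Finitely many planes.** -/
theorem exc_finite {n : ℕ} (l : Fin n → ℂ) (halg : ∀ i, IsAlgebraic ℚ (Complex.exp (l i)))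
    (hli : LinearIndependent ℚ l) (e : Fin n → ℚ) (he : e ≠ 0) : (Exc l e).Finite := by
  have hac : IsAlgClosed QB := isAlgClosed_QB
  have hx := lg_ne_zero l hli e he
  have hx' : (lg l e)⁻¹ ≠ 0 := inv_ne_zero hx
  have hf : FiniteDimensional QB (Submodule.span QB (Set.range l)) :=
    FiniteDimensional.span_of_finite _ (Set.finite_range l)
  have hL : Submodule.span QB (Set.range l) ≤ Lt := by
    rw [Submodule.span_le]
    rintro x ⟨i, rfl⟩
    exact Lt_log (halg i)
  have h1 : (1 : ℂ) ∈ scale (lg l e)⁻¹ (Submodule.span QB (Set.range l)) := by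
    rw [mem_scale hx', inv_inv, mul_one]
    exact lg_mem l e
  have h2 := finite_bad (K := QB) two_ne_zero (sixExp_Lt.scale hx')
    (scale (lg l e)⁻¹ (Submodule.span QB (Set.range l))) (scale_le hL) h1
  refine (h2.image fun T => ratPts l (scale (lg l e) T)).subset ?_
  intro P hP
  obtain ⟨T, hT, hbad, hPT, -, -, -⟩ := exc_eq l halg hli e he P hP
  exact ⟨T, ⟨hT, hbad⟩, hPT.symm⟩

/-- **At most three planes in dimension four.** -/
theorem exc_encard {n : ℕ} (l : Fin n → ℂ) (halg : ∀ i, IsAlgebraic ℚ (Complex.exp (l i)))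
    (hli : LinearIndependent ℚ l) (e : Fin n → ℚ) (he : e ≠ 0) (hn : n ≤ 4) :
    (Exc l e).encard ≤ 3 := by
  have hac : IsAlgClosed QB := isAlgClosed_QB
  have hx := lg_ne_zero l hli e he
  have hx' : (lg l e)⁻¹ ≠ 0 := inv_ne_zero hx
  have hf : FiniteDimensional QB (Submodule.span QB (Set.range l)) :=
    FiniteDimensional.span_of_finite _ (Set.finite_range l)
  have hL : Submodule.span QB (Set.range l) ≤ Lt := by
    rw [Submodule.span_le]
    rintro x ⟨i, rfl⟩
    exact Lt_log (halg i)
  have h4 : finrank QB (scale (lg l e)⁻¹ (Submodule.span QB (Set.range l))) ≤ 4 := by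
    refine (finrank_scale_le _ _).trans ((finrank_range_le_card (R := QB) l).trans ?_)
    rwa [Fintype.card_fin]
  have h2 := encard_bad_le' (K := QB) two_ne_zero (sixExp_Lt.scale hx')
    (scale (lg l e)⁻¹ (Submodule.span QB (Set.range l))) (scale_le hL) h4
  refine le_trans (Set.encard_le_encard ?_) ((Set.encard_image_le
    (fun T => ratPts l (scale (lg l e) T)) _).trans h2)
  intro P hP
  obtain ⟨T, hT, hbad, hPT, -, -, -⟩ := exc_eq l halg hli e he P hP
  exact ⟨T, ⟨hT, hbad⟩, hPT.symm⟩

/-- **At most `n - 2` planes contain a given line.** -/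
theorem exc_through {n : ℕ} (l : Fin n → ℂ) (halg : ∀ i, IsAlgebraic ℚ (Complex.exp (l i)))
    (hli : LinearIndependent ℚ l) (e c : Fin n → ℚ) (hec : LinearIndependent ℚ ![e, c]) :
    {P ∈ Exc l e | c ∈ P}.encard + 2 ≤ n := by
  classical
  have hac : IsAlgClosed QB := isAlgClosed_QB
  have he : e ≠ 0 := hec.ne_zero 0
  have hx := lg_ne_zero l hli e he
  have hx' : (lg l e)⁻¹ ≠ 0 := inv_ne_zero hx
  have hf : FiniteDimensional QB (Submodule.span QB (Set.range l)) :=
    FiniteDimensional.span_of_finite _ (Set.finite_range l)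
  have hL : Submodule.span QB (Set.range l) ≤ Lt := by
    rw [Submodule.span_le]
    rintro x ⟨i, rfl⟩
    exact Lt_log (halg i)
  set V := scale (lg l e)⁻¹ (Submodule.span QB (Set.range l)) with hV
  have hVf : FiniteDimensional QB V := by rw [hV]; infer_instance
  have h1V : (1 : ℂ) ∈ V := by
    rw [hV, mem_scale hx', inv_inv, mul_one]
    exact lg_mem l e
  set v := (lg l e)⁻¹ * lg l c with hv
  have hvV : v ∈ V := mul_mem_scale (lg_mem l c)
  have hL2 : LinearIndependent ℚ ![lg l e, lg l c] := by
    have := lg_li l hli _ hec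
    convert this using 1
    funext i
    fin_cases i <;> rfl
  have hvt : Transcendental QB v :=
    quot_transcendental (exp_sum_rat l halg _) (exp_sum_rat l halg _) hL2
  -- the planes
  set E : Set (Submodule ℚ (Fin n → ℚ)) := {P ∈ Exc l e | c ∈ P} with hE
  have hEfin : E.Finite := (exc_finite l halg hli e he).subset fun P hP => hP.1
  have hex : ∀ P : E, ∃ u : ℂ, u ∈ V ∧ QuadRel QB u v ∧
      u ∉ Submodule.span QB ({1, v} : Set ℂ) ∧ ∃ T : Submodule QB ℂ,
        (P : Submodule ℚ (Fin n → ℚ)) = ratPts l (scale (lg l e) T) ∧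
          T = Submodule.span QB {1, v, u} := by
    rintro ⟨P, hP, hcP⟩
    obtain ⟨T, hT, hbad, hPT, hcm, -, -⟩ := exc_eq l halg hli e he P hP
    have hvT : v ∈ T := hcm c hcP
    obtain ⟨u, hu, hTu, hli3⟩ : ∃ u, u ∈ T ∧ T = Submodule.span QB {1, v, u} ∧
        ∀ a b d : QB, a • (1 : ℂ) + b • v + d • u = 0 → a = 0 ∧ b = 0 ∧ d = 0 := by
      have hTf : FiniteDimensional QB T :=
        FiniteDimensional.of_finrank_pos (by rw [hbad.finrank_eq]; norm_num)
      have h2 : ¬ T ≤ Submodule.span QB ({1, v} : Set ℂ) := by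
        intro hle
        have hsf : FiniteDimensional QB (Submodule.span QB ({1, v} : Set ℂ)) :=
          FiniteDimensional.span_of_finite _ (Set.toFinite _)
        have h3 := Submodule.finrank_mono hle
        have h4 : finrank QB (Submodule.span QB ({1, v} : Set ℂ)) ≤ 2 := by
          have := finrank_span_finset_le_card (R := QB) ({1, v} : Finset ℂ)
          have h5 : ((({1, v} : Finset ℂ) : Set ℂ)) = {1, v} := by simp
          rw [Set.finrank, h5] at this
          exact this.trans (Finset.card_le_two)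
        rw [hbad.finrank_eq] at h3
        omega
      obtain ⟨u, huT, hu⟩ := Set.not_subset.mp h2
      have h6 : ∀ a b d : QB, a • (1 : ℂ) + b • v + d • u = 0 → a = 0 ∧ b = 0 ∧ d = 0 := by
        intro a b d habd
        have hd : d = 0 := by
          by_contra hd
          apply hu
          change u ∈ Submodule.span QB ({1, v} : Set ℂ)
          rw [Submodule.mem_span_pair]
          refine ⟨-(d⁻¹ * a), -(d⁻¹ * b), ?_⟩
          have h7 : (algebraMap QB ℂ d) ≠ 0 := by simpa using hd
          simp only [Algebra.smul_def, map_neg, map_mul, map_inv₀] at habd ⊢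
          field_simp
          linear_combination -habd
        rw [hd, zero_smul, add_zero] at habd
        have hvc : ∀ k : QB, v ≠ algebraMap QB ℂ k := by
          intro k hk
          apply hvt
          rw [hk]
          exact isAlgebraic_algebraMap k
        obtain ⟨h8, h9, -⟩ := li_of_nonconst v hvc a b 0 (by rw [habd, zero_smul, add_zero])
        exact ⟨h8, h9, hd⟩
      exact ⟨u, huT, (hbad.quadRel hvT huT h6).1, h6⟩
    have hq : QuadRel QB v u := (hbad.quadRel hvT hu hli3).2
    refine ⟨u, hT hu, hq.symm, ?_, T, hPT, hTu⟩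
    intro hmem
    rw [Submodule.mem_span_pair] at hmem
    obtain ⟨a, b, hab⟩ := hmem
    have := (hli3 a b (-1) (by rw [hab, neg_smul, one_smul, add_neg_cancel])).2.2
    simp at this
  choose u huV hq hun T hPT hT using hex
  have hdir := directions' (K := QB) two_ne_zero (sixExp_Lt.scale hx')
    (by rw [mem_scale hx', inv_inv, mul_one]; exact hL (lg_mem l e)) v (scale_le hL hvV) hvt u
    (fun i => scale_le hL (huV i)) hq hun (by
      intro i j hij k hk
      apply hij
      apply Subtype.ext
      rw [hPT i, hPT j]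
      congr 2
      rw [hT i, hT j]
      have hk0 : k ≠ 0 := by
        rintro rfl
        rw [zero_smul, sub_zero] at hk
        exact hun i hk
      rw [Submodule.mem_span_pair] at hk
      obtain ⟨a, b, hab⟩ := hk
      have h1m : ∀ w : ℂ, (1 : ℂ) ∈ Submodule.span QB ({1, v, w} : Set ℂ) := fun w =>
        Submodule.subset_span (Or.inl rfl)
      have hvm : ∀ w : ℂ, v ∈ Submodule.span QB ({1, v, w} : Set ℂ) := fun w =>
        Submodule.subset_span (Or.inr (Or.inl rfl))
      have hwm : ∀ w : ℂ, w ∈ Submodule.span QB ({1, v, w} : Set ℂ) := fun w =>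
        Submodule.subset_span (Or.inr (Or.inr rfl))
      apply le_antisymm
      · rw [Submodule.span_le]
        rintro w (rfl | rfl | hw)
        · exact h1m _
        · exact hvm _
        · rw [Set.mem_singleton_iff] at hw
          rw [hw]
          have h2 : u i = a • (1 : ℂ) + b • v + k • u j := by
            rw [hab]; ring
          rw [h2]
          exact add_mem (add_mem (Submodule.smul_mem _ _ (h1m _)) (Submodule.smul_mem _ _ (hvm _)))
            (Submodule.smul_mem _ _ (hwm _))
      · rw [Submodule.span_le]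
        rintro w (rfl | rfl | hw)
        · exact h1m _
        · exact hvm _
        · rw [Set.mem_singleton_iff] at hw
          rw [hw]
          have h2 : u j = k⁻¹ • (u i - (a • (1 : ℂ) + b • v)) := by
            rw [hab, sub_sub_cancel, inv_smul_smul₀ hk0]
          rw [h2]
          exact Submodule.smul_mem _ _ (sub_mem (hwm _) (add_mem (Submodule.smul_mem _ _ (h1m _))
            (Submodule.smul_mem _ _ (hvm _)))))
  -- count
  have hEft : Fintype E := hEfin.fintype
  set M := Submodule.span QB ({1, v} : Set ℂ) with hM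
  have hMV : M ≤ V := by
    rw [hM, Submodule.span_le]
    rintro w (rfl | hw)
    · exact h1V
    · rw [Set.mem_singleton_iff] at hw
      rw [hw]; exact hvV
  have hM2 : finrank QB M = 2 := by
    have hvc : ∀ k : QB, v ≠ algebraMap QB ℂ k := by
      intro k hk
      apply hvt
      rw [hk]
      exact isAlgebraic_algebraMap k
    have h2 : LinearIndependent QB ![(1 : ℂ), v] := by
      rw [LinearIndependent.pair_iff]
      intro a b hab
      obtain ⟨h8, h9, -⟩ := li_of_nonconst v hvc a b 0 (by rw [hab, zero_smul, add_zero])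
      exact ⟨h8, h9⟩
    have h3 := finrank_span_eq_card h2
    rw [Fintype.card_fin] at h3
    have h4 : Set.range ![(1 : ℂ), v] = {1, v} := by
      ext w
      simp only [Set.mem_range, Set.mem_insert_iff, Set.mem_singleton_iff]
      constructor
      · rintro ⟨i, rfl⟩
        fin_cases i <;> simp
      · rintro (rfl | rfl)
        · exact ⟨0, rfl⟩
        · exact ⟨1, rfl⟩
    rwa [h4] at h3
  have hcard : Fintype.card E + 2 ≤ n := by
    have h2 : finrank QB (V.map M.mkQ) + 2 ≤ n := by
      have h3 : finrank QB (V.map M.mkQ) + finrank QB M = finrank QB V := by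
        have h4 := LinearMap.finrank_range_add_finrank_ker (M.mkQ.domRestrict V)
        rw [LinearMap.range_domRestrict] at h4
        have h5 : finrank QB (LinearMap.ker (M.mkQ.domRestrict V)) = finrank QB M := by
          rw [LinearMap.ker_domRestrict, Submodule.ker_mkQ]
          exact (Submodule.submoduleOfEquivOfLe hMV).finrank_eq
        rw [h5] at h4
        exact h4
      have h6 : finrank QB V ≤ n := by
        rw [hV]
        refine (finrank_scale_le _ _).trans ((finrank_range_le_card (R := QB) l).trans ?_)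
        rw [Fintype.card_fin]
      omega
    have h7 : Fintype.card E ≤ finrank QB (V.map M.mkQ) := by
      have h8 : LinearIndependent QB (fun i : E => (⟨M.mkQ (u i), Submodule.mem_map_of_mem (huV i)⟩ :
          V.map M.mkQ)) := LinearIndependent.of_comp (V.map M.mkQ).subtype hdir
      exact h8.fintype_card_le_finrank
    omega
  have h9 : E.encard = Fintype.card E := by
    rw [Set.encard_eq_coe_toFinset_card, Set.toFinset_card]
  rw [h9]
  exact_mod_cast hcard

end Pool.Agent.N770
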