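import Pool.Agent.N770.Pts

/-!
# The functionals at infinity have finitely many kernels
-/

set_option autoImplicit false

namespace Pool.Agent.N770

open Polynomial Module Pool.Agent.W256

variable {K F : Type*} [Field K] [Field F] [Algebra K F]

/-- the linear functional on `V` given by a point -/
noncomputable def fnl {V : Submodule K F} (ψ : grAlg V →ₐ[K] K) : V →ₗ[K] K where
  toFun x := ψ ⟨gen K x.1, gen_mem x.2⟩
  map_add' x y := by
    rw [← map_add]
    congr 1
    exact Subtype.ext ((gen K).map_add x.1 y.1)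
  map_smul' c x := by
    rw [RingHom.id_apply, ← map_smul]
    congr 1
    exact Subtype.ext ((gen K).map_smul c x.1)

theorem fnl_apply {V : Submodule K F} (ψ : grAlg V →ₐ[K] K) (x : V) :
    fnl ψ x = ψ ⟨gen K x.1, gen_mem x.2⟩ := rfl

/-- the kernel, as a subspace of `F` -/
noncomputable def kerSub {V : Submodule K F} (ℓ : V →ₗ[K] K) : Submodule K F :=
  (LinearMap.ker ℓ).map V.subtype

theorem mem_kerSub {V : Submodule K F} {ℓ : V →ₗ[K] K} {x : F} :
    x ∈ kerSub ℓ ↔ ∃ hx : x ∈ V, ℓ ⟨x, hx⟩ = 0 := by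
  constructor
  · rintro ⟨y, hy, rfl⟩
    exact ⟨y.2, hy⟩
  · rintro ⟨hx, h⟩
    exact ⟨⟨x, hx⟩, h, rfl⟩

theorem kerSub_smul {V : Submodule K F} {ℓ : V →ₗ[K] K} {c : K} (hc : c ≠ 0) :
    kerSub (c • ℓ) = kerSub ℓ := by
  ext x
  rw [mem_kerSub, mem_kerSub]
  constructor
  · rintro ⟨hx, h⟩
    refine ⟨hx, ?_⟩
    rw [LinearMap.smul_apply, smul_eq_mul] at h
    exact (mul_eq_zero.mp h).resolve_left hc
  · rintro ⟨hx, h⟩
    refine ⟨hx, ?_⟩
    rw [LinearMap.smul_apply, h, smul_zero]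

/-- **Points at infinity satisfy the top form of each relation.** -/
theorem exists_theta {V : Submodule K F} (h1 : (1 : F) ∈ V) (x y : V) (P : MvPolynomial (Fin 2) K)
    (hP : P ≠ 0) (h : MvPolynomial.aeval ![(x : F), (y : F)] P = 0) :
    ∃ θ : K[X], θ ≠ 0 ∧ ∀ ψ : grAlg V →ₐ[K] K, fnl ψ ⟨1, h1⟩ = 0 → fnl ψ y ≠ 0 →
      θ.eval (fnl ψ x / fnl ψ y) = 0 := by
  classical
  set D := P.totalDegree with hD
  set S := P.support.filter (fun s => s 0 + s 1 = D) with hS
  have hdeg : ∀ s ∈ P.support, s 0 + s 1 ≤ D := by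
    intro s hs
    have := MvPolynomial.le_totalDegree hs
    rwa [sum_eq_two] at this
  obtain ⟨s₀, hs₀, hs₀D⟩ : ∃ s₀ ∈ P.support, s₀ 0 + s₀ 1 = D := by
    obtain ⟨s₀, hs₀, h1⟩ := Finset.exists_mem_eq_sup P.support
      (MvPolynomial.support_nonempty.mpr hP) (fun s => s.sum fun _ e => e)
    refine ⟨s₀, hs₀, ?_⟩
    rw [hD, MvPolynomial.totalDegree, h1]
    rw [sum_eq_two]
  let θ : K[X] := ∑ s ∈ S, C (P.coeff s) * X ^ (s 0)
  have hθc : θ.coeff (s₀ 0) = P.coeff s₀ := by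
    rw [finsetSum_coeff]
    rw [Finset.sum_eq_single s₀]
    · simp
    · intro s hs hne
      rw [coeff_C_mul, coeff_X_pow, if_neg, mul_zero]
      intro h0
      apply hne
      have h1 := (Finset.mem_filter.mp hs).2
      ext i
      fin_cases i
      · exact h0.symm
      · change s 1 = s₀ 1
        omega
    · intro h0
      exact absurd (Finset.mem_filter.mpr ⟨hs₀, hs₀D⟩) h0
  refine ⟨θ, ?_, ?_⟩
  · intro h0
    rw [h0, coeff_zero] at hθc
    exact (MvPolynomial.mem_support_iff.mp hs₀) hθc.symm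
  · intro ψ hψ1 hψy
    set gx : grAlg V := ⟨gen K x.1, gen_mem x.2⟩ with hgx
    set gy : grAlg V := ⟨gen K y.1, gen_mem y.2⟩ with hgy
    set g1 : grAlg V := ⟨gen K 1, gen_mem h1⟩ with hg1
    have e1 : fnl ψ x = ψ gx := rfl
    have e2 : fnl ψ y = ψ gy := rfl
    have e3 : ψ g1 = 0 := hψ1
    -- the homogenised relation
    have hrel : ∑ s ∈ P.support, algebraMap K (grAlg V) (P.coeff s) *
        (gx ^ (s 0) * gy ^ (s 1) * g1 ^ (D - (s 0 + s 1))) = 0 := by
      apply Subtype.ext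
      rw [← (grAlg V).coe_val, map_sum, map_zero]
      have e4 : ∀ s ∈ P.support, (grAlg V).val (algebraMap K (grAlg V) (P.coeff s) *
          (gx ^ (s 0) * gy ^ (s 1) * g1 ^ (D - (s 0 + s 1)))) =
          X ^ D * C (algebraMap K F (P.coeff s) * ((x : F) ^ (s 0) * (y : F) ^ (s 1))) := by
        intro s hs
        have e5 : (X : F[X]) ^ D = X ^ (s 0) * X ^ (s 1) * X ^ (D - (s 0 + s 1)) := by
          rw [← pow_add, ← pow_add]
          congr 1
          have := hdeg s hs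
          omega
        rw [map_mul, map_mul, map_mul, map_pow, map_pow, map_pow, AlgHom.commutes,
          Polynomial.algebraMap_apply]
        change C (algebraMap K F (P.coeff s)) * ((C (x : F) * X) ^ (s 0) * (C (y : F) * X) ^ (s 1) *
          (C 1 * X) ^ (D - (s 0 + s 1))) = _
        rw [e5, C_mul, C_mul, C_pow, C_pow, C_1, one_mul, mul_pow, mul_pow]
        ring
      rw [Finset.sum_congr rfl e4, ← Finset.mul_sum, ← map_sum]
      have e6 : ∑ s ∈ P.support, algebraMap K F (P.coeff s) * ((x : F) ^ (s 0) * (y : F) ^ (s 1)) =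
          0 := by
        rw [← h, MvPolynomial.aeval_def, MvPolynomial.eval₂_eq']
        refine Finset.sum_congr rfl fun s _ => ?_
        rw [Fin.prod_univ_two]
        rfl
      rw [e6, C_0, mul_zero]
    have hrel2 := congrArg ψ hrel
    rw [map_sum, map_zero] at hrel2
    have e7 : ∀ s ∈ P.support, ψ (algebraMap K (grAlg V) (P.coeff s) *
        (gx ^ (s 0) * gy ^ (s 1) * g1 ^ (D - (s 0 + s 1)))) =
        if s 0 + s 1 = D then P.coeff s * (ψ gx ^ (s 0) * ψ gy ^ (s 1)) else 0 := by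
      intro s hs
      rw [map_mul, map_mul, map_mul, map_pow, map_pow, map_pow, AlgHom.commutes, e3]
      split_ifs with hsD
      · rw [hsD, Nat.sub_self, pow_zero, mul_one]
        rfl
      · rw [zero_pow (by have := hdeg s hs; omega), mul_zero, mul_zero]
    rw [Finset.sum_congr rfl e7, ← Finset.sum_filter] at hrel2
    rw [e2] at hψy
    rw [e1, e2, eval_finsetSum]
    have e8 : (∑ s ∈ S, (C (P.coeff s) * X ^ (s 0)).eval (ψ gx / ψ gy)) * ψ gy ^ D = 0 := by
      rw [Finset.sum_mul, ← hrel2]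
      refine Finset.sum_congr rfl fun s hs => ?_
      have hsD := (Finset.mem_filter.mp hs).2
      rw [eval_mul, eval_C, eval_pow, eval_X, ← hsD, pow_add, div_pow]
      field_simp
    exact (mul_eq_zero.mp e8).resolve_right (pow_ne_zero _ hψy)

/-- the kernels of nonzero functionals at infinity form a finite set -/
theorem finite_kers (V : Submodule K F) [FiniteDimensional K V] (h1 : (1 : F) ∈ V)
    (hdep : ∀ x ∈ V, ∀ y ∈ V, ∃ P : MvPolynomial (Fin 2) K, P ≠ 0 ∧
      MvPolynomial.aeval ![x, y] P = 0) :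
    {U : Submodule K F | ∃ ψ : grAlg V →ₐ[K] K, fnl ψ ⟨1, h1⟩ = 0 ∧ U = kerSub (fnl ψ)}.Finite := by
  classical
  set n := finrank K V with hn
  let b : Basis (Fin n) K V := finBasis K V
  have hθ : ∀ i j : Fin n, ∃ θ : K[X], θ ≠ 0 ∧ ∀ ψ : grAlg V →ₐ[K] K, fnl ψ ⟨1, h1⟩ = 0 →
      fnl ψ (b j) ≠ 0 → θ.eval (fnl ψ (b i) / fnl ψ (b j)) = 0 := by
    intro i j
    obtain ⟨P, hP, hP2⟩ := hdep (b i) (b i).2 (b j) (b j).2
    exact exists_theta h1 (b i) (b j) P hP hP2
  choose θ hθ0 hθ using hθ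
  let S : Finset K := insert 0 (Finset.univ.biUnion (fun i => Finset.univ.biUnion
    (fun j => (θ i j).roots.toFinset)))
  have hfin : (Set.range (fun f : Fin n → S => kerSub (b.constr K (fun i => (f i : K))))).Finite :=
    Set.finite_range _
  refine hfin.subset ?_
  rintro U ⟨ψ, hψ, rfl⟩
  by_cases h0 : ∀ j, fnl ψ (b j) = 0
  · refine ⟨fun i => ⟨0, Finset.mem_insert_self _ _⟩, ?_⟩
    change kerSub _ = kerSub _
    congr 1
    apply b.ext
    intro i
    rw [Basis.constr_basis, h0 i]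
  · push Not at h0
    obtain ⟨j, hj⟩ := h0
    refine ⟨fun i => ⟨fnl ψ (b i) / fnl ψ (b j), ?_⟩, ?_⟩
    · apply Finset.mem_insert_of_mem
      rw [Finset.mem_biUnion]
      refine ⟨i, Finset.mem_univ _, ?_⟩
      rw [Finset.mem_biUnion]
      refine ⟨j, Finset.mem_univ _, ?_⟩
      rw [Multiset.mem_toFinset]
      exact (mem_roots (hθ0 i j)).mpr (hθ i j ψ hψ hj)
    · change kerSub _ = kerSub _
      rw [← kerSub_smul (ℓ := fnl ψ) (inv_ne_zero hj)]
      congr 1
      apply b.ext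
      intro i
      rw [Basis.constr_basis, LinearMap.smul_apply, smul_eq_mul]
      exact div_eq_inv_mul (fnl ψ (b i)) (fnl ψ (b j))

/-- **The subspaces at infinity.** Let `V` be a finite dimensional subspace of a field containing
`1` and `v`, any two elements of which are algebraically dependent. There are finitely many proper
subspaces of `V`, containing `1` and `v`, such that for every `u` in `V` outside these and almost
all constants `t` the function `u + t v` bounds `V`. -/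
theorem exists_subspaces [IsAlgClosed K] (V : Submodule K F) [FiniteDimensional K V]
    (h1 : (1 : F) ∈ V) (v : F) (hv : v ∈ V)
    (hdep : ∀ x ∈ V, ∀ y ∈ V, ∃ P : MvPolynomial (Fin 2) K, P ≠ 0 ∧
      MvPolynomial.aeval ![x, y] P = 0) :
    ∃ 𝒰 : Set (Submodule K F), 𝒰.Finite ∧ (∀ U ∈ 𝒰, U ≤ V ∧ ¬ V ≤ U ∧ 1 ∈ U ∧ v ∈ U) ∧
      ∀ u ∈ V, (∀ U ∈ 𝒰, u ∉ U) →
        ∃ T : Finset K, ∀ t ∉ T, V ≤ intSub K (u + algebraMap K F t * v) 1 := by
  classical
  refine ⟨{U | ∃ ψ : grAlg V →ₐ[K] K, fnl ψ ⟨1, h1⟩ = 0 ∧ fnl ψ ⟨v, hv⟩ = 0 ∧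
    fnl ψ ≠ 0 ∧ U = kerSub (fnl ψ)}, ?_, ?_, ?_⟩
  · refine (finite_kers V h1 hdep).subset ?_
    rintro U ⟨ψ, h2, -, -, rfl⟩
    exact ⟨ψ, h2, rfl⟩
  · rintro U ⟨ψ, h2, h3, h4, rfl⟩
    refine ⟨?_, ?_, ?_, ?_⟩
    · intro x hx
      obtain ⟨hx, -⟩ := mem_kerSub.mp hx
      exact hx
    · intro h5
      apply h4
      apply LinearMap.ext
      intro x
      obtain ⟨_, h6⟩ := mem_kerSub.mp (h5 x.2)
      exact h6
    · exact mem_kerSub.mpr ⟨h1, h2⟩
    · exact mem_kerSub.mpr ⟨hv, h3⟩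
  · intro u hu hU
    obtain ⟨P, hP, hP2⟩ := hdep u hu v hv
    obtain ⟨θ, hθ0, hθ⟩ := exists_theta h1 ⟨u, hu⟩ ⟨v, hv⟩ P hP hP2
    refine ⟨θ.roots.toFinset.image (fun x => -x), ?_⟩
    intro t ht
    have hg : u + algebraMap K F t * v ∈ V := by
      rw [← Algebra.smul_def]
      exact add_mem hu (V.smul_mem t hv)
    have key : ∀ ψ : grAlg V →ₐ[K] K, ψ ⟨gen K 1, gen_mem h1⟩ = 0 →
        ψ ⟨gen K (u + algebraMap K F t * v), gen_mem hg⟩ = 0 →
        ∀ x (hx : x ∈ V), ψ ⟨gen K x, gen_mem hx⟩ = 0 := by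
      intro ψ hψ1 hψg
      by_contra hcon
      have hψ0 : fnl ψ ≠ 0 := by
        intro h0
        apply hcon
        intro x hx
        exact LinearMap.congr_fun h0 ⟨x, hx⟩
      have h2 : fnl ψ ⟨u, hu⟩ + t * fnl ψ ⟨v, hv⟩ = 0 := by
        have h3 : fnl ψ (⟨u, hu⟩ + t • ⟨v, hv⟩) = 0 := by
          rw [← hψg, fnl_apply]
          congr 1
          apply Subtype.ext
          change gen K (u + t • v) = gen K (u + algebraMap K F t * v)
          rw [Algebra.smul_def]
        rwa [map_add, map_smul, smul_eq_mul] at h3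
      by_cases h4 : fnl ψ ⟨v, hv⟩ = 0
      · rw [h4, mul_zero, add_zero] at h2
        exact hU _ ⟨ψ, hψ1, h4, hψ0, rfl⟩ (mem_kerSub.mpr ⟨hu, h2⟩)
      · have h5 := hθ ψ hψ1 h4
        have h6 : fnl ψ ⟨u, hu⟩ / fnl ψ ⟨v, hv⟩ = -t := by
          rw [div_eq_iff h4, neg_mul]
          exact eq_neg_of_add_eq_zero_left h2
        rw [h6] at h5
        apply ht
        rw [Finset.mem_image]
        refine ⟨-t, ?_, neg_neg t⟩
        rw [Multiset.mem_toFinset, mem_roots hθ0]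
        exact h5
    obtain ⟨N, hN⟩ := exists_pow_le V h1 _ hg key
    exact le_intSub_of_pow_le V h1 _ N hN

end Pool.Agent.N770
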