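import Pool.Agent.N770.Gen
import Pool.Agent.N770.Pts2

/-!
# Finitely many units in a finite dimensional space
-/

set_option autoImplicit false

namespace Pool.Agent.N770

open Polynomial Module Pool.Agent.W256

universe u

variable {K : Type u} {L : Type*} [Field K] [Field L] [Algebra K L]

/-- If no functional at infinity is nonzero, then the space consists of constants. -/
theorem const_of_no_points [IsAlgClosed K] {F : Type*} [Field F] [Algebra K F]
    (V : Submodule K F) [FiniteDimensional K V] (h1 : (1 : F) ∈ V)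
    (h : ∀ ψ : grAlg V →ₐ[K] K, fnl ψ ⟨1, h1⟩ = 0 → fnl ψ = 0) (x : F) (hx : x ∈ V) :
    ∃ c : K, x = algebraMap K F c := by
  obtain ⟨N, hN⟩ := exists_pow_le V h1 1 h1 (by
    intro ψ hψ _ x hx
    exact LinearMap.congr_fun (h ψ hψ) ⟨x, hx⟩)
  have h2 := le_intSub_of_pow_le V h1 1 N hN
  exact const_of_intAt ⟨1, (map_one _).symm⟩ (h2 hx)

/-- **Units.** Let `χ` be a `K`-algebra homomorphism from the algebra generated by a finite
dimensional space `V` to `K`. There are finitely many `u` in `V` with inverse in `V` and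
`χ u = 1`. -/
theorem finite_units [IsAlgClosed K] (V : Submodule K L) [FiniteDimensional K V]
    (R : Subalgebra K L) (hVR : V ≤ Subalgebra.toSubmodule R) (χ : R →ₐ[K] K) :
    {u : L | ∃ (hu : u ∈ V), u ≠ 0 ∧ u⁻¹ ∈ V ∧ χ ⟨u, hVR hu⟩ = 1}.Finite := by
  classical
  set n := finrank K V with hn
  let b : Basis (Fin n) K V := finBasis K V
  let bb : Fin n → L := fun i => (b i : L)
  have hbb : LinearIndependent K bb := b.linearIndependent.map' V.subtype V.ker_subtype
  let cmb : (Fin n → K) → L := fun c => ∑ i, c i • bb i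
  let f : Fin n → K := fun i => χ ⟨bb i, hVR (b i).2⟩
  -- the set of pairs
  let T : Set (Fin n ⊕ Fin n → K) := {t | cmb (fun i => t (Sum.inl i)) * cmb (fun i => t (Sum.inr i)) = 1
    ∧ ∑ i, f i * t (Sum.inl i) = 1}
  have hcmbV : ∀ c, cmb c ∈ V := fun c => Submodule.sum_mem _ fun i _ => V.smul_mem _ (b i).2
  have hχ : ∀ c, χ ⟨cmb c, hVR (hcmbV c)⟩ = ∑ i, f i * c i := by
    intro c
    have h1 : (⟨cmb c, hVR (hcmbV c)⟩ : R) = ∑ i, c i • (⟨bb i, hVR (b i).2⟩ : R) := by
      apply Subtype.ext
      rw [← R.coe_val, map_sum]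
      rfl
    rw [h1, map_sum]
    refine Finset.sum_congr rfl fun i _ => ?_
    rw [map_smul, smul_eq_mul, mul_comm]
  by_cases hfin : T.Finite
  · refine (hfin.image (fun t => cmb (fun i => t (Sum.inl i)))).subset ?_
    rintro u ⟨huV, hu0, huV', huχ⟩
    refine ⟨Sum.elim (fun i => b.repr ⟨u, huV⟩ i) (fun i => b.repr ⟨u⁻¹, huV'⟩ i), ⟨?_, ?_⟩, ?_⟩
    · have e1 : cmb (fun i => b.repr ⟨u, huV⟩ i) = u := by
        have := congrArg Subtype.val (b.sum_repr ⟨u, huV⟩)
        rw [Submodule.coe_sum] at this
        exact this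
      have e2 : cmb (fun i => b.repr ⟨u⁻¹, huV'⟩ i) = u⁻¹ := by
        have := congrArg Subtype.val (b.sum_repr ⟨u⁻¹, huV'⟩)
        rw [Submodule.coe_sum] at this
        exact this
      change cmb (fun i => b.repr ⟨u, huV⟩ i) * cmb (fun i => b.repr ⟨u⁻¹, huV'⟩ i) = 1
      rw [e1, e2, mul_inv_cancel₀ hu0]
    · change ∑ i, f i * b.repr ⟨u, huV⟩ i = 1
      rw [← hχ, ← huχ]
      congr 1
      apply Subtype.ext
      have := congrArg Subtype.val (b.sum_repr ⟨u, huV⟩)
      rw [Submodule.coe_sum] at this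
      exact this
    · change cmb (fun i => b.repr ⟨u, huV⟩ i) = u
      have := congrArg Subtype.val (b.sum_repr ⟨u, huV⟩)
      rw [Submodule.coe_sum] at this
      exact this
  exfalso
  obtain ⟨F, _, _, x, hx, i₀, hi₀⟩ := exists_generic_point T hfin
  set p : Fin n → F := fun i => x (Sum.inl i) with hp
  set q : Fin n → F := fun i => x (Sum.inr i) with hq
  -- the relations
  have r1 : ∀ φ : L →ₗ[K] K, ∑ i, ∑ j, algebraMap K F (φ (bb i * bb j)) * (p i * q j) =
      algebraMap K F (φ 1) := by
    intro φ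
    have h1 := hx (∑ i, ∑ j, MvPolynomial.C (φ (bb i * bb j)) *
      (MvPolynomial.X (Sum.inl i) * MvPolynomial.X (Sum.inr j)) - MvPolynomial.C (φ 1)) (by
      intro t ht
      rw [map_sub, map_sum, MvPolynomial.eval_C, sub_eq_zero, ← ht.1]
      rw [Finset.sum_mul_sum, map_sum]
      refine Finset.sum_congr rfl fun i _ => ?_
      rw [map_sum, map_sum]
      refine Finset.sum_congr rfl fun j _ => ?_
      rw [map_mul (MvPolynomial.eval t), map_mul (MvPolynomial.eval t), MvPolynomial.eval_C,
        MvPolynomial.eval_X, MvPolynomial.eval_X, smul_mul_smul_comm, map_smul, smul_eq_mul,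
        mul_comm])
    rw [map_sub, sub_eq_zero, MvPolynomial.algHom_C, map_sum] at h1
    rw [← h1]
    refine Finset.sum_congr rfl fun i _ => ?_
    rw [map_sum]
    refine Finset.sum_congr rfl fun j _ => ?_
    rw [map_mul (MvPolynomial.aeval x), map_mul (MvPolynomial.aeval x), MvPolynomial.algHom_C,
      MvPolynomial.aeval_X, MvPolynomial.aeval_X]
  have r2 : ∑ i, algebraMap K F (f i) * p i = 1 := by
    have h1 := hx (∑ i, MvPolynomial.C (f i) * MvPolynomial.X (Sum.inl i) - 1) (by
      intro t ht
      rw [map_sub, map_sum, map_one, sub_eq_zero, ← ht.2]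
      refine Finset.sum_congr rfl fun i _ => ?_
      rw [map_mul, MvPolynomial.eval_C, MvPolynomial.eval_X])
    rw [map_sub, sub_eq_zero, map_sum, map_one] at h1
    rw [← h1]
    refine Finset.sum_congr rfl fun i _ => ?_
    rw [map_mul, MvPolynomial.algHom_C, MvPolynomial.aeval_X]
  have r3 : ∑ i, algebraMap K F (f i) * q i = 1 := by
    have h1 := hx (∑ i, MvPolynomial.C (f i) * MvPolynomial.X (Sum.inr i) - 1) (by
      intro t ht
      rw [map_sub, map_sum, map_one, sub_eq_zero]
      have h2 : χ ⟨cmb (fun i => t (Sum.inl i)), hVR (hcmbV _)⟩ *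
          χ ⟨cmb (fun i => t (Sum.inr i)), hVR (hcmbV _)⟩ = 1 := by
        rw [← map_mul, ← map_one χ]
        congr 1
        exact Subtype.ext ht.1
      rw [hχ, hχ, ht.2, one_mul] at h2
      rw [← h2]
      refine Finset.sum_congr rfl fun i _ => ?_
      rw [map_mul, MvPolynomial.eval_C, MvPolynomial.eval_X])
    rw [map_sub, sub_eq_zero, map_sum, map_one] at h1
    rw [← h1]
    refine Finset.sum_congr rfl fun i _ => ?_
    rw [map_mul, MvPolynomial.algHom_C, MvPolynomial.aeval_X]
  -- the space
  set G : Submodule K F := Submodule.span K ({1} ∪ (Set.range p ∪ Set.range q ∪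
    Set.range (fun ij : Fin n × Fin n => p ij.1 * q ij.2))) with hG
  have h1G : (1 : F) ∈ G := Submodule.subset_span (Or.inl rfl)
  have hpG : ∀ i, p i ∈ G := fun i => Submodule.subset_span (Or.inr (Or.inl (Or.inl ⟨i, rfl⟩)))
  have hqG : ∀ i, q i ∈ G := fun i => Submodule.subset_span (Or.inr (Or.inl (Or.inr ⟨i, rfl⟩)))
  have hpqG : ∀ i j, p i * q j ∈ G := fun i j =>
    Submodule.subset_span (Or.inr (Or.inr ⟨(i, j), rfl⟩))
  have hGf : FiniteDimensional K G := FiniteDimensional.span_of_finite K
    ((Set.finite_singleton _).union (((Set.finite_range p).union (Set.finite_range q)).union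
      (Set.finite_range _)))
  have key : ∀ ψ : grAlg G →ₐ[K] K, fnl ψ ⟨1, h1G⟩ = 0 → fnl ψ = 0 := by
    intro ψ hψ
    set m : Fin n → Fin n → K := fun i j => fnl ψ ⟨p i * q j, hpqG i j⟩ with hm
    -- two by two minors
    have hmin : ∀ i j k l, m i j * m k l = m i l * m k j := by
      intro i j k l
      simp only [hm, fnl_apply]
      rw [← map_mul, ← map_mul]
      congr 1
      apply Subtype.ext
      change (C (p i * q j) * X) * (C (p k * q l) * X) = (C (p i * q l) * X) * (C (p k * q j) * X)
      simp only [C_mul]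
      ring
    have hmul : ∑ i, ∑ j, m i j • (bb i * bb j) = 0 := by
      by_contra hne
      obtain ⟨φ, hφ⟩ : ∃ φ : L →ₗ[K] K, φ (∑ i, ∑ j, m i j • (bb i * bb j)) ≠ 0 := by
        by_contra hcon
        push Not at hcon
        exact hne ((Module.forall_dual_apply_eq_zero_iff K _).mp hcon)
      apply hφ
      have h2 : (∑ i, ∑ j, φ (bb i * bb j) • (⟨p i * q j, hpqG i j⟩ : G)) = φ 1 • ⟨1, h1G⟩ := by
        apply Subtype.ext
        rw [Submodule.coe_sum, Submodule.coe_smul]
        have h3 := r1 φ
        rw [Algebra.smul_def, mul_one, ← h3]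
        refine Finset.sum_congr rfl fun i _ => ?_
        rw [Submodule.coe_sum]
        refine Finset.sum_congr rfl fun j _ => ?_
        rw [Submodule.coe_smul, Algebra.smul_def]
      have h4 := congrArg (fnl ψ) h2
      rw [map_smul, hψ, smul_zero, map_sum] at h4
      rw [map_sum, ← h4]
      refine Finset.sum_congr rfl fun i _ => ?_
      rw [map_sum, map_sum]
      refine Finset.sum_congr rfl fun j _ => ?_
      rw [map_smul, map_smul, smul_eq_mul, smul_eq_mul, mul_comm]
    have hm0 : ∀ i j, m i j = 0 := by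
      by_contra hcon
      push Not at hcon
      obtain ⟨i₁, j₁, h2⟩ := hcon
      have h3 : cmb (fun i => m i j₁) * cmb (fun j => m i₁ j) = 0 := by
        have h4 : cmb (fun i => m i j₁) * cmb (fun j => m i₁ j) =
            m i₁ j₁ • ∑ i, ∑ j, m i j • (bb i * bb j) := by
          rw [Finset.sum_mul_sum, Finset.smul_sum]
          refine Finset.sum_congr rfl fun i _ => ?_
          rw [Finset.smul_sum]
          refine Finset.sum_congr rfl fun j _ => ?_
          rw [smul_mul_smul_comm, smul_smul, mul_comm (m i₁ j₁), hmin i j i₁ j₁]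
        rw [h4, hmul, smul_zero]
      rcases mul_eq_zero.mp h3 with h4 | h4
      · exact h2 (Fintype.linearIndependent_iff.mp hbb _ h4 i₁)
      · exact h2 (Fintype.linearIndependent_iff.mp hbb _ h4 j₁)
    have hp0 : ∀ i, fnl ψ ⟨p i, hpG i⟩ = 0 := by
      intro i
      have h2 : (⟨p i, hpG i⟩ : G) = ∑ j, f j • (⟨p i * q j, hpqG i j⟩ : G) := by
        apply Subtype.ext
        rw [Submodule.coe_sum]
        calc p i = p i * ∑ j, algebraMap K F (f j) * q j := by rw [r3, mul_one]
          _ = _ := by
            rw [Finset.mul_sum]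
            refine Finset.sum_congr rfl fun j _ => ?_
            rw [Submodule.coe_smul, Algebra.smul_def]
            ring
      rw [h2, map_sum]
      apply Finset.sum_eq_zero
      intro j _
      rw [map_smul]
      have := hm0 i j
      simp only [hm] at this
      rw [this, smul_zero]
    have hq0 : ∀ j, fnl ψ ⟨q j, hqG j⟩ = 0 := by
      intro j
      have h2 : (⟨q j, hqG j⟩ : G) = ∑ i, f i • (⟨p i * q j, hpqG i j⟩ : G) := by
        apply Subtype.ext
        rw [Submodule.coe_sum]
        calc q j = (∑ i, algebraMap K F (f i) * p i) * q j := by rw [r2, one_mul]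
          _ = _ := by
            rw [Finset.sum_mul]
            refine Finset.sum_congr rfl fun i _ => ?_
            rw [Submodule.coe_smul, Algebra.smul_def]
            ring
      rw [h2, map_sum]
      apply Finset.sum_eq_zero
      intro i _
      rw [map_smul]
      have := hm0 i j
      simp only [hm] at this
      rw [this, smul_zero]
    have hker : G ≤ kerSub (fnl ψ) := by
      conv_lhs => rw [hG]
      rw [Submodule.span_le]
      rintro y (hy | (⟨i, rfl⟩ | ⟨j, rfl⟩) | ⟨⟨i, j⟩, rfl⟩)
      · rw [Set.mem_singleton_iff] at hy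
        subst hy
        exact mem_kerSub.mpr ⟨h1G, hψ⟩
      · exact mem_kerSub.mpr ⟨hpG i, hp0 i⟩
      · exact mem_kerSub.mpr ⟨hqG j, hq0 j⟩
      · exact mem_kerSub.mpr ⟨hpqG i j, hm0 i j⟩
    apply LinearMap.ext
    intro y
    obtain ⟨_, h2⟩ := mem_kerSub.mp (hker y.2)
    exact h2
  have hconst := const_of_no_points G h1G key
  have hxG : x i₀ ∈ G := by
    rcases i₀ with i | i
    · exact hpG i
    · exact hqG i
  obtain ⟨c, hc⟩ := hconst _ hxG
  apply hi₀
  rw [hc]
  exact isAlgebraic_algebraMap c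

end Pool.Agent.N770
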