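import Pool.Agent.N770.Logs
import Pool.Agent.N770.Conic

/-!
# The strong six exponentials theorem and squares
-/

set_option autoImplicit false

namespace Pool.Agent.N770

open Module
open Pool.Agent.H301R2.SSE (QB mem_QB Lt Lt_one Lt_log)

/-- the strong six exponentials theorem -/
theorem six (y : ℂ) (hy : ∀ c : QB, y ≠ algebraMap QB ℂ c) (w : Fin 3 → ℂ)
    (hw : LinearIndependent QB w) (hwL : ∀ j, w j ∈ Lt) (hyw : ∀ j, y * w j ∈ Lt) : False := by
  have h1 : LinearIndependent QB ![1, y] := by
    rw [LinearIndependent.pair_iff]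
    intro s t hst
    by_cases ht : t = 0
    · rw [ht, zero_smul, add_zero, Algebra.smul_def, mul_one] at hst
      exact ⟨(map_eq_zero _).mp hst, ht⟩
    · exfalso
      apply hy (-(t⁻¹ * s))
      have h2 : (algebraMap QB ℂ t) ≠ 0 := by simpa using ht
      rw [Algebra.smul_def, Algebra.smul_def, mul_one] at hst
      rw [map_neg, map_mul, map_inv₀]
      field_simp
      linear_combination hst
  have key := Pool.Agent.W254.HP.hyperplane 2 3 ![1, y] (fun i j => ![y * w j, -w j] i) h1
    (by
      intro i j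
      fin_cases i
      · exact hyw j
      · exact neg_mem (hwL j))
    (by
      intro j
      rw [Fin.sum_univ_two]
      change 1 * (y * w j) + y * (-w j) = 0
      ring)
    (by
      rw [Fintype.linearIndependent_iff]
      intro g hg
      have h3 := congrFun hg 1
      rw [Finset.sum_apply] at h3
      apply Fintype.linearIndependent_iff.mp hw g
      have h4 : ∑ j, g j • (-w j) = 0 := h3
      simp only [smul_neg, Finset.sum_neg_distrib, neg_eq_zero] at h4
      exact h4)
  omega

theorem mem_span_of_mul_mem (V : Submodule QB ℂ) (hV : V ≤ Lt) (h1 : (1 : ℂ) ∈ V) (y : ℂ)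
    (hyV : y ∈ V) (hyc : ∀ c : QB, y ≠ algebraMap QB ℂ c) (hyy : y * y ∈ V) (x : ℂ) (hx : x ∈ V)
    (hyx : y * x ∈ V) : x ∈ Submodule.span QB {1, y} := by
  by_contra hcon
  have hac : IsAlgClosed QB := isAlgClosed_QB
  refine six y hyc ![x, 1, y] ?_ ?_ ?_
  · rw [Fintype.linearIndependent_iff]
    intro g hg
    rw [Fin.sum_univ_three] at hg
    change g 0 • x + g 1 • (1 : ℂ) + g 2 • y = 0 at hg
    have h0 : g 0 = 0 := by
      by_contra h0
      apply hcon
      rw [Submodule.mem_span_pair]
      refine ⟨-((g 0)⁻¹ * g 1), -((g 0)⁻¹ * g 2), ?_⟩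
      have h2 : (algebraMap QB ℂ (g 0)) ≠ 0 := by simpa using h0
      simp only [Algebra.smul_def, map_neg, map_mul, map_inv₀] at hg ⊢
      field_simp
      linear_combination -hg
    rw [h0, zero_smul, zero_add] at hg
    obtain ⟨h3, h4, -⟩ := li_of_nonconst y hyc (g 1) (g 2) 0 (by
      rw [hg, zero_smul, add_zero])
    intro i
    fin_cases i
    · exact h0
    · exact h3
    · exact h4
  · intro j
    fin_cases j
    · exact hV hx
    · exact hV h1
    · exact hV hyV
  · intro j
    fin_cases j
    · exact hV hyx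
    · change y * 1 ∈ Lt
      rw [mul_one]
      exact hV hyV
    · exact hV hyy

theorem finite_conics_logs (V : Submodule QB ℂ) [FiniteDimensional QB V] (hV : V ≤ Lt)
    (h1 : (1 : ℂ) ∈ V) :
    {T : Submodule QB ℂ | T ≤ V ∧ ∃ u v : ℂ, LinearIndependent QB ![1, u, v] ∧
      T = Submodule.span QB {1, u, v} ∧ QuadRel QB u v}.Finite := by
  have hac : IsAlgClosed QB := isAlgClosed_QB
  exact finite_conics two_ne_zero V h1 (fun y hy hyc hyy x hx hyx =>
    mem_span_of_mul_mem V hV h1 y hy hyc hyy x hx hyx)

end Pool.Agent.N770
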