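import Pool.Agent.N770.Four2
import Pool.Agent.N770.Six
import Pool.Agent.Y787.PInst
import Pool.Agent.Y787.GL.Curve6

/-!
# Spaces with the hyperplane property, in particular `p`-adic linear forms in logarithms
-/

set_option autoImplicit false

namespace Pool.Agent.N770

open Module

section generic

variable {K L : Type*} [Field K] [Field L] [Algebra K L]

theorem mem_span_of_sixExp [IsAlgClosed K] {S : Submodule K L} (hS : SixExp K S)
    (V : Submodule K L) (hV : V ≤ S) (h1 : (1 : L) ∈ V) (y : L)
    (hyV : y ∈ V) (hyc : ∀ c : K, y ≠ algebraMap K L c) (hyy : y * y ∈ V) (x : L) (hx : x ∈ V)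
    (hyx : y * x ∈ V) : x ∈ Submodule.span K {1, y} := by
  by_contra hcon
  refine hS y hyc ![x, 1, y] ?_ ?_ ?_
  · rw [Fintype.linearIndependent_iff]
    intro g hg
    rw [Fin.sum_univ_three] at hg
    change g 0 • x + g 1 • (1 : L) + g 2 • y = 0 at hg
    have h0 : g 0 = 0 := by
      by_contra h0
      apply hcon
      rw [Submodule.mem_span_pair]
      refine ⟨-((g 0)⁻¹ * g 1), -((g 0)⁻¹ * g 2), ?_⟩
      have h2 : (algebraMap K L (g 0)) ≠ 0 := by simpa using h0
      simp only [Algebra.smul_def, map_neg, map_mul, map_inv₀] at hg ⊢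
      field_simp
      linear_combination -hg
    rw [h0, zero_smul, zero_add] at hg
    obtain ⟨h3, h4, -⟩ := li_of_nonconst y hyc (g 1) (g 2) 0 (by
      rw [hg, zero_smul, add_zero])
    intro i
    fin_cases i
    · exact h0
    · exact h3
    · exact h4
  · intro j
    fin_cases j
    · exact hV hx
    · exact hV h1
    · exact hV hyV
  · intro j
    fin_cases j
    · exact hV hyx
    · change y * 1 ∈ S
      rw [mul_one]
      exact hV hyV
    · exact hV hyy

theorem finite_bad [IsAlgClosed K] (h2 : (2 : K) ≠ 0) {S : Submodule K L} (hS : SixExp K S)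
    (V : Submodule K L) [FiniteDimensional K V] (hV : V ≤ S) (h1 : (1 : L) ∈ V) :
    {T : Submodule K L | T ≤ V ∧ Bad T}.Finite :=
  finite_conics h2 V h1 (fun y hy hyc hyy x hx hyx =>
    mem_span_of_sixExp hS V hV h1 y hy hyc hyy x hx hyx)

/-- four bad planes in a space of dimension four do not exist -/
theorem encard_bad_le' [IsAlgClosed K] [IsAlgClosed L] (h2 : (2 : K) ≠ 0) {S : Submodule K L}
    (hS : SixExp K S) (V : Submodule K L) [FiniteDimensional K V] (hV : V ≤ S)
    (hV4 : finrank K V ≤ 4) : {T : Submodule K L | T ≤ V ∧ Bad T}.encard ≤ 3 := by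
  by_contra hcon
  push Not at hcon
  have h4 : (4 : ℕ∞) ≤ {T : Submodule K L | T ≤ V ∧ Bad T}.encard := by
    have := Order.add_one_le_of_lt hcon
    norm_num at this
    exact this
  obtain ⟨t, hts, ht⟩ := Set.exists_subset_encard_eq h4
  have hfin : t.Finite := Set.finite_of_encard_eq_coe (k := 4) (by rw [ht]; rfl)
  have hcard : hfin.toFinset.card = 4 := by
    have h5 := hfin.encard_eq_coe_toFinset_card
    rw [ht] at h5
    exact_mod_cast h5.symm
  let e := hfin.toFinset.equivFinOfCardEq hcard
  have hmem : ∀ i, ((e.symm i : hfin.toFinset) : Submodule K L) ≤ V ∧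
      Bad ((e.symm i : hfin.toFinset) : Submodule K L) := fun i =>
    hts (hfin.mem_toFinset.mp (e.symm i).2)
  exact no_four h2 S hS V hV hV4
    (fun i => ((e.symm i : hfin.toFinset) : Submodule K L)) (fun i => (hmem i).2)
    (fun i => (hmem i).1) (fun i j hij => e.symm.injective (Subtype.ext hij))

theorem directions' [IsAlgClosed K] [IsAlgClosed L] (h2 : (2 : K) ≠ 0) {S : Submodule K L}
    (hS : SixExp K S) (h1 : (1 : L) ∈ S) (v : L) (hvS : v ∈ S) (hv : Transcendental K v)
    {ι : Type*} (u : ι → L)
    (huS : ∀ i, u i ∈ S) (hq : ∀ i, QuadRel K (u i) v)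
    (hn : ∀ i, u i ∉ Submodule.span K ({1, v} : Set L))
    (hp : ∀ i j, i ≠ j → ∀ c : K, u i - c • u j ∉ Submodule.span K ({1, v} : Set L)) :
    LinearIndependent K (fun i => (Submodule.span K ({1, v} : Set L)).mkQ (u i)) := by
  rw [linearIndependent_iff']
  intro s g hg
  refine directions h2 S hS h1 v hvS hv u huS hq hn hp s g ?_
  have h1 : (Submodule.span K ({1, v} : Set L)).mkQ (∑ i ∈ s, g i • u i) = 0 := by
    rw [map_sum, ← hg]
    refine Finset.sum_congr rfl fun i _ => ?_
    rw [map_smul]
  exact (Submodule.Quotient.mk_eq_zero _).mp h1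

end generic

section hypC

open Pool.Agent.Y787 (QC mem_QC HypC hyperplane)

variable {Cc : Type} [Field Cc] [CharZero Cc] [IsAlgClosed Cc] {Lt : Submodule (QC Cc) Cc}

theorem isAlgClosed_QC : IsAlgClosed (QC Cc) :=
  (algebraicClosure.isAlgClosure ℚ Cc).isAlgClosed

omit [IsAlgClosed Cc] in
/-- the strong six exponentials theorem -/
theorem sixExp_of_hyp [HypC Lt] : SixExp (QC Cc) Lt := by
  intro y hy w hw hwL hyw
  have h1 : LinearIndependent (QC Cc) ![1, y] := by
    rw [LinearIndependent.pair_iff]
    intro s t hst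
    by_cases ht : t = 0
    · rw [ht, zero_smul, add_zero, Algebra.smul_def, mul_one] at hst
      exact ⟨(map_eq_zero _).mp hst, ht⟩
    · exfalso
      apply hy (-(t⁻¹ * s))
      have h2 : (algebraMap (QC Cc) Cc t) ≠ 0 := by simpa using ht
      rw [Algebra.smul_def, Algebra.smul_def, mul_one] at hst
      rw [map_neg, map_mul, map_inv₀]
      field_simp
      linear_combination hst
  have key := hyperplane (Lt := Lt) 2 3 ![1, y] (fun i j => ![y * w j, -w j] i) h1
    (by
      intro i j
      fin_cases i
      · exact hyw j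
      · exact neg_mem (hwL j))
    (by
      intro j
      rw [Fin.sum_univ_two]
      change 1 * (y * w j) + y * (-w j) = 0
      ring)
    (by
      rw [Fintype.linearIndependent_iff]
      intro g hg
      have h3 := congrFun hg 1
      rw [Finset.sum_apply] at h3
      apply Fintype.linearIndependent_iff.mp hw g
      have h4 : ∑ j, g j • (-w j) = 0 := h3
      simp only [smul_neg, Finset.sum_neg_distrib, neg_eq_zero] at h4
      exact h4)
  omega

theorem grows_of_hyp [HypC Lt] : Grows (QC Cc) Lt := by
  intro V hVf hV h1 m hm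
  exact Pool.Agent.Y787.GL.pow_growth V hV h1 m hm

end hypC

section padic

open Pool.Agent.Y787 (QC mem_QC HypC hypC_padic)
open Pool.Agent.W254.PA (LtE logs)
open Pool.Agent.W245.PB (IsIwasawaLog)

variable {p : ℕ} [hp : Fact p.Prime] {L : PadicAlgCl p → PadicAlgCl p}

theorem sixExp_padic (hL : IsIwasawaLog p L) :
    SixExp (QC (PadicAlgCl p)) (LtE (logs L)) := by
  have := hypC_padic hL
  exact sixExp_of_hyp

theorem grows_padic (hL : IsIwasawaLog p L) :
    Grows (QC (PadicAlgCl p)) (LtE (logs L)) := by
  have := hypC_padic hL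
  exact grows_of_hyp

theorem one_mem_padic : (1 : PadicAlgCl p) ∈ LtE (logs L) :=
  Submodule.subset_span (Or.inl rfl)

end padic

end Pool.Agent.N770
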