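import Pool.Agent.W256.Curve5

/-!
# Points at infinity of a finite dimensional space of functions

For a finite dimensional space `V` containing `1` in a field `F` over an algebraically closed
field `K`, the algebra `R` generated by `V X` in `F[X]` is graded. Its `K`-points killing `X`
correspond to linear functionals on `V` killing `1`. We show that an element `g` of `V` bounds all
elements of `V` if no such functional, except zero, kills `g`, and that the kernels of these
functionals form a finite set if any two elements of `V` are algebraically dependent.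
-/

set_option autoImplicit false

namespace Pool.Agent.N770

open Polynomial Module Pool.Agent.W256

variable {K F : Type*} [Field K] [Field F] [Algebra K F]

/-- the linear map `x ↦ x X` -/
noncomputable def gen (K : Type*) {F : Type*} [Field K] [Field F] [Algebra K F] : F →ₗ[K] F[X] where
  toFun x := C x * X
  map_add' x y := by rw [C_add, add_mul]
  map_smul' c x := by
    rw [Algebra.smul_def, C_mul, mul_assoc, Algebra.smul_def]
    rfl

theorem gen_apply (x : F) : gen K x = C x * X := rfl

/-- the graded algebra generated by `V X` -/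
noncomputable def grAlg (V : Submodule K F) : Subalgebra K F[X] :=
  Algebra.adjoin K ((gen K) '' (V : Set F))

theorem gen_mem {V : Submodule K F} {x : F} (hx : x ∈ V) : gen K x ∈ grAlg V :=
  Algebra.subset_adjoin ⟨x, hx, rfl⟩

theorem coeff_mem {V : Submodule K F} {a : F[X]} (ha : a ∈ grAlg V) (j : ℕ) :
    a.coeff j ∈ V ^ j := by
  induction ha using Algebra.adjoin_induction generalizing j with
  | mem x hx =>
    obtain ⟨y, hy, rfl⟩ := hx
    rw [gen_apply, coeff_C_mul, coeff_X]
    split_ifs with h
    · subst h; rw [mul_one, pow_one]; exact hy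
    · rw [mul_zero]; exact Submodule.zero_mem _
  | algebraMap r =>
    rw [Polynomial.algebraMap_apply, coeff_C]
    split_ifs with h
    · subst h; rw [pow_zero]; exact Submodule.algebraMap_mem r
    · exact Submodule.zero_mem _
  | add x y _ _ hx hy => rw [coeff_add]; exact add_mem (hx j) (hy j)
  | mul x y _ _ hx hy =>
    rw [coeff_mul]
    apply Submodule.sum_mem
    intro p hp
    rw [← Finset.HasAntidiagonal.mem_antidiagonal.mp hp, pow_add]
    exact Submodule.mul_mem_mul (hx _) (hy _)

theorem grAlg_fg (V : Submodule K F) [FiniteDimensional K V] : (grAlg V).FG := by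
  obtain ⟨S, hS⟩ := (IsNoetherian.noetherian (⊤ : Submodule K V)).map V.subtype
  rw [Submodule.map_subtype_top] at hS
  classical
  refine ⟨S.image (gen K), ?_⟩
  rw [Finset.coe_image]
  apply le_antisymm
  · apply Algebra.adjoin_mono
    apply Set.image_mono
    rw [← hS]; exact Submodule.subset_span
  · rw [grAlg, Algebra.adjoin_le_iff]
    rintro _ ⟨x, hx, rfl⟩
    have h1 : x ∈ Submodule.span K (S : Set F) := by rw [hS]; exact hx
    have h2 : gen K x ∈ (Submodule.span K (S : Set F)).map (gen K) := ⟨x, h1, rfl⟩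
    rw [Submodule.map_span] at h2
    exact Algebra.span_le_adjoin K _ h2

theorem mem_radical [IsAlgClosed K] {A : Type*} [CommRing A] [Algebra K A]
    [Algebra.FiniteType K A] (J : Ideal A) (r : A)
    (h : ∀ ψ : A →ₐ[K] K, (∀ x ∈ J, ψ x = 0) → ψ r = 0) : r ∈ J.radical := by
  by_contra hr
  have hred : IsReduced (A ⧸ J.radical) :=
    (Ideal.isRadical_iff_quotient_reduced _).mp (Ideal.radical_isRadical J)
  have hne : Ideal.Quotient.mk J.radical r ≠ 0 := by
    rwa [Ne, Ideal.Quotient.eq_zero_iff_mem]
  obtain ⟨φ, hφ⟩ := exists_point (K := K) (A := A ⧸ J.radical) _ hne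
  apply hφ
  refine h (φ.comp (Ideal.Quotient.mkₐ K _)) (fun x hx => ?_)
  have h1 : Ideal.Quotient.mkₐ K J.radical x = 0 := by
    rw [Ideal.Quotient.mkₐ_eq_mk, Ideal.Quotient.eq_zero_iff_mem]
    exact Ideal.le_radical hx
  rw [AlgHom.comp_apply, h1, map_zero]

/-- if `g` bounds `V` at infinity then some power of `V` is generated by `1` and `g` over the
previous one -/
theorem exists_pow_le [IsAlgClosed K] (V : Submodule K F) [FiniteDimensional K V]
    (h1 : (1 : F) ∈ V) (g : F) (hg : g ∈ V)
    (h : ∀ ψ : grAlg V →ₐ[K] K, ψ ⟨gen K 1, gen_mem h1⟩ = 0 → ψ ⟨gen K g, gen_mem hg⟩ = 0 →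
      ∀ x (hx : x ∈ V), ψ ⟨gen K x, gen_mem hx⟩ = 0) :
    ∃ N : ℕ, V ^ (N + 1) ≤ Submodule.span K {1, g} * V ^ N := by
  classical
  have hft : Algebra.FiniteType K (grAlg V) := (grAlg V).fg_iff_finiteType.mp (grAlg_fg V)
  have hnoeth : IsNoetherianRing (grAlg V) := Algebra.FiniteType.isNoetherianRing K _
  set J : Ideal (grAlg V) := Ideal.span {⟨gen K 1, gen_mem h1⟩, ⟨gen K g, gen_mem hg⟩} with hJ
  set P : Ideal (grAlg V) := Ideal.span (Set.range (fun x : V => ⟨gen K x.1, gen_mem x.2⟩)) with hP
  have hPJ : P ≤ J.radical := by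
    rw [hP, Ideal.span_le]
    rintro _ ⟨x, rfl⟩
    refine mem_radical (K := K) J _ ?_
    intro ψ hψ
    exact h ψ (hψ _ (Ideal.subset_span (Or.inl rfl))) (hψ _ (Ideal.subset_span (Or.inr rfl))) x.1 x.2
  obtain ⟨n, hn⟩ := Ideal.exists_pow_le_of_le_radical_of_fg hPJ (IsNoetherian.noetherian P)
  have hn1 : P ^ (n + 1) ≤ J := (Ideal.pow_le_pow_right (Nat.le_succ n)).trans hn
  refine ⟨n, ?_⟩
  -- elements of `V ^ m` give elements of `P ^ m`
  have key : ∀ m : ℕ, ∀ w ∈ V ^ m, ∃ a : grAlg V, a ∈ P ^ m ∧ (a : F[X]) = C w * X ^ m := by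
    intro m
    induction m with
    | zero =>
      intro w hw
      rw [pow_zero, Submodule.mem_one] at hw
      obtain ⟨c, rfl⟩ := hw
      refine ⟨algebraMap K _ c, by rw [pow_zero, Ideal.one_eq_top]; trivial, ?_⟩
      rw [pow_zero, mul_one]
      rfl
    | succ m ih =>
      intro w hw
      rw [pow_succ] at hw
      induction hw using Submodule.mul_induction_on' with
      | mem_mul_mem x hx y hy =>
        obtain ⟨a, haP, ha⟩ := ih x hx
        refine ⟨a * ⟨gen K y, gen_mem hy⟩, ?_, ?_⟩
        · rw [pow_succ]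
          exact Ideal.mul_mem_mul haP (Ideal.subset_span ⟨⟨y, hy⟩, rfl⟩)
        · change (a : F[X]) * (C y * X) = _
          rw [ha, C_mul, pow_succ]
          ring
      | add x _ y _ hx hy =>
        obtain ⟨a, haP, ha⟩ := hx
        obtain ⟨b, hbP, hb⟩ := hy
        refine ⟨a + b, add_mem haP hbP, ?_⟩
        change (a : F[X]) + (b : F[X]) = _
        rw [ha, hb, C_add, add_mul]
  intro w hw
  obtain ⟨z, hzP, hz⟩ := key (n + 1) w hw
  obtain ⟨a, b, hab⟩ := Ideal.mem_span_pair.mp (hn1 hzP)
  have h2 : (a : F[X]) * (C 1 * X) + (b : F[X]) * (C g * X) = C w * X ^ (n + 1) := by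
    rw [← hz, ← hab]
    rfl
  have h3 := congrArg (fun p => coeff p (n + 1)) h2
  have e1 : ((a : F[X]) * (C 1 * X)).coeff (n + 1) = (a : F[X]).coeff n := by
    rw [C_1, one_mul, coeff_mul_X]
  have e2 : ((b : F[X]) * (C g * X)).coeff (n + 1) = (b : F[X]).coeff n * g := by
    rw [← mul_assoc, coeff_mul_X, coeff_mul_C]
  simp only [coeff_add, e1, e2, coeff_C_mul, coeff_X_pow_self, mul_one] at h3
  rw [← h3]
  apply add_mem
  · have := Submodule.mul_mem_mul (Submodule.subset_span (Set.mem_insert 1 {g}) :
      (1 : F) ∈ Submodule.span K {1, g}) (coeff_mem a.2 n)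
    rwa [one_mul] at this
  · rw [mul_comm ((b : F[X]).coeff n) g]
    exact Submodule.mul_mem_mul (Submodule.subset_span (by simp)) (coeff_mem b.2 n)

/-- **Integrality.** -/
theorem le_intSub_of_pow_le (V : Submodule K F) [FiniteDimensional K V]
    (h1 : (1 : F) ∈ V) (g : F) (N : ℕ) (h : V ^ (N + 1) ≤ Submodule.span K {1, g} * V ^ N) :
    V ≤ intSub K g 1 := by
  intro x hx
  rw [mem_intSub, IntAt, pow_one]
  let _ : Algebra (MvPolynomial (Fin 2) K) F[X] := (rees K g).toAlgebra
  change IsIntegral (MvPolynomial (Fin 2) K) (C x * X)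
  obtain ⟨S, hS⟩ : (V ^ N : Submodule K F).FG :=
    Submodule.FG.pow (Module.Finite.iff_fg.mp inferInstance) N
  classical
  set M : Submodule (MvPolynomial (Fin 2) K) F[X] :=
    Submodule.span (MvPolynomial (Fin 2) K) (C '' (S : Set F)) with hM
  have hsm : ∀ (p : MvPolynomial (Fin 2) K) (f : F[X]), p • f = rees K g p * f := fun p f => rfl
  have hMV : ∀ w ∈ V ^ N, C w ∈ M := by
    intro w hw
    rw [← hS] at hw
    induction hw using Submodule.span_induction with
    | mem x hx => exact Submodule.subset_span ⟨x, hx, rfl⟩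
    | zero => rw [C_0]; exact Submodule.zero_mem _
    | add x y _ _ hx hy => rw [C_add]; exact add_mem hx hy
    | smul a x _ hx =>
      have := M.smul_mem (MvPolynomial.C a) hx
      rwa [hsm, rees_C, ← C_mul, ← Algebra.smul_def] at this
  have h1N : (1 : F) ∈ V ^ N := by
    clear h hS hM hMV
    induction N with
    | zero => rw [pow_zero]; exact Submodule.one_le.mp le_rfl
    | succ j ih =>
      rw [pow_succ]
      have := Submodule.mul_mem_mul ih h1
      rwa [mul_one] at this
  have hdom : IsDomain F[X] := inferInstance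
  have htf : Module.IsTorsionFree F[X] F[X] := inferInstance
  refine isIntegral_of_smul_mem_submodule (R := MvPolynomial (Fin 2) K) (A := F[X]) M ?_ ?_ _ ?_
  · intro h0
    have := hMV 1 h1N
    rw [h0, Submodule.mem_bot, C_1] at this
    exact one_ne_zero this
  · exact Submodule.fg_span (S.finite_toSet.image _)
  · -- elements of `G V ^ N`
    have hG : ∀ z ∈ Submodule.span K {1, g} * V ^ N, C z * X ∈ M := by
      intro z hz
      induction hz using Submodule.mul_induction_on' with
      | mem_mul_mem a ha w hw =>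
        obtain ⟨c, d, rfl⟩ := Submodule.mem_span_pair.mp ha
        have h2 := M.smul_mem (MvPolynomial.C c * MvPolynomial.X 0 +
          MvPolynomial.C d * MvPolynomial.X 1) (hMV w hw)
        rw [hsm, map_add, map_mul, map_mul, rees_X0, rees_X1, rees_C, rees_C] at h2
        rw [Algebra.smul_def, Algebra.smul_def, mul_one, C_mul, C_add, C_mul]
        convert h2 using 1
        ring
      | add x _ y _ hx hy => rw [C_add, add_mul]; exact add_mem hx hy
    intro n hn
    rw [smul_eq_mul]
    rw [hM] at hn
    induction hn using Submodule.span_induction with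
    | mem y hy =>
      obtain ⟨w, hw, rfl⟩ := hy
      have h2 : C x * X * C w = C (w * x) * X := by rw [C_mul]; ring
      rw [h2]
      apply hG
      apply h
      rw [pow_succ]
      exact Submodule.mul_mem_mul (hS ▸ Submodule.subset_span hw) hx
    | zero => rw [mul_zero]; exact Submodule.zero_mem _
    | add y z _ _ hy hz => rw [mul_add]; exact add_mem hy hz
    | smul a y _ hy =>
      rw [hsm, mul_left_comm, ← hsm]
      exact M.smul_mem _ hy

end Pool.Agent.N770
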