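import Pool.Agent.N770.Four4
import Pool.Agent.W256.Growth

/-!
# Quadratic relations in a space of dimension four
-/

set_option autoImplicit false

namespace Pool.Agent.N770

open Module Pool.Agent.W256

variable {K L : Type*} [Field K] [Field L] [Algebra K L]

theorem finrank_scale {c : L} (hc : c ≠ 0) (V : Submodule K L) [FiniteDimensional K V] :
    finrank K (scale c V) = finrank K V := by
  apply le_antisymm (finrank_scale_le c V)
  have h1 : V = scale c⁻¹ (scale c V) := by
    ext x
    rw [mem_scale (inv_ne_zero hc), inv_inv, mem_scale hc, inv_mul_cancel_left₀ hc]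
  calc finrank K V = finrank K (scale c⁻¹ (scale c V)) := by rw [← h1]
    _ ≤ finrank K (scale c V) := finrank_scale_le _ _

theorem exists_li_three (N : Submodule K L) [FiniteDimensional K N] (h : 3 ≤ finrank K N) :
    ∃ z : Fin 3 → L, LinearIndependent K z ∧ ∀ j, z j ∈ N := by
  let B := finBasis K N
  refine ⟨fun j => (B (Fin.castLE h j) : N), ?_, fun j => (B (Fin.castLE h j)).2⟩
  have h1 := B.linearIndependent.comp (Fin.castLE h) (Fin.castLE_injective h)
  exact h1.map' N.subtype N.ker_subtype

/-- products with two dimensional spaces -/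
theorem six_prod (V : Submodule K L) [FiniteDimensional K V] (hS : SixExp K V)
    (Y : Submodule K L) (hY : finrank K Y = 2) :
    2 * finrank K V ≤ finrank K (Y * V : Submodule K L) + 2 * (2 - 1) := by
  classical
  have hYf : FiniteDimensional K Y := FiniteDimensional.of_finrank_pos (by rw [hY]; norm_num)
  have hYV : FiniteDimensional K (Y * V : Submodule K L) :=
    Module.Finite.iff_fg.mpr (Submodule.FG.mul (Module.Finite.iff_fg.mp inferInstance)
      (Module.Finite.iff_fg.mp inferInstance))
  let b := finBasisOfFinrankEq K Y hY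
  set y0 : L := ((b 0 : Y) : L) with hy0
  set y1 : L := ((b 1 : Y) : L) with hy1
  have hbli : ∀ s t : K, s • y0 + t • y1 = 0 → s = 0 ∧ t = 0 := by
    intro s t hst
    have h1 : s • b 0 + t • b 1 = 0 := by
      apply Subtype.ext
      exact hst
    have h2 := Fintype.linearIndependent_iff.mp b.linearIndependent ![s, t] (by
      rw [Fin.sum_univ_two]
      exact h1)
    exact ⟨h2 0, h2 1⟩
  have hy0ne : y0 ≠ 0 := by
    intro h0
    have := (hbli 1 0 (by rw [h0]; simp)).1
    exact one_ne_zero this
  have hy1ne : y1 ≠ 0 := by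
    intro h0
    have := (hbli 0 1 (by rw [h0]; simp)).2
    exact one_ne_zero this
  have htc : ∀ c : K, y1 / y0 ≠ algebraMap K L c := by
    intro c hc
    have h1 := (hbli c (-1) (by
      rw [Algebra.smul_def, ← hc, neg_smul, one_smul]
      field_simp
      ring)).2
    simp at h1
  have hsup : scale y0 V ⊔ scale y1 V ≤ Y * V := by
    apply sup_le
    · rintro w ⟨x, hx, rfl⟩
      exact Submodule.mul_mem_mul (b 0).2 hx
    · rintro w ⟨x, hx, rfl⟩
      exact Submodule.mul_mem_mul (b 1).2 hx
  have hfdi : FiniteDimensional K (scale y0 V ⊓ scale y1 V : Submodule K L) :=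
    Submodule.finiteDimensional_of_le inf_le_left
  have hinf : finrank K (scale y0 V ⊓ scale y1 V : Submodule K L) ≤ 2 := by
    by_contra hcon
    push Not at hcon
    obtain ⟨z, hz, hzN⟩ := exists_li_three _ hcon
    refine hS (y1 / y0) htc (fun j => y1⁻¹ * z j) (li_smul (inv_ne_zero hy1ne) hz) ?_ ?_
    · intro j
      exact (mem_scale hy1ne).mp (hzN j).2
    · intro j
      have h1 : y1 / y0 * (y1⁻¹ * z j) = y0⁻¹ * z j := by
        field_simp
      rw [h1]
      exact (mem_scale hy0ne).mp (hzN j).1
  have h1 := Submodule.finrank_sup_add_finrank_inf_eq (scale y0 V) (scale y1 V)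
  rw [finrank_scale hy0ne, finrank_scale hy1ne] at h1
  have h2 := Submodule.finrank_mono hsup
  omega

/-- **Growth.** -/
theorem finrank_sq_ge [IsAlgClosed K] (V : Submodule K L) [FiniteDimensional K V]
    (hS : SixExp K V) (hV : finrank K V = 4) : 8 ≤ finrank K (V * V : Submodule K L) := by
  have hV0 : V ≠ ⊥ := by
    rintro rfl
    rw [finrank_bot] at hV
    omega
  have h1 := growth_of V V hV0 2 (by omega) (fun Y _ hY => six_prod V hS Y hY)
  omega

end Pool.Agent.N770
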