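import Pool.Agent.N770.Quad1

/-!
# At most two independent quadratic relations
-/

set_option autoImplicit false

namespace Pool.Agent.N770

open Module Pool.Agent.W256

variable {K L : Type*} [Field K] [Field L] [Algebra K L]

/-- the value of a quadratic form -/
def Psi (e : Fin 4 → L) (N : Matrix (Fin 4) (Fin 4) K) : L := ∑ i, ∑ j, N i j • (e i * e j)

/-- the monomials of degree two -/
def mons (e : Fin 4 → L) : Fin 10 → L :=
  ![e 0 * e 0, e 0 * e 1, e 1 * e 1, e 0 * e 2, e 1 * e 2, e 2 * e 2, e 0 * e 3, e 1 * e 3,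
    e 2 * e 3, e 3 * e 3]

/-- the coefficients of a quadratic form -/
def cvec (N : Matrix (Fin 4) (Fin 4) K) : Fin 10 → K :=
  ![N 0 0, 2 * N 0 1, N 1 1, 2 * N 0 2, 2 * N 1 2, N 2 2, 2 * N 0 3, 2 * N 1 3, 2 * N 2 3, N 3 3]

theorem psi_eq (e : Fin 4 → L) (N : Matrix (Fin 4) (Fin 4) K) (hN : N.IsSymm) :
    Psi e N = ∑ k, cvec N k • mons e k := by
  have h10 := hN.apply 0 1
  have h20 := hN.apply 0 2
  have h30 := hN.apply 0 3
  have h21 := hN.apply 1 2
  have h31 := hN.apply 1 3
  have h32 := hN.apply 2 3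
  rw [Psi]
  simp only [Fin.sum_univ_succ, Fin.sum_univ_zero, cvec, mons]
  have h22 : algebraMap K L 2 = 2 := map_ofNat _ 2
  simp [Algebra.smul_def]
  simp only [h10, h20, h30, h21, h31, h32, h22]
  ring

theorem cvec_eq_zero (h2 : (2 : K) ≠ 0) (N : Matrix (Fin 4) (Fin 4) K) (hN : N.IsSymm)
    (h : cvec N = 0) : N = 0 := by
  have h10 := hN.apply 0 1
  have h20 := hN.apply 0 2
  have h30 := hN.apply 0 3
  have h21 := hN.apply 1 2
  have h31 := hN.apply 1 3
  have h32 := hN.apply 2 3
  have e0 : N 0 0 = 0 := congrFun h 0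
  have e1 : 2 * N 0 1 = 0 := congrFun h 1
  have e2 : N 1 1 = 0 := congrFun h 2
  have e3 : 2 * N 0 2 = 0 := congrFun h 3
  have e4 : 2 * N 1 2 = 0 := congrFun h 4
  have e5 : N 2 2 = 0 := congrFun h 5
  have e6 : 2 * N 0 3 = 0 := congrFun h 6
  have e7 : 2 * N 1 3 = 0 := congrFun h 7
  have e8 : 2 * N 2 3 = 0 := congrFun h 8
  have e9 : N 3 3 = 0 := congrFun h 9
  have e1' := (mul_eq_zero.mp e1).resolve_left h2
  have e3' := (mul_eq_zero.mp e3).resolve_left h2
  have e4' := (mul_eq_zero.mp e4).resolve_left h2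
  have e6' := (mul_eq_zero.mp e6).resolve_left h2
  have e7' := (mul_eq_zero.mp e7).resolve_left h2
  have e8' := (mul_eq_zero.mp e8).resolve_left h2
  ext i j
  rw [Matrix.zero_apply]
  fin_cases i <;> fin_cases j
  · exact e0
  · exact e1'
  · exact e3'
  · exact e6'
  · exact h10.trans e1'
  · exact e2
  · exact e4'
  · exact e7'
  · exact h20.trans e3'
  · exact h21.trans e4'
  · exact e5
  · exact e8'
  · exact h30.trans e6'
  · exact h31.trans e7'
  · exact h32.trans e8'
  · exact e9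

theorem cvec_sum (g : Fin 3 → K) (N : Fin 3 → Matrix (Fin 4) (Fin 4) K) :
    cvec (∑ k, g k • N k) = ∑ k, g k • cvec (N k) := by
  funext m
  rw [Finset.sum_apply]
  fin_cases m <;>
  simp [cvec, Fin.sum_univ_three, Matrix.add_apply, Matrix.smul_apply] <;> ring

/-- any three quadratic relations are linearly dependent -/
theorem three_forms [IsAlgClosed K] (h2 : (2 : K) ≠ 0) (e : Fin 4 → L)
    (he : finrank K (Submodule.span K (Set.range e)) = 4)
    (hS : SixExp K (Submodule.span K (Set.range e))) (N : Fin 3 → Matrix (Fin 4) (Fin 4) K)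
    (hsym : ∀ k, (N k).IsSymm) (h0 : ∀ k, Psi e (N k) = 0) :
    ∃ g : Fin 3 → K, g ≠ 0 ∧ ∑ k, g k • N k = 0 := by
  have hfd : FiniteDimensional K (Submodule.span K (Set.range e)) :=
    FiniteDimensional.span_of_finite K (Set.finite_range e)
  have h8 := finrank_sq_ge _ hS he
  let T : (Fin 10 → K) →ₗ[K] L := Fintype.linearCombination K (mons e)
  have hT : ∀ c, T c = ∑ k, c k • mons e k := fun c => by
    rw [Fintype.linearCombination_apply]
  have hran : Submodule.span K (Set.range e) * Submodule.span K (Set.range e) ≤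
      LinearMap.range T := by
    rw [Fintype.range_linearCombination, Submodule.span_mul_span, Submodule.span_le]
    rintro w ⟨_, ⟨i, rfl⟩, _, ⟨j, rfl⟩, rfl⟩
    apply Submodule.subset_span
    change e i * e j ∈ Set.range (mons e)
    fin_cases i <;> fin_cases j
    · exact ⟨0, rfl⟩
    · exact ⟨1, rfl⟩
    · exact ⟨3, rfl⟩
    · exact ⟨6, rfl⟩
    · exact ⟨1, mul_comm _ _⟩
    · exact ⟨2, rfl⟩
    · exact ⟨4, rfl⟩
    · exact ⟨7, rfl⟩
    · exact ⟨3, mul_comm _ _⟩
    · exact ⟨4, mul_comm _ _⟩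
    · exact ⟨5, rfl⟩
    · exact ⟨8, rfl⟩
    · exact ⟨6, mul_comm _ _⟩
    · exact ⟨7, mul_comm _ _⟩
    · exact ⟨8, mul_comm _ _⟩
    · exact ⟨9, rfl⟩
  have h3 := Submodule.finrank_mono hran
  have h4 := LinearMap.finrank_range_add_finrank_ker T
  rw [Module.finrank_fintype_fun_eq_card, Fintype.card_fin] at h4
  have h5 : finrank K (LinearMap.ker T) ≤ 2 := by omega
  by_contra hcon
  push Not at hcon
  have hli : LinearIndependent K (fun k => (⟨cvec (N k), by
      rw [LinearMap.mem_ker, hT, ← psi_eq e _ (hsym k), h0 k]⟩ : LinearMap.ker T)) := by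
    apply LinearIndependent.of_comp (LinearMap.ker T).subtype
    rw [Fintype.linearIndependent_iff]
    intro g hg
    have h6 : cvec (∑ k, g k • N k) = 0 := by
      rw [cvec_sum]
      exact hg
    have hs : (∑ k, g k • N k).IsSymm := by
      ext i j
      simp only [Matrix.transpose_apply, Matrix.sum_apply, Matrix.smul_apply]
      exact Finset.sum_congr rfl fun k _ => by rw [(hsym k).apply]
    have h7 := cvec_eq_zero h2 _ hs h6
    by_contra hne
    push Not at hne
    obtain ⟨i, hi⟩ := hne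
    exact hcon g (fun h => hi (by rw [h]; rfl)) h7
  have h6 := hli.fintype_card_le_finrank
  rw [Fintype.card_fin] at h6
  omega

end Pool.Agent.N770
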