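import Pool.Agent.N770.Quad2

/-!
# Progressions in a space of dimension four
-/

set_option autoImplicit false

namespace Pool.Agent.N770

open Module Pool.Agent.W256

variable {K L : Type*} [Field K] [Field L] [Algebra K L]

/-- linear combinations -/
def co (e : Fin 4 → L) (a : Fin 4 → K) : L := ∑ i, a i • e i

theorem co_add (e : Fin 4 → L) (a b : Fin 4 → K) : co e (a + b) = co e a + co e b := by
  simp only [co, Pi.add_apply, add_smul, Finset.sum_add_distrib]

theorem co_smul (e : Fin 4 → L) (r : K) (a : Fin 4 → K) : co e (r • a) = r • co e a := by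
  simp only [co, Pi.smul_apply, smul_eq_mul, mul_smul, Finset.smul_sum]

theorem co_single (e : Fin 4 → L) (i : Fin 4) : co e (Pi.single i (1 : K)) = e i := by
  rw [co, Finset.sum_eq_single i]
  · simp
  · intro j _ hj
    simp [hj]
  · intro h
    exact absurd (Finset.mem_univ i) h

theorem co_inj {e : Fin 4 → L} (he : LinearIndependent K e) {a b : Fin 4 → K}
    (h : co e a = co e b) : a = b := by
  funext i
  have h1 := Fintype.linearIndependent_iff.mp he (a - b) (by
    have h2 : co e (a - b) = 0 := by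
      rw [sub_eq_add_neg, co_add, h, ← neg_one_smul K b, co_smul]
      simp
    exact h2) i
  exact sub_eq_zero.mp h1

theorem exists_co {e : Fin 4 → L} {x : L} (hx : x ∈ Submodule.span K (Set.range e)) :
    ∃ a : Fin 4 → K, x = co e a := by
  obtain ⟨a, ha⟩ := (Submodule.mem_span_range_iff_exists_fun K).mp hx
  exact ⟨a, ha.symm⟩

/-- the quadratic form `x z - y ^ 2` -/
def nmat (a b c : Fin 4 → K) : Matrix (Fin 4) (Fin 4) K :=
  Matrix.of fun i j => a i * c j + c i * a j - 2 * (b i * b j)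

theorem nmat_apply (a b c : Fin 4 → K) (i j : Fin 4) :
    nmat a b c i j = a i * c j + c i * a j - 2 * (b i * b j) := rfl

theorem nmat_symm (a b c : Fin 4 → K) : (nmat a b c).IsSymm := by
  ext i j
  rw [Matrix.transpose_apply, nmat_apply, nmat_apply]
  ring

theorem psi_nmat (e : Fin 4 → L) (a b c : Fin 4 → K) :
    Psi e (nmat a b c) = 2 * (co e a * co e c - co e b * co e b) := by
  have h1 : ∀ p q : Fin 4 → K, co e p * co e q = ∑ i, ∑ j, (p i * q j) • (e i * e j) := by
    intro p q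
    rw [co, co, Finset.sum_mul_sum]
    refine Finset.sum_congr rfl fun i _ => Finset.sum_congr rfl fun j _ => ?_
    rw [smul_mul_smul_comm]
  have h2 : Psi e (nmat a b c) = co e a * co e c + co e c * co e a - 2 * (co e b * co e b) := by
    rw [h1, h1, h1, Psi, ← Finset.sum_add_distrib, Finset.mul_sum, ← Finset.sum_sub_distrib]
    refine Finset.sum_congr rfl fun i _ => ?_
    rw [← Finset.sum_add_distrib, Finset.mul_sum, ← Finset.sum_sub_distrib]
    refine Finset.sum_congr rfl fun j _ => ?_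
    rw [nmat_apply]
    have h22 : algebraMap K L 2 = 2 := map_ofNat _ 2
    simp only [Algebra.smul_def, map_add, map_sub, map_mul, h22]
    ring
  rw [h2]
  ring

theorem nmat_mulVec (a b c ξ : Fin 4 → K) :
    (nmat a b c).mulVec ξ = (c ⬝ᵥ ξ) • a + (a ⬝ᵥ ξ) • c + (-2 * (b ⬝ᵥ ξ)) • b := by
  funext i
  simp only [Matrix.mulVec, dotProduct, nmat_apply, Pi.add_apply, Pi.smul_apply, smul_eq_mul,
    Finset.mul_sum, Finset.sum_mul]
  rw [← Finset.sum_add_distrib, ← Finset.sum_add_distrib]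
  refine Finset.sum_congr rfl fun j _ => ?_
  ring

/-- a progression with its coordinates -/
structure IsProg (e : Fin 4 → L) (S : Submodule K L) (a b c : Fin 4 → K) : Prop where
  span : S = Submodule.span K {co e a, co e b, co e c}
  li : ∀ α β γ : K, α • co e a + β • co e b + γ • co e c = 0 → α = 0 ∧ β = 0 ∧ γ = 0
  rel : co e a * co e c = co e b * co e b

namespace IsProg

variable {e : Fin 4 → L} {S S' : Submodule K L} {a b c a' b' c' : Fin 4 → K}

theorem psi (h : IsProg e S a b c) : Psi e (nmat a b c) = 0 := by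
  rw [psi_nmat, h.rel, sub_self, mul_zero]

theorem li' (h : IsProg e S a b c) (α β γ : K) (h0 : α • a + β • b + γ • c = 0) :
    α = 0 ∧ β = 0 ∧ γ = 0 := by
  apply h.li
  rw [← co_smul, ← co_smul, ← co_smul, ← co_add, ← co_add, h0]
  simp [co]

theorem dot_of_mulVec (h2 : (2 : K) ≠ 0) (h : IsProg e S a b c) (ξ : Fin 4 → K)
    (hξ : (nmat a b c).mulVec ξ = 0) : a ⬝ᵥ ξ = 0 ∧ b ⬝ᵥ ξ = 0 ∧ c ⬝ᵥ ξ = 0 := by
  rw [nmat_mulVec] at hξ
  obtain ⟨h3, h4, h5⟩ := h.li' (c ⬝ᵥ ξ) (-2 * (b ⬝ᵥ ξ)) (a ⬝ᵥ ξ) (by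
    rw [← hξ]
    abel)
  refine ⟨h5, ?_, h3⟩
  rcases mul_eq_zero.mp h4 with h6 | h6
  · exact absurd (neg_eq_zero.mp h6) h2
  · exact h6

theorem mulVec_of_dot {ξ : Fin 4 → K} (h1 : a ⬝ᵥ ξ = 0) (h2 : b ⬝ᵥ ξ = 0) (h3 : c ⬝ᵥ ξ = 0) :
    (nmat a b c).mulVec ξ = 0 := by
  rw [nmat_mulVec, h1, h2, h3]
  simp

theorem finrank_eq (h : IsProg e S a b c) : finrank K S = 3 := by
  have hli : LinearIndependent K ![co e a, co e b, co e c] := li_three h.li
  have h1 := finrank_span_eq_card hli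
  rw [range_three, Fintype.card_fin] at h1
  rw [h.span, h1]

/-- a vector orthogonal to the progression -/
theorem exists_xi (a b c : Fin 4 → K) : ∃ ξ : Fin 4 → K, ξ ≠ 0 ∧ a ⬝ᵥ ξ = 0 ∧ b ⬝ᵥ ξ = 0 ∧
    c ⬝ᵥ ξ = 0 := by
  let M : Matrix (Fin 3) (Fin 4) K := ![a, b, c]
  have h1 : LinearMap.ker (Matrix.mulVecLin M) ≠ ⊥ := by
    apply LinearMap.ker_ne_bot_of_finrank_lt
    simp
  obtain ⟨ξ, hξ, hξ0⟩ := Submodule.exists_mem_ne_zero_of_ne_bot h1
  rw [LinearMap.mem_ker, Matrix.mulVecLin_apply] at hξ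
  exact ⟨ξ, hξ0, congrFun hξ 0, congrFun hξ 1, congrFun hξ 2⟩

theorem finrank_perp {ξ : Fin 4 → K} (hξ : ξ ≠ 0) (W : Submodule K (Fin 4 → K))
    (hW : ∀ w ∈ W, w ⬝ᵥ ξ = 0) : finrank K W ≤ 3 := by
  by_contra hcon
  push Not at hcon
  have h4 : finrank K W = finrank K (Fin 4 → K) := by
    apply le_antisymm (Submodule.finrank_le W)
    rw [Module.finrank_fintype_fun_eq_card, Fintype.card_fin]
    omega
  have h5 : W = ⊤ := Submodule.eq_top_of_finrank_eq h4
  apply hξ
  funext i
  have h6 := hW (Pi.single i 1) (by rw [h5]; trivial)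
  rw [single_dotProduct, one_mul] at h6
  exact h6

/-- progressions with a common orthogonal vector span the same space -/
theorem eq_of_perp (h : IsProg e S a b c) (h' : IsProg e S' a' b' c') {ξ : Fin 4 → K}
    (hξ : ξ ≠ 0) (h1 : a ⬝ᵥ ξ = 0 ∧ b ⬝ᵥ ξ = 0 ∧ c ⬝ᵥ ξ = 0)
    (h1' : a' ⬝ᵥ ξ = 0 ∧ b' ⬝ᵥ ξ = 0 ∧ c' ⬝ᵥ ξ = 0) : S' ≤ S := by
  classical
  have key : ∀ w : Fin 4 → K, w ⬝ᵥ ξ = 0 → co e w ∈ S := by
    intro w hw
    by_contra hwS
    have hli : LinearIndependent K ![w, a, b, c] := by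
      rw [Fintype.linearIndependent_iff]
      intro g hg
      rw [Fin.sum_univ_four] at hg
      change g 0 • w + g 1 • a + g 2 • b + g 3 • c = 0 at hg
      have h3 : g 0 • co e w + g 1 • co e a + g 2 • co e b + g 3 • co e c = 0 := by
        rw [← co_smul, ← co_smul, ← co_smul, ← co_smul, ← co_add, ← co_add, ← co_add, hg]
        simp [co]
      have h0 : g 0 = 0 := by
        by_contra h0
        apply hwS
        rw [h.span, mem_three_iff]
        refine ⟨-((g 0)⁻¹ * g 1), -((g 0)⁻¹ * g 2), -((g 0)⁻¹ * g 3), ?_⟩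
        have h4 : (algebraMap K L (g 0)) ≠ 0 := by simpa using h0
        simp only [Algebra.smul_def, map_neg, map_mul, map_inv₀] at h3 ⊢
        field_simp
        linear_combination h3
      rw [h0, zero_smul, zero_add] at h3
      obtain ⟨h5, h6, h7⟩ := h.li _ _ _ h3
      intro i
      fin_cases i
      · exact h0
      · exact h5
      · exact h6
      · exact h7
    have h5 := finrank_span_eq_card hli
    rw [Fintype.card_fin] at h5
    have h6 := finrank_perp hξ (Submodule.span K (Set.range ![w, a, b, c])) (by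
      intro v hv
      induction hv using Submodule.span_induction with
      | mem x hx =>
        obtain ⟨i, rfl⟩ := hx
        fin_cases i
        · exact hw
        · exact h1.1
        · exact h1.2.1
        · exact h1.2.2
      | zero => exact zero_dotProduct ξ
      | add x y _ _ hx hy => rw [add_dotProduct, hx, hy, add_zero]
      | smul r x _ hx => rw [smul_dotProduct, hx, smul_zero])
    omega
  rw [h'.span, Submodule.span_le]
  rintro x (rfl | rfl | hx)
  · exact key _ h1'.1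
  · exact key _ h1'.2.1
  · rw [Set.mem_singleton_iff] at hx
    rw [hx]
    exact key _ h1'.2.2

/-- proportional forms belong to the same space -/
theorem eq_of_prop (h2 : (2 : K) ≠ 0) (h : IsProg e S a b c) (h' : IsProg e S' a' b' c')
    (α β : K) (hαβ : ¬ (α = 0 ∧ β = 0)) (hN : α • nmat a b c = β • nmat a' b' c') : S = S' := by
  have main : ∀ {S S' : Submodule K L} {a b c a' b' c' : Fin 4 → K}, IsProg e S a b c →
      IsProg e S' a' b' c' → ∀ α β : K, α ≠ 0 → α • nmat a b c = β • nmat a' b' c' → S = S' := by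
    intro S S' a b c a' b' c' h h' α β hα hN
    obtain ⟨ξ, hξ, h3, h4, h5⟩ := exists_xi a' b' c'
    have h6 : (nmat a b c).mulVec ξ = 0 := by
      have h7 : α • (nmat a b c).mulVec ξ = 0 := by
        rw [← Matrix.smul_mulVec, hN, Matrix.smul_mulVec, mulVec_of_dot h3 h4 h5, smul_zero]
      exact (smul_eq_zero.mp h7).resolve_left hα
    have h8 := h.dot_of_mulVec h2 ξ h6
    exact le_antisymm (h'.eq_of_perp h hξ ⟨h3, h4, h5⟩ h8) (h.eq_of_perp h' hξ h8 ⟨h3, h4, h5⟩)
  by_cases hα : α = 0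
  · have hβ : β ≠ 0 := fun h0 => hαβ ⟨hα, h0⟩
    exact (main h' h β α hβ hN.symm).symm
  · exact main h h' α β hα hN

end IsProg

end Pool.Agent.N770
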