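import Pool.Agent.N770.Quad3

/-!
# The determinant of the pencil
-/

set_option autoImplicit false

namespace Pool.Agent.N770

open Module Pool.Agent.W256

variable {K L : Type*} [Field K] [Field L] [Algebra K L]

/-- the determinant of a symmetric matrix `3 × 3` -/
def d3 (p q r s t u : K) : K := p * r * u + 2 * q * s * t - p * t ^ 2 - r * s ^ 2 - u * q ^ 2

/-- the mixed coefficient -/
def mid (N N' : Matrix (Fin 4) (Fin 4) K) : K :=
  N 2 2 * N' 3 3 * (N 0 0 * N' 1 1 + N 1 1 * N' 0 0 - 2 * N 0 1 * N' 0 1)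
    - N' 3 3 * (N 0 2 ^ 2 * N' 1 1 + N 1 2 ^ 2 * N' 0 0 - 2 * N 0 2 * N 1 2 * N' 0 1)
    - N 2 2 * (N' 0 3 ^ 2 * N 1 1 + N' 1 3 ^ 2 * N 0 0 - 2 * N' 0 3 * N' 1 3 * N 0 1)
    + (N 0 2 * N' 1 3 - N 1 2 * N' 0 3) ^ 2

theorem det_pencil (N N' : Matrix (Fin 4) (Fin 4) K) (hN : N.IsSymm) (hN' : N'.IsSymm)
    (h3 : ∀ i, N i 3 = 0) (h2 : ∀ i, N' i 2 = 0) (α β : K) :
    (α • N + β • N').det = α * β * (d3 (N 0 0) (N 0 1) (N 1 1) (N 0 2) (N 1 2) (N 2 2) *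
      N' 3 3 * α ^ 2 + mid N N' * (α * β) +
      d3 (N' 0 0) (N' 0 1) (N' 1 1) (N' 0 3) (N' 1 3) (N' 3 3) * N 2 2 * β ^ 2) := by
  have h10 := hN.apply 0 1
  have h20 := hN.apply 0 2
  have h30 : N 3 0 = 0 := (hN.apply 0 3).trans (h3 0)
  have h21 := hN.apply 1 2
  have h31 : N 3 1 = 0 := (hN.apply 1 3).trans (h3 1)
  have h32 : N 3 2 = 0 := (hN.apply 2 3).trans (h3 2)
  have k10 := hN'.apply 0 1
  have k20 : N' 2 0 = 0 := (hN'.apply 0 2).trans (h2 0)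
  have k30 := hN'.apply 0 3
  have k21 : N' 2 1 = 0 := (hN'.apply 1 2).trans (h2 1)
  have k31 := hN'.apply 1 3
  have k23 : N' 2 3 = 0 := (hN'.apply 3 2).trans (h2 3)
  have e : α • N + β • N' = !![α * N 0 0 + β * N' 0 0, α * N 0 1 + β * N' 0 1, α * N 0 2, β * N' 0 3;
      α * N 0 1 + β * N' 0 1, α * N 1 1 + β * N' 1 1, α * N 1 2, β * N' 1 3;
      α * N 0 2, α * N 1 2, α * N 2 2, 0;
      β * N' 0 3, β * N' 1 3, 0, β * N' 3 3] := by
    ext i j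
    rw [Matrix.add_apply, Matrix.smul_apply, Matrix.smul_apply, smul_eq_mul, smul_eq_mul]
    fin_cases i <;> fin_cases j <;>
      simp [h10, h20, h30, h21, h31, h32, k10, k20, k30, k21, k31, k23, h3, h2]
  rw [e]
  simp [Matrix.det_succ_row_zero, Fin.sum_univ_succ, Fin.succAbove, d3, mid]
  ring

end Pool.Agent.N770
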