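import Pool.Agent.N770.Quad4

/-!
# At most four progressions
-/

set_option autoImplicit false

namespace Pool.Agent.N770

open Module Pool.Agent.W256

variable {K L : Type*} [Field K] [Field L] [Algebra K L]

/-- rational functions of degree one over the plane `⟨1, v⟩` -/
theorem rational_third {T : Submodule K L} (h1 : (1 : L) ∈ T) {v u : L} (hv : v ∈ T) (hu : u ∈ T)
    (hvc : ∀ c : K, v ≠ algebraMap K L c) (huv : u ∉ Submodule.span K ({1, v} : Set L))
    (n0 n1 n2 m0 m1 : K) (hm : ¬ (m0 = 0 ∧ m1 = 0))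
    (h : (algebraMap K L n0 + algebraMap K L n1 * v + algebraMap K L n2 * (v * v)) +
      (algebraMap K L m0 + algebraMap K L m1 * v) * u = 0) :
    v * v ∈ T ∨ ∃ r : K, (v - algebraMap K L r)⁻¹ ∈ T := by
  by_cases hm1 : m1 = 0
  · left
    have hm0 : m0 ≠ 0 := fun h0 => hm ⟨h0, hm1⟩
    have hm0' : algebraMap K L m0 ≠ 0 := by simpa using hm0
    rw [hm1, map_zero, zero_mul, add_zero] at h
    by_cases hn2 : n2 = 0
    · exfalso
      apply huv
      rw [Submodule.mem_span_pair]
      refine ⟨-(m0⁻¹ * n0), -(m0⁻¹ * n1), ?_⟩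
      rw [hn2, map_zero, zero_mul, add_zero] at h
      simp only [Algebra.smul_def, map_neg, map_mul, map_inv₀]
      field_simp
      linear_combination -h
    · have hn2' : algebraMap K L n2 ≠ 0 := by simpa using hn2
      have h3 : v * v = (-(n2⁻¹ * n0)) • (1 : L) + (-(n2⁻¹ * n1)) • v + (-(n2⁻¹ * m0)) • u := by
        simp only [Algebra.smul_def, map_neg, map_mul, map_inv₀]
        field_simp
        linear_combination h
      rw [h3]
      exact add_mem (add_mem (T.smul_mem _ h1) (T.smul_mem _ hv)) (T.smul_mem _ hu)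
  · right
    have hm1' : algebraMap K L m1 ≠ 0 := by simpa using hm1
    set r : K := -(m1⁻¹ * m0) with hr
    have hr' : algebraMap K L m0 = -(algebraMap K L m1 * algebraMap K L r) := by
      rw [hr, map_neg, map_mul, map_inv₀]
      field_simp
    have hvr : v - algebraMap K L r ≠ 0 := sub_ne_zero.mpr (hvc r)
    set κ : K := n0 + n1 * r + n2 * r ^ 2 with hκ
    have h4 : (v - algebraMap K L r) * (algebraMap K L m1 * u + algebraMap K L n2 * v +
        algebraMap K L (n2 * r + n1)) + algebraMap K L κ = 0 := by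
      rw [hκ]
      simp only [map_add, map_mul, map_pow]
      rw [hr'] at h
      linear_combination h
    by_cases hκ0 : κ = 0
    · exfalso
      rw [hκ0, map_zero, add_zero] at h4
      have h5 := (mul_eq_zero.mp h4).resolve_left hvr
      apply huv
      rw [Submodule.mem_span_pair]
      refine ⟨-(m1⁻¹ * (n2 * r + n1)), -(m1⁻¹ * n2), ?_⟩
      simp only [Algebra.smul_def, map_neg, map_mul, map_inv₀]
      field_simp
      linear_combination -h5
    · refine ⟨r, ?_⟩
      have hκ' : algebraMap K L κ ≠ 0 := by simpa using hκ0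
      have h5 : (v - algebraMap K L r)⁻¹ = (-(κ⁻¹ * m1)) • u + (-(κ⁻¹ * n2)) • v +
          (-(κ⁻¹ * (n2 * r + n1))) • (1 : L) := by
        refine inv_eq_of_mul_eq_one_right ?_
        have h6 : (v - algebraMap K L r) * ((-(κ⁻¹ * m1)) • u + (-(κ⁻¹ * n2)) • v +
            (-(κ⁻¹ * (n2 * r + n1))) • (1 : L)) = (algebraMap K L κ)⁻¹ *
            (-((v - algebraMap K L r) * (algebraMap K L m1 * u + algebraMap K L n2 * v +
              algebraMap K L (n2 * r + n1)))) := by
          simp only [Algebra.smul_def, map_neg, map_mul, map_inv₀]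
          ring
        rw [h6]
        have h7 : -((v - algebraMap K L r) * (algebraMap K L m1 * u + algebraMap K L n2 * v +
            algebraMap K L (n2 * r + n1))) = algebraMap K L κ := by
          linear_combination -h4
        rw [h7, inv_mul_cancel₀ hκ']
      rw [h5]
      exact add_mem (add_mem (T.smul_mem _ hu) (T.smul_mem _ hv)) (T.smul_mem _ h1)

namespace IsProg

variable {e : Fin 4 → L} {S : Submodule K L} {a b c : Fin 4 → K}

/-- coordinates of the elements -/
theorem exists_comb (he : LinearIndependent K e) (h : IsProg e S a b c) {w : Fin 4 → K}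
    (hw : co e w ∈ S) : ∃ α β γ : K, w = α • a + β • b + γ • c := by
  rw [h.span, mem_three_iff] at hw
  obtain ⟨α, β, γ, h1⟩ := hw
  refine ⟨α, β, γ, co_inj he ?_⟩
  rw [co_add, co_add, co_smul, co_smul, co_smul, h1]

theorem dot_eq_zero (he : LinearIndependent K e) (h2 : (2 : K) ≠ 0) (h : IsProg e S a b c)
    {ξ : Fin 4 → K} (hξ : (nmat a b c).mulVec ξ = 0) {i : Fin 4} (hi : e i ∈ S) : ξ i = 0 := by
  obtain ⟨h3, h4, h5⟩ := h.dot_of_mulVec h2 ξ hξ
  obtain ⟨α, β, γ, h1⟩ := h.exists_comb he (w := Pi.single i 1) (by rwa [co_single])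
  have h6 : (Pi.single i (1 : K)) ⬝ᵥ ξ = 0 := by
    rw [h1, add_dotProduct, add_dotProduct, smul_dotProduct, smul_dotProduct, smul_dotProduct,
      h3, h4, h5]
    simp
  rwa [single_dotProduct, one_mul] at h6

/-- zero coordinates -/
theorem coord_zero (he : LinearIndependent K e) {m : Fin 4} (i j k : Fin 4) (hi : i ≠ m)
    (hj : j ≠ m) (hk : k ≠ m) (h : IsProg e S a b c)
    (hS : S ≤ Submodule.span K {e i, e j, e k}) : a m = 0 ∧ b m = 0 ∧ c m = 0 := by
  have key : ∀ w : Fin 4 → K, co e w ∈ S → w m = 0 := by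
    intro w hw
    obtain ⟨α, β, γ, h1⟩ := mem_three_iff.mp (hS hw)
    have h2 : w = α • Pi.single i 1 + β • Pi.single j 1 + γ • Pi.single k 1 := by
      apply co_inj he
      rw [co_add, co_add, co_smul, co_smul, co_smul, co_single, co_single, co_single, h1]
    rw [h2]
    simp [Pi.single_eq_of_ne hi.symm, Pi.single_eq_of_ne hj.symm, Pi.single_eq_of_ne hk.symm]
  refine ⟨key a ?_, key b ?_, key c ?_⟩
  · rw [h.span]; exact Submodule.subset_span (Or.inl rfl)
  · rw [h.span]; exact Submodule.subset_span (Or.inr (Or.inl rfl))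
  · rw [h.span]; exact Submodule.subset_span (Or.inr (Or.inr rfl))

end IsProg

end Pool.Agent.N770
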