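import Pool.Agent.N770.Quad5

/-!
# At most four progressions: the main theorem
-/

set_option autoImplicit false

namespace Pool.Agent.N770

open Module Pool.Agent.W256

variable {K L : Type*} [Field K] [Field L] [Algebra K L]

theorem det_three (p q r s t u : K) : (!![p, q, s; q, r, t; s, t, u]).det = d3 p q r s t u := by
  rw [Matrix.det_fin_three]
  simp [d3]
  ring

theorem d3_ne_zero {e : Fin 4 → L} (he : LinearIndependent K e) (h2 : (2 : K) ≠ 0)
    {S : Submodule K L} {a b c : Fin 4 → K} (h : IsProg e S a b c)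
    (h0 : e 0 ∈ S) (h1 : e 1 ∈ S) (h2' : e 2 ∈ S) (h3 : ∀ i, nmat a b c i 3 = 0) :
    d3 (nmat a b c 0 0) (nmat a b c 0 1) (nmat a b c 1 1) (nmat a b c 0 2) (nmat a b c 1 2)
      (nmat a b c 2 2) ≠ 0 := by
  set N := nmat a b c with hN
  have hs := nmat_symm a b c
  rw [← hN] at hs
  have h10 := hs.apply 0 1
  have h20 := hs.apply 0 2
  have h21 := hs.apply 1 2
  have h30 : N 3 0 = 0 := (hs.apply 0 3).trans (h3 0)
  have h31 : N 3 1 = 0 := (hs.apply 1 3).trans (h3 1)
  have h32 : N 3 2 = 0 := (hs.apply 2 3).trans (h3 2)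
  intro hd
  rw [← det_three] at hd
  obtain ⟨η, hη0, hη⟩ := Matrix.exists_mulVec_eq_zero_iff.mpr hd
  have e0 : N 0 0 * η 0 + N 0 1 * η 1 + N 0 2 * η 2 = 0 := by
    have := congrFun hη 0
    simpa [Matrix.mulVec, dotProduct, Fin.sum_univ_three] using this
  have e1 : N 0 1 * η 0 + N 1 1 * η 1 + N 1 2 * η 2 = 0 := by
    have := congrFun hη 1
    simpa [Matrix.mulVec, dotProduct, Fin.sum_univ_three] using this
  have e2 : N 0 2 * η 0 + N 1 2 * η 1 + N 2 2 * η 2 = 0 := by
    have := congrFun hη 2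
    simpa [Matrix.mulVec, dotProduct, Fin.sum_univ_three] using this
  have hξ : N.mulVec ![η 0, η 1, η 2, 0] = 0 := by
    funext i
    fin_cases i <;> simp [Matrix.mulVec, dotProduct, Fin.sum_univ_four]
    · exact e0
    · rw [h10]; exact e1
    · rw [h20, h21]; exact e2
    · rw [h30, h31, h32]; ring
  have k0 := h.dot_eq_zero he h2 hξ h0
  have k1 := h.dot_eq_zero he h2 hξ h1
  have k2 := h.dot_eq_zero he h2 hξ h2'
  apply hη0
  funext i
  fin_cases i
  · exact k0
  · exact k1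
  · exact k2

theorem d3_ne_zero' {e : Fin 4 → L} (he : LinearIndependent K e) (h2 : (2 : K) ≠ 0)
    {S : Submodule K L} {a b c : Fin 4 → K} (h : IsProg e S a b c)
    (h0 : e 0 ∈ S) (h1 : e 1 ∈ S) (h2' : e 3 ∈ S) (h3 : ∀ i, nmat a b c i 2 = 0) :
    d3 (nmat a b c 0 0) (nmat a b c 0 1) (nmat a b c 1 1) (nmat a b c 0 3) (nmat a b c 1 3)
      (nmat a b c 3 3) ≠ 0 := by
  set N := nmat a b c with hN
  have hs := nmat_symm a b c
  rw [← hN] at hs
  have h10 := hs.apply 0 1
  have h20 := hs.apply 0 3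
  have h21 := hs.apply 1 3
  have h30 : N 2 0 = 0 := (hs.apply 0 2).trans (h3 0)
  have h31 : N 2 1 = 0 := (hs.apply 1 2).trans (h3 1)
  have h32 : N 2 3 = 0 := (hs.apply 3 2).trans (h3 3)
  intro hd
  rw [← det_three] at hd
  obtain ⟨η, hη0, hη⟩ := Matrix.exists_mulVec_eq_zero_iff.mpr hd
  have e0 : N 0 0 * η 0 + N 0 1 * η 1 + N 0 3 * η 2 = 0 := by
    have := congrFun hη 0
    simpa [Matrix.mulVec, dotProduct, Fin.sum_univ_three] using this
  have e1 : N 0 1 * η 0 + N 1 1 * η 1 + N 1 3 * η 2 = 0 := by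
    have := congrFun hη 1
    simpa [Matrix.mulVec, dotProduct, Fin.sum_univ_three] using this
  have e2 : N 0 3 * η 0 + N 1 3 * η 1 + N 3 3 * η 2 = 0 := by
    have := congrFun hη 2
    simpa [Matrix.mulVec, dotProduct, Fin.sum_univ_three] using this
  have hξ : N.mulVec ![η 0, η 1, 0, η 2] = 0 := by
    funext i
    fin_cases i <;> simp [Matrix.mulVec, dotProduct, Fin.sum_univ_four]
    · exact e0
    · rw [h10]; exact e1
    · rw [h30, h31, h32]; ring
    · rw [h20, h21]; exact e2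
  have k0 := h.dot_eq_zero he h2 hξ h0
  have k1 := h.dot_eq_zero he h2 hξ h1
  have k2 := h.dot_eq_zero he h2 hξ h2'
  apply hη0
  funext i
  fin_cases i
  · exact k0
  · exact k1
  · exact k2

/-- if the coefficient of the square of the third element is zero, then this element is a rational
function of the quotient of the first two -/
theorem third_rational (h2 : (2 : K) ≠ 0) {f g u : L} (hf : f ≠ 0)
    (hli : ∀ α β γ : K, α • f + β • g + γ • u = 0 → α = 0 ∧ β = 0 ∧ γ = 0)
    {S : Submodule K L} (hfS : f ∈ S) (hgS : g ∈ S) (huS : u ∈ S)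
    (n00 n01 n11 n02 n12 : K) (hn : ¬ (n02 = 0 ∧ n12 = 0))
    (h : n00 • (f * f) + (2 * n01) • (f * g) + n11 • (g * g) + (2 * n02) • (f * u) +
      (2 * n12) • (g * u) = 0) :
    (f⁻¹ * g) * (f⁻¹ * g) ∈ scale f⁻¹ S ∨
      ∃ r : K, (f⁻¹ * g - algebraMap K L r)⁻¹ ∈ scale f⁻¹ S := by
  have hf' : f⁻¹ ≠ 0 := inv_ne_zero hf
  refine rational_third (T := scale f⁻¹ S) ?_ (mul_mem_scale hgS) (mul_mem_scale huS) ?_ ?_
    n00 (2 * n01) n11 (2 * n02) (2 * n12) ?_ ?_
  · have := mul_mem_scale (c := f⁻¹) hfS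
    rwa [inv_mul_cancel₀ hf] at this
  · intro c hc
    have := (hli c (-1) 0 (by
      rw [Algebra.smul_def, ← hc, neg_smul, one_smul, zero_smul]
      field_simp
      ring)).2.1
    simp at this
  · intro hmem
    obtain ⟨α, β, hαβ⟩ := Submodule.mem_span_pair.mp hmem
    have := (hli α β (-1) (by
      have h3 : f * (α • (1 : L) + β • (f⁻¹ * g)) = f * (f⁻¹ * u) := by rw [hαβ]
      simp only [Algebra.smul_def] at h3 ⊢
      field_simp at h3
      rw [map_neg, map_one]
      linear_combination h3)).2.2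
    simp at this
  · rintro ⟨h3, h4⟩
    exact hn ⟨(mul_eq_zero.mp h3).resolve_left h2, (mul_eq_zero.mp h4).resolve_left h2⟩
  · simp only [Algebra.smul_def] at h
    have h3 : f * f * (algebraMap K L n00 + algebraMap K L (2 * n01) * (f⁻¹ * g) +
        algebraMap K L n11 * (f⁻¹ * g * (f⁻¹ * g)) + (algebraMap K L (2 * n02) +
        algebraMap K L (2 * n12) * (f⁻¹ * g)) * (f⁻¹ * u)) = 0 := by
      rw [← h]
      field_simp
      ring
    exact (mul_eq_zero.mp h3).resolve_left (mul_ne_zero hf hf)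

end Pool.Agent.N770
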