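import Pool.Agent.N770.Quad6

/-!
# At most four progressions: end of the proof
-/

set_option autoImplicit false

namespace Pool.Agent.N770

open Module Pool.Agent.W256

variable {K L : Type*} [Field K] [Field L] [Algebra K L]

/-- the first two spaces -/
theorem not_both [IsAlgClosed K] (h2 : (2 : K) ≠ 0) {e : Fin 4 → L} (he : LinearIndependent K e)
    {V : Submodule K L} (hS : SixExp K V) {S₀ S₁ : Submodule K L} (hV₀ : S₀ ≤ V) (hV₁ : S₁ ≤ V)
    {a b c a' b' c' : Fin 4 → K} (h : IsProg e S₀ a b c) (h' : IsProg e S₁ a' b' c')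
    (hS₀ : S₀ = Submodule.span K {e 0, e 1, e 2}) (hS₁ : S₁ = Submodule.span K {e 0, e 1, e 3})
    (h22 : nmat a b c 2 2 = 0) (h33 : nmat a' b' c' 3 3 = 0) : False := by
  have hc3 := h.coord_zero he (m := 3) 0 1 2 (by decide) (by decide) (by decide) hS₀.le
  have hc2 := h'.coord_zero he (m := 2) 0 1 3 (by decide) (by decide) (by decide) hS₁.le
  set N := nmat a b c with hN
  set N' := nmat a' b' c' with hN'
  have h3 : ∀ i, N i 3 = 0 := fun i => by
    rw [hN, nmat_apply, hc3.1, hc3.2.1, hc3.2.2]; ring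
  have h3' : ∀ i, N' i 2 = 0 := fun i => by
    rw [hN', nmat_apply, hc2.1, hc2.2.1, hc2.2.2]; ring
  have hs := nmat_symm a b c
  have hs' := nmat_symm a' b' c'
  rw [← hN] at hs
  rw [← hN'] at hs'
  have m0 : e 0 ∈ S₀ := by rw [hS₀]; exact Submodule.subset_span (Or.inl rfl)
  have m1 : e 1 ∈ S₀ := by rw [hS₀]; exact Submodule.subset_span (Or.inr (Or.inl rfl))
  have m2 : e 2 ∈ S₀ := by rw [hS₀]; exact Submodule.subset_span (Or.inr (Or.inr rfl))
  have m0' : e 0 ∈ S₁ := by rw [hS₁]; exact Submodule.subset_span (Or.inl rfl)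
  have m1' : e 1 ∈ S₁ := by rw [hS₁]; exact Submodule.subset_span (Or.inr (Or.inl rfl))
  have m3' : e 3 ∈ S₁ := by rw [hS₁]; exact Submodule.subset_span (Or.inr (Or.inr rfl))
  have hli0 : ∀ α β γ : K, α • e 0 + β • e 1 + γ • e 2 = 0 → α = 0 ∧ β = 0 ∧ γ = 0 := by
    intro α β γ h0
    have h4 := Fintype.linearIndependent_iff.mp he ![α, β, γ, 0] (by
      rw [Fin.sum_univ_four]
      simpa using h0)
    exact ⟨h4 0, h4 1, h4 2⟩
  have hli1 : ∀ α β γ : K, α • e 0 + β • e 1 + γ • e 3 = 0 → α = 0 ∧ β = 0 ∧ γ = 0 := by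
    intro α β γ h0
    have h4 := Fintype.linearIndependent_iff.mp he ![α, β, 0, γ] (by
      rw [Fin.sum_univ_four]
      simpa using h0)
    exact ⟨h4 0, h4 1, h4 3⟩
  have hf : e 0 ≠ 0 := he.ne_zero 0
  have hf' : (e 0)⁻¹ ≠ 0 := inv_ne_zero hf
  set v : L := (e 0)⁻¹ * e 1 with hv
  have hvc : ∀ r : K, v ≠ algebraMap K L r := by
    intro r hr
    have := (hli0 r (-1) 0 (by
      rw [Algebra.smul_def, ← hr, neg_smul, one_smul, zero_smul, hv]
      field_simp
      ring)).2.1
    simp at this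
  -- the two relations
  have hA : v * v ∈ scale (e 0)⁻¹ S₀ ∨ ∃ r : K, (v - algebraMap K L r)⁻¹ ∈ scale (e 0)⁻¹ S₀ := by
    refine third_rational h2 hf hli0 m0 m1 m2 (N 0 0) (N 0 1) (N 1 1) (N 0 2) (N 1 2) ?_ ?_
    · rintro ⟨h4, h5⟩
      have hξ : N.mulVec (Pi.single 2 1) = 0 := by
        funext i
        rw [Matrix.mulVec_single_one]
        change N i 2 = 0
        fin_cases i
        · exact h4
        · exact h5
        · exact h22
        · exact (hs.apply 2 3).trans (h3 2)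
      have := h.dot_eq_zero he h2 hξ m2
      simp at this
    · have h4 := h.psi
      rw [← hN, psi_eq e N hs] at h4
      simp only [Fin.sum_univ_succ, Fin.sum_univ_zero, cvec, mons] at h4
      simp [h22, h3] at h4
      rw [← h4]
      abel
  have hB : v * v ∈ scale (e 0)⁻¹ S₁ ∨ ∃ r : K, (v - algebraMap K L r)⁻¹ ∈ scale (e 0)⁻¹ S₁ := by
    refine third_rational h2 hf hli1 m0' m1' m3' (N' 0 0) (N' 0 1) (N' 1 1) (N' 0 3) (N' 1 3)
      ?_ ?_
    · rintro ⟨h4, h5⟩
      have hξ : N'.mulVec (Pi.single 3 1) = 0 := by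
        funext i
        rw [Matrix.mulVec_single_one]
        change N' i 3 = 0
        fin_cases i
        · exact h4
        · exact h5
        · exact (hs'.apply 3 2).trans (h3' 3)
        · exact h33
      have := h'.dot_eq_zero he h2 hξ m3'
      simp at this
    · have h4 := h'.psi
      rw [← hN', psi_eq e N' hs'] at h4
      simp only [Fin.sum_univ_succ, Fin.sum_univ_zero, cvec, mons] at h4
      have h3'' : N' 2 3 = 0 := (hs'.apply 3 2).trans (h3' 3)
      simp [h33, h3', h3''] at h4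
      rw [← h4]
      abel
  -- the intersection
  have hinter : ∀ z : L, z ∈ scale (e 0)⁻¹ S₀ → z ∈ scale (e 0)⁻¹ S₁ →
      ∃ α β : K, z = α • (1 : L) + β • v := by
    intro z h4 h5
    rw [mem_scale hf', inv_inv, hS₀, mem_three_iff] at h4
    rw [mem_scale hf', inv_inv, hS₁, mem_three_iff] at h5
    obtain ⟨α, β, γ, h4⟩ := h4
    obtain ⟨α', β', γ', h5⟩ := h5
    have h6 := Fintype.linearIndependent_iff.mp he ![α - α', β - β', γ, -γ'] (by
      rw [Fin.sum_univ_four]
      change (α - α') • e 0 + (β - β') • e 1 + γ • e 2 + (-γ') • e 3 = 0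
      rw [sub_smul, sub_smul, neg_smul]
      have h7 : α • e 0 + β • e 1 + γ • e 2 - (α' • e 0 + β' • e 1 + γ' • e 3) = 0 := by
        rw [← h4, ← h5, sub_self]
      rw [← h7]
      abel) 2
    have hγ : γ = 0 := h6
    rw [hγ, zero_smul, add_zero] at h4
    refine ⟨α, β, ?_⟩
    have h7 : z = (e 0)⁻¹ * (e 0 * z) := by
      rw [inv_mul_cancel_left₀ hf]
    rw [h7, h4, hv]
    simp only [Algebra.smul_def]
    field_simp
  have hSV : SixExp K (scale (e 0)⁻¹ V) := hS.scale hf'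
  have hmono : ∀ {S : Submodule K L}, S ≤ V → scale (e 0)⁻¹ S ≤ scale (e 0)⁻¹ V :=
    fun hle => Submodule.map_mono hle
  have h1V : (1 : L) ∈ scale (e 0)⁻¹ V := by
    have := mul_mem_scale (c := (e 0)⁻¹) (hV₀ m0)
    rwa [inv_mul_cancel₀ hf] at this
  have hvV : v ∈ scale (e 0)⁻¹ V := mul_mem_scale (hV₀ m1)
  rcases hA with hA | ⟨r, hA⟩ <;> rcases hB with hB | ⟨r', hB⟩
  · obtain ⟨α, β, h4⟩ := hinter _ hA hB
    have h5 := (li_of_nonconst v hvc α β (-1) (by
      rw [← h4, neg_smul, one_smul]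
      ring)).2.2
    simp at h5
  · exact no_sq_inv _ hSV h1V hvc hvV (hmono hV₀ hA) r' (hmono hV₁ hB)
  · exact no_sq_inv _ hSV h1V hvc hvV (hmono hV₁ hB) r (hmono hV₀ hA)
  · by_cases hr : r = r'
    · rw [← hr] at hB
      obtain ⟨α, β, h4⟩ := hinter _ hA hB
      have hvr : v - algebraMap K L r ≠ 0 := sub_ne_zero.mpr (hvc r)
      have h5 := li_of_nonconst v hvc (-1 - α * r) (α - β * r) β (by
        have h6 : (v - algebraMap K L r) * (α • (1 : L) + β • v) = 1 := by
          rw [← h4, mul_inv_cancel₀ hvr]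
        simp only [Algebra.smul_def, map_sub, map_neg, map_mul, map_one] at h6 ⊢
        linear_combination h6)
      have h7 : α = 0 := by
        have := h5.2.1
        rw [h5.2.2, zero_mul, sub_zero] at this
        exact this
      have h8 := h5.1
      rw [h7] at h8
      simp at h8
    · exact no_inv_inv _ hSV h1V hvc hvV r r' hr (hmono hV₀ hA) (hmono hV₁ hB)

/-- **At most four progressions.** -/
theorem no_five [IsAlgClosed K] (h2 : (2 : K) ≠ 0) (V : Submodule K L) [FiniteDimensional K V]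
    (hS : SixExp K V) (hV4 : finrank K V ≤ 4) (S : Fin 5 → Submodule K L) (hSV : ∀ i, S i ≤ V)
    (hprog : ∀ i, ∃ x t : L, x ≠ 0 ∧ (∀ k : K, t ≠ algebraMap K L k) ∧
      S i = Submodule.span K {x, x * t, x * (t * t)})
    (hinj : Function.Injective S) : False := by
  classical
  have h3 : ∀ i, finrank K (S i) = 3 := by
    intro i
    obtain ⟨x, t, hx, ht, h⟩ := hprog i
    rw [h]
    exact finrank_three hx ht
  have hfd : ∀ i, FiniteDimensional K (S i) := fun i =>
    FiniteDimensional.of_finrank_pos (by rw [h3 i]; norm_num)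
  have h01 : S 0 ≠ S 1 := fun h => absurd (hinj h) (by decide)
  -- the first two spaces
  have hsup3 : 3 < finrank K (S 0 ⊔ S 1 : Submodule K L) := by
    by_contra hcon
    push Not at hcon
    have h4 : S 0 = S 0 ⊔ S 1 := Submodule.eq_of_le_of_finrank_eq le_sup_left (by
      apply le_antisymm (Submodule.finrank_mono le_sup_left)
      rw [h3 0]
      exact hcon)
    have h5 : S 1 = S 0 ⊔ S 1 := Submodule.eq_of_le_of_finrank_eq le_sup_right (by
      apply le_antisymm (Submodule.finrank_mono le_sup_right)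
      rw [h3 1]
      exact hcon)
    exact h01 (h4.trans h5.symm)
  have hsupV : S 0 ⊔ S 1 ≤ V := sup_le (hSV 0) (hSV 1)
  have hsup4 : finrank K (S 0 ⊔ S 1 : Submodule K L) = 4 := by
    have := (Submodule.finrank_mono hsupV)
    omega
  have hV4' : finrank K V = 4 := by
    have := (Submodule.finrank_mono hsupV)
    omega
  have hinf : finrank K (S 0 ⊓ S 1 : Submodule K L) = 2 := by
    have := Submodule.finrank_sup_add_finrank_inf_eq (S 0) (S 1)
    rw [h3 0, h3 1, hsup4] at this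
    omega
  let B := finBasisOfFinrankEq K (S 0 ⊓ S 1 : Submodule K L) hinf
  set f : L := ((B 0 : (S 0 ⊓ S 1 : Submodule K L)) : L) with hf
  set g : L := ((B 1 : (S 0 ⊓ S 1 : Submodule K L)) : L) with hg
  have hfg : ∀ s t : K, s • f + t • g = 0 → s = 0 ∧ t = 0 := by
    intro s t hst
    have h4 : s • B 0 + t • B 1 = 0 := by
      apply Subtype.ext
      exact hst
    have h5 := Fintype.linearIndependent_iff.mp B.linearIndependent ![s, t] (by
      rw [Fin.sum_univ_two]
      exact h4)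
    exact ⟨h5 0, h5 1⟩
  have hfS : f ∈ S 0 ∧ f ∈ S 1 := (B 0).2
  have hgS : g ∈ S 0 ∧ g ∈ S 1 := (B 1).2
  obtain ⟨u, hu0, hu1⟩ : ∃ u ∈ S 0, u ∉ S 1 := by
    by_contra hcon
    push Not at hcon
    have h4 : S 0 ≤ S 1 := fun u hu => hcon u hu
    exact h01 (Submodule.eq_of_le_of_finrank_eq h4 (by rw [h3, h3]))
  obtain ⟨w, hw1, hw0⟩ : ∃ w ∈ S 1, w ∉ S 0 := by
    by_contra hcon
    push Not at hcon
    have h4 : S 1 ≤ S 0 := fun u hu => hcon u hu
    exact h01 (Submodule.eq_of_le_of_finrank_eq h4 (by rw [h3, h3])).symm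
  let e : Fin 4 → L := ![f, g, u, w]
  have hcombo : ∀ α β γ δ : K, α • f + β • g + γ • u + δ • w = 0 →
      α = 0 ∧ β = 0 ∧ γ = 0 ∧ δ = 0 := by
    intro α β γ δ h4
    have hδ : δ = 0 := by
      by_contra hδ
      apply hw0
      have h5 : w = (-(δ⁻¹ * α)) • f + (-(δ⁻¹ * β)) • g + (-(δ⁻¹ * γ)) • u := by
        have h6 : (algebraMap K L δ) ≠ 0 := by simpa using hδ
        simp only [Algebra.smul_def, map_neg, map_mul, map_inv₀] at h4 ⊢
        field_simp
        linear_combination h4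
      rw [h5]
      exact add_mem (add_mem ((S 0).smul_mem _ hfS.1) ((S 0).smul_mem _ hgS.1))
        ((S 0).smul_mem _ hu0)
    rw [hδ, zero_smul, add_zero] at h4
    have hγ : γ = 0 := by
      by_contra hγ
      apply hu1
      have h5 : u = (-(γ⁻¹ * α)) • f + (-(γ⁻¹ * β)) • g := by
        have h6 : (algebraMap K L γ) ≠ 0 := by simpa using hγ
        simp only [Algebra.smul_def, map_neg, map_mul, map_inv₀] at h4 ⊢
        field_simp
        linear_combination h4
      rw [h5]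
      exact add_mem ((S 1).smul_mem _ hfS.2) ((S 1).smul_mem _ hgS.2)
    rw [hγ, zero_smul, add_zero] at h4
    obtain ⟨h5, h6⟩ := hfg _ _ h4
    exact ⟨h5, h6, hγ, hδ⟩
  have he : LinearIndependent K e := by
    rw [Fintype.linearIndependent_iff]
    intro r hr
    rw [Fin.sum_univ_four] at hr
    obtain ⟨h4, h5, h6, h7⟩ := hcombo (r 0) (r 1) (r 2) (r 3) hr
    intro i
    fin_cases i
    · exact h4
    · exact h5
    · exact h6
    · exact h7
  have hspan : Submodule.span K (Set.range e) = V := by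
    apply Submodule.eq_of_le_of_finrank_eq
    · rw [Submodule.span_le]
      rintro x ⟨i, rfl⟩
      fin_cases i
      · exact hSV 0 hfS.1
      · exact hSV 0 hgS.1
      · exact hSV 0 hu0
      · exact hSV 1 hw1
    · rw [finrank_span_eq_card he, Fintype.card_fin, hV4']
  have hS0 : S 0 = Submodule.span K {e 0, e 1, e 2} :=
    span_eq_of_three (h3 0) f g u hfS.1 hgS.1 hu0 (fun α β γ h4 => by
      obtain ⟨h5, h6, h7, -⟩ := hcombo α β γ 0 (by rw [zero_smul, add_zero]; exact h4)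
      exact ⟨h5, h6, h7⟩)
  have hS1 : S 1 = Submodule.span K {e 0, e 1, e 3} :=
    span_eq_of_three (h3 1) f g w hfS.2 hgS.2 hw1 (fun α β γ h4 => by
      obtain ⟨h5, h6, -, h7⟩ := hcombo α β 0 γ (by rw [zero_smul, add_zero]; exact h4)
      exact ⟨h5, h6, h7⟩)
  -- coordinates
  have hex : ∀ i, ∃ a b c : Fin 4 → K, IsProg e (S i) a b c := by
    intro i
    obtain ⟨x, t, hx, ht, h⟩ := hprog i
    have hm : ∀ z ∈ S i, z ∈ Submodule.span K (Set.range e) := fun z hz => by
      rw [hspan]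
      exact hSV i hz
    obtain ⟨a, ha⟩ := exists_co (hm x (by rw [h]; exact Submodule.subset_span (Or.inl rfl)))
    obtain ⟨b, hb⟩ := exists_co (hm (x * t) (by
      rw [h]; exact Submodule.subset_span (Or.inr (Or.inl rfl))))
    obtain ⟨c, hc⟩ := exists_co (hm (x * (t * t)) (by
      rw [h]; exact Submodule.subset_span (Or.inr (Or.inr rfl))))
    refine ⟨a, b, c, ?_, ?_, ?_⟩
    · rw [h, ← ha, ← hb, ← hc]
    · intro α β γ h4
      rw [← ha, ← hb, ← hc] at h4
      exact three_li hx ht α β γ h4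
    · rw [← ha, ← hb, ← hc]
      ring
  choose a b c hP using hex
  have hc3 := (hP 0).coord_zero he (m := 3) 0 1 2 (by decide) (by decide) (by decide) hS0.le
  have hc2 := (hP 1).coord_zero he (m := 2) 0 1 3 (by decide) (by decide) (by decide) hS1.le
  let N : Fin 5 → Matrix (Fin 4) (Fin 4) K := fun i => nmat (a i) (b i) (c i)
  have h30 : ∀ i, N 0 i 3 = 0 := fun i => by
    change nmat (a 0) (b 0) (c 0) i 3 = 0
    rw [nmat_apply, hc3.1, hc3.2.1, hc3.2.2]; ring
  have h21 : ∀ i, N 1 i 2 = 0 := fun i => by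
    change nmat (a 1) (b 1) (c 1) i 2 = 0
    rw [nmat_apply, hc2.1, hc2.2.1, hc2.2.2]; ring
  have m0 : e 0 ∈ S 0 := hfS.1
  have m1 : e 1 ∈ S 0 := hgS.1
  have m2 : e 2 ∈ S 0 := hu0
  have m0' : e 0 ∈ S 1 := hfS.2
  have m1' : e 1 ∈ S 1 := hgS.2
  have m3' : e 3 ∈ S 1 := hw1
  have hd0 := d3_ne_zero he h2 (hP 0) m0 m1 m2 h30
  have hd1 := d3_ne_zero' he h2 (hP 1) m0' m1' m3' h21
  have hne : ∀ i j, i ≠ j → ∀ α β : K, ¬ (α = 0 ∧ β = 0) → α • N i ≠ β • N j := by
    intro i j hij α β hαβ hN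
    exact hij (hinj ((hP i).eq_of_prop h2 (hP j) α β hαβ hN))
  -- the other spaces
  have key : ∀ i : Fin 5, i ≠ 0 → i ≠ 1 → ∃ r s : K, s ≠ 0 ∧ s • N i = N 0 + r • N 1 ∧
      (d3 (N 0 0 0) (N 0 0 1) (N 0 1 1) (N 0 0 2) (N 0 1 2) (N 0 2 2) * N 1 3 3) +
        mid (N 0) (N 1) * r +
      (d3 (N 1 0 0) (N 1 0 1) (N 1 1 1) (N 1 0 3) (N 1 1 3) (N 1 3 3) * N 0 2 2) * r ^ 2 = 0 := by
    intro i hi0 hi1
    obtain ⟨k, hk, hsum⟩ := three_forms h2 e (by rw [hspan]; exact hV4') (by rw [hspan]; exact hS)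
      ![N 0, N 1, N i] (by
        intro j
        fin_cases j
        · exact nmat_symm _ _ _
        · exact nmat_symm _ _ _
        · exact nmat_symm _ _ _) (by
        intro j
        fin_cases j
        · exact (hP 0).psi
        · exact (hP 1).psi
        · exact (hP i).psi)
    rw [Fin.sum_univ_three] at hsum
    change k 0 • N 0 + k 1 • N 1 + k 2 • N i = 0 at hsum
    have hk0 : k 0 ≠ 0 := by
      intro h0
      rw [h0, zero_smul, zero_add] at hsum
      refine hne 1 i hi1.symm (k 1) (-k 2) ?_ ?_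
      · rintro ⟨h4, h5⟩
        apply hk
        funext j
        fin_cases j
        · exact h0
        · exact h4
        · exact neg_eq_zero.mp h5
      · rw [neg_smul]
        exact eq_neg_of_add_eq_zero_left hsum
    have hk1 : k 1 ≠ 0 := by
      intro h0
      rw [h0, zero_smul, add_zero] at hsum
      refine hne 0 i hi0.symm (k 0) (-k 2) ?_ ?_
      · rintro ⟨h4, h5⟩
        exact hk0 h4
      · rw [neg_smul]
        exact eq_neg_of_add_eq_zero_left hsum
    have hk2 : k 2 ≠ 0 := by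
      intro h0
      rw [h0, zero_smul, add_zero] at hsum
      refine hne 0 1 (by decide) (k 0) (-k 1) ?_ ?_
      · rintro ⟨h4, h5⟩
        exact hk0 h4
      · rw [neg_smul]
        exact eq_neg_of_add_eq_zero_left hsum
    have hcomb : (-(k 2) / k 0) • N i = N 0 + (k 1 / k 0) • N 1 := by
      have h4 : k 0 • N 0 + k 1 • N 1 = (-k 2) • N i := by
        rw [neg_smul]
        exact eq_neg_of_add_eq_zero_left hsum
      have h5 : (k 0)⁻¹ • (k 0 • N 0 + k 1 • N 1) = (k 0)⁻¹ • ((-k 2) • N i) := by rw [h4]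
      rw [smul_add, smul_smul, smul_smul, smul_smul, inv_mul_cancel₀ hk0, one_smul] at h5
      rw [div_eq_inv_mul, div_eq_inv_mul]
      exact h5.symm
    refine ⟨k 1 / k 0, -(k 2) / k 0, div_ne_zero (neg_ne_zero.mpr hk2) hk0, hcomb, ?_⟩
    have hdet : (N i).det = 0 := by
      obtain ⟨ξ, hξ, h4, h5, h6⟩ := IsProg.exists_xi (a i) (b i) (c i)
      exact Matrix.exists_mulVec_eq_zero_iff.mp ⟨ξ, hξ, IsProg.mulVec_of_dot h4 h5 h6⟩
    have hdet2 : ((1 : K) • N 0 + (k 1 / k 0) • N 1).det = 0 := by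
      rw [one_smul, ← hcomb, Matrix.det_smul, hdet, mul_zero]
    rw [det_pencil (N 0) (N 1) (nmat_symm _ _ _) (nmat_symm _ _ _) h30 h21] at hdet2
    have h4 := (mul_eq_zero.mp hdet2).resolve_left (by
      rw [one_mul]
      exact div_ne_zero hk1 hk0)
    rw [← h4]
    ring
  obtain ⟨r2, s2, hs2, hc2', hq2⟩ := key 2 (by decide) (by decide)
  obtain ⟨r3, s3, hs3, hc3', hq3⟩ := key 3 (by decide) (by decide)
  obtain ⟨r4, s4, hs4, hc4', hq4⟩ := key 4 (by decide) (by decide)
  have hr23 : r2 ≠ r3 := by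
    intro h
    rw [h] at hc2'
    exact hne 2 3 (by decide) s2 s3 (fun h0 => hs2 h0.1) (hc2'.trans hc3'.symm)
  have hr24 : r2 ≠ r4 := by
    intro h
    rw [h] at hc2'
    exact hne 2 4 (by decide) s2 s4 (fun h0 => hs2 h0.1) (hc2'.trans hc4'.symm)
  have hr34 : r3 ≠ r4 := by
    intro h
    rw [h] at hc3'
    exact hne 3 4 (by decide) s3 s4 (fun h0 => hs3 h0.1) (hc3'.trans hc4'.symm)
  set C1 := d3 (N 0 0 0) (N 0 0 1) (N 0 1 1) (N 0 0 2) (N 0 1 2) (N 0 2 2) * N 1 3 3 with hC1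
  set C2 := mid (N 0) (N 1) with hC2
  set C3 := d3 (N 1 0 0) (N 1 0 1) (N 1 1 1) (N 1 0 3) (N 1 1 3) (N 1 3 3) * N 0 2 2 with hC3
  have e23 : C2 + C3 * (r2 + r3) = 0 := by
    have h4 : (r2 - r3) * (C2 + C3 * (r2 + r3)) = 0 := by linear_combination hq2 - hq3
    exact (mul_eq_zero.mp h4).resolve_left (sub_ne_zero.mpr hr23)
  have e24 : C2 + C3 * (r2 + r4) = 0 := by
    have h4 : (r2 - r4) * (C2 + C3 * (r2 + r4)) = 0 := by linear_combination hq2 - hq4
    exact (mul_eq_zero.mp h4).resolve_left (sub_ne_zero.mpr hr24)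
  have hC30 : C3 = 0 := by
    have h4 : (r3 - r4) * C3 = 0 := by linear_combination e23 - e24
    exact (mul_eq_zero.mp h4).resolve_left (sub_ne_zero.mpr hr34)
  have hC20 : C2 = 0 := by
    rw [hC30, zero_mul, add_zero] at e23
    exact e23
  have hC10 : C1 = 0 := by
    rw [hC20, hC30] at hq2
    linear_combination hq2
  have hN33 : N 1 3 3 = 0 := (mul_eq_zero.mp hC10).resolve_left hd0
  have hN22 : N 0 2 2 = 0 := (mul_eq_zero.mp hC30).resolve_left hd1
  exact not_both h2 he hS (hSV 0) (hSV 1) (hP 0) (hP 1) hS0 hS1 hN22 hN33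

end Pool.Agent.N770
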