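import Pool.Agent.N770.Exps2
import Pool.Agent.N770.Logs

/-!
# Blocks `y U`, `U` in a fixed space `X`
-/

set_option autoImplicit false

namespace Pool.Agent.N770

open Module

variable {K L : Type*} [Field K] [Field L] [Algebra K L]

theorem finrank_mul_self_le (V : Submodule K L) [FiniteDimensional K V] :
    2 * finrank K (V * V : Submodule K L) ≤ finrank K V * (finrank K V + 1) := by
  classical
  set n := finrank K V with hn
  let b := finBasis K V
  let f : Sym2 (Fin n) → L := Sym2.lift ⟨fun i j => (b i : L) * (b j : L), fun i j => mul_comm _ _⟩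
  have hV : V = Submodule.span K (Set.range fun i => (b i : L)) := by
    have h1 := b.span_eq
    have h2 := congrArg (Submodule.map V.subtype) h1
    rw [Submodule.map_span, Submodule.map_top, Submodule.range_subtype, ← Set.range_comp] at h2
    exact h2.symm
  have h1 : V * V ≤ Submodule.span K (Set.range f) := by
    conv_lhs => rw [hV]
    rw [Submodule.span_mul_span, Submodule.span_le]
    rintro _ ⟨_, ⟨i, rfl⟩, _, ⟨j, rfl⟩, rfl⟩
    exact Submodule.subset_span ⟨s(i, j), rfl⟩
  have h2 : finrank K (Submodule.span K (Set.range f)) ≤ Fintype.card (Sym2 (Fin n)) :=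
    finrank_range_le_card f
  have hfin : FiniteDimensional K (Submodule.span K (Set.range f)) :=
    FiniteDimensional.span_of_finite K (Set.finite_range f)
  have h3 := (Submodule.finrank_mono h1).trans h2
  rw [Sym2.card, Fintype.card_fin, Nat.choose_two_right, Nat.add_sub_cancel] at h3
  have h4 : 2 * ((n + 1) * n / 2) ≤ (n + 1) * n := Nat.mul_div_le _ _
  calc 2 * finrank K (V * V : Submodule K L) ≤ 2 * ((n + 1) * n / 2) := Nat.mul_le_mul le_rfl h3
    _ ≤ (n + 1) * n := h4
    _ = n * (n + 1) := Nat.mul_comm _ _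

/-- adding a block `y U`, `U ≤ X` -/
theorem Def.block {X U : Submodule K L} [FiniteDimensional K X] {y : L} (hy : y ≠ 0) (hU : U ≤ X) :
    ∀ (r : ℕ) (W : Submodule K L) (_ : FiniteDimensional K W) (d q : ℕ), Def X W d →
      finrank K (W ⊓ scale y U : Submodule K L) = q → finrank K U = q + r →
      ∃ d', Def X (W ⊔ scale y U) d' ∧
        2 * d + (q + r) * (q + r) + q ≤ 2 * d' + q * q + (q + r) := by
  have hUf : FiniteDimensional K U := Submodule.finiteDimensional_of_le hU
  have hsf : FiniteDimensional K (scale y U) := by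
    unfold scale
    infer_instance
  intro r
  induction r with
  | zero =>
    intro W hWf d q hd hq hp
    refine ⟨d, ?_, by rw [Nat.add_zero]⟩
    have h1 : W ⊓ scale y U = scale y U := by
      apply Submodule.eq_of_le_of_finrank_eq inf_le_right
      rw [hq, finrank_scale_eq hy, hp, add_zero]
    have h2 : W ⊔ scale y U = W := sup_eq_left.mpr (inf_eq_right.mp h1)
    rw [h2]
    exact hd
  | succ r ih =>
    intro W hWf d q hd hq hp
    have hne : ¬ scale y U ≤ W := by
      intro h
      rw [inf_eq_right.mpr h, finrank_scale_eq hy] at hq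
      omega
    obtain ⟨v, hvU, hvW⟩ := Set.not_subset.mp hne
    obtain ⟨u, hu, rfl⟩ := hvU
    rw [LinearMap.mulLeft_apply] at hvW
    have hv0 : y * u ≠ 0 := fun h0 => hvW (h0 ▸ W.zero_mem)
    have huU : y * u ∈ scale y U := mul_mem_scale hu
    -- the part of `U` which is in `W`
    let U₀ : Submodule K L := U ⊓ W.comap (LinearMap.mulLeft K y)
    have hU₀ : scale y U₀ = W ⊓ scale y U := by
      ext z
      constructor
      · rintro ⟨w, ⟨hw1, hw2⟩, rfl⟩
        exact ⟨hw2, ⟨w, hw1, rfl⟩⟩
      · rintro ⟨hz, ⟨w, hw, rfl⟩⟩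
        exact ⟨w, ⟨hw, hz⟩, rfl⟩
    have hU₀f : finrank K U₀ = q := by
      rw [← hq, ← hU₀, finrank_scale_eq hy]
    have h1 := hd.add hvW (scale (y * u) U₀) ?_ ?_
    · rw [finrank_scale_eq hv0, hU₀f] at h1
      have h2 : (W ⊔ Submodule.span K {y * u}) ⊓ scale y U =
          (W ⊓ scale y U) ⊔ Submodule.span K {y * u} := by
        have hle : Submodule.span K {y * u} ≤ scale y U := by
          rw [Submodule.span_singleton_le_iff_mem]
          exact huU
        rw [sup_comm W, sup_inf_assoc_of_le W hle, sup_comm]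
      have h3 : y * u ∉ W ⊓ scale y U := fun h => hvW h.1
      have h4 : finrank K ((W ⊔ Submodule.span K {y * u}) ⊓ scale y U : Submodule K L) = q + 1 := by
        rw [h2, finrank_sup_singleton h3, hq]
      obtain ⟨d', h5, h6⟩ := ih (W ⊔ Submodule.span K {y * u}) inferInstance (d + q) (q + 1) h1 h4
        (by omega)
      have h7 : W ⊔ Submodule.span K {y * u} ⊔ scale y U = W ⊔ scale y U := by
        rw [sup_assoc]
        congr 1
        rw [sup_eq_right, Submodule.span_singleton_le_iff_mem]
        exact huU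
      rw [h7] at h5
      refine ⟨d', h5, ?_⟩
      have e1 : (q + 1) * (q + 1) = q * q + 2 * q + 1 := by ring
      have e2 : q + 1 + r = q + (r + 1) := by ring
      rw [e1, e2] at h6
      omega
    · rintro _ ⟨u', ⟨-, hu'⟩, rfl⟩
      rw [LinearMap.mulLeft_apply]
      have : y * u * u' = u * (y * u') := by ring
      rw [this]
      exact Submodule.mul_mem_mul (hU hu) hu'
    · exact Submodule.map_mono (inf_le_left.trans hU)

/-- all blocks lie in one space -/
theorem blocks_span {X S : Submodule K L} [FiniteDimensional K X] {M c : ℕ} (hc : 1 ≤ c)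
    (hM : ∀ W : Submodule K L, FiniteDimensional K W → W ≤ S →
      finrank K X * finrank K W ≤ finrank K (X * W : Submodule K L) + M)
    (W₀ : Submodule K L) [FiniteDimensional K W₀] (hW₀ : W₀ ≤ S) {d₀ : ℕ} (hd₀ : Def X W₀ d₀)
    (T : Set (L × Submodule K L)) (hT : ∀ p ∈ T, p.1 ≠ 0 ∧ p.2 ≤ X ∧ scale p.1 p.2 ≤ S ∧
      c + 1 ≤ finrank K p.2) :
    ∃ W : Submodule K L, FiniteDimensional K W ∧ W₀ ≤ W ∧ W ≤ S ∧
      c * finrank K W + 2 * d₀ ≤ 2 * M + c * finrank K W₀ ∧ ∀ p ∈ T, scale p.1 p.2 ≤ W := by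
  let Cl : ℕ → Prop := fun n => ∃ W : Submodule K L, FiniteDimensional K W ∧ W₀ ≤ W ∧ W ≤ S ∧
    finrank K W = n ∧ ∃ d, Def X W d ∧ c * finrank K W + 2 * d₀ ≤ 2 * d + c * finrank K W₀
  have hbd : ∀ W : Submodule K L, FiniteDimensional K W → W ≤ S → ∀ d, Def X W d → d ≤ M := by
    intro W hWf hWS d hd
    have h1 := hM W hWf hWS
    unfold Def at hd
    omega
  have hCb : ∀ n, Cl n → n ≤ 2 * M + c * finrank K W₀ := by
    rintro n ⟨W, hWf, hW0, hWS, rfl, d, hd, hd2⟩
    have h1 := hbd W hWf hWS d hd
    have h2 : finrank K W ≤ c * finrank K W := Nat.le_mul_of_pos_left _ hc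
    omega
  have hC0 : Cl (finrank K W₀) := ⟨W₀, inferInstance, le_rfl, hW₀, rfl, d₀, hd₀, by omega⟩
  obtain ⟨n, hn, hmax⟩ : ∃ n, Cl n ∧ ∀ m, Cl m → m ≤ n := by
    classical
    by_contra hcon
    push Not at hcon
    have : ∀ j, ∃ n, Cl n ∧ j ≤ n := by
      intro j
      induction j with
      | zero => exact ⟨_, hC0, Nat.zero_le _⟩
      | succ j ih =>
        obtain ⟨n, hn, hj⟩ := ih
        obtain ⟨m, hm, hnm⟩ := hcon n hn
        exact ⟨m, hm, by omega⟩
    obtain ⟨n, hn, hj⟩ := this (2 * M + c * finrank K W₀ + 1)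
    have := hCb n hn
    omega
  obtain ⟨W, hWf, hW0, hWS, hWn, d, hd, hd2⟩ := hn
  refine ⟨W, hWf, hW0, hWS, ?_, ?_⟩
  · have := hbd W hWf hWS d hd
    omega
  · rintro ⟨y, U⟩ hp
    obtain ⟨hy, hU, hyU, hUc⟩ := hT _ hp
    simp only at hy hU hyU hUc ⊢
    by_contra hcon
    have hUf : FiniteDimensional K U := Submodule.finiteDimensional_of_le hU
    have hsf : FiniteDimensional K (scale y U) := by
      unfold scale
      infer_instance
    set q := finrank K (W ⊓ scale y U : Submodule K L) with hq
    have hqle : q < finrank K U := by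
      have h1 : W ⊓ scale y U < scale y U := by
        rw [inf_lt_right]
        exact hcon
      have h2 := Submodule.finrank_lt_finrank_of_lt h1
      rwa [finrank_scale_eq hy] at h2
    obtain ⟨r, hr⟩ := Nat.exists_eq_add_of_lt hqle
    have hr' : finrank K U = q + (r + 1) := by omega
    obtain ⟨d', h1, h2⟩ := Def.block hy hU (r + 1) W hWf d q hd hq.symm hr'
    have h3 := Submodule.finrank_sup_add_finrank_inf_eq W (scale y U)
    rw [← hq, finrank_scale_eq hy, hr'] at h3
    have h4 : finrank K (W ⊔ scale y U : Submodule K L) = finrank K W + (r + 1) := by omega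
    have hCl : Cl (finrank K (W ⊔ scale y U : Submodule K L)) := by
      refine ⟨_, inferInstance, hW0.trans le_sup_left, sup_le hWS hyU, rfl, d', h1, ?_⟩
      rw [h4]
      have e1 : (q + (r + 1)) * (q + (r + 1)) = q * q + (r + 1) * (q + (q + r) + 1) := by ring
      have e2 : (r + 1) * (c + 1) ≤ (r + 1) * (q + (q + r) + 1) := by
        apply Nat.mul_le_mul le_rfl
        omega
      have e3 : c * (finrank K W + (r + 1)) + (r + 1) = c * finrank K W + (r + 1) * (c + 1) := by
        ring
      omega
    have := hmax _ hCl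
    omega

end Pool.Agent.N770
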