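import Pool.Agent.N770.Rows
import Pool.Agent.N770.Hom
import Pool.Agent.N770.PLogs

/-!
# Second rows, over any field with the product bound
-/

set_option autoImplicit false

namespace Pool.Agent.N770

open Module

section generic

variable {K L : Type*} [Field K] [Field L] [Algebra K L]

/-- all blocks `t U`, `U ≤ V`, `dim U ≥ 2`, in `S` lie in one space of dimension at most
`(dim V) ^ 2` -/
theorem rows_sq_gen {S : Submodule K L} (hS : ProdLe K S) (V : Submodule K L)
    [FiniteDimensional K V] (hV : V ≤ S) :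
    ∃ W : Submodule K L, FiniteDimensional K W ∧ V ≤ W ∧ W ≤ S ∧ finrank K W ≤ finrank K V ^ 2 ∧
      ∀ (t : L) (U : Submodule K L), U ≤ V → 2 ≤ finrank K U → scale t U ≤ S → scale t U ≤ W := by
  set n := finrank K V with hn
  have hM : ∀ W : Submodule K L, FiniteDimensional K W → W ≤ S →
      finrank K V * finrank K W ≤ finrank K (V * W : Submodule K L) + n * (n - 1) := by
    intro W hWf hWL
    exact hS V W inferInstance hWf hWL
  obtain ⟨d₀, hd₀⟩ : ∃ d₀, n * n = 2 * d₀ + n := by
    have h1 : Even (n * (n - 1)) := Nat.even_mul_pred_self n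
    obtain ⟨k, hk⟩ := h1
    refine ⟨k, ?_⟩
    rcases Nat.eq_zero_or_pos n with h0 | h0
    · rw [h0] at hk ⊢
      omega
    · obtain ⟨m, hm⟩ : ∃ m, n = m + 1 := ⟨n - 1, by omega⟩
      rw [hm, Nat.add_sub_cancel] at hk
      rw [hm]
      have : (m + 1) * (m + 1) = (m + 1) * m + (m + 1) := by ring
      omega
  have hdef : Def V V d₀ := by
    unfold Def
    have h1 := finrank_mul_self_le V
    rw [← hn] at h1 ⊢
    have h2 : n * (n + 1) = n * n + n := by ring
    omega
  obtain ⟨W, hWf, hVW, hWL, hWd, hWT⟩ := blocks_span (c := 1) le_rfl hM V hV hdef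
    {p : L × Submodule K L | p.1 ≠ 0 ∧ p.2 ≤ V ∧ scale p.1 p.2 ≤ S ∧ 1 + 1 ≤ finrank K p.2}
    (fun p hp => hp)
  rw [one_mul, one_mul, ← hn] at hWd
  have hn1 : 2 * (n * (n - 1)) = 4 * d₀ := by
    rcases Nat.eq_zero_or_pos n with h0 | h0
    · rw [h0] at hd₀ ⊢
      omega
    · obtain ⟨m, hm⟩ : ∃ m, n = m + 1 := ⟨n - 1, by omega⟩
      rw [hm] at hd₀ ⊢
      rw [Nat.add_sub_cancel]
      have : (m + 1) * (m + 1) = (m + 1) * m + (m + 1) := by ring
      omega
  refine ⟨W, hWf, hVW, hWL, ?_, ?_⟩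
  · rw [sq]
    omega
  · intro t U hU hU2 hUS
    by_cases ht : t = 0
    · rintro _ ⟨u, hu, rfl⟩
      rw [LinearMap.mulLeft_apply, ht, zero_mul]
      exact W.zero_mem
    · exact hWT (t, U) ⟨ht, hU, hUS, hU2⟩

/-- all blocks `y U`, `U ≤ X`, `dim U ≥ c + 1`, in `S` lie in one space -/
theorem rows_any_gen {S : Submodule K L} (hS : ProdLe K S) (X : Submodule K L)
    [FiniteDimensional K X] (c : ℕ) (hc : 1 ≤ c) :
    ∃ W : Submodule K L, FiniteDimensional K W ∧ W ≤ S ∧
      c * finrank K W ≤ 2 * (finrank K X * (finrank K X - 1)) ∧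
      ∀ (y : L) (U : Submodule K L), U ≤ X → c + 1 ≤ finrank K U → scale y U ≤ S →
        scale y U ≤ W := by
  have hM : ∀ W : Submodule K L, FiniteDimensional K W → W ≤ S →
      finrank K X * finrank K W ≤ finrank K (X * W : Submodule K L) +
        finrank K X * (finrank K X - 1) := fun W hWf hWL => hS X W inferInstance hWf hWL
  have hdef : Def X (⊥ : Submodule K L) 0 := by
    unfold Def
    rw [Submodule.mul_bot, finrank_bot]
    omega
  obtain ⟨W, hWf, -, hWL, hWd, hWT⟩ := blocks_span (c := c) hc hM (⊥ : Submodule K L) bot_le hdef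
    {p : L × Submodule K L | p.1 ≠ 0 ∧ p.2 ≤ X ∧ scale p.1 p.2 ≤ S ∧ c + 1 ≤ finrank K p.2}
    (fun p hp => hp)
  rw [finrank_bot, mul_zero, mul_zero, add_zero, add_zero] at hWd
  refine ⟨W, hWf, hWL, hWd, ?_⟩
  intro y U hU hUc hUS
  by_cases hy : y = 0
  · rintro _ ⟨u, hu, rfl⟩
    rw [LinearMap.mulLeft_apply, hy, zero_mul]
    exact W.zero_mem
  · exact hWT (y, U) ⟨hy, hU, hUS, hUc⟩

/-- two vectors form a rank one matrix -/
theorem second_row {W V S : Submodule K L}
    (hW : ∀ (t : L) (U : Submodule K L), U ≤ V → 2 ≤ finrank K U → scale t U ≤ S → scale t U ≤ W)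
    (r s : Fin 2 → L) (hr : ∀ j, r j ∈ V) (hrli : LinearIndependent K r) (hs : ∀ j, s j ∈ S)
    (hdet : r 0 * s 1 = r 1 * s 0) : ∀ j, s j ∈ W := by
  have hr0 : r 0 ≠ 0 := hrli.ne_zero 0
  have hr1 : r 1 ≠ 0 := hrli.ne_zero 1
  set t := s 0 / r 0 with ht
  have hst : ∀ j, s j = t * r j := by
    intro j
    rw [ht]
    fin_cases j
    · change s 0 = s 0 / r 0 * r 0
      field_simp
    · change s 1 = s 0 / r 0 * r 1
      field_simp
      linear_combination hdet
  have h1 := hW t (Submodule.span K (Set.range r)) ?_ ?_ ?_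
  · intro j
    rw [hst j]
    exact h1 (mul_mem_scale (Submodule.subset_span ⟨j, rfl⟩))
  · rw [Submodule.span_le]
    rintro _ ⟨j, rfl⟩
    exact hr j
  · rw [finrank_span_eq_card hrli, Fintype.card_fin]
  · rw [scale, Submodule.map_span, Submodule.span_le]
    rintro _ ⟨_, ⟨j, rfl⟩, rfl⟩
    rw [LinearMap.mulLeft_apply, ← hst j]
    exact hs j

/-- singular two by two matrices -/
theorem rank_one {M : Matrix (Fin 2) (Fin 2) L} (hdet : M.det = 0)
    (hrow : LinearIndependent K M.row) (hcol : LinearIndependent K M.col) :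
    ∃ x y : Fin 2 → L, LinearIndependent K x ∧ LinearIndependent K y ∧
      ∀ i j, M i j = x i * y j := by
  rw [Matrix.det_fin_two] at hdet
  have h00 : M 0 0 ≠ 0 := by
    intro h0
    rw [h0, zero_mul, zero_sub, neg_eq_zero] at hdet
    rcases mul_eq_zero.mp hdet with h | h
    · apply hrow.ne_zero 0
      funext j
      fin_cases j
      · exact h0
      · exact h
    · apply hcol.ne_zero 0
      funext j
      fin_cases j
      · exact h0
      · exact h
  have h11 : M 1 1 = M 1 0 / M 0 0 * M 0 1 := by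
    field_simp
    linear_combination hdet
  refine ⟨![1, M 1 0 / M 0 0], ![M 0 0, M 0 1], ?_, ?_, ?_⟩
  · rw [Fintype.linearIndependent_iff]
    intro g hg
    rw [Fin.sum_univ_two] at hg
    change g 0 • (1 : L) + g 1 • (M 1 0 / M 0 0) = 0 at hg
    rw [Algebra.smul_def, Algebra.smul_def, mul_one] at hg
    apply Fintype.linearIndependent_iff.mp hrow g
    rw [Fin.sum_univ_two]
    funext j
    change g 0 • M 0 j + g 1 • M 1 j = 0
    fin_cases j
    · change g 0 • M 0 0 + g 1 • M 1 0 = 0
      rw [Algebra.smul_def, Algebra.smul_def]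
      have h3 : algebraMap K L (g 0) * M 0 0 + algebraMap K L (g 1) * M 1 0 =
          (algebraMap K L (g 0) + algebraMap K L (g 1) * (M 1 0 / M 0 0)) * M 0 0 := by
        field_simp
      rw [h3, hg, zero_mul]
    · change g 0 • M 0 1 + g 1 • M 1 1 = 0
      rw [Algebra.smul_def, Algebra.smul_def, h11]
      have h3 : algebraMap K L (g 0) * M 0 1 + algebraMap K L (g 1) * (M 1 0 / M 0 0 * M 0 1) =
          (algebraMap K L (g 0) + algebraMap K L (g 1) * (M 1 0 / M 0 0)) * M 0 1 := by
        ring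
      rw [h3, hg, zero_mul]
  · rw [Fintype.linearIndependent_iff]
    intro g hg
    rw [Fin.sum_univ_two] at hg
    change g 0 • M 0 0 + g 1 • M 0 1 = 0 at hg
    apply Fintype.linearIndependent_iff.mp hcol g
    rw [Fin.sum_univ_two]
    funext i
    change g 0 • M i 0 + g 1 • M i 1 = 0
    fin_cases i
    · exact hg
    · change g 0 • M 1 0 + g 1 • M 1 1 = 0
      rw [Algebra.smul_def, Algebra.smul_def] at hg ⊢
      rw [h11]
      have h3 : algebraMap K L (g 0) * M 1 0 + algebraMap K L (g 1) * (M 1 0 / M 0 0 * M 0 1) =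
          (algebraMap K L (g 0) * M 0 0 + algebraMap K L (g 1) * M 0 1) * (M 1 0 / M 0 0) := by
        field_simp
      rw [h3, hg, zero_mul]
  · intro i j
    fin_cases i <;> fin_cases j
    · change M 0 0 = 1 * M 0 0
      rw [one_mul]
    · change M 0 1 = 1 * M 0 1
      rw [one_mul]
    · change M 1 0 = M 1 0 / M 0 0 * M 0 0
      field_simp
    · exact h11

/-- all entries of a singular matrix with a row in `V` -/
theorem entries_in {W V S : Submodule K L}
    (hW : ∀ (t : L) (U : Submodule K L), U ≤ V → 2 ≤ finrank K U → scale t U ≤ S → scale t U ≤ W)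
    {M : Matrix (Fin 2) (Fin 2) L} (hMS : ∀ i j, M i j ∈ S) (hdet : M.det = 0)
    (hrow : LinearIndependent K M.row) (hcol : LinearIndependent K M.col)
    (a : Fin 2 → K) (ha : a ≠ 0) (haV : ∀ j, ∑ i, a i • M i j ∈ V) : ∀ i j, M i j ∈ W := by
  obtain ⟨x, y, hx, hy, hM⟩ := rank_one hdet hrow hcol
  set z := ∑ i, a i • x i with hz
  have hz0 : z ≠ 0 := by
    intro h0
    exact ha (funext (Fintype.linearIndependent_iff.mp hx a h0))
  have hzy : ∀ j, z * y j ∈ V := by
    intro j
    have h1 : z * y j = ∑ i, a i • M i j := by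
      rw [hz, Finset.sum_mul]
      refine Finset.sum_congr rfl fun i _ => ?_
      rw [hM, smul_mul_assoc]
    rw [h1]
    exact haV j
  have hzli : LinearIndependent K (fun j => z * y j) := by
    have h1 : (fun j => z * y j) = (LinearMap.mulLeft K z) ∘ y := rfl
    rw [h1]
    exact hy.map' _ (LinearMap.ker_eq_bot.mpr (mul_right_injective₀ hz0))
  intro i j
  have h1 := hW (x i / z) (Submodule.span K (Set.range fun j => z * y j)) ?_ ?_ ?_
  · have h2 : M i j = x i / z * (z * y j) := by
      rw [hM]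
      field_simp
    rw [h2]
    exact h1 (mul_mem_scale (Submodule.subset_span ⟨j, rfl⟩))
  · rw [Submodule.span_le]
    rintro _ ⟨j, rfl⟩
    exact hzy j
  · rw [finrank_span_eq_card hzli, Fintype.card_fin]
  · rw [scale, Submodule.map_span, Submodule.span_le]
    rintro _ ⟨_, ⟨j, rfl⟩, rfl⟩
    rw [LinearMap.mulLeft_apply]
    have h2 : x i / z * (z * y j) = M i j := by
      rw [hM]
      field_simp
    rw [h2]
    exact hMS i j

end generic

section padic

open Pool.Agent.Y787 (QC mem_QC HypC hypC_padic)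
open Pool.Agent.W254.PA (LtE logs)
open Pool.Agent.W245.PB (IsIwasawaLog)

variable {Cc : Type} [Field Cc] [CharZero Cc] [IsAlgClosed Cc] {Lt : Submodule (QC Cc) Cc}

theorem prodLe_of_hyp [HypC Lt] : ProdLe (QC Cc) Lt := by
  intro Y V hY hV hVL
  have := finite_mul Y V
  exact Pool.Agent.Y787.GL.product_le Y V (Y * V) hVL
    (fun x hx w hw => Submodule.mul_mem_mul hx hw)

variable {p : ℕ} [hp : Fact p.Prime] {L : PadicAlgCl p → PadicAlgCl p}

theorem prodLe_padic (hL : IsIwasawaLog p L) :
    ProdLe (QC (PadicAlgCl p)) (LtE (logs L)) := by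
  have := hypC_padic hL
  exact prodLe_of_hyp

end padic

end Pool.Agent.N770
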