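import Pool.Agent.N770.Rows
import Pool.Agent.N770.Hom

/-!
# Second rows of counterexamples to the four exponentials conjecture
-/

set_option autoImplicit false

namespace Pool.Agent.N770

open Module
open Pool.Agent.H301R2.SSE (QB mem_QB Lt Lt_one Lt_log)

/-- rational spaces of logarithms contained in a space over the algebraic numbers -/
theorem finrank_logs_le (S : Submodule ℚ ℂ) (hS : ∀ z ∈ S, IsAlgebraic ℚ (Complex.exp z))
    (W : Submodule QB ℂ) [FiniteDimensional QB W] (hW : ∀ z ∈ S, z ∈ W) :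
    Module.Finite ℚ S ∧ finrank ℚ S ≤ finrank QB W := by
  have key : ∀ (m : ℕ) (f : Fin m → S), LinearIndependent ℚ f → m ≤ finrank QB W := by
    intro m f hf
    have h1 : LinearIndependent ℚ (fun i => ((f i : S) : ℂ)) :=
      hf.map' S.subtype (Submodule.ker_subtype S)
    have h2 := li_logs _ (fun j => hS _ (f j).2) h1
    have h3 : LinearIndependent QB (fun i => (⟨_, hW _ (f i).2⟩ : W)) :=
      LinearIndependent.of_comp W.subtype h2
    have h4 := h3.fintype_card_le_finrank
    rwa [Fintype.card_fin] at h4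
  have hrk : Module.rank ℚ S ≤ (finrank QB W : ℕ) := by
    apply rank_le
    intro s hs
    have h1 : LinearIndependent ℚ (fun i : Fin s.card => ((s.equivFin.symm i : s) : S)) :=
      hs.comp _ s.equivFin.symm.injective
    exact key _ _ h1
  have hfin : Module.Finite ℚ S :=
    Module.rank_lt_aleph0_iff.mp (hrk.trans_lt (Cardinal.natCast_lt_aleph0))
  exact ⟨hfin, Module.finrank_le_of_rank_le hrk⟩

theorem exp_add_alg {x y : ℂ} (hx : IsAlgebraic ℚ (Complex.exp x))
    (hy : IsAlgebraic ℚ (Complex.exp y)) : IsAlgebraic ℚ (Complex.exp (x + y)) := by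
  rw [Complex.exp_add]
  exact hx.mul hy

/-- the rational span of a set of logarithms consists of logarithms -/
theorem exp_span {T : Set ℂ} (hT : ∀ z ∈ T, IsAlgebraic ℚ (Complex.exp z)) :
    ∀ z ∈ Submodule.span ℚ T, IsAlgebraic ℚ (Complex.exp z) := by
  intro z hz
  induction hz using Submodule.span_induction with
  | mem x hx => exact hT x hx
  | zero => rw [Complex.exp_zero]; exact isAlgebraic_one
  | add x y _ _ hx hy => exact exp_add_alg hx hy
  | smul a x _ hx =>
    rw [Rat.smul_def]
    exact exp_rat_mul hx a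

/-- **Second rows.** -/
theorem rows_sq (V : Submodule ℚ ℂ) (hVf : Module.Finite ℚ V)
    (hV : ∀ v ∈ V, IsAlgebraic ℚ (Complex.exp v)) (T : Set ℂ)
    (hT : ∀ z ∈ T, ∃ t x x' : ℂ, x ∈ V ∧ x' ∈ V ∧ LinearIndependent ℚ ![x, x'] ∧
      IsAlgebraic ℚ (Complex.exp (t * x)) ∧ IsAlgebraic ℚ (Complex.exp (t * x')) ∧ z = t * x) :
    Module.Finite ℚ (V ⊔ Submodule.span ℚ T : Submodule ℚ ℂ) ∧
      finrank ℚ (V ⊔ Submodule.span ℚ T : Submodule ℚ ℂ) ≤ finrank ℚ V ^ 2 := by
  classical
  set n := finrank ℚ V with hn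
  let b := finBasis ℚ V
  let X : Submodule QB ℂ := Submodule.span QB (Set.range fun i => ((b i : V) : ℂ))
  have hXf : FiniteDimensional QB X := FiniteDimensional.span_of_finite QB (Set.finite_range _)
  have hbli : LinearIndependent ℚ (fun i => ((b i : V) : ℂ)) :=
    b.linearIndependent.map' V.subtype (Submodule.ker_subtype V)
  have hbQ := li_logs _ (fun i => hV _ (b i).2) hbli
  have hXn : finrank QB X = n := by
    rw [finrank_span_eq_card hbQ, Fintype.card_fin]
  have hVX : ∀ v ∈ V, v ∈ X := by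
    intro v hv
    have h1 := b.sum_repr ⟨v, hv⟩
    have h2 := congrArg V.subtype h1
    rw [map_sum] at h2
    change _ = v at h2
    rw [← h2]
    refine Submodule.sum_mem _ fun i _ => ?_
    rw [map_smul]
    have h3 : (b.repr ⟨v, hv⟩ i) • V.subtype (b i) =
        (algebraMap ℚ QB (b.repr ⟨v, hv⟩ i)) • ((b i : V) : ℂ) := by
      rw [Algebra.smul_def, Algebra.smul_def]
      rfl
    rw [h3]
    exact X.smul_mem _ (Submodule.subset_span ⟨i, rfl⟩)
  have hXL : X ≤ Lt := by
    rw [Submodule.span_le]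
    rintro _ ⟨i, rfl⟩
    exact Lt_log (hV _ (b i).2)
  -- the product bound
  have hM : ∀ W : Submodule QB ℂ, FiniteDimensional QB W → W ≤ Lt →
      finrank QB X * finrank QB W ≤ finrank QB (X * W : Submodule QB ℂ) + n * (n - 1) := by
    intro W hWf hWL
    have := prodLe_Lt X W hXf hWf hWL
    rwa [hXn] at this ⊢
  obtain ⟨d₀, hd₀⟩ : ∃ d₀, n * n = 2 * d₀ + n := by
    have h1 : Even (n * (n - 1)) := Nat.even_mul_pred_self n
    obtain ⟨k, hk⟩ := h1
    refine ⟨k, ?_⟩
    rcases Nat.eq_zero_or_pos n with h0 | h0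
    · rw [h0] at hk ⊢
      omega
    · obtain ⟨m, hm⟩ : ∃ m, n = m + 1 := ⟨n - 1, by omega⟩
      rw [hm, Nat.add_sub_cancel] at hk
      rw [hm]
      have : (m + 1) * (m + 1) = (m + 1) * m + (m + 1) := by ring
      omega
  have hdef : Def X X d₀ := by
    unfold Def
    have h1 := finrank_mul_self_le X
    rw [hXn] at h1 ⊢
    have h2 : n * (n + 1) = n * n + n := by ring
    omega
  obtain ⟨W, hWf, hXW, hWL, hWd, hWT⟩ := blocks_span (c := 1) le_rfl hM X hXL hdef
    {p : ℂ × Submodule QB ℂ | p.1 ≠ 0 ∧ p.2 ≤ X ∧ scale p.1 p.2 ≤ Lt ∧ 1 + 1 ≤ finrank QB p.2}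
    (fun p hp => hp)
  rw [one_mul, one_mul, hXn] at hWd
  have hn1 : 2 * (n * (n - 1)) = 4 * d₀ := by
    rcases Nat.eq_zero_or_pos n with h0 | h0
    · rw [h0] at hd₀ ⊢
      omega
    · obtain ⟨m, hm⟩ : ∃ m, n = m + 1 := ⟨n - 1, by omega⟩
      rw [hm] at hd₀ ⊢
      rw [Nat.add_sub_cancel]
      have : (m + 1) * (m + 1) = (m + 1) * m + (m + 1) := by ring
      omega
  have hWn : finrank QB W ≤ n ^ 2 := by
    rw [sq]
    omega
  have hTW : ∀ z ∈ T, z ∈ W := by
    intro z hz
    obtain ⟨t, x, x', hx, hx', hli, h1, h2, rfl⟩ := hT z hz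
    by_cases ht : t = 0
    · rw [ht, zero_mul]
      exact W.zero_mem
    have hli2 : LinearIndependent QB ![x, x'] := by
      refine li_logs _ ?_ hli
      intro j
      fin_cases j
      · exact hV _ hx
      · exact hV _ hx'
    let U : Submodule QB ℂ := Submodule.span QB (Set.range ![x, x'])
    have hU2 : finrank QB U = 2 := by
      rw [finrank_span_eq_card hli2, Fintype.card_fin]
    have hmem : (t, U) ∈ {p : ℂ × Submodule QB ℂ | p.1 ≠ 0 ∧ p.2 ≤ X ∧ scale p.1 p.2 ≤ Lt ∧
        1 + 1 ≤ finrank QB p.2} := by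
      refine ⟨ht, ?_, ?_, by rw [hU2]⟩
      · rw [Submodule.span_le]
        rintro _ ⟨j, rfl⟩
        fin_cases j
        · exact hVX _ hx
        · exact hVX _ hx'
      · rintro _ ⟨w, hw, rfl⟩
        rw [LinearMap.mulLeft_apply]
        have h3 : w ∈ Submodule.span QB (Set.range ![x, x']) := hw
        clear hw
        induction h3 using Submodule.span_induction with
        | mem w hw' =>
          obtain ⟨j, rfl⟩ := hw'
          fin_cases j
          · exact Lt_log h1
          · exact Lt_log h2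
        | zero => rw [mul_zero]; exact Lt.zero_mem
        | add u v hu hv ihu ihv =>
          rw [mul_add]
          exact Lt.add_mem ihu ihv
        | smul a u hu ih =>
          rw [mul_smul_comm]
          exact Lt.smul_mem a ih
    exact hWT _ hmem (mul_mem_scale (Submodule.subset_span ⟨0, rfl⟩))
  have hST : ∀ z ∈ (V : Set ℂ) ∪ T, IsAlgebraic ℚ (Complex.exp z) := by
    rintro z (hz | hz)
    · exact hV z hz
    · obtain ⟨t, x, x', -, -, -, h1, -, rfl⟩ := hT z hz
      exact h1
  have hsup : V ⊔ Submodule.span ℚ T = Submodule.span ℚ ((V : Set ℂ) ∪ T) := by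
    rw [Submodule.span_union, Submodule.span_eq]
  have h1 := finrank_logs_le (Submodule.span ℚ ((V : Set ℂ) ∪ T)) (exp_span hST) W (by
    intro z hz
    induction hz using Submodule.span_induction with
    | mem x hx =>
      rcases hx with hx | hx
      · exact hXW (hVX _ hx)
      · exact hTW _ hx
    | zero => exact W.zero_mem
    | add x y _ _ hx hy => exact W.add_mem hx hy
    | smul a x _ hx =>
      have h3 : a • x = (algebraMap ℚ QB a) • x := by
        rw [Algebra.smul_def, Algebra.smul_def]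
        rfl
      rw [h3]
      exact W.smul_mem _ hx)
  rw [hsup]
  exact ⟨h1.1, h1.2.trans hWn⟩

/-- **Blocks over an arbitrary space.** -/
theorem rows_any (X : Submodule QB ℂ) (hXf : FiniteDimensional QB X) (c : ℕ) (hc : 1 ≤ c)
    (T : Set ℂ)
    (hT : ∀ z ∈ T, ∃ (y : ℂ) (x : Fin (c + 1) → ℂ), (∀ i, x i ∈ X) ∧
      LinearIndependent ℚ (fun i => y * x i) ∧
      (∀ i, IsAlgebraic ℚ (Complex.exp (y * x i))) ∧ z = y * x 0) :
    Module.Finite ℚ (Submodule.span ℚ T) ∧
      c * finrank ℚ (Submodule.span ℚ T) ≤ 2 * (finrank QB X * (finrank QB X - 1)) := by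
  classical
  have hM : ∀ W : Submodule QB ℂ, FiniteDimensional QB W → W ≤ Lt →
      finrank QB X * finrank QB W ≤ finrank QB (X * W : Submodule QB ℂ) +
        finrank QB X * (finrank QB X - 1) := fun W hWf hWL => prodLe_Lt X W hXf hWf hWL
  have hdef : Def X (⊥ : Submodule QB ℂ) 0 := by
    unfold Def
    rw [Submodule.mul_bot, finrank_bot]
    omega
  obtain ⟨W, hWf, -, hWL, hWd, hWT⟩ := blocks_span (c := c) hc hM (⊥ : Submodule QB ℂ) bot_le hdef
    {p : ℂ × Submodule QB ℂ | p.1 ≠ 0 ∧ p.2 ≤ X ∧ scale p.1 p.2 ≤ Lt ∧ c + 1 ≤ finrank QB p.2}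
    (fun p hp => hp)
  rw [finrank_bot, mul_zero, mul_zero, add_zero, add_zero] at hWd
  have hTW : ∀ z ∈ T, z ∈ W := by
    intro z hz
    obtain ⟨y, x, hx, hli, h1, rfl⟩ := hT z hz
    have hy : y ≠ 0 := by
      rintro rfl
      exact hli.ne_zero 0 (zero_mul _)
    have hli2 : LinearIndependent QB (fun i => y * x i) := li_logs _ h1 hli
    have hli3 : LinearIndependent QB x := by
      have h3 : (fun i => y * x i) = (LinearMap.mulLeft QB y) ∘ x := rfl
      rw [h3] at hli2
      exact LinearIndependent.of_comp _ hli2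
    let U : Submodule QB ℂ := Submodule.span QB (Set.range x)
    have hU2 : finrank QB U = c + 1 := by
      rw [finrank_span_eq_card hli3, Fintype.card_fin]
    have hmem : (y, U) ∈ {p : ℂ × Submodule QB ℂ | p.1 ≠ 0 ∧ p.2 ≤ X ∧ scale p.1 p.2 ≤ Lt ∧
        c + 1 ≤ finrank QB p.2} := by
      refine ⟨hy, ?_, ?_, by rw [hU2]⟩
      · rw [Submodule.span_le]
        rintro _ ⟨j, rfl⟩
        exact hx j
      · rintro _ ⟨w, hw, rfl⟩
        rw [LinearMap.mulLeft_apply]
        have h3 : w ∈ Submodule.span QB (Set.range x) := hw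
        clear hw
        induction h3 using Submodule.span_induction with
        | mem w hw' =>
          obtain ⟨j, rfl⟩ := hw'
          exact Lt_log (h1 j)
        | zero => rw [mul_zero]; exact Lt.zero_mem
        | add u v hu hv ihu ihv =>
          rw [mul_add]
          exact Lt.add_mem ihu ihv
        | smul a u hu ih =>
          rw [mul_smul_comm]
          exact Lt.smul_mem a ih
    exact hWT _ hmem (mul_mem_scale (Submodule.subset_span ⟨0, rfl⟩))
  have hST : ∀ z ∈ T, IsAlgebraic ℚ (Complex.exp z) := by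
    intro z hz
    obtain ⟨y, x, -, -, h1, rfl⟩ := hT z hz
    exact h1 0
  have h1 := finrank_logs_le (Submodule.span ℚ T) (exp_span hST) W (by
    intro z hz
    induction hz using Submodule.span_induction with
    | mem x hx => exact hTW _ hx
    | zero => exact W.zero_mem
    | add x y _ _ hx hy => exact W.add_mem hx hy
    | smul a x _ hx =>
      have h3 : a • x = (algebraMap ℚ QB a) • x := by
        rw [Algebra.smul_def, Algebra.smul_def]
        rfl
      rw [h3]
      exact W.smul_mem _ hx)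
  exact ⟨h1.1, (Nat.mul_le_mul le_rfl h1.2).trans hWd⟩

end Pool.Agent.N770
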