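import Mathlib

/-!
# Linear independence of square roots
-/

set_option autoImplicit false

namespace Pool.Agent.N770

open IntermediateField Polynomial

/-- For `y ∉ E` with `y ^ 2 ∈ E` there is an `E`-embedding of the algebraic closure of `E` in `L`
which maps `y` to `-y`. -/
theorem exists_embedding {E L : Type*} [Field E] [Field L] [Algebra E L] [IsAlgClosed L]
    (y : algebraicClosure E L) (a : E) (hy : (y : L) * y = algebraMap E L a)
    (hyE : ∀ b : E, (y : L) ≠ algebraMap E L b) :
    ∃ φ : algebraicClosure E L →ₐ[E] L, φ y = -(y : L) := by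
  have hint : IsIntegral E y := (Algebra.IsAlgebraic.isAlgebraic y).isIntegral
  have hdvd : minpoly E y ∣ (X ^ 2 - C a : E[X]) := by
    apply minpoly.dvd
    rw [map_sub, map_pow, aeval_X, aeval_C]
    apply Subtype.val_injective
    change (y : L) ^ 2 - algebraMap E L a = 0
    rw [← hy]; ring
  have hdeg : (X ^ 2 - C a : E[X]).natDegree = 2 := by
    rw [natDegree_sub_C, natDegree_X_pow]
  have hmonic : (X ^ 2 - C a : E[X]).Monic := monic_X_pow_sub_C a two_ne_zero
  have h2 : 2 ≤ (minpoly E y).natDegree := by
    by_contra h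
    have h1 : (minpoly E y).natDegree = 1 := by
      have := minpoly.natDegree_pos hint
      omega
    obtain ⟨b, hb⟩ := (minpoly.natDegree_eq_one_iff).mp h1
    apply hyE b
    rw [← hb]
    rfl
  have heq : minpoly E y = X ^ 2 - C a := by
    symm
    apply eq_of_monic_of_dvd_of_natDegree_le (minpoly.monic hint) hmonic hdvd
    rw [hdeg]; exact h2
  apply exists_algHom_of_splits_of_aeval
  · intro s
    exact ⟨(Algebra.IsAlgebraic.isAlgebraic s).isIntegral, IsAlgClosed.splits _⟩
  · rw [heq, map_sub, map_pow, aeval_X, aeval_C]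
    rw [neg_sq, ← hy]; ring

/-- **Square roots are linearly independent.** -/
theorem linearIndependent_sqrt {E L : Type*} [Field E] [Field L] [Algebra E L] [IsAlgClosed L]
    (h2 : (2 : L) ≠ 0) {ι : Type*} (x : ι → L) (hx : ∀ i, ∃ a : E, x i * x i = algebraMap E L a)
    (h0 : ∀ i, x i ≠ 0) (hij : ∀ i j, i ≠ j → ∀ a : E, x i ≠ algebraMap E L a * x j) :
    LinearIndependent E x := by
  classical
  have halg : ∀ i, x i ∈ algebraicClosure E L := by
    intro i
    rw [mem_algebraicClosure_iff]
    obtain ⟨a, ha⟩ := hx i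
    refine ⟨X ^ 2 - C a, (monic_X_pow_sub_C a two_ne_zero).ne_zero, ?_⟩
    rw [map_sub, map_pow, aeval_X, aeval_C, ← ha]; ring
  rw [linearIndependent_iff']
  intro s
  induction s using Finset.strongInduction with
  | H s ih =>
    intro g hg
    by_contra hcon
    push Not at hcon
    obtain ⟨i, hi, hgi⟩ := hcon
    -- a second index
    obtain ⟨j, hj, hji, hgj⟩ : ∃ j ∈ s, j ≠ i ∧ g j ≠ 0 := by
      by_contra h3
      push Not at h3
      rw [Finset.sum_eq_single i (fun j hj hji => by rw [h3 j hj hji, zero_smul])
        (fun h => absurd hi h)] at hg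
      rcases smul_eq_zero.mp hg with h4 | h4
      · exact hgi h4
      · exact h0 i h4
    -- the quotient
    set y : algebraicClosure E L := ⟨x i, halg i⟩ / ⟨x j, halg j⟩ with hy
    have hyv : (y : L) = x i / x j := rfl
    obtain ⟨ai, hai⟩ := hx i
    obtain ⟨aj, haj⟩ := hx j
    obtain ⟨φ, hφ⟩ := exists_embedding y (ai / aj) (by
      rw [hyv, map_div₀, ← hai, ← haj]
      rw [div_mul_div_comm]) (by
      intro b hb
      rw [hyv, div_eq_iff (h0 j)] at hb
      exact hij i j hji.symm b hb)
    -- signs
    have hsign : ∀ k, ∃ ε : E, φ ⟨x k, halg k⟩ = algebraMap E L ε * x k := by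
      intro k
      obtain ⟨a, ha⟩ := hx k
      have h3 : φ ⟨x k, halg k⟩ * φ ⟨x k, halg k⟩ = x k * x k := by
        rw [← map_mul, ha]
        have h4 : (⟨x k, halg k⟩ * ⟨x k, halg k⟩ : algebraicClosure E L) =
            algebraMap E _ a := Subtype.ext ha
        rw [h4, AlgHom.commutes]
      rcases mul_self_eq_mul_self_iff.mp h3 with h4 | h4
      · exact ⟨1, by rw [h4, map_one, one_mul]⟩
      · exact ⟨-1, by rw [h4, map_neg, map_one]; ring⟩
    choose ε hε using hsign
    have hεij : ε i ≠ ε j := by
      intro h3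
      have h4 : φ y = (y : L) := by
        have h5 : φ y = φ ⟨x i, halg i⟩ / φ ⟨x j, halg j⟩ := by rw [hy, map_div₀]
        have h6 : algebraMap E L (ε j) ≠ 0 := by
          intro h7
          have h8 := hε j
          rw [h7, zero_mul] at h8
          have h9 : (⟨x j, halg j⟩ : algebraicClosure E L) = 0 := by
            apply φ.toRingHom.injective
            change φ _ = φ 0
            rw [h8, map_zero]
          exact h0 j (congrArg Subtype.val h9)
        rw [h5, hε i, hε j, h3, hyv]
        field_simp
      rw [hφ] at h4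
      have h5 : (2 : L) * (y : L) = 0 := by linear_combination -h4
      have h6 : (y : L) ≠ 0 := by
        rw [hyv]
        exact div_ne_zero (h0 i) (h0 j)
      exact (mul_ne_zero h2 h6) h5
    -- apply `φ` to the relation
    have hg2 : ∑ k ∈ s, (g k * ε k) • x k = 0 := by
      have h3 : (∑ k ∈ s, g k • (⟨x k, halg k⟩ : algebraicClosure E L)) = 0 := by
        apply Subtype.ext
        refine Eq.trans ?_ hg
        rw [← IntermediateField.coe_val, map_sum]
        rfl
      have h4 := congrArg φ h3
      rw [map_sum, map_zero] at h4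
      rw [← h4]
      refine Finset.sum_congr rfl fun k _ => ?_
      rw [map_smul, hε k, Algebra.smul_def, Algebra.smul_def, map_mul, mul_assoc]
    have hg3 : ∑ k ∈ s.erase j, (g k * (ε k - ε j)) • x k = 0 := by
      have h3 : ∑ k ∈ s, (g k * (ε k - ε j)) • x k = 0 := by
        have h4 : ∀ k ∈ s, (g k * (ε k - ε j)) • x k = (g k * ε k) • x k - ε j • (g k • x k) := by
          intro k _
          rw [mul_sub, sub_smul, smul_smul, mul_comm (ε j)]
        rw [Finset.sum_congr rfl h4, Finset.sum_sub_distrib, hg2, ← Finset.smul_sum, hg, smul_zero,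
          sub_zero]
      rw [← Finset.add_sum_erase s _ hj, sub_self, mul_zero, zero_smul, zero_add] at h3
      exact h3
    have h5 := ih (s.erase j) (Finset.erase_ssubset hj) _ hg3 i (Finset.mem_erase.mpr ⟨hji.symm, hi⟩)
    rcases mul_eq_zero.mp h5 with h6 | h6
    · exact hgi h6
    · exact hεij (sub_eq_zero.mp h6)

end Pool.Agent.N770
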