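import Pool.Agent.N770.Dir

/-!
# Quadratic relations in a four-dimensional space: at most three planes
-/

set_option autoImplicit false

namespace Pool.Agent.N770

open Polynomial Module IntermediateField Pool.Agent.W256

variable {K L : Type*} [Field K] [Field L] [Algebra K L]

/-- polynomials of degree at most four -/
theorem li_five {v : L} (hv : Transcendental K v) (c0 c1 c2 c3 c4 : K)
    (h : algebraMap K L c0 + algebraMap K L c1 * v + algebraMap K L c2 * v ^ 2 +
      algebraMap K L c3 * v ^ 3 + algebraMap K L c4 * v ^ 4 = 0) :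
    c0 = 0 ∧ c1 = 0 ∧ c2 = 0 ∧ c3 = 0 ∧ c4 = 0 := by
  have h1 : aeval v (C c0 + C c1 * X + C c2 * X ^ 2 + C c3 * X ^ 3 + C c4 * X ^ 4 : K[X]) = 0 := by
    rw [← h]
    simp only [map_add, map_mul, map_pow, aeval_C, aeval_X]
  have h2 : (C c0 + C c1 * X + C c2 * X ^ 2 + C c3 * X ^ 3 + C c4 * X ^ 4 : K[X]) = 0 := by
    by_contra h3
    exact hv ⟨_, h3, h1⟩
  refine ⟨?_, ?_, ?_, ?_, ?_⟩
  · have := congrArg (fun p => coeff p 0) h2
    simpa using this
  · have := congrArg (fun p => coeff p 1) h2
    simpa [coeff_X, coeff_C] using this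
  · have := congrArg (fun p => coeff p 2) h2
    simpa [coeff_X, coeff_C] using this
  · have := congrArg (fun p => coeff p 3) h2
    simpa [coeff_X, coeff_C] using this
  · have := congrArg (fun p => coeff p 4) h2
    simpa [coeff_X, coeff_C] using this

/-- constants are squares -/
theorem const_sq [IsAlgClosed K] (c : K) : ∃ q : K[X], (C c : K[X]) = q * q := by
  obtain ⟨b, hb⟩ := IsAlgClosed.exists_pow_nat_eq c (n := 2) (by norm_num)
  exact ⟨C b, by rw [← C_mul, ← hb, pow_two]⟩

/-- **First case**: two square roots. -/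
theorem third_plane_AA [IsAlgClosed K] [IsAlgClosed L] (h2 : (2 : K) ≠ 0) {v a b : L}
    (hv : Transcendental K v) (p₁ p₂ : K[X]) (hd1 : p₁.natDegree ≤ 2) (hd2 : p₂.natDegree ≤ 2)
    (ha : a * a = aeval v p₁) (hb : b * b = aeval v p₂) (hs1 : ∀ q : K[X], p₁ ≠ q * q)
    (hs2 : ∀ q : K[X], p₂ ≠ q * q) (hab : ∀ c : K, a ≠ algebraMap K L c * b) (α β : K)
    (h : QuadRel K (a - algebraMap K L α * v) (b - algebraMap K L β * v)) : α = 0 ∧ β = 0 := by
  have h2L : (2 : L) ≠ 0 := by
    intro h0
    apply h2
    apply (algebraMap K L).injective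
    rw [map_ofNat, map_zero, h0]
  have hpolyE : ∀ q : K[X], aeval v q ∈ K⟮v⟯ := by
    intro q
    have h3 : aeval v q = algebraMap K⟮v⟯ L (aeval (AdjoinSimple.gen K v) q) := by
      rw [← aeval_algebraMap_apply, AdjoinSimple.algebraMap_gen]
    rw [h3]
    exact (aeval (AdjoinSimple.gen K v) q).2
  have haE : a ∉ K⟮v⟯ := by
    intro hi
    obtain ⟨q, -, hq⟩ := exists_poly_of_sq hv a hi p₁ ha
    exact hs1 q hq
  have hbE : b ∉ K⟮v⟯ := by
    intro hi
    obtain ⟨q, -, hq⟩ := exists_poly_of_sq hv b hi p₂ hb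
    exact hs2 q hq
  have ha0 : a ≠ 0 := fun h0 => haE (by rw [h0]; exact zero_mem _)
  have hb0 : b ≠ 0 := fun h0 => hbE (by rw [h0]; exact zero_mem _)
  have hp1 : p₁ ≠ 0 := fun h5 => hs1 0 (by rw [h5, mul_zero])
  have hp2 : p₂ ≠ 0 := fun h5 => hs2 0 (by rw [h5, mul_zero])
  have habE : a * b ∉ K⟮v⟯ := by
    intro hi
    obtain ⟨q, -, hq⟩ := exists_poly_of_sq hv (a * b) hi (p₁ * p₂) (by
      rw [map_mul, ← ha, ← hb]; ring)
    obtain ⟨c, hc⟩ := proportional_of_mul_eq_sq p₁ p₂ q hp1 hp2
      (rootMultiplicity_le_one _ hd1 hs1) (rootMultiplicity_le_one _ hd2 hs2) hq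
    obtain ⟨d, hd⟩ := IsAlgClosed.exists_pow_nat_eq c (n := 2) (by norm_num)
    have h5 : a * a = (algebraMap K L d * b) * (algebraMap K L d * b) := by
      rw [ha, hc, map_mul, aeval_C, ← hb, ← hd, map_pow]; ring
    rcases mul_self_eq_mul_self_iff.mp h5 with h7 | h7
    · exact hab d h7
    · apply hab (-d)
      rw [h7, map_neg]; ring
  have hli : LinearIndependent K⟮v⟯ ![1, a, b, a * b] := by
    apply linearIndependent_sqrt h2L
    · intro i
      fin_cases i
      · exact ⟨1, by rw [map_one]; exact one_mul 1⟩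
      · exact ⟨⟨_, hpolyE p₁⟩, ha⟩
      · exact ⟨⟨_, hpolyE p₂⟩, hb⟩
      · refine ⟨⟨_, hpolyE (p₁ * p₂)⟩, ?_⟩
        change a * b * (a * b) = aeval v (p₁ * p₂)
        rw [map_mul, ← ha, ← hb]; ring
    · intro i
      fin_cases i
      · exact one_ne_zero
      · exact ha0
      · exact hb0
      · exact mul_ne_zero ha0 hb0
    · intro i j hij e
      have hinv : ∀ x : L, (1 : L) = (e : L) * x → x ∈ K⟮v⟯ := by
        intro x hx
        have h5 : (e : L) ≠ 0 := by
          intro h6
          rw [h6, zero_mul] at hx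
          exact one_ne_zero hx
        have h6 : x = (e : L)⁻¹ := by
          field_simp
          linear_combination -hx
        rw [h6]
        exact inv_mem e.2
      fin_cases i <;> fin_cases j
      · exact absurd rfl hij
      · exact fun h3 => haE (hinv a h3)
      · exact fun h3 => hbE (hinv b h3)
      · exact fun h3 => habE (hinv (a * b) h3)
      · intro h3
        have h4 : a = (e : L) * 1 := h3
        rw [h4, mul_one] at haE
        exact haE e.2
      · exact absurd rfl hij
      · intro h3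
        have h4 : a = (e : L) * b := h3
        apply habE
        rw [h4, mul_assoc, hb]
        exact mul_mem e.2 (hpolyE p₂)
      · intro h3
        have h4 : a = (e : L) * (a * b) := h3
        apply hbE
        apply hinv
        apply mul_left_cancel₀ ha0
        linear_combination h4
      · intro h3
        have h4 : b = (e : L) * 1 := h3
        rw [h4, mul_one] at hbE
        exact hbE e.2
      · intro h3
        have h4 : b = (e : L) * a := h3
        apply habE
        have h5 : a * b = (e : L) * (a * a) := by rw [h4]; ring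
        rw [h5, ha]
        exact mul_mem e.2 (hpolyE p₁)
      · exact absurd rfl hij
      · intro h3
        have h4 : b = (e : L) * (a * b) := h3
        apply haE
        apply hinv
        apply mul_left_cancel₀ hb0
        linear_combination h4
      · intro h3
        have h4 : a * b = (e : L) * 1 := h3
        rw [h4, mul_one] at habE
        exact habE e.2
      · intro h3
        have h4 : a * b = (e : L) * a := h3
        apply hbE
        have h5 : b = e := by
          apply mul_left_cancel₀ ha0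
          linear_combination h4
        rw [h5]; exact e.2
      · intro h3
        have h4 : a * b = (e : L) * b := h3
        apply haE
        have h5 : a = e := by
          apply mul_left_cancel₀ hb0
          linear_combination h4
        rw [h5]; exact e.2
      · exact absurd rfl hij
  obtain ⟨c, hc, hrel⟩ := h
  simp only [Algebra.smul_def, mul_one] at hrel
  obtain ⟨a0, a1, a2, hp1e⟩ : ∃ a0 a1 a2 : K, p₁ = C a2 * X ^ 2 + C a1 * X + C a0 := by
    refine ⟨p₁.coeff 0, p₁.coeff 1, p₁.coeff 2, ?_⟩
    ext n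
    rcases n with _ | _ | _ | n
    · simp
    · simp [coeff_X, coeff_C]
    · simp [coeff_X, coeff_C]
    · rw [coeff_eq_zero_of_natDegree_lt (by omega)]
      simp [coeff_X, coeff_C]
  obtain ⟨b0, b1, b2, hp2e⟩ : ∃ b0 b1 b2 : K, p₂ = C b2 * X ^ 2 + C b1 * X + C b0 := by
    refine ⟨p₂.coeff 0, p₂.coeff 1, p₂.coeff 2, ?_⟩
    ext n
    rcases n with _ | _ | _ | n
    · simp
    · simp [coeff_X, coeff_C]
    · simp [coeff_X, coeff_C]
    · rw [coeff_eq_zero_of_natDegree_lt (by omega)]
      simp [coeff_X, coeff_C]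
  have ha' : a * a = algebraMap K L a2 * v ^ 2 + algebraMap K L a1 * v + algebraMap K L a0 := by
    rw [ha, hp1e]
    simp only [map_add, map_mul, map_pow, aeval_C, aeval_X]
  have hb' : b * b = algebraMap K L b2 * v ^ 2 + algebraMap K L b1 * v + algebraMap K L b0 := by
    rw [hb, hp2e]
    simp only [map_add, map_mul, map_pow, aeval_C, aeval_X]
  -- the coefficients
  let g0 : K[X] := C (c 0 * (a2 + α ^ 2) + c 2 * (b2 + β ^ 2) + c 1 * α * β) * X ^ 2 +
    C (c 0 * a1 + c 2 * b1 - c 3 * α - c 4 * β) * X + C (c 0 * a0 + c 2 * b0 + c 5)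
  let g1 : K[X] := C (-2 * α * c 0 - c 1 * β) * X + C (c 3)
  let g2 : K[X] := C (-2 * β * c 2 - c 1 * α) * X + C (c 4)
  let g3 : K[X] := C (c 1)
  have hsum := Fintype.linearIndependent_iff.mp hli ![⟨_, hpolyE g0⟩, ⟨_, hpolyE g1⟩,
    ⟨_, hpolyE g2⟩, ⟨_, hpolyE g3⟩] (by
    rw [Fin.sum_univ_four]
    change aeval v g0 * 1 + aeval v g1 * a + aeval v g2 * b + aeval v g3 * (a * b) = 0
    simp only [g0, g1, g2, g3, map_add, map_sub, map_mul, map_pow, aeval_C, aeval_X, map_neg,
      map_ofNat]
    linear_combination hrel - algebraMap K L (c 0) * ha' - algebraMap K L (c 2) * hb')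
  have e0 : aeval v g0 = 0 := congrArg Subtype.val (hsum 0)
  have e1 : aeval v g1 = 0 := congrArg Subtype.val (hsum 1)
  have e2 : aeval v g2 = 0 := congrArg Subtype.val (hsum 2)
  have e3 : aeval v g3 = 0 := congrArg Subtype.val (hsum 3)
  simp only [g0, g1, g2, g3, map_add, map_mul, map_pow, aeval_C, aeval_X] at e0 e1 e2 e3
  have hc1 : c 1 = 0 := (map_eq_zero _).mp e3
  obtain ⟨f3, f1, -, -, -⟩ := li_five hv (c 3) (-2 * α * c 0 - c 1 * β) 0 0 0 (by
    rw [map_zero]; linear_combination e1)
  obtain ⟨f4, f2, -, -, -⟩ := li_five hv (c 4) (-2 * β * c 2 - c 1 * α) 0 0 0 (by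
    rw [map_zero]; linear_combination e2)
  obtain ⟨g00, g01, g02, -, -⟩ := li_five hv (c 0 * a0 + c 2 * b0 + c 5)
    (c 0 * a1 + c 2 * b1 - c 3 * α - c 4 * β)
    (c 0 * (a2 + α ^ 2) + c 2 * (b2 + β ^ 2) + c 1 * α * β) 0 0 (by
    simp only [map_zero, map_add, map_mul, map_pow]; linear_combination e0)
  have hα : α * c 0 = 0 := by
    have h3 : (2 : K) * (α * c 0) = 0 := by linear_combination -f1 - β * hc1
    exact (mul_eq_zero.mp h3).resolve_left h2
  have hβ : β * c 2 = 0 := by
    have h3 : (2 : K) * (β * c 2) = 0 := by linear_combination -f2 - α * hc1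
    exact (mul_eq_zero.mp h3).resolve_left h2
  have hc0 : c 0 ≠ 0 := by
    intro h0
    have hc2 : c 2 ≠ 0 := by
      intro h3
      apply hc
      rw [h0, h3, zero_mul, zero_mul, zero_add, zero_add] at g00
      funext i
      fin_cases i
      · exact h0
      · exact hc1
      · exact h3
      · exact f3
      · exact f4
      · exact g00
    have hβ0 : β = 0 := (mul_eq_zero.mp hβ).resolve_right hc2
    have hb2 : b2 = 0 := by
      have h3 : c 2 * b2 = 0 := by
        rw [h0, hc1, hβ0] at g02
        linear_combination g02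
      exact (mul_eq_zero.mp h3).resolve_left hc2
    have hb1 : b1 = 0 := by
      have h3 : c 2 * b1 = 0 := by
        rw [h0, f3, f4] at g01
        linear_combination g01
      exact (mul_eq_zero.mp h3).resolve_left hc2
    obtain ⟨q, hq⟩ := const_sq b0
    apply hs2 q
    rw [hp2e, hb2, hb1, ← hq]
    simp
  have hc2 : c 2 ≠ 0 := by
    intro h0
    have hα0 : α = 0 := (mul_eq_zero.mp hα).resolve_right hc0
    have ha2 : a2 = 0 := by
      have h3 : c 0 * a2 = 0 := by
        rw [h0, hc1, hα0] at g02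
        linear_combination g02
      exact (mul_eq_zero.mp h3).resolve_left hc0
    have ha1 : a1 = 0 := by
      have h3 : c 0 * a1 = 0 := by
        rw [h0, f3, f4] at g01
        linear_combination g01
      exact (mul_eq_zero.mp h3).resolve_left hc0
    obtain ⟨q, hq⟩ := const_sq a0
    apply hs1 q
    rw [hp1e, ha2, ha1, ← hq]
    simp
  exact ⟨(mul_eq_zero.mp hα).resolve_right hc0, (mul_eq_zero.mp hβ).resolve_right hc2⟩

end Pool.Agent.N770
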