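import Pool.Agent.N770.Tri

/-!
# Quadratic relations in a four-dimensional space: the remaining cases
-/

set_option autoImplicit false

namespace Pool.Agent.N770

open Polynomial Module IntermediateField Pool.Agent.W256

variable {K L : Type*} [Field K] [Field L] [Algebra K L]

theorem aeval_mem_adjoin (v : L) (q : K[X]) : aeval v q ∈ K⟮v⟯ := by
  have h3 : aeval v q = algebraMap K⟮v⟯ L (aeval (AdjoinSimple.gen K v) q) := by
    rw [← aeval_algebraMap_apply, AdjoinSimple.algebraMap_gen]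
  rw [h3]
  exact (aeval (AdjoinSimple.gen K v) q).2

/-- an element whose square is not a square in `K[v]` is independent of `1` over `K(v)` -/
theorem li_sqrt {v a : L} (hv : Transcendental K v) (p : K[X]) (ha : a * a = aeval v p)
    (hs : ∀ q : K[X], p ≠ q * q) (e f : L) (he : e ∈ K⟮v⟯) (hf : f ∈ K⟮v⟯)
    (h : e + f * a = 0) : e = 0 ∧ f = 0 := by
  by_cases hf0 : f = 0
  · rw [hf0, zero_mul, add_zero] at h
    exact ⟨h, hf0⟩
  · exfalso
    obtain ⟨q, -, hq⟩ := exists_poly_of_sq hv a (by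
      have h3 : a = -e / f := by
        field_simp
        linear_combination h
      rw [h3]
      exact div_mem (neg_mem he) hf) p ha
    exact hs q hq

theorem li_five' {v : L} (hv : Transcendental K v) (c0 c1 c2 c3 c4 : K)
    (h : aeval v (C c0 + C c1 * X + C c2 * X ^ 2 + C c3 * X ^ 3 + C c4 * X ^ 4 : K[X]) = 0) :
    c0 = 0 ∧ c1 = 0 ∧ c2 = 0 ∧ c3 = 0 ∧ c4 = 0 := by
  apply li_five hv
  rw [← h]
  simp only [map_add, map_mul, map_pow, aeval_C, aeval_X]

theorem quad_poly (p : K[X]) (h : p.natDegree ≤ 2) :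
    ∃ a0 a1 a2 : K, p = C a2 * X ^ 2 + C a1 * X + C a0 := by
  refine ⟨p.coeff 0, p.coeff 1, p.coeff 2, ?_⟩
  ext n
  rcases n with _ | _ | _ | n
  · simp
  · simp [coeff_X, coeff_C]
  · simp [coeff_X, coeff_C]
  · rw [coeff_eq_zero_of_natDegree_lt (by omega)]
    simp [coeff_X, coeff_C]

/-- **Second case**: a square root and a square. -/
theorem third_plane_AB [IsAlgClosed K] (h2 : (2 : K) ≠ 0) {v a : L}
    (hv : Transcendental K v) (a0 a1 a2 : K)
    (ha : a * a = aeval v (C a2 * X ^ 2 + C a1 * X + C a0 : K[X]))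
    (hs1 : ∀ q : K[X], (C a2 * X ^ 2 + C a1 * X + C a0 : K[X]) ≠ q * q)
    (α β : K)
    (h : QuadRel K (a - algebraMap K L α * v) (v * v - algebraMap K L β * v)) :
    α = 0 ∧ a2 ≠ 0 ∧ a2 * β = - a1 := by
  obtain ⟨c, hc, hrel⟩ := h
  simp only [Algebra.smul_def, mul_one] at hrel
  have ha' : a * a = algebraMap K L a2 * v ^ 2 + algebraMap K L a1 * v + algebraMap K L a0 := by
    rw [ha]
    simp only [map_add, map_mul, map_pow, aeval_C, aeval_X]
  let g0 : K[X] := C (c 0 * a0 + c 5) + C (c 0 * a1 - c 3 * α - c 4 * β) * X +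
    C (c 0 * (a2 + α ^ 2) + c 1 * (α * β) + c 2 * β ^ 2 + c 4) * X ^ 2 +
    C (- c 1 * α - 2 * β * c 2) * X ^ 3 + C (c 2) * X ^ 4
  let g1 : K[X] := C (c 3) + C (-2 * α * c 0 - c 1 * β) * X + C (c 1) * X ^ 2 + C 0 * X ^ 3 +
    C 0 * X ^ 4
  obtain ⟨e0, e1⟩ := li_sqrt hv _ ha hs1 (aeval v g0) (aeval v g1) (aeval_mem_adjoin v g0)
    (aeval_mem_adjoin v g1) (by
    simp only [g0, g1, map_add, map_sub, map_mul, map_pow, aeval_C, aeval_X, map_neg,
      map_ofNat, map_zero]
    linear_combination hrel - algebraMap K L (c 0) * ha')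
  obtain ⟨f0, f1, f2, -, -⟩ := li_five' hv _ _ _ _ _ e1
  obtain ⟨k0, k1, k2', k3, k4⟩ := li_five' hv _ _ _ _ _ e0
  have hα : α * c 0 = 0 := by
    have h3 : (2 : K) * (α * c 0) = 0 := by linear_combination -f1 - β * f2
    exact (mul_eq_zero.mp h3).resolve_left h2
  have k2 : c 0 * a2 + c 4 = 0 := by
    linear_combination k2' - α * hα - α * β * f2 - β ^ 2 * k4
  have hc0 : c 0 ≠ 0 := by
    intro h0
    have h4 : c 4 = 0 := by linear_combination k2 - a2 * h0
    apply hc
    funext i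
    fin_cases i
    · exact h0
    · exact f2
    · exact k4
    · exact f0
    · exact h4
    · change c 5 = 0
      linear_combination k0 - a0 * h0
  have hα0 : α = 0 := (mul_eq_zero.mp hα).resolve_right hc0
  have hβ : c 0 * (a2 * β + a1) = 0 := by
    linear_combination k1 + α * f0 + β * k2
  have hβ' := (mul_eq_zero.mp hβ).resolve_left hc0
  refine ⟨hα0, ?_, by linear_combination hβ'⟩
  intro h0
  have ha1 : a1 = 0 := by linear_combination hβ' - β * h0
  obtain ⟨q, hq⟩ := const_sq a0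
  apply hs1 q
  rw [h0, ha1, ← hq]
  simp

/-- **Third case**: a square root and an inverse. -/
theorem third_plane_AC [IsAlgClosed K] (h2 : (2 : K) ≠ 0) {v a : L}
    (hv : Transcendental K v) (a0 a1 a2 : K)
    (ha : a * a = aeval v (C a2 * X ^ 2 + C a1 * X + C a0 : K[X]))
    (hs1 : ∀ q : K[X], (C a2 * X ^ 2 + C a1 * X + C a0 : K[X]) ≠ q * q)
    (r α β : K)
    (h : QuadRel K (a - algebraMap K L α * v) ((v - algebraMap K L r)⁻¹ - algebraMap K L β * v)) :
    False := by
  obtain ⟨c, hc, hrel⟩ := h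
  simp only [Algebra.smul_def, mul_one] at hrel
  have hvr : v - algebraMap K L r ≠ 0 := by
    intro h0
    apply hv
    rw [sub_eq_zero.mp h0]
    exact isAlgebraic_algebraMap r
  have ha' : a * a = algebraMap K L a2 * v ^ 2 + algebraMap K L a1 * v + algebraMap K L a0 := by
    rw [ha]
    simp only [map_add, map_mul, map_pow, aeval_C, aeval_X]
  set w := v - algebraMap K L r with hw
  set b := w⁻¹ with hb
  have hbw : b * w = 1 := inv_mul_cancel₀ hvr
  -- the relation multiplied by `w ^ 2`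
  let g1 : K[X] := -C (2 * α * c 0) * X * (X - C r) ^ 2 + C (c 1) * (1 - C β * X * (X - C r)) *
    (X - C r) + C (c 3) * (X - C r) ^ 2
  let g0 : K[X] := C (c 0) * (C a2 * X ^ 2 + C a1 * X + C a0 + C α ^ 2 * X ^ 2) * (X - C r) ^ 2 -
    C (c 1 * α) * X * (1 - C β * X * (X - C r)) * (X - C r) +
    C (c 2) * (1 - C β * X * (X - C r)) ^ 2 - C (c 3 * α) * X * (X - C r) ^ 2 +
    C (c 4) * (1 - C β * X * (X - C r)) * (X - C r) + C (c 5) * (X - C r) ^ 2
  obtain ⟨e0, e1⟩ := li_sqrt hv _ ha hs1 (aeval v g0) (aeval v g1) (aeval_mem_adjoin v g0)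
    (aeval_mem_adjoin v g1) (by
    simp only [g0, g1, map_add, map_sub, map_mul, map_pow, aeval_C, aeval_X, map_neg,
      map_ofNat, map_one]
    rw [← hw]
    linear_combination w ^ 2 * hrel - algebraMap K L (c 0) * w ^ 2 * ha' +
      (algebraMap K L (c 1) * (-(a - algebraMap K L α * v) * w) +
        algebraMap K L (c 2) * (-(b * w + 1) + 2 * algebraMap K L β * v * w) -
        algebraMap K L (c 4) * w) * hbw)
  simp only [g0, g1, map_add, map_sub, map_mul, map_pow, aeval_C, aeval_X, map_neg,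
      map_ofNat, map_one, ← hw] at e0 e1
  have e1' : -(2 * algebraMap K L α * algebraMap K L (c 0)) * v * w +
      algebraMap K L (c 1) * (1 - algebraMap K L β * v * w) + algebraMap K L (c 3) * w = 0 := by
    apply mul_left_cancel₀ hvr
    rw [mul_zero, ← e1]
    ring
  obtain ⟨f0, f1, f2, -, -⟩ := li_five hv (c 1 - c 3 * r) (2 * α * c 0 * r + c 1 * β * r + c 3)
    (-2 * α * c 0 - c 1 * β) 0 0 (by
    rw [hw] at e1'
    simp only [map_sub, map_add, map_mul, map_zero, map_neg, map_ofNat]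
    linear_combination e1')
  have hc3 : c 3 = 0 := by linear_combination f1 + r * f2
  have hc1 : c 1 = 0 := by linear_combination f0 + r * hc3
  have hα : α * c 0 = 0 := by
    have h3 : (2 : K) * (α * c 0) = 0 := by linear_combination -f2 - β * hc1
    exact (mul_eq_zero.mp h3).resolve_left h2
  have hαL : algebraMap K L α * algebraMap K L (c 0) = 0 := by rw [← map_mul, hα, map_zero]
  rw [hc1, hc3] at e0
  have e2 : (algebraMap K L (c 0) * (a * a) * w ^ 2 +
    algebraMap K L (c 2) * (1 - algebraMap K L β * v * w) ^ 2 +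
    algebraMap K L (c 4) * (1 - algebraMap K L β * v * w) * w + algebraMap K L (c 5) * w ^ 2) = 0 := by
    rw [ha']
    simp only [map_zero] at e0
    linear_combination e0 - algebraMap K L α * v ^ 2 * w ^ 2 * hαL
  rw [ha'] at e2
  obtain ⟨k0, k1, k2, k3, k4⟩ := li_five hv
    (c 0 * a0 * r ^ 2 + c 2 - c 4 * r + c 5 * r ^ 2)
    (c 0 * a1 * r ^ 2 - 2 * r * c 0 * a0 + 2 * c 2 * β * r + c 4 * (1 - β * r ^ 2) - 2 * r * c 5)
    (c 0 * (a2 * r ^ 2 - 2 * r * a1 + a0) + c 2 * (β ^ 2 * r ^ 2 - 2 * β) + c 4 * (2 * β * r) + c 5)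
    (c 0 * (a1 - 2 * r * a2) - 2 * c 2 * β ^ 2 * r - c 4 * β) (c 0 * a2 + c 2 * β ^ 2) (by
    rw [hw] at e2
    simp only [map_sub, map_add, map_mul, map_zero, map_neg, map_ofNat, map_pow, map_one]
    linear_combination e2)
  have hc2 : c 2 = 0 := by
    linear_combination k0 + r * k1 + r ^ 2 * k2 + r ^ 3 * k3 + r ^ 4 * k4
  rw [hc2, map_zero, zero_mul, add_zero] at e2
  have e3 : algebraMap K L (c 0) * (algebraMap K L a2 * v ^ 2 + algebraMap K L a1 * v +
      algebraMap K L a0) * w + algebraMap K L (c 4) * (1 - algebraMap K L β * v * w) +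
      algebraMap K L (c 5) * w = 0 := by
    apply mul_left_cancel₀ hvr
    rw [mul_zero, ← e2]
    ring
  obtain ⟨l0, l1, l2, l3, -⟩ := li_five hv
    (-r * c 0 * a0 + c 4 - r * c 5)
    (c 0 * a0 - r * c 0 * a1 + c 4 * β * r + c 5)
    (c 0 * (a1 - r * a2) - c 4 * β)
    (c 0 * a2) 0 (by
    rw [hw] at e3
    simp only [map_sub, map_add, map_mul, map_zero, map_neg, map_ofNat, map_pow, map_one]
    linear_combination e3)
  have hc4 : c 4 = 0 := by
    linear_combination l0 + r * l1 + r ^ 2 * l2 + r ^ 3 * l3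
  rw [hc4, map_zero, zero_mul, add_zero] at e3
  have hc0 : c 0 ≠ 0 := by
    intro h0
    apply hc
    funext i
    fin_cases i
    · exact h0
    · exact hc1
    · exact hc2
    · exact hc3
    · exact hc4
    · change c 5 = 0
      linear_combination l1 - (a0 - r * a1) * h0 - β * r * hc4
  have ha2 : a2 = 0 := (mul_eq_zero.mp l3).resolve_left hc0
  have ha1 : a1 = 0 := by
    have h3 : c 0 * a1 = 0 := by linear_combination l2 + r * c 0 * ha2 + β * hc4
    exact (mul_eq_zero.mp h3).resolve_left hc0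
  obtain ⟨q, hq⟩ := const_sq a0
  apply hs1 q
  rw [ha2, ha1, ← hq]
  simp

end Pool.Agent.N770
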