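import Pool.Agent.N770.Tri2

/-!
# Quadratic relations in a four-dimensional space: at most three planes
-/

set_option autoImplicit false

namespace Pool.Agent.N770

open Polynomial Module IntermediateField Pool.Agent.W256

variable {K L : Type*} [Field K] [Field L] [Algebra K L]

theorem quadRel_iff_not_li (u v : L) :
    QuadRel K u v ↔ ¬ LinearIndependent K ![u * u, u * v, v * v, u, v, 1] := by
  rw [Fintype.linearIndependent_iff]
  push Not
  constructor
  · rintro ⟨c, hc, h⟩
    refine ⟨c, ?_, Function.ne_iff.mp hc⟩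
    rw [Fin.sum_univ_six]
    exact h
  · rintro ⟨c, h, hc⟩
    refine ⟨c, Function.ne_iff.mpr hc, ?_⟩
    rw [Fin.sum_univ_six] at h
    exact h

theorem span_six (u v : L) :
    Submodule.span K (Set.range ![u * u, u * v, v * v, u, v, 1]) =
      Submodule.span K {1, u, v} * Submodule.span K {1, u, v} := by
  rw [Submodule.span_mul_span]
  congr 1
  ext w
  simp only [Set.mem_range, Set.mem_mul, Set.mem_insert_iff, Set.mem_singleton_iff]
  constructor
  · rintro ⟨i, rfl⟩
    fin_cases i
    · exact ⟨u, by simp, u, by simp, rfl⟩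
    · exact ⟨u, by simp, v, by simp, rfl⟩
    · exact ⟨v, by simp, v, by simp, rfl⟩
    · exact ⟨1, by simp, u, by simp, one_mul u⟩
    · exact ⟨1, by simp, v, by simp, one_mul v⟩
    · exact ⟨1, by simp, 1, by simp, one_mul 1⟩
  · rintro ⟨x, (rfl | rfl | rfl), y, (rfl | rfl | rfl), rfl⟩
    · exact ⟨5, (one_mul _).symm⟩
    · exact ⟨3, (one_mul _).symm⟩
    · exact ⟨4, (one_mul _).symm⟩
    · exact ⟨3, (mul_one _).symm⟩
    · exact ⟨0, rfl⟩
    · exact ⟨1, rfl⟩
    · exact ⟨4, (mul_one _).symm⟩
    · exact ⟨1, mul_comm _ _⟩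
    · exact ⟨2, rfl⟩

/-- the relation depends only on the plane -/
theorem QuadRel.congr {u v u' v' : L}
    (h : Submodule.span K ({1, u, v} : Set L) = Submodule.span K {1, u', v'})
    (hq : QuadRel K u v) : QuadRel K u' v' := by
  rw [quadRel_iff_not_li] at hq ⊢
  rw [linearIndependent_iff_card_eq_finrank_span, Set.finrank, span_six] at hq ⊢
  rwa [← h]

/-- a plane with a quadratic relation -/
def Bad (T : Submodule K L) : Prop :=
  ∃ u v : L, LinearIndependent K ![1, u, v] ∧ T = Submodule.span K {1, u, v} ∧ QuadRel K u v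

theorem Bad.one_mem {T : Submodule K L} (h : Bad T) : (1 : L) ∈ T := by
  obtain ⟨u, v, -, rfl, -⟩ := h
  exact Submodule.subset_span (Or.inl rfl)

theorem Bad.finrank_eq {T : Submodule K L} (h : Bad T) : finrank K T = 3 := by
  obtain ⟨u, v, hli, rfl, -⟩ := h
  have h3 : finrank K (Submodule.span K (Set.range ![1, u, v])) = 3 := by
    have := finrank_span_eq_card hli
    rwa [Fintype.card_fin] at this
  rwa [range_three] at h3

theorem Bad.quadRel {T : Submodule K L} (h : Bad T) {x y : L} (hx : x ∈ T) (hy : y ∈ T)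
    (hli : ∀ a b c : K, a • (1 : L) + b • x + c • y = 0 → a = 0 ∧ b = 0 ∧ c = 0) :
    T = Submodule.span K {1, x, y} ∧ QuadRel K x y := by
  have h1 := span_eq_of_three h.finrank_eq 1 x y h.one_mem hx hy hli
  refine ⟨h1, ?_⟩
  obtain ⟨u, v, -, hT, hq⟩ := h
  exact hq.congr (hT.symm.trans h1)

/-- normal forms -/
def Shape (v a : L) : Prop :=
  (∃ a0 a1 a2 : K, a * a = aeval v (C a2 * X ^ 2 + C a1 * X + C a0 : K[X]) ∧
    ∀ q : K[X], (C a2 * X ^ 2 + C a1 * X + C a0 : K[X]) ≠ q * q) ∨
  a = v * v ∨ (∃ r : K, a = (v - algebraMap K L r)⁻¹)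

theorem QuadRel.symm {u v : L} (h : QuadRel K u v) : QuadRel K v u := by
  refine h.congr (?_ : Submodule.span K ({1, u, v} : Set L) = Submodule.span K {1, v, u})
  rw [Set.pair_comm u v]

/-- three bad planes through a common point -/
theorem three_through [IsAlgClosed K] [IsAlgClosed L] (h2 : (2 : K) ≠ 0) (S : Submodule K L)
    (hS : SixExp K S) (V : Submodule K L) [FiniteDimensional K V] (hVS : V ≤ S)
    (hV4 : finrank K V ≤ 4) (v : L) (hv : Transcendental K v)
    (T : Fin 3 → Submodule K L) (hT : ∀ i, Bad (T i)) (hTV : ∀ i, T i ≤ V)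
    (hinj : Function.Injective T) (hvT : ∀ i, v ∈ T i) : False := by
  have h1V : (1 : L) ∈ V := hTV 0 (hT 0).one_mem
  have hvV : v ∈ V := hTV 0 (hvT 0)
  have hvc : ∀ c : K, v ≠ algebraMap K L c := by
    intro c hc
    apply hv
    rw [hc]
    exact isAlgebraic_algebraMap c
  set M := Submodule.span K ({1, v} : Set L) with hM
  have hli2 : LinearIndependent K ![(1 : L), v] := by
    rw [LinearIndependent.pair_iff]
    intro s t hst
    obtain ⟨h3, h4, -⟩ := li_of_nonconst v hvc s t 0 (by rw [zero_smul, add_zero]; exact hst)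
    exact ⟨h3, h4⟩
  have hM2 : finrank K M = 2 := by
    have h3 := finrank_span_eq_card hli2
    rw [Fintype.card_fin] at h3
    have h4 : Set.range ![(1 : L), v] = {1, v} := by
      simp [Matrix.range_cons, Matrix.range_empty, Set.pair_comm]
    rwa [h4] at h3
  have hfdM : FiniteDimensional K M := FiniteDimensional.of_finrank_pos (by rw [hM2]; norm_num)
  have hex : ∀ i, ∃ x ∈ T i, x ∉ M := by
    intro i
    by_contra hcon
    push Not at hcon
    have h3 : T i ≤ M := hcon
    have h4 := Submodule.finrank_mono h3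
    rw [(hT i).finrank_eq, hM2] at h4
    omega
  choose u huT huM using hex
  have hli3 : ∀ i, ∀ a b c : K, a • (1 : L) + b • v + c • u i = 0 → a = 0 ∧ b = 0 ∧ c = 0 := by
    intro i a b c habc
    have hc : c = 0 := by
      by_contra hc
      apply huM i
      have h3 : u i = c⁻¹ • (-(a • (1 : L) + b • v)) := by
        rw [neg_eq_of_add_eq_zero_right habc, smul_smul, inv_mul_cancel₀ hc, one_smul]
      rw [h3]
      exact M.smul_mem _ (neg_mem (Submodule.mem_span_pair.mpr ⟨a, b, rfl⟩))
    rw [hc, zero_smul, add_zero] at habc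
    obtain ⟨h3, h4⟩ := LinearIndependent.pair_iff.mp hli2 a b habc
    exact ⟨h3, h4, hc⟩
  have hq : ∀ i, QuadRel K (u i) v := fun i => ((hT i).quadRel (hvT i) (huT i) (hli3 i)).2.symm
  have hTe : ∀ i, T i = Submodule.span K {1, v, u i} := fun i =>
    ((hT i).quadRel (hvT i) (huT i) (hli3 i)).1
  have hMT : ∀ i, M ≤ T i := by
    intro i
    rw [hM, Submodule.span_le]
    rintro x (rfl | hx)
    · exact (hT i).one_mem
    · rw [Set.mem_singleton_iff] at hx
      rw [hx]; exact hvT i
  have hp : ∀ i j, i ≠ j → ∀ c : K, u i - c • u j ∉ M := by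
    intro i j hij c hc
    apply hij
    apply hinj
    have hfdT : FiniteDimensional K (T j) :=
      FiniteDimensional.of_finrank_pos (by rw [(hT j).finrank_eq]; norm_num)
    apply Submodule.eq_of_le_of_finrank_eq
    · rw [hTe i, Submodule.span_le]
      rintro x (rfl | rfl | hx)
      · exact (hT j).one_mem
      · exact hvT j
      · rw [Set.mem_singleton_iff] at hx
        rw [hx]
        have h3 : u i = (u i - c • u j) + c • u j := by ring
        rw [h3]
        exact add_mem (hMT j hc) ((T j).smul_mem _ (huT j))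
    · rw [(hT i).finrank_eq, (hT j).finrank_eq]
  have key := directions h2 S hS (hVS h1V) v (hVS hvV) hv u (fun i => hVS (hTV i (huT i))) hq huM hp
    Finset.univ
  have hli5 : LinearIndependent K (![⟨1, h1V⟩, ⟨v, hvV⟩, ⟨u 0, hTV 0 (huT 0)⟩,
      ⟨u 1, hTV 1 (huT 1)⟩, ⟨u 2, hTV 2 (huT 2)⟩] : Fin 5 → V) := by
    rw [Fintype.linearIndependent_iff]
    intro g hg
    have h3 := congrArg Subtype.val hg
    rw [Fin.sum_univ_five] at h3
    change g 0 • (1 : L) + g 1 • v + g 2 • u 0 + g 3 • u 1 + g 4 • u 2 = 0 at h3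
    have h4 := key ![g 2, g 3, g 4] (by
      rw [Fin.sum_univ_three]
      change g 2 • u 0 + g 3 • u 1 + g 4 • u 2 ∈ M
      have h5 : g 2 • u 0 + g 3 • u 1 + g 4 • u 2 = -(g 0 • (1 : L) + g 1 • v) := by
        linear_combination h3
      rw [h5]
      exact neg_mem (Submodule.mem_span_pair.mpr ⟨_, _, rfl⟩))
    have h5 : g 2 = 0 := h4 0 (Finset.mem_univ _)
    have h6 : g 3 = 0 := h4 1 (Finset.mem_univ _)
    have h7 : g 4 = 0 := h4 2 (Finset.mem_univ _)
    rw [h5, h6, h7, zero_smul, zero_smul, zero_smul, add_zero, add_zero, add_zero] at h3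
    obtain ⟨h8, h9⟩ := LinearIndependent.pair_iff.mp hli2 _ _ h3
    intro i
    fin_cases i
    · exact h8
    · exact h9
    · exact h5
    · exact h6
    · exact h7
  have h3 := hli5.fintype_card_le_finrank
  rw [Fintype.card_fin] at h3
  omega

/-- normal form of a bad plane through `v` -/
theorem Bad.exists_shape [IsAlgClosed K] (h2 : (2 : K) ≠ 0) {T : Submodule K L} (h : Bad T) {v : L}
    (hv : Transcendental K v) (hvT : v ∈ T) :
    ∃ a ∈ T, a ∉ Submodule.span K ({1, v} : Set L) ∧ Shape (K := K) v a := by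
  have hvc : ∀ c : K, v ≠ algebraMap K L c := by
    intro c hc
    apply hv
    rw [hc]
    exact isAlgebraic_algebraMap c
  set M := Submodule.span K ({1, v} : Set L) with hM
  have hli2 : LinearIndependent K ![(1 : L), v] := by
    rw [LinearIndependent.pair_iff]
    intro s t hst
    obtain ⟨h3, h4, -⟩ := li_of_nonconst v hvc s t 0 (by rw [zero_smul, add_zero]; exact hst)
    exact ⟨h3, h4⟩
  have hM2 : finrank K M = 2 := by
    have h3 := finrank_span_eq_card hli2
    rw [Fintype.card_fin] at h3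
    have h4 : Set.range ![(1 : L), v] = {1, v} := by
      simp [Matrix.range_cons, Matrix.range_empty, Set.pair_comm]
    rwa [h4] at h3
  have hMT : M ≤ T := by
    rw [hM, Submodule.span_le]
    rintro x (rfl | hx)
    · exact h.one_mem
    · rw [Set.mem_singleton_iff] at hx
      rw [hx]; exact hvT
  obtain ⟨x, hxT, hxM⟩ : ∃ x ∈ T, x ∉ M := by
    by_contra hcon
    push Not at hcon
    have h3 : T ≤ M := hcon
    have h5 : FiniteDimensional K M := FiniteDimensional.of_finrank_pos (by rw [hM2]; norm_num)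
    have h4 := Submodule.finrank_mono h3
    rw [h.finrank_eq, hM2] at h4
    omega
  have hli3 : ∀ a b c : K, a • (1 : L) + b • v + c • x = 0 → a = 0 ∧ b = 0 ∧ c = 0 := by
    intro a b c habc
    have hc : c = 0 := by
      by_contra hc
      apply hxM
      have h3 : x = c⁻¹ • (-(a • (1 : L) + b • v)) := by
        rw [neg_eq_of_add_eq_zero_right habc, smul_smul, inv_mul_cancel₀ hc, one_smul]
      rw [h3]
      exact M.smul_mem _ (neg_mem (Submodule.mem_span_pair.mpr ⟨a, b, rfl⟩))
    rw [hc, zero_smul, add_zero] at habc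
    obtain ⟨h3, h4⟩ := LinearIndependent.pair_iff.mp hli2 a b habc
    exact ⟨h3, h4, hc⟩
  have hq : QuadRel K x v := (h.quadRel hvT hxT hli3).2.symm
  rcases shape h2 hv hxM hq with ⟨s, p, hpd, hss, hsq, hs⟩ | ⟨c, hc, hx⟩ | ⟨r, c, hc, hx⟩
  · obtain ⟨a0, a1, a2, rfl⟩ := quad_poly p hpd
    have h3 : s = x - (x - s) := by ring
    refine ⟨s, ?_, ?_, Or.inl ⟨a0, a1, a2, hss, hsq⟩⟩
    · rw [h3]
      exact sub_mem hxT (hMT hs)
    · intro h4
      apply hxM
      have h5 : x = (x - s) + s := by ring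
      rw [h5]
      exact add_mem hs h4
  · refine ⟨v * v, ?_, ?_, Or.inr (Or.inl rfl)⟩
    · have h3 : v * v = c⁻¹ • (x - (x - c • (v * v))) := by
        rw [sub_sub_cancel, smul_smul, inv_mul_cancel₀ hc, one_smul]
      rw [h3]
      exact T.smul_mem _ (sub_mem hxT (hMT hx))
    · intro h4
      apply hxM
      have h5 : x = (x - c • (v * v)) + c • (v * v) := by ring
      rw [h5]
      exact add_mem hx (M.smul_mem _ h4)
  · refine ⟨(v - algebraMap K L r)⁻¹, ?_, ?_, Or.inr (Or.inr ⟨r, rfl⟩)⟩
    · have h3 : (v - algebraMap K L r)⁻¹ = c⁻¹ • (x - (x - c • (v - algebraMap K L r)⁻¹)) := by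
        rw [sub_sub_cancel, smul_smul, inv_mul_cancel₀ hc, one_smul]
      rw [h3]
      exact T.smul_mem _ (sub_mem hxT (hMT hx))
    · intro h4
      apply hxM
      have h5 : x = (x - c • (v - algebraMap K L r)⁻¹) + c • (v - algebraMap K L r)⁻¹ := by ring
      rw [h5]
      exact add_mem hx (M.smul_mem _ h4)

/-- the third plane is determined by the first two -/
theorem third_unique [IsAlgClosed K] [IsAlgClosed L] (h2 : (2 : K) ≠ 0) (S : Submodule K L)
    (hS : SixExp K S) (h1S : (1 : L) ∈ S) {v a b : L} (hv : Transcendental K v) (hvS : v ∈ S)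
    (haS : a ∈ S) (hbS : b ∈ S) (hab : ∀ c : K, a ≠ algebraMap K L c * b)
    (ha : Shape (K := K) v a) (hb : Shape (K := K) v b) (α β α' β' : K)
    (h : QuadRel K (a - algebraMap K L α * v) (b - algebraMap K L β * v))
    (h' : QuadRel K (a - algebraMap K L α' * v) (b - algebraMap K L β' * v)) :
    α = α' ∧ β = β' := by
  have hvc : ∀ c : K, v ≠ algebraMap K L c := by
    intro c hc
    apply hv
    rw [hc]
    exact isAlgebraic_algebraMap c
  rcases ha with ⟨a0, a1, a2, haa, hsa⟩ | rfl | ⟨r, rfl⟩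
  · rcases hb with ⟨b0, b1, b2, hbb, hsb⟩ | rfl | ⟨r, rfl⟩
    · obtain ⟨h3, h4⟩ := third_plane_AA h2 hv _ _ natDegree_quadratic_le natDegree_quadratic_le
        haa hbb hsa hsb hab α β h
      obtain ⟨h5, h6⟩ := third_plane_AA h2 hv _ _ natDegree_quadratic_le natDegree_quadratic_le
        haa hbb hsa hsb hab α' β' h'
      exact ⟨h3.trans h5.symm, h4.trans h6.symm⟩
    · obtain ⟨h3, h4, h5⟩ := third_plane_AB h2 hv a0 a1 a2 haa hsa α β h
      obtain ⟨h6, -, h7⟩ := third_plane_AB h2 hv a0 a1 a2 haa hsa α' β' h'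
      exact ⟨h3.trans h6.symm, mul_left_cancel₀ h4 (h5.trans h7.symm)⟩
    · exact (third_plane_AC h2 hv a0 a1 a2 haa hsa r α β h).elim
  · rcases hb with ⟨b0, b1, b2, hbb, hsb⟩ | rfl | ⟨r, rfl⟩
    · obtain ⟨h3, h4, h5⟩ := third_plane_AB h2 hv b0 b1 b2 hbb hsb β α h.symm
      obtain ⟨h6, -, h7⟩ := third_plane_AB h2 hv b0 b1 b2 hbb hsb β' α' h'.symm
      exact ⟨mul_left_cancel₀ h4 (h5.trans h7.symm), h3.trans h6.symm⟩
    · exact absurd (by rw [map_one, one_mul]) (hab 1)
    · exact (no_sq_inv S hS h1S hvc hvS haS r hbS).elim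
  · rcases hb with ⟨b0, b1, b2, hbb, hsb⟩ | rfl | ⟨r', rfl⟩
    · exact (third_plane_AC h2 hv b0 b1 b2 hbb hsb r β α h.symm).elim
    · exact (no_sq_inv S hS h1S hvc hvS hbS r haS).elim
    · by_cases hrr : r = r'
      · subst hrr
        exact absurd (by rw [map_one, one_mul]) (hab 1)
      · exact (no_inv_inv S hS h1S hvc hvS r r' hrr haS hbS).elim

/-- **At most three planes.** -/
theorem no_four [IsAlgClosed K] [IsAlgClosed L] (h2 : (2 : K) ≠ 0) (S : Submodule K L)
    (hS : SixExp K S) (V : Submodule K L) [FiniteDimensional K V] (hVS : V ≤ S)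
    (hV4 : finrank K V ≤ 4) (T : Fin 4 → Submodule K L) (hT : ∀ i, Bad (T i))
    (hTV : ∀ i, T i ≤ V) (hinj : Function.Injective T) : False := by
  have hfd : ∀ i, FiniteDimensional K (T i) := fun i =>
    FiniteDimensional.of_finrank_pos (by rw [(hT i).finrank_eq]; norm_num)
  have h1 : ∀ i, (1 : L) ∈ T i := fun i => (hT i).one_mem
  have h1S : (1 : L) ∈ S := hVS (hTV 0 (h1 0))
  -- common points
  have hcom : ∀ i j, i ≠ j → ∃ z, z ∈ T i ∧ z ∈ T j ∧ ∀ c : K, z ≠ algebraMap K L c := by
    intro i j hij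
    have h3 := Submodule.finrank_sup_add_finrank_inf_eq (T i) (T j)
    rw [(hT i).finrank_eq, (hT j).finrank_eq] at h3
    have h4 : finrank K ↥(T i ⊔ T j) ≤ 4 :=
      (Submodule.finrank_mono (sup_le (hTV i) (hTV j))).trans hV4
    by_contra hcon
    push Not at hcon
    have h5 : T i ⊓ T j ≤ Submodule.span K {(1 : L)} := by
      rintro z ⟨hz1, hz2⟩
      obtain ⟨c, hc⟩ := hcon z hz1 hz2
      rw [hc, ← mul_one (algebraMap K L c), ← Algebra.smul_def]
      exact Submodule.mem_span_singleton.mpr ⟨c, rfl⟩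
    have h6 := (Submodule.finrank_mono h5).trans (finrank_span_le_card ({(1 : L)} : Set L))
    simp only [Set.toFinset_singleton, Finset.card_singleton] at h6
    omega
  obtain ⟨v, hv0, hv1, hvc⟩ := hcom 0 1 (by decide)
  have hv : Transcendental K v := fun h3 => by
    obtain ⟨c, hc⟩ := exists_const v h3
    exact hvc c hc
  obtain ⟨a, haT, haM, ha⟩ := (hT 0).exists_shape h2 hv hv0
  obtain ⟨b, hbT, hbM, hb⟩ := (hT 1).exists_shape h2 hv hv1
  have hvn : ∀ i : Fin 4, i ≠ 0 → i ≠ 1 → v ∉ T i := by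
    intro i hi0 hi1 hvi
    refine three_through h2 S hS V hVS hV4 v hv ![T 0, T 1, T i] ?_ ?_ ?_ ?_
    · intro j
      fin_cases j
      · exact hT 0
      · exact hT 1
      · exact hT i
    · intro j
      fin_cases j
      · exact hTV 0
      · exact hTV 1
      · exact hTV i
    · intro j k hjk
      fin_cases j <;> fin_cases k
      · rfl
      · exact absurd (hinj (show T 0 = T 1 from hjk)) (by decide)
      · exact absurd (hinj (show T 0 = T i from hjk)) hi0.symm
      · exact absurd (hinj (show T 1 = T 0 from hjk)) (by decide)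
      · rfl
      · exact absurd (hinj (show T 1 = T i from hjk)) hi1.symm
      · exact absurd (hinj (show T i = T 0 from hjk)) hi0
      · exact absurd (hinj (show T i = T 1 from hjk)) hi1
      · rfl
    · intro j
      fin_cases j
      · exact hv0
      · exact hv1
      · exact hvi
  -- bases
  have hbase : ∀ (i : Fin 4) (x : L), v ∈ T i → x ∈ T i →
      x ∉ Submodule.span K ({1, v} : Set L) → T i = Submodule.span K {1, v, x} := by
    intro i x hvi hxi hxM
    refine span_eq_of_three (hT i).finrank_eq 1 v x (h1 i) hvi hxi ?_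
    intro p q s hpqs
    have hs : s = 0 := by
      by_contra hs
      apply hxM
      have h3 : x = s⁻¹ • (-(p • (1 : L) + q • v)) := by
        rw [neg_eq_of_add_eq_zero_right hpqs, smul_smul, inv_mul_cancel₀ hs, one_smul]
      rw [h3]
      exact Submodule.smul_mem _ _ (neg_mem (Submodule.mem_span_pair.mpr ⟨p, q, rfl⟩))
    rw [hs, zero_smul, add_zero] at hpqs
    obtain ⟨h3, h4, -⟩ := li_of_nonconst v hvc p q 0 (by rw [zero_smul, add_zero]; exact hpqs)
    exact ⟨h3, h4, hs⟩
  have hT0 := hbase 0 a hv0 haT haM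
  have hT1 := hbase 1 b hv1 hbT hbM
  have hab : ∀ c : K, a ≠ algebraMap K L c * b := by
    intro c hc
    have h3 : T 0 = T 1 := by
      apply Submodule.eq_of_le_of_finrank_eq
      · rw [hT0, Submodule.span_le]
        rintro x (rfl | rfl | hx)
        · exact h1 1
        · exact hv1
        · rw [Set.mem_singleton_iff] at hx
          rw [hx, hc, ← Algebra.smul_def]
          exact (T 1).smul_mem _ hbT
      · rw [(hT 0).finrank_eq, (hT 1).finrank_eq]
    exact absurd (hinj h3) (by decide)
  have hbn : ∀ p q s : K, b ≠ algebraMap K L p + algebraMap K L q * v + algebraMap K L s * a := by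
    intro p q s hc
    have h3 : T 1 = T 0 := by
      apply Submodule.eq_of_le_of_finrank_eq
      · rw [hT1, Submodule.span_le]
        rintro x (rfl | rfl | hx)
        · exact h1 0
        · exact hv0
        · rw [Set.mem_singleton_iff] at hx
          rw [hx, hc, ← Algebra.smul_def, ← Algebra.smul_def, ← mul_one (algebraMap K L p),
            ← Algebra.smul_def]
          exact add_mem (add_mem ((T 0).smul_mem _ (h1 0)) ((T 0).smul_mem _ hv0))
            ((T 0).smul_mem _ haT)
      · rw [(hT 0).finrank_eq, (hT 1).finrank_eq]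
    exact absurd (hinj h3) (by decide)
  have hex : ∀ (i : Fin 4) (j : Fin 4) (x : L), i ≠ j → v ∉ T i →
      T j = Submodule.span K {1, v, x} → ∃ γ : K, x - algebraMap K L γ * v ∈ T i := by
    intro i j x hij hvi hTj
    obtain ⟨z, hzi, hzj, hzc⟩ := hcom i j hij
    rw [hTj] at hzj
    obtain ⟨p, q, s, hz⟩ := Submodule.mem_span_triple.mp hzj
    have hpi : p • (1 : L) ∈ T i := (T i).smul_mem _ (h1 i)
    have hs : s ≠ 0 := by
      intro hs
      rw [hs, zero_smul, add_zero] at hz
      by_cases hq : q = 0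
      · apply hzc p
        rw [← hz, hq, zero_smul, add_zero, Algebra.smul_def, mul_one]
      · apply hvi
        have h3 : v = q⁻¹ • (z - p • (1 : L)) := by
          rw [← hz, add_sub_cancel_left, smul_smul, inv_mul_cancel₀ hq, one_smul]
        rw [h3]
        exact (T i).smul_mem _ (sub_mem hzi hpi)
    refine ⟨-(s⁻¹ * q), ?_⟩
    have h3 : x - algebraMap K L (-(s⁻¹ * q)) * v = s⁻¹ • (z - p • (1 : L)) := by
      have hsL : algebraMap K L s ≠ 0 := by simpa using hs
      rw [← hz]
      simp only [Algebra.smul_def, map_neg, map_mul, map_inv₀]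
      field_simp
      ring
    rw [h3]
    exact (T i).smul_mem _ (sub_mem hzi hpi)
  have hthird : ∀ i : Fin 4, i ≠ 0 → i ≠ 1 → ∃ α β : K,
      T i = Submodule.span K {1, a - algebraMap K L α * v, b - algebraMap K L β * v} ∧
      QuadRel K (a - algebraMap K L α * v) (b - algebraMap K L β * v) := by
    intro i hi0 hi1
    obtain ⟨α, hα⟩ := hex i 0 a hi0 (hvn i hi0 hi1) hT0
    obtain ⟨β, hβ⟩ := hex i 1 b hi1 (hvn i hi0 hi1) hT1
    refine ⟨α, β, (hT i).quadRel hα hβ ?_⟩
    intro p q s hpqs
    simp only [Algebra.smul_def, mul_one] at hpqs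
    have hs : s = 0 := by
      by_contra hs
      have hsL : algebraMap K L s ≠ 0 := by simpa using hs
      apply hbn (-(p / s)) ((q * α + s * β) / s) (-(q / s))
      simp only [map_neg, map_div₀, map_add, map_mul]
      field_simp
      linear_combination hpqs
    rw [hs, map_zero, zero_mul, add_zero] at hpqs
    have hq : q = 0 := by
      by_contra hq
      apply haM
      have hqL : algebraMap K L q ≠ 0 := by simpa using hq
      refine Submodule.mem_span_pair.mpr ⟨-(p / q), α, ?_⟩
      simp only [Algebra.smul_def, map_neg, map_div₀, mul_one]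
      field_simp
      linear_combination -hpqs
    rw [hq, map_zero, zero_mul, add_zero] at hpqs
    exact ⟨(map_eq_zero _).mp hpqs, hq, hs⟩
  obtain ⟨α, β, hT2, hq2⟩ := hthird 2 (by decide) (by decide)
  obtain ⟨α', β', hT3, hq3⟩ := hthird 3 (by decide) (by decide)
  obtain ⟨h3, h4⟩ := third_unique h2 S hS h1S hv (hVS (hTV 0 hv0)) (hVS (hTV 0 haT))
    (hVS (hTV 1 hbT)) hab ha hb α β α' β' hq2 hq3
  have h5 : T 2 = T 3 := by rw [hT2, hT3, h3, h4]
  exact absurd (hinj h5) (by decide)

end Pool.Agent.N770
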