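import Pool.Agent.N770.Tri3
import Pool.Agent.N770.DirLogs

/-!
# At most three quadratic planes, for linear forms in logarithms
-/

set_option autoImplicit false

namespace Pool.Agent.N770

open Module
open Pool.Agent.H301R2.SSE (QB mem_QB Lt Lt_one Lt_log)

theorem encard_bad_le (V : Submodule QB ℂ) [FiniteDimensional QB V] (hV : V ≤ Lt)
    (hV4 : finrank QB V ≤ 4) : {T : Submodule QB ℂ | T ≤ V ∧ Bad T}.encard ≤ 3 := by
  have hac : IsAlgClosed QB := isAlgClosed_QB
  by_contra hcon
  push Not at hcon
  have h4 : (4 : ℕ∞) ≤ {T : Submodule QB ℂ | T ≤ V ∧ Bad T}.encard := by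
    have := Order.add_one_le_of_lt hcon
    norm_num at this
    exact this
  obtain ⟨t, hts, ht⟩ := Set.exists_subset_encard_eq h4
  have hfin : t.Finite := Set.finite_of_encard_eq_coe (k := 4) (by rw [ht]; rfl)
  have hcard : hfin.toFinset.card = 4 := by
    have h5 := hfin.encard_eq_coe_toFinset_card
    rw [ht] at h5
    exact_mod_cast h5.symm
  let e := hfin.toFinset.equivFinOfCardEq hcard
  have hmem : ∀ i, ((e.symm i : hfin.toFinset) : Submodule QB ℂ) ≤ V ∧
      Bad ((e.symm i : hfin.toFinset) : Submodule QB ℂ) := fun i =>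
    hts (hfin.mem_toFinset.mp (e.symm i).2)
  exact no_four two_ne_zero Lt sixExp_Lt V hV hV4
    (fun i => ((e.symm i : hfin.toFinset) : Submodule QB ℂ)) (fun i => (hmem i).2)
    (fun i => (hmem i).1) (fun i j hij => e.symm.injective (Subtype.ext hij))

end Pool.Agent.N770
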